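import Pool.Agent.QUT.Nlt

/-!
# QUT/Flt: a rich flat of corank two with nullity one or two
-/

set_option autoImplicit false

open QUB

namespace Pool.Agent.QU

open Pool.Agent.FRM

section

variable {E : Type} [DecidableEq E] {r : Finset E → ℤ} {p : Itv E} {W : Finset E} {P : Fin 5 → Finset E}

theorem Nt.le3 (hr : Rk r) (nt : Nt r p) (h3 : 3 ≤ (gs p).card) {Z : Finset E} (hZ : Z ⊆ gs p) (hc : Z.card ≤ 3) :
    r (p.1 ∪ Z) = r p.1 + Z.card := by
  obtain ⟨Z', h1, h2, h4⟩ := Finset.exists_subsuperset_card_eq hZ hc h3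
  have h5 := nt.t3 Z' h2 h4
  have h6 := rk_union_card hr (p.1 ∪ Z) (p.1 ∪ Z')
  have e1 : (p.1 ∪ Z) ∪ (p.1 ∪ Z') = p.1 ∪ Z' :=
    Finset.union_eq_right.2 (Finset.union_subset_union_right h1)
  have e2 : ((p.1 ∪ Z') \ (p.1 ∪ Z)).card ≤ (Z' \ Z).card := by
    refine Finset.card_le_card fun v hv => ?_
    simp only [Finset.mem_sdiff, Finset.mem_union] at hv ⊢
    tauto
  have e3 : (Z' \ Z).card + Z.card = Z'.card := Finset.card_sdiff_add_card_eq_card h1
  have h7 := rk_union_card hr p.1 Z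
  have e4 : (Z \ p.1).card ≤ Z.card := Finset.card_le_card Finset.sdiff_subset
  rw [e1] at h6
  omega

/-- the elements of a set `Z` of coloops of `W` -/
theorem coloop_sum (hr : Rk r) {W : Finset E} : ∀ Z ⊆ W, (∀ z ∈ Z, r (W.erase z) ≤ r W - 1) → r (W \ Z) + Z.card ≤ r W := by
  intro Z
  induction Z using Finset.induction_on with
  | empty => intro _ _; simp
  | insert a s ha ih =>
    intro hZ h
    have h1 := ih (fun z hz => hZ (Finset.mem_insert_of_mem hz)) fun z hz => h z (Finset.mem_insert_of_mem hz)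
    have h2 := h a (Finset.mem_insert_self _ _)
    have h3 := hr.sub (W.erase a) (W \ s)
    have e1 : W.erase a ∪ (W \ s) = W := by
      ext v
      have h5 : a ∈ W := hZ (Finset.mem_insert_self _ _)
      by_cases hva : v = a
      · rw [hva]
        simp only [Finset.mem_union, Finset.mem_erase, Finset.mem_sdiff]
        tauto
      · simp only [Finset.mem_union, Finset.mem_erase, Finset.mem_sdiff]
        tauto
    have e2 : W.erase a ∩ (W \ s) = W \ insert a s := by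
      ext v
      simp only [Finset.mem_inter, Finset.mem_erase, Finset.mem_sdiff, Finset.mem_insert]
      tauto
    rw [e1, e2] at h3
    rw [Finset.card_insert_of_notMem ha]
    push_cast
    omega

/-- there are at least four elements of `W` which are no coloops -/
theorem ncl_four (hr : Rk r) (nt : Nt r p) (h3 : 3 ≤ (gs p).card) (hF : Fan r p W P)
    (hν : r W + 1 ≤ r p.1 + ((W \ p.1).card : ℤ)) : 4 ≤ ((W \ p.1).filter fun x => r (W.erase x) = r W).card := by
  by_contra hcon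
  set N := (W \ p.1).filter fun x => r (W.erase x) = r W with hN
  have hNs : N ⊆ W \ p.1 := Finset.filter_subset _ _
  have hNg : N ⊆ gs p := fun v hv => by
    have h4 := Finset.mem_sdiff.1 (hNs hv)
    exact Finset.mem_sdiff.2 ⟨hF.hW2 h4.1, h4.2⟩
  have h4 := nt.le3 hr h3 hNg (by omega)
  have h5 := coloop_sum hr (W := W) ((W \ p.1) \ N) (Finset.sdiff_subset.trans Finset.sdiff_subset) (by
    intro z hz
    have h6 := Finset.mem_sdiff.1 hz
    have h7 := Finset.mem_sdiff.1 h6.1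
    have h8 : r (W.erase z) ≠ r W := fun h => h6.2 (Finset.mem_filter.2 ⟨h6.1, h⟩)
    have h9 := hr.mono _ _ (Finset.erase_subset z W)
    omega)
  have e1 : W \ ((W \ p.1) \ N) = p.1 ∪ N := by
    ext v
    have h6 := @hNs v
    have h7 := @hF.h1 v
    simp only [Finset.mem_sdiff, Finset.mem_union] at *
    tauto
  have e2 : ((W \ p.1) \ N).card + N.card = (W \ p.1).card := Finset.card_sdiff_add_card_eq_card hNs
  rw [e1] at h5
  omega

end

section

variable {E : Type} [Fintype E] [DecidableEq E]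

/-- the hypotheses of NT case II without real conflicts -/
structure Cu (S : TP F4 E) (p : Itv E) : Prop where
  nu : NU S.r
  hp : p.1 ⊆ p.2
  hC : Cn S.r p
  h3 : Th3 S.r p
  nt : Nt S.r p
  hn : 10 ≤ (gs p).card
  th : ∀ w ∈ gs p, ∀ s : Bool, Th3 S.r (rm s w p)
  ih : ∀ q : Itv E, q.1 ⊆ q.2 → Sub q p → (gs q).card < (gs p).card → ∃ T, InVs S q T
  ok : ∀ a ∈ gs p, ∀ b ∈ gs p, a ≠ b → ∀ s t : Bool, HasRich S.r (rm s a (rm t b p)) → Ok S.r (rm s a (rm t b p))

variable {S : TP F4 E} {p : Itv E}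

theorem Cu.cn1 (h : Cu S p) {w : E} (hw : w ∈ gs p) (s : Bool) : Cn S.r (rm s w p) :=
  th3_cn S.rk h.hp h.hC h.h3 (by have := h.hn; omega) hw s

theorem Cu.cn2 (h : Cu S p) {a b : E} (ha : a ∈ gs p) (hb : b ∈ gs p) (hab : a ≠ b) (s t : Bool) : Cn S.r (rm s a (rm t b p)) := by
  have hn := h.hn
  refine th3_cn S.rk (QUB.wf_rm h.hp hb) (h.cn1 hb t) (h.th b hb t) ?_ ?_ s
  · rw [show gs (rm t b p) = (gs p).erase b from QUB.gs_rm t b p, Finset.card_erase_of_mem hb]
    omega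
  · rw [show gs (rm t b p) = (gs p).erase b from QUB.gs_rm t b p]
    exact Finset.mem_erase.2 ⟨hab, ha⟩

theorem Cu.ex1 (h : Cu S p) {w : E} (hw : w ∈ gs p) (s : Bool) : ∃ T, InVs S (rm s w p) T := by
  have hn := h.hn
  refine h.ih _ (QUB.wf_rm h.hp hw) (rm_sub s w p) ?_
  rw [gs_rm, Finset.card_erase_of_mem hw]
  omega

/-- an element which may be deleted: `W` without `k` spans `W`, has nullity at most one, and all classes survive -/
structure Gd (r : Finset E → ℤ) (p : Itv E) (W : Finset E) (P : Fin 5 → Finset E) (k : E) : Prop where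
  mem : k ∈ gs p
  sp : r (W.erase k) = r W
  nl : (((W \ p.1).erase k).card : ℤ) ≤ r (W.erase k) - r p.1 + 1
  cl : ∀ j, ∃ x ∈ P j, x ≠ k

omit [Fintype E] in
/-- the minors `M / a / b \ k` are rich and connected -/
theorem Gd.two {r : Finset E → ℤ} {W : Finset E} {P : Fin 5 → Finset E} {k : E} (hr : Rk r) (hp : p.1 ⊆ p.2) (nt : Nt r p)
    (hF : Fan r p W P) (g : Gd r p W P k) {a b : E} (ha : a ∈ W \ p.1) (hb : b ∈ W \ p.1) (hab : a ≠ b) (hak : a ≠ k) (hbk : b ≠ k) :
    Cn r (rm false a (rm false b (rm true k p))) ∧ HasRich r (rm false a (rm false b (rm true k p))) := by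
  refine ⟨fan_cn2 hr hp nt hF ha hb g.mem hab hak hbk g.sp g.nl, ?_⟩
  have ha' := Finset.mem_sdiff.1 ha
  have hb' := Finset.mem_sdiff.1 hb
  have hk' := Finset.mem_sdiff.1 g.mem
  refine fan_rich hr hF (W' := W.erase k) (Finset.erase_subset _ _) g.sp ?_ ?_ ?_
  · show insert a (insert b p.1) ⊆ W.erase k
    intro v hv
    rcases Finset.mem_insert.1 hv with rfl | hv
    · exact Finset.mem_erase.2 ⟨hak, ha'.1⟩
    rcases Finset.mem_insert.1 hv with rfl | hv
    · exact Finset.mem_erase.2 ⟨hbk, hb'.1⟩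
    · exact Finset.mem_erase.2 ⟨fun h => hk'.2 (h ▸ hv), hF.h1 hv⟩
  · show W.erase k ⊆ p.2.erase k
    exact Finset.erase_subset_erase _ hF.hW2
  · intro j
    obtain ⟨x, hx, hxk⟩ := g.cl j
    exact ⟨x, hx, Finset.mem_erase.2 ⟨hxk, hF.hP2 j hx⟩⟩

/-- two contraction hubs `c1`, `c2`, two deletions `k1`, `k2` and the target `e`, both signs -/
theorem flt_core (h : Cu S p) {W : Finset E} {P : Fin 5 → Finset E} (hF : Fan S.r p W P) {c1 c2 k1 k2 e : E} (hc1 : c1 ∈ W \ p.1)
    (hc2 : c2 ∈ W \ p.1) (he : e ∈ W \ p.1) (ge : Gd S.r p W P e) (g1 : Gd S.r p W P k1) (g2 : Gd S.r p W P k2)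
    (hcc : c1 ≠ c2) (h1e : c1 ≠ e) (h2e : c2 ≠ e) (h11 : c1 ≠ k1) (h12 : c1 ≠ k2) (h21 : c2 ≠ k1) (h22 : c2 ≠ k2) (hkk : k1 ≠ k2)
    (hk1 : k1 ≠ e) (hk2 : k2 ≠ e) : ∃ T : Fm F4 E, InV S.U S.W p T ∧ ¬ EqD S.U S.W p T 0 := by
  have hr : Rk S.r := S.rk
  have hW2 := hF.hW2
  have mem : ∀ {v : E}, v ∈ W \ p.1 → v ∈ gs p := fun hv =>
    Finset.mem_sdiff.2 ⟨hW2 (Finset.mem_sdiff.1 hv).1, (Finset.mem_sdiff.1 hv).2⟩
  have m1 := mem hc1
  have m2 := mem hc2
  have me := mem he
  -- pairs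
  have rich_ff : ∀ {a b : E}, a ∈ W \ p.1 → b ∈ W \ p.1 → HasRich S.r (rm false a (rm false b p)) := by
    intro a b ha hb
    refine fan_rich hr hF (W' := W) (Finset.Subset.refl _) rfl ?_ hW2 ?_
    · show insert a (insert b p.1) ⊆ W
      exact Finset.insert_subset (Finset.mem_sdiff.1 ha).1 (Finset.insert_subset (Finset.mem_sdiff.1 hb).1 hF.h1)
    · intro k
      obtain ⟨x, hx⟩ := hF.ne k
      exact ⟨x, hx, hF.hP2 k hx⟩
  have rich_ft : ∀ {a k : E}, a ∈ W \ p.1 → Gd S.r p W P k → a ≠ k → HasRich S.r (rm false a (rm true k p)) := by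
    intro a k ha gk hak
    have hk' := Finset.mem_sdiff.1 gk.mem
    refine fan_rich hr hF (W' := W.erase k) (Finset.erase_subset _ _) gk.sp ?_ (Finset.erase_subset_erase _ hW2) ?_
    · show insert a p.1 ⊆ W.erase k
      refine Finset.insert_subset (Finset.mem_erase.2 ⟨hak, (Finset.mem_sdiff.1 ha).1⟩) fun v hv => ?_
      exact Finset.mem_erase.2 ⟨fun h' => hk'.2 (h' ▸ hv), hF.h1 hv⟩
    · intro j
      obtain ⟨x, hx, hxk⟩ := gk.cl j
      exact ⟨x, hx, Finset.mem_erase.2 ⟨hxk, hF.hP2 j hx⟩⟩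
  have ok_ff : ∀ {a b : E}, a ∈ W \ p.1 → b ∈ W \ p.1 → a ≠ b → Ok S.r (rm false a (rm false b p)) := fun ha hb hab =>
    h.ok _ (mem ha) _ (mem hb) hab false false (rich_ff ha hb)
  have ok_ft : ∀ {a k : E}, a ∈ W \ p.1 → Gd S.r p W P k → a ≠ k → Ok S.r (rm false a (rm true k p)) := fun ha gk hak =>
    h.ok _ (mem ha) _ gk.mem hak false true (rich_ft ha gk hak)
  -- the form
  obtain ⟨T, i1, i2, hne⟩ := two_hub S h.nu h.hp hcc m1 m2 (h.ex1 m1 false) (h.ex1 m2 false) (h.cn2 m1 m2 hcc false false)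
    (ok_ff hc1 hc2 hcc)
  have third : ∀ {k : E}, Gd S.r p W P k → c1 ≠ k → c2 ≠ k → InV S.U S.W (rm true k p) T := by
    intro k gk h1 h2
    have g := gk.two hr h.hp h.nt hF hc1 hc2 hcc h1 h2
    exact third_hub S h.nu h.hp hcc h1 h2 m1 m2 gk.mem i1 i2 (h.ex1 gk.mem true) (h.cn2 m1 gk.mem h1 false true) (ok_ft hc1 gk h1)
      (h.cn2 m2 gk.mem h2 false true) (ok_ft hc2 gk h2) g.1 (hasLn_of_rich g.2) (Or.inl g.2)
  have j1 := third g1 h11 h21
  have j2 := third g2 h12 h22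
  have je := third ge h1e h2e
  have k1d := h.nt.del hr m1 g1.mem g2.mem h11 h12 hkk
  have k2d := h.nt.del hr m1 g2.mem g1.mem h12 h11 hkk.symm
  have kin := h.nt.ins hr m2 m1 me hcc.symm h2e h1e
  have je' : InV S.U S.W (rm false e p) T := by
    have t1 := g1.two hr h.hp h.nt hF hc1 he h1e h11 hk1.symm
    have t2 := g2.two hr h.hp h.nt hF hc1 he h1e h12 hk2.symm
    have com : ∀ k : E, rm false c1 (rm true k (rm false e p)) = rm false c1 (rm false e (rm true k p)) := fun k => by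
      rw [rm_comm true false k e p]
    have com2 : ∀ k : E, rm true k (rm false e p) = rm false e (rm true k p) := fun k => rm_comm true false k e p
    refine con_hub S h.nu h.hp (t := true) (u := false) (s := false) hkk hk1 hk2 h11 h12 h1e g1.mem g2.mem m1 me j1 j2 i1
      (h.ex1 me false) ?_ ?_ ?_ ?_ (h.cn2 m1 me h1e false false) (ok_ff hc1 he h1e) ?_ ?_ ?_ ?_ ?_ ?_ ?_
    · exact h.cn2 g1.mem me hk1 true false
    · rw [com2]
      exact ok_ft he g1 hk1.symm
    · exact h.cn2 g2.mem me hk2 true false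
    · rw [com2]
      exact ok_ft he g2 hk2.symm
    · rw [com]
      exact t1.1
    · rw [com]
      exact t1.2
    · rw [com]
      exact t2.1
    · rw [com]
      exact t2.2
    · show S.r (p.2.erase k1) + S.r (p.2.erase k2) = S.r p.2 + S.r ((p.2.erase k1).erase k2)
      have e1 : (p.2.erase k1).erase k2 = (p.2.erase k2).erase k1 := Finset.erase_right_comm
      rw [e1]
      omega
    · show S.r (insert c1 (insert e p.1)) = S.r (insert e p.1) + 1
      omega
    · show S.r (((p.2.erase k2).erase k1).erase c1) = S.r ((p.2.erase k2).erase k1)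
      omega
  refine ⟨T, inV_of_rm je je', fun hT => ?_⟩
  obtain ⟨N, h1, h2⟩ := rich_ff hc1 hc2
  have h3 : Sub N (rm false c1 p) := ((rm_sub false c2 p).rm false c1).trans h1
  exact hne N h3 h2 (hT.mono ((rm_sub false c1 p).trans h3))

end

end Pool.Agent.QU
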