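import Pool.Agent.QUN.Min
import Pool.Agent.QUL.LBinR
import Pool.Agent.QUB.Lam2
import Pool.Agent.QUB.Three

/-!
# QUT/Fone: minimum 2-sides (helper67's F1 - F4)

A 2-side at the removal `(w, s)` is a side with at least two elements of a separation of order at most two of `rm s w p` (heavy or not).
`a : Bool → Prop` is the set of the allowed types, `D` a set (empty for the first 2-side, the first 2-side for the second one). `X` is a
2-side with the minimum number of elements among all 2-sides disjoint from `D` of allowed type. Then every removal of allowed type of an element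
of `X` is 3-connected (`ts_th3`), provided all 2-sides of allowed type have at least three elements (no triads if only deletions are
allowed; no triads and no triangles if both types are allowed).
-/

set_option autoImplicit false

open QUB

namespace Pool.Agent.QU

variable {E : Type} [DecidableEq E] {r : Finset E → ℤ} {p : Itv E}

/-- a 2-side at the removal `(w, s)` -/
def TS (r : Finset E → ℤ) (p : Itv E) (w : E) (s : Bool) (X : Finset E) : Prop :=
  X ⊆ (gs p).erase w ∧ 2 ≤ X.card ∧ 2 ≤ ((gs p).erase w \ X).card ∧ QUB.lam r (QUB.rm s w p) X ≤ 1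

theorem TS.compl (hp : p.1 ⊆ p.2) {w : E} {s : Bool} {X : Finset E} (hw : w ∈ gs p) (h : TS r p w s X) :
    TS r p w s ((gs p).erase w \ X) := by
  obtain ⟨h1, h2, h3, h4⟩ := h
  refine ⟨Finset.sdiff_subset, h3, ?_, ?_⟩
  · rw [Finset.sdiff_sdiff_eq_self h1]
    exact h2
  · have e := lam_compl r (p := QUB.rm s w p) (QUB.wf_rm hp hw) (A := X) (by rw [QUB.gs_rm]; exact h1)
    rw [QUB.gs_rm] at e
    rw [e]
    exact h4

private theorem f_sub_gs {w : E} {s : Bool} {X : Finset E} (h : TS r p w s X) : X ⊆ gs p :=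
  h.1.trans (Finset.erase_subset _ _)

/-- F1 -/
theorem ts_cn (hr : Rk r) (hp : p.1 ⊆ p.2) (hc : Cn r p) (h3 : Th3 r p) (hn : 4 ≤ (gs p).card) {a : Bool → Prop} {D : Finset E}
    {w : E} {s : Bool} {X : Finset E} (hw : w ∈ gs p) (hs : a s) (hX : TS r p w s X) (hXD : Disjoint X D) (hX3 : 3 ≤ X.card)
    (hmin : ∀ v ∈ gs p, ∀ t, a t → ∀ Z, TS r p v t Z → Disjoint Z D → X.card ≤ Z.card) {e : E} (he : e ∈ X) (t : Bool) :
    Cn r (QUB.rm t e (QUB.rm s w p)) := by
  have hcw : Cn r (QUB.rm s w p) := th3_cn hr hp hc h3 hn hw s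
  refine min_cn hr (QUB.wf_rm hp hw) hcw (A := X) (by rw [QUB.gs_rm]; exact hX.1) ?_ hX3 hX.2.2.2 ?_ he t
  · rw [QUB.gs_rm]
    exact Finset.card_pos.1 (by have := hX.2.2.1; omega)
  · intro B hB hB2
    by_contra hcon
    have hl : QUB.lam r (QUB.rm s w p) B ≤ 1 := by omega
    have hBX := hB.1
    have hts : TS r p w s B := by
      refine ⟨hBX.trans hX.1, hB2, ?_, hl⟩
      have h1 := Finset.card_le_card (Finset.sdiff_subset_sdiff (Finset.Subset.refl ((gs p).erase w)) hBX)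
      have h2 := hX.2.2.1
      omega
    have h4 := hmin w hw s hs B hts (Finset.disjoint_of_subset_left hBX hXD)
    have h5 := Finset.card_lt_card hB
    omega

/-- F2 -/
theorem ts_two (hp : p.1 ⊆ p.2) {a : Bool → Prop} {D : Finset E}
    {w : E} {s : Bool} {X : Finset E} (hw : w ∈ gs p) (hX : TS r p w s X) (hXD : Disjoint X D) (hX3 : 3 ≤ X.card)
    (hmin : ∀ v ∈ gs p, ∀ t, a t → ∀ Z, TS r p v t Z → Disjoint Z D → X.card ≤ Z.card) {e : E} (he : e ∈ X) {t : Bool} (ht : a t) :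
    2 ≤ QUB.lam r (QUB.rm t e p) (X.erase e) := by
  by_contra hcon
  have hl : QUB.lam r (QUB.rm t e p) (X.erase e) ≤ 1 := by omega
  have heG : e ∈ gs p := f_sub_gs hX he
  have hc1 : (X.erase e).card = X.card - 1 := Finset.card_erase_of_mem he
  have hts : TS r p e t (X.erase e) := by
    refine ⟨Finset.erase_subset_erase _ (f_sub_gs hX), by omega, ?_, hl⟩
    have h1 : (gs p).erase w \ X ⊆ (gs p).erase e \ X.erase e := by
      intro y hy
      rw [Finset.mem_sdiff, Finset.mem_erase] at hy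
      rw [Finset.mem_sdiff, Finset.mem_erase, Finset.mem_erase]
      exact ⟨⟨fun h => hy.2 (h ▸ he), hy.1.2⟩, fun h => hy.2 h.2⟩
    have := Finset.card_le_card h1
    have h2 := hX.2.2.1
    omega
  have h4 := hmin e heG t ht _ hts (Finset.disjoint_of_subset_left (Finset.erase_subset _ _) hXD)
  omega

/-- F3, one direction -/
private theorem f_key (hr : Rk r) (hp : p.1 ⊆ p.2) (hc : Cn r p) (h3 : Th3 r p) (hn : 4 ≤ (gs p).card) {a : Bool → Prop} {D : Finset E}
    {w : E} {s : Bool} {X : Finset E} (hw : w ∈ gs p) (hs : a s) (hX : TS r p w s X) (hXD : Disjoint X D) (hwD : w ∉ D)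
    (hH : ∀ v ∈ gs p, ∀ t, a t → ∀ Z, TS r p v t Z → 3 ≤ Z.card)
    (hmin : ∀ v ∈ gs p, ∀ t, a t → ∀ Z, TS r p v t Z → Disjoint Z D → X.card ≤ Z.card) {e : E} (he : e ∈ X) {t : Bool} (ht : a t)
    {A : Finset E} (hA : A ⊆ (gs p).erase e) (hwA : w ∉ A) (hA2 : 2 ≤ A.card) (hB2 : 2 ≤ ((gs p).erase e \ A).card)
    (hl : QUB.lam r (QUB.rm t e p) A ≤ 1) : False := by
  have hX3 : 3 ≤ X.card := hH w hw s hs X hX
  have heG : e ∈ gs p := f_sub_gs hX he
  have hew : e ≠ w := (Finset.mem_erase.1 (hX.1 he)).1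
  have hcw : Cn r (QUB.rm s w p) := th3_cn hr hp hc h3 hn hw s
  have hR : Cn r (QUB.rm t e (QUB.rm s w p)) := ts_cn hr hp hc h3 hn hw hs hX hXD hX3 hmin he t
  have hF2 := ts_two hp hw hX hXD hX3 hmin he ht
  have hpe : (QUB.rm t e p).1 ⊆ (QUB.rm t e p).2 := QUB.wf_rm hp heG
  have hpw : (QUB.rm s w p).1 ⊆ (QUB.rm s w p).2 := QUB.wf_rm hp hw
  set G := gs p with hG
  set Y := G.erase w \ X with hY
  set B := G.erase e \ A with hB
  have gw : gs (QUB.rm s w p) = G.erase w := QUB.gs_rm s w p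
  have ge : gs (QUB.rm t e p) = G.erase e := QUB.gs_rm t e p
  have gwe : gs (QUB.rm t e (QUB.rm s w p)) = (G.erase w).erase e := by rw [QUB.gs_rm, gw]
  have hAG : A ⊆ G := hA.trans (Finset.erase_subset _ _)
  have hAwe : A ⊆ (G.erase w).erase e := by
    intro y hy
    exact Finset.mem_erase.2 ⟨(Finset.mem_erase.1 (hA hy)).1, Finset.mem_erase.2 ⟨fun h => hwA (h ▸ hy), hAG hy⟩⟩
  have hYG : Y ⊆ G := Finset.sdiff_subset.trans (Finset.erase_subset _ _)
  have hYwe : Y ⊆ (G.erase w).erase e := by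
    intro y hy
    have := Finset.mem_sdiff.1 hy
    exact Finset.mem_erase.2 ⟨fun h => this.2 (h ▸ he), this.1⟩
  have hXwe : X.erase e ⊆ (G.erase w).erase e := Finset.erase_subset_erase _ hX.1
  have hYX : ∀ y, y ∈ Y → y ∉ X := fun y hy => (Finset.mem_sdiff.1 hy).2
  have hYw : w ∉ Y := fun h => (Finset.mem_erase.1 (Finset.mem_sdiff.1 h).1).1 rfl
  have hYe : e ∉ Y := fun h => hYX e h he
  have hXw : w ∉ X := fun h => (Finset.mem_erase.1 (hX.1 h)).1 rfl
  have hwB : w ∈ B := Finset.mem_sdiff.2 ⟨Finset.mem_erase.2 ⟨hew.symm, hw⟩, hwA⟩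
  have hBG : B ⊆ G := Finset.sdiff_subset.trans (Finset.erase_subset _ _)
  have heA : e ∉ A := fun h => (Finset.mem_erase.1 (hA h)).1 rfl
  have heB : e ∉ B := fun h => (Finset.mem_erase.1 (Finset.mem_sdiff.1 h).1).1 rfl
  have hlB : QUB.lam r (QUB.rm t e p) B ≤ 1 := by
    have e1 := lam_compl r (p := QUB.rm t e p) hpe (A := A) (by rw [ge]; exact hA)
    rw [ge] at e1
    rw [hB, e1]
    exact hl
  have htA : TS r p e t A := ⟨hA, hA2, hB2, hl⟩
  have htB : TS r p e t B := TS.compl hp heG htA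
  have hA3 : 3 ≤ A.card := hH e heG t ht A htA
  have hB3 : 3 ≤ B.card := hH e heG t ht B htB
  -- nonempty sides
  have hXe : (X.erase e).Nonempty := by
    refine Finset.card_pos.1 ?_
    rw [Finset.card_erase_of_mem he]
    omega
  have hY2 : 2 ≤ Y.card := hX.2.2.1
  have hYne : Y.Nonempty := Finset.card_pos.1 (by omega)
  -- lambda of Y in M_w and in M_we
  have lY : QUB.lam r (QUB.rm s w p) Y ≤ 1 := by
    have e1 := lam_compl r (p := QUB.rm s w p) hpw (A := X) (by rw [gw]; exact hX.1)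
    rw [gw] at e1
    rw [hY, e1]
    exact hX.2.2.2
  have lYR : 1 ≤ QUB.lam r (QUB.rm t e (QUB.rm s w p)) Y := by
    refine hR Y (by rw [gwe]; exact hYwe) hYne ?_
    obtain ⟨z, hz⟩ := hXe
    refine ⟨z, ?_⟩
    rw [gwe]
    exact Finset.mem_sdiff.2 ⟨hXwe hz, fun h => hYX z h (Finset.mem_erase.1 hz).2⟩
  have sing : 1 ≤ QUB.lam r (QUB.rm s w p) {e} := by
    refine hcw.single (by rw [gw]; exact Finset.mem_erase.2 ⟨hew, heG⟩) ?_
    rw [gw]
    obtain ⟨z, hz⟩ := hYne
    exact ⟨z, Finset.mem_erase.2 ⟨fun h => hYe (h ▸ hz), (Finset.mem_sdiff.1 hz).1⟩⟩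
  -- d_e = 0 below Y
  have dY : ∀ A' ⊆ Y, QUB.lam r p A' ≤ QUB.lam r (QUB.rm t e p) A' := by
    intro A' hA'
    have h1 := lam_L4 (p := p) hr hp (s := s) (t := t) hw heG hew (A := A') (hA'.trans hYwe) sing
    have h2 := lam_L3 (p := QUB.rm s w p) hr (t := t) (x := e) (A := A') (B := Y) (by rw [gw]; exact Finset.mem_erase.2 ⟨hew, heG⟩)
      hA' (by rw [gw]; exact hYwe)
    linarith
  -- elements of A and B
  have spA : ∀ y ∈ A, y ∈ X.erase e ∨ y ∈ Y := by
    intro y hy
    by_cases hyX : y ∈ X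
    · exact Or.inl (Finset.mem_erase.2 ⟨fun h => heA (h ▸ hy), hyX⟩)
    · exact Or.inr (Finset.mem_sdiff.2 ⟨(Finset.mem_erase.1 (hAwe hy)).2, hyX⟩)
  -- case A ⊆ Y
  have c1 : ¬ A ⊆ Y := by
    intro h
    have h1 := dY A h
    have h2 := h3 A hAG hA2 (by
      have : B ⊆ G \ A := fun y hy => Finset.mem_sdiff.2 ⟨hBG hy, (Finset.mem_sdiff.1 hy).2⟩
      exact hB2.trans (Finset.card_le_card this))
    have : QUB.lam r p A = lam r p A := rfl
    omega
  -- case B ∩ X = ∅
  have c2 : ∃ x ∈ B, x ∈ X := by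
    by_contra hcon
    push Not at hcon
    have hBs : B ⊆ insert w Y := by
      intro y hy
      by_cases hyw : y = w
      · exact Finset.mem_insert.2 (Or.inl hyw)
      · exact Finset.mem_insert.2 (Or.inr (Finset.mem_sdiff.2 ⟨Finset.mem_erase.2 ⟨hyw, hBG hy⟩, hcon y hy⟩))
    have hwYe : insert w Y ⊆ G.erase e := by
      intro y hy
      rcases Finset.mem_insert.1 hy with rfl | h
      · exact Finset.mem_erase.2 ⟨hew.symm, hw⟩
      · exact Finset.mem_erase.2 ⟨fun h' => hYe (h' ▸ h), hYG h⟩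
    have h1 := lam_L3 (p := p) hr (t := t) (x := e) (A := B) (B := insert w Y) heG hBs hwYe
    have e1 : G \ X = insert w Y := by
      ext y
      simp only [hY, Finset.mem_sdiff, Finset.mem_insert, Finset.mem_erase]
      constructor
      · rintro ⟨h1, h2⟩
        by_cases hyw : y = w
        · exact Or.inl hyw
        · exact Or.inr ⟨⟨hyw, h1⟩, h2⟩
      · rintro (rfl | h)
        · exact ⟨hw, hXw⟩
        · exact ⟨h.1.2, h.2⟩
    have e2 : G.erase e \ X.erase e = insert w Y := by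
      rw [← e1]
      ext y
      simp only [Finset.mem_sdiff, Finset.mem_erase]
      constructor
      · rintro ⟨⟨h1, h2⟩, h3⟩
        exact ⟨h2, fun h => h3 ⟨h1, h⟩⟩
      · rintro ⟨h1, h2⟩
        exact ⟨⟨fun h => h2 (h ▸ he), h1⟩, fun h => h2 h.2⟩
    have l1 : QUB.lam r p (insert w Y) ≤ 2 := by
      have h4 := lam_compl r (p := p) hp (A := X) (hX.1.trans (Finset.erase_subset _ _))
      rw [← hG, e1] at h4
      rw [h4]
      have h5 := lam_le_rm (p := p) hr (t := s) (x := w) (A := X) hw hX.1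
      have h6 := hX.2.2.2
      linarith
    have l2 : 2 ≤ QUB.lam r (QUB.rm t e p) (insert w Y) := by
      have h4 := lam_compl r (p := QUB.rm t e p) hpe (A := X.erase e) (by
        rw [ge]; exact Finset.erase_subset_erase _ (hX.1.trans (Finset.erase_subset _ _)))
      rw [ge, e2] at h4
      rw [h4]
      exact hF2
    have h7 := h3 B hBG (by omega) (by
      have : A ⊆ G \ B := fun y hy => Finset.mem_sdiff.2 ⟨hAG hy, fun h => (Finset.mem_sdiff.1 h).2 hy⟩
      exact hA2.trans (Finset.card_le_card this))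
    have : QUB.lam r p B = lam r p B := rfl
    omega
  -- case A ∩ Y = ∅
  have c3 : ∃ y ∈ A, y ∈ Y := by
    by_contra hcon
    push Not at hcon
    have hAX : A ⊆ X.erase e := fun y hy => (spA y hy).resolve_right (hcon y hy)
    have h4 := hmin e heG t ht A htA (Finset.disjoint_of_subset_left (hAX.trans (Finset.erase_subset _ _)) hXD)
    have h5 := Finset.card_le_card hAX
    rw [Finset.card_erase_of_mem he] at h5
    omega
  -- case B ∩ Y = ∅
  have c4 : ∃ y ∈ B, y ∈ Y := by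
    by_contra hcon
    push Not at hcon
    have hBs : B ⊆ insert w (X.erase e) := by
      intro y hy
      by_cases hyw : y = w
      · exact Finset.mem_insert.2 (Or.inl hyw)
      · refine Finset.mem_insert.2 (Or.inr (Finset.mem_erase.2 ⟨fun h => heB (h ▸ hy), ?_⟩))
        by_contra hyX
        exact hcon y hy (Finset.mem_sdiff.2 ⟨Finset.mem_erase.2 ⟨hyw, hBG hy⟩, hyX⟩)
    have hBD : Disjoint B D := by
      rw [Finset.disjoint_left]
      intro y hy hyD
      rcases Finset.mem_insert.1 (hBs hy) with rfl | h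
      · exact hwD hyD
      · exact Finset.disjoint_left.1 hXD (Finset.mem_erase.1 h).2 hyD
    have h4 := hmin e heG t ht B htB hBD
    have h5 : (insert w (X.erase e)).card ≤ X.card := by
      have := Finset.card_insert_le w (X.erase e)
      rw [Finset.card_erase_of_mem he] at this
      omega
    have hEq : B = insert w (X.erase e) := Finset.eq_of_subset_of_card_le hBs (by omega)
    apply c1
    intro y hy
    rcases spA y hy with h | h
    · exfalso
      have : y ∈ B := by rw [hEq]; exact Finset.mem_insert_of_mem h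
      exact (Finset.mem_sdiff.1 this).2 hy
    · exact h
  -- A meets X
  have c5 : ∃ x ∈ A, x ∈ X := by
    by_contra hcon
    push Not at hcon
    exact c1 fun y hy => (spA y hy).resolve_left fun h => hcon y hy (Finset.mem_erase.1 h).2
  -- uncrossing in R
  have comm : QUB.rm t e (QUB.rm s w p) = QUB.rm s w (QUB.rm t e p) := QUB.rm_comm t s p
  have lA : QUB.lam r (QUB.rm t e (QUB.rm s w p)) A ≤ 1 := by
    rw [comm]
    refine (lam_rm_le (p := QUB.rm t e p) hr (by rw [ge]; exact Finset.mem_erase.2 ⟨hew.symm, hw⟩) ?_).trans hl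
    rw [ge]
    intro y hy
    exact Finset.mem_erase.2 ⟨fun h => hwA (h ▸ hy), hA hy⟩
  have lX' : QUB.lam r (QUB.rm t e (QUB.rm s w p)) (X.erase e) ≤ 1 := by
    refine (lam_rm_le' (p := QUB.rm s w p) hr hpw (by rw [gw]; exact Finset.mem_erase.2 ⟨hew, heG⟩) (by rw [gw]; exact hXwe)).trans ?_
    rw [Finset.insert_erase he]
    exact hX.2.2.2
  have lY' : QUB.lam r (QUB.rm t e (QUB.rm s w p)) Y ≤ 1 :=
    (lam_rm_le (p := QUB.rm s w p) hr (by rw [gw]; exact Finset.mem_erase.2 ⟨hew, heG⟩) (by rw [gw]; exact hYwe)).trans lY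
  obtain ⟨bx, hbx, hbxX⟩ := c2
  obtain ⟨ay, hay, hayY⟩ := c3
  obtain ⟨bY, hbY, hbYY⟩ := c4
  obtain ⟨ax, hax, haxX⟩ := c5
  have lA1 : 1 ≤ QUB.lam r (QUB.rm t e (QUB.rm s w p)) A := by
    refine hR A (by rw [gwe]; exact hAwe) ⟨ax, hax⟩ ⟨bY, ?_⟩
    rw [gwe]
    exact Finset.mem_sdiff.2 ⟨hYwe hbYY, (Finset.mem_sdiff.1 hbY).2⟩
  have u1 : QUB.lam r (QUB.rm t e (QUB.rm s w p)) (A ∩ X.erase e) ≤ 1 := by
    have h1 := lam_sub (p := QUB.rm t e (QUB.rm s w p)) hr A (X.erase e)
    have h2 : 1 ≤ QUB.lam r (QUB.rm t e (QUB.rm s w p)) (A ∪ X.erase e) := by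
      refine hR _ (by rw [gwe]; exact Finset.union_subset hAwe hXwe) ⟨ax, Finset.mem_union_left _ hax⟩ ⟨bY, ?_⟩
      rw [gwe]
      refine Finset.mem_sdiff.2 ⟨hYwe hbYY, ?_⟩
      rw [Finset.mem_union]
      rintro (h | h)
      · exact (Finset.mem_sdiff.1 hbY).2 h
      · exact hYX bY hbYY (Finset.mem_erase.1 h).2
    linarith
  have u2 : QUB.lam r (QUB.rm t e (QUB.rm s w p)) (A ∩ Y) ≤ 1 := by
    have h1 := lam_sub (p := QUB.rm t e (QUB.rm s w p)) hr A Y
    have h2 : 1 ≤ QUB.lam r (QUB.rm t e (QUB.rm s w p)) (A ∪ Y) := by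
      refine hR _ (by rw [gwe]; exact Finset.union_subset hAwe hYwe) ⟨ax, Finset.mem_union_left _ hax⟩ ⟨bx, ?_⟩
      rw [gwe]
      refine Finset.mem_sdiff.2 ⟨hXwe (Finset.mem_erase.2 ⟨fun h => heB (h ▸ hbx), hbxX⟩), ?_⟩
      rw [Finset.mem_union]
      rintro (h | h)
      · exact (Finset.mem_sdiff.1 hbx).2 h
      · exact hYX bx h hbxX
    linarith
  have dw : ∀ A' ⊆ A, QUB.lam r (QUB.rm t e p) A' ≤ QUB.lam r (QUB.rm t e (QUB.rm s w p)) A' := by
    intro A' hA'
    have h1 := lam_L3 (p := QUB.rm t e p) hr (t := s) (x := w) (A := A') (B := A) (by rw [ge]; exact Finset.mem_erase.2 ⟨hew.symm, hw⟩)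
      hA' (by rw [ge]; exact fun y hy => Finset.mem_erase.2 ⟨fun h => hwA (h ▸ hy), hA hy⟩)
    rw [← comm] at h1
    linarith
  have k1 : (A ∩ X.erase e).card ≤ 1 := by
    by_contra hcon
    have hts : TS r p e t (A ∩ X.erase e) := by
      refine ⟨Finset.inter_subset_left.trans hA, by omega, ?_, (dw _ Finset.inter_subset_left).trans u1⟩
      have : B ⊆ G.erase e \ (A ∩ X.erase e) := fun y hy =>
        Finset.mem_sdiff.2 ⟨(Finset.mem_sdiff.1 hy).1, fun h => (Finset.mem_sdiff.1 hy).2 (Finset.mem_inter.1 h).1⟩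
      exact hB2.trans (Finset.card_le_card this)
    have h4 := hmin e heG t ht _ hts (Finset.disjoint_of_subset_left (Finset.inter_subset_right.trans (Finset.erase_subset _ _)) hXD)
    have h5 := Finset.card_le_card (Finset.inter_subset_right : A ∩ X.erase e ⊆ X.erase e)
    rw [Finset.card_erase_of_mem he] at h5
    omega
  have k2 : (A ∩ Y).card ≤ 1 := by
    by_contra hcon
    have h1 := dY (A ∩ Y) Finset.inter_subset_right
    have h2 := dw (A ∩ Y) Finset.inter_subset_left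
    have h4 := h3 (A ∩ Y) (Finset.inter_subset_left.trans hAG) (by omega) (by
      have : B ⊆ G \ (A ∩ Y) := fun y hy =>
        Finset.mem_sdiff.2 ⟨hBG hy, fun h => (Finset.mem_sdiff.1 hy).2 (Finset.mem_inter.1 h).1⟩
      exact hB2.trans (Finset.card_le_card this))
    have : QUB.lam r p (A ∩ Y) = lam r p (A ∩ Y) := rfl
    omega
  have hcov : A ⊆ (A ∩ X.erase e) ∪ (A ∩ Y) := by
    intro y hy
    rcases spA y hy with h | h
    · exact Finset.mem_union_left _ (Finset.mem_inter.2 ⟨hy, h⟩)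
    · exact Finset.mem_union_right _ (Finset.mem_inter.2 ⟨hy, h⟩)
  have h6 := (Finset.card_le_card hcov).trans (Finset.card_union_le _ _)
  omega

/-- F3 -/
theorem ts_th3 (hr : Rk r) (hp : p.1 ⊆ p.2) (hc : Cn r p) (h3 : Th3 r p) (hn : 4 ≤ (gs p).card) {a : Bool → Prop} {D : Finset E}
    {w : E} {s : Bool} {X : Finset E} (hw : w ∈ gs p) (hs : a s) (hX : TS r p w s X) (hXD : Disjoint X D) (hwD : w ∉ D)
    (hH : ∀ v ∈ gs p, ∀ t, a t → ∀ Z, TS r p v t Z → 3 ≤ Z.card)
    (hmin : ∀ v ∈ gs p, ∀ t, a t → ∀ Z, TS r p v t Z → Disjoint Z D → X.card ≤ Z.card) {e : E} (he : e ∈ X) {t : Bool} (ht : a t) :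
    Th3 r (QUB.rm t e p) := by
  intro A hA hA2 hB2
  by_contra hcon
  have heG : e ∈ gs p := f_sub_gs hX he
  have g1 : gs (QUB.rm t e p) = (gs p).erase e := QUB.gs_rm t e p
  rw [g1] at hA hB2
  have hl : QUB.lam r (QUB.rm t e p) A ≤ 1 := by
    have : lam r (QUB.rm t e p) A = QUB.lam r (QUB.rm t e p) A := rfl
    omega
  by_cases hwA : w ∈ A
  · have hl' : QUB.lam r (QUB.rm t e p) ((gs p).erase e \ A) ≤ 1 := by
      have e1 := lam_compl r (p := QUB.rm t e p) (QUB.wf_rm hp heG) (A := A) (by rw [QUB.gs_rm]; exact hA)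
      rw [QUB.gs_rm] at e1
      rw [e1]
      exact hl
    refine f_key hr hp hc h3 hn hw hs hX hXD hwD hH hmin he ht (A := (gs p).erase e \ A) Finset.sdiff_subset
      (fun h => (Finset.mem_sdiff.1 h).2 hwA) hB2 ?_ hl'
    rw [Finset.sdiff_sdiff_eq_self hA]
    exact hA2
  · exact f_key hr hp hc h3 hn hw hs hX hXD hwD hH hmin he ht hA hwA hA2 hB2 hl

end Pool.Agent.QU
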