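import Pool.Agent.QUT.Lfd

/-!
# QUT/Lfe: the leaf theorem with one exceptional element
-/

set_option autoImplicit false

open QUB

namespace Pool.Agent.QU

open Pool.Agent.FRM

section pure

variable {E : Type} [DecidableEq E] {r : Finset E → ℤ} {q : Itv E}

/-- Tutte for two elements of a leaf -/
theorem lf_tu (hr : Rk r) {L : Finset E} (h : Lf r q L) {s : Bool} {x z : E} (hx : x ∈ L) (hz : z ∈ L) (hxz : x ≠ z)
    (hn : ¬ Cn r (rm s x (rm s z q))) : Cn r (rm s x (rm (!s) z q)) := by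
  have c1 := h.cn1 hr hx s
  have w1 : (rm s x q).1 ⊆ (rm s x q).2 := wf_rm h.wf (h.sub hx)
  have mz : z ∈ gs (rm s x q) := by rw [gs_rm]; exact Finset.mem_erase.2 ⟨hxz.symm, h.sub hz⟩
  have h1 := tutte hr w1 mz c1
  rw [rm_comm true s, rm_comm false s] at h1
  cases s
  · rcases h1 with h1 | h1
    · exact h1
    · exact absurd h1 hn
  · rcases h1 with h1 | h1
    · exact absurd h1 hn
    · exact h1

/-- a failing mixed double: a both-connected element or a triad/triangle -/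
theorem lf_fail (hr : Rk r) {L : Finset E} (h : Lf r q L) (h4 : 4 ≤ L.card) {s : Bool} {x z : E} (hx : x ∈ L) (hz : z ∈ L) (hxz : x ≠ z)
    (hn : ¬ Cn r (rm s x (rm (!s) z q))) :
    (∃ M ⊆ L.erase x, 3 ≤ M.card ∧ ∀ y ∈ M, ∀ σ : Bool, Cn r (rm s x (rm σ y q))) ∨
    ∃ w ∈ L, ∃ w' ∈ L, x ≠ w ∧ x ≠ w' ∧ w ≠ w' ∧ QUB.lam r (rm s x q) {w, w'} ≤ 1 ∧ ¬ Cn r (rm s x (rm s w q)) ∧
      ¬ Cn r (rm s x (rm s w' q)) ∧ ¬ Cn r (rm s w (rm s w' q)) := by
  have gx := h.sub hx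
  have c1 := h.cn1 hr hx s
  have w1 : (rm s x q).1 ⊆ (rm s x q).2 := wf_rm h.wf gx
  have L1 : L.erase x ⊆ gs (rm s x q) := by rw [gs_rm]; exact Finset.erase_subset_erase _ h.sub
  have l1 : QUB.lam r (rm s x q) (L.erase x) ≤ 1 := by
    have h1 := lam_rm_le' hr h.wf (t := s) gx (A := L.erase x) (Finset.erase_subset_erase _ h.sub)
    rw [Finset.insert_erase hx] at h1
    have := h.l1
    omega
  have hcard : (L.erase x).card = L.card - 1 := Finset.card_erase_of_mem hx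
  obtain ⟨Z, z1, z2, z3, z4⟩ := lfc_two hr w1 c1 L1 l1 (Finset.mem_erase.2 ⟨hxz.symm, hz⟩) (by omega) (s := !s) (by
    rw [rm_comm]; exact hn)
  obtain ⟨e0, he0⟩ := h.ne
  rw [Finset.mem_sdiff] at he0
  have hne1 : (gs (rm s x q) \ L.erase x).Nonempty := ⟨e0, by
    rw [gs_rm, Finset.mem_sdiff]
    exact ⟨Finset.mem_erase.2 ⟨fun hh => he0.2 (hh ▸ hx), he0.1⟩, fun hh => he0.2 (Finset.mem_of_mem_erase hh)⟩⟩
  rcases lf_ex w1 c1 L1 hne1 z1 z3 z4 with ⟨M, m1, m2⟩ | ⟨w, w', hww, mw, mw', lw⟩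
  · left
    refine ⟨M, m1.trans z1, m2.c3, fun y hy σ => ?_⟩
    rw [rm_comm]
    exact m2.cn1 hr hy σ
  · right
    have nw := Finset.mem_erase.1 (z1 mw)
    have nw' := Finset.mem_erase.1 (z1 mw')
    have h2 : 2 ≤ QUB.lam r q {w, w'} := by
      refine h.min {w, w'} ?_ ?_ (by rw [Finset.card_pair hww])
      · intro v hv
        simp only [Finset.mem_insert, Finset.mem_singleton] at hv
        rcases hv with rfl | rfl
        · exact nw.2
        · exact nw'.2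
      · intro hh
        have := Finset.card_pair hww
        rw [hh] at this
        omega
    have ne0 : ∀ v ∈ L, e0 ≠ v := fun v hv hh => he0.2 (by rw [hh]; exact hv)
    obtain ⟨t1, t2, t3⟩ := lf_tri hr nw.1.symm nw'.1.symm hww (ne0 x hx) (ne0 w nw.2) (ne0 w' nw'.2) he0.1 gx (h.sub nw.2)
      (h.sub nw'.2) h2 lw c1
    exact ⟨w, nw.2, w', nw'.2, nw.1.symm, nw'.1.symm, hww, lw, t1, t2, t3⟩

/-- four elements: a triad (triangle) without `x0` makes the doubles with `x0` disconnected -/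
private theorem lfe_four (hr : Rk r) {s : Bool} {x0 y w v : E} (h : Lf r q {x0, y, w, v}) (h0y : x0 ≠ y) (h0w : x0 ≠ w) (h0v : x0 ≠ v)
    (hyw : y ≠ w) (hyv : y ≠ v) (hwv : w ≠ v) (hl : QUB.lam r (rm s y q) {w, v} ≤ 1) : ¬ Cn r (rm s y (rm s x0 q)) := by
  intro hc
  have m0 : x0 ∈ gs q := h.sub (by simp)
  have my : y ∈ gs q := h.sub (by simp)
  have mw : w ∈ gs q := h.sub (by simp)
  have mv : v ∈ gs q := h.sub (by simp)
  have g0 := Finset.mem_sdiff.1 m0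
  have gy := Finset.mem_sdiff.1 my
  have gw := Finset.mem_sdiff.1 mw
  have gv := Finset.mem_sdiff.1 mv
  obtain ⟨e0, he0⟩ := h.ne
  rw [Finset.mem_sdiff] at he0
  simp only [Finset.mem_insert, Finset.mem_singleton, not_or] at he0
  obtain ⟨ge, n0, ny, nw, nv⟩ := he0
  have c3 : ({y, w, v} : Finset E).card = 3 := Finset.card_eq_three.2 ⟨y, w, v, hyw, hyv, hwv, rfl⟩
  have h3 : 2 ≤ QUB.lam r q {y, w, v} := by
    refine h.min {y, w, v} ?_ ?_ (by omega)
    · intro z hz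
      simp only [Finset.mem_insert, Finset.mem_singleton] at hz ⊢
      tauto
    · intro hh
      have : x0 ∈ ({y, w, v} : Finset E) := by rw [hh]; simp
      simp only [Finset.mem_insert, Finset.mem_singleton] at this
      tauto
  have hL := h.l1
  have cx := h.cn1 hr (x := x0) (by simp) (!s)
  have k1 := hc {w} (by
    rw [gs_rm, gs_rm, Finset.singleton_subset_iff]
    exact Finset.mem_erase.2 ⟨hyw.symm, Finset.mem_erase.2 ⟨h0w.symm, mw⟩⟩) ⟨w, Finset.mem_singleton_self w⟩ ⟨e0, by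
    rw [gs_rm, gs_rm, Finset.mem_sdiff, Finset.mem_singleton]
    exact ⟨Finset.mem_erase.2 ⟨ny, Finset.mem_erase.2 ⟨n0, ge⟩⟩, nw⟩⟩
  have k2 := cx (gs q \ {x0, y, w, v}) (by
    rw [gs_rm]
    intro z hz
    rw [Finset.mem_sdiff] at hz
    exact Finset.mem_erase.2 ⟨fun hh => hz.2 (by rw [hh]; simp), hz.1⟩) ⟨e0, by
      rw [Finset.mem_sdiff]
      simp only [Finset.mem_insert, Finset.mem_singleton, not_or]
      exact ⟨ge, n0, ny, nw, nv⟩⟩ ⟨y, by
      rw [gs_rm, Finset.mem_sdiff, Finset.mem_sdiff]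
      exact ⟨Finset.mem_erase.2 ⟨h0y.symm, my⟩, fun hh => hh.2 (by simp)⟩⟩
  have hlw : 2 ≤ QUB.lam r q {w, v} := by
    refine h.min {w, v} ?_ ?_ (by rw [Finset.card_pair hwv])
    · intro z hz
      simp only [Finset.mem_insert, Finset.mem_singleton] at hz ⊢
      tauto
    · intro hh
      have : x0 ∈ ({w, v} : Finset E) := by rw [hh]; simp
      simp only [Finset.mem_insert, Finset.mem_singleton] at this
      tauto
  have sx0 := h.cn {x0} (Finset.singleton_subset_iff.2 m0) ⟨x0, Finset.mem_singleton_self x0⟩ ⟨e0, by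
    rw [Finset.mem_sdiff, Finset.mem_singleton]; exact ⟨ge, n0⟩⟩
  have sy := h.cn {y} (Finset.singleton_subset_iff.2 my) ⟨y, Finset.mem_singleton_self y⟩ ⟨e0, by
    rw [Finset.mem_sdiff, Finset.mem_singleton]; exact ⟨ge, ny⟩⟩
  have syx := (h.cn1 hr (x := y) (by simp) s) {x0} (by
    rw [gs_rm, Finset.singleton_subset_iff]; exact Finset.mem_erase.2 ⟨h0y, m0⟩) ⟨x0, Finset.mem_singleton_self x0⟩ ⟨e0, by
    rw [gs_rm, Finset.mem_sdiff, Finset.mem_singleton]; exact ⟨Finset.mem_erase.2 ⟨ny, ge⟩, n0⟩⟩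
  have hCG : ∀ z ∈ q.1, z ∈ q.2 := fun z hz => h.wf hz
  have C0 : ∀ z ∈ q.1, z ≠ x0 ∧ z ≠ y ∧ z ≠ w ∧ z ≠ v := fun z hz =>
    ⟨fun hh => g0.2 (hh ▸ hz), fun hh => gy.2 (hh ▸ hz), fun hh => gw.2 (hh ▸ hz), fun hh => gv.2 (hh ▸ hz)⟩
  have u1 : r (q.1 ∪ {w}) ≤ r q.1 + 1 := by
    have := hr.unit q.1 w
    rwa [show insert w q.1 = q.1 ∪ {w} from by ext z; simp only [Finset.mem_union, Finset.mem_insert, Finset.mem_singleton]; tauto] at this
  have u2 : r (q.1 ∪ {w, v}) ≤ r q.1 + 2 := by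
    have := hr.unit (q.1 ∪ {w}) v
    rw [show insert v (q.1 ∪ {w}) = q.1 ∪ {w, v} from by ext z; simp only [Finset.mem_union, Finset.mem_insert, Finset.mem_singleton]; tauto] at this
    omega
  have u3 : r (q.1 ∪ {x0}) ≤ r q.1 + 1 := by
    have := hr.unit q.1 x0
    rwa [show insert x0 q.1 = q.1 ∪ {x0} from by ext z; simp only [Finset.mem_union, Finset.mem_insert, Finset.mem_singleton]; tauto] at this
  have u4 : r (q.1 ∪ {y}) ≤ r q.1 + 1 := by
    have := hr.unit q.1 y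
    rwa [show insert y q.1 = q.1 ∪ {y} from by ext z; simp only [Finset.mem_union, Finset.mem_insert, Finset.mem_singleton]; tauto] at this
  have v1 := hr.mono (q.2 \ {w, v}) q.2 Finset.sdiff_subset
  have v2 := hr.mono (q.2.erase y) q.2 (Finset.erase_subset _ _)
  have v3 := hr.mono (q.2 \ {x0}) q.2 Finset.sdiff_subset
  have v4 := hr.mono (q.2 \ {y}) q.2 Finset.sdiff_subset
  have v5 := hr.mono (q.2 \ {w}) q.2 Finset.sdiff_subset
  cases s
  · -- contraction of `y`, deletion of `x0`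
    unfold QUB.lam at hl h3 hL k1 k2 hlw sx0 sy syx
    simp only [rm, Bool.not_false] at hl k1 k2 syx
    have e1 : q.1 ∪ (gs q \ {x0, y, w, v}) = q.2 \ {x0, y, w, v} := by
      ext z
      simp only [gs, Finset.mem_union, Finset.mem_sdiff, Finset.mem_insert, Finset.mem_singleton]
      have h1 := hCG z
      have h2 := C0 z
      tauto
    have e2 : q.2.erase x0 \ (gs q \ {x0, y, w, v}) = q.1 ∪ {y, w, v} := by
      ext z
      simp only [gs, Finset.mem_union, Finset.mem_sdiff, Finset.mem_insert, Finset.mem_singleton, Finset.mem_erase]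
      have h1 := hCG z
      have h2 := C0 z
      constructor
      · rintro ⟨⟨a, b⟩, c⟩
        by_cases hz : z ∈ q.1
        · exact Or.inl hz
        · right
          by_contra hh
          exact c ⟨⟨b, hz⟩, by tauto⟩
      · rintro (hz | hz)
        · exact ⟨⟨(h2 hz).1, h1 hz⟩, fun hh => hh.1.2 hz⟩
        · rcases hz with rfl | rfl | rfl
          · exact ⟨⟨h0y.symm, gy.1⟩, fun hh => hh.2 (by tauto)⟩
          · exact ⟨⟨h0w.symm, gw.1⟩, fun hh => hh.2 (by tauto)⟩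
          · exact ⟨⟨h0v.symm, gv.1⟩, fun hh => hh.2 (by tauto)⟩
    rw [e1, e2] at k2
    have e3 : insert y q.1 ∪ {w, v} = q.1 ∪ {y, w, v} := by
      ext z; simp only [Finset.mem_union, Finset.mem_insert, Finset.mem_singleton]; tauto
    rw [e3] at hl
    have e4 : q.2.erase x0 = q.2 \ {x0} := by
      ext z; simp only [Finset.mem_erase, Finset.mem_sdiff, Finset.mem_singleton]; tauto
    rw [e4] at k2
    have e5 : insert y q.1 = q.1 ∪ {y} := by
      ext z; simp only [Finset.mem_union, Finset.mem_insert, Finset.mem_singleton]; tauto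
    rw [e5] at hl syx
    have m1 := hr.mono (insert y (insert x0 q.1) ∪ {w}) (q.1 ∪ {x0, y, w, v}) (by
      intro z hz
      simp only [Finset.mem_union, Finset.mem_insert, Finset.mem_singleton] at hz ⊢
      tauto)
    have e6 : insert y (insert x0 q.1) = q.1 ∪ {y} ∪ {x0} := by
      ext z; simp only [Finset.mem_union, Finset.mem_insert, Finset.mem_singleton]; tauto
    rw [e6] at k1 m1
    omega
  · -- deletion of `y`, contraction of `x0`
    unfold QUB.lam at hl h3 hL k1 k2 hlw sx0 sy syx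
    simp only [rm, Bool.not_true] at hl k1 k2 syx
    have e1 : insert x0 q.1 ∪ (gs q \ {x0, y, w, v}) = q.2 \ {y, w, v} := by
      ext z
      simp only [gs, Finset.mem_union, Finset.mem_sdiff, Finset.mem_insert, Finset.mem_singleton]
      have h1 := hCG z
      have h2 := C0 z
      constructor
      · rintro ((rfl | hz) | hz)
        · exact ⟨g0.1, by tauto⟩
        · exact ⟨h1 hz, by tauto⟩
        · exact ⟨hz.1.1, by tauto⟩
      · rintro ⟨a, b⟩
        by_cases hz0 : z = x0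
        · exact Or.inl (Or.inl hz0)
        · by_cases hz : z ∈ q.1
          · exact Or.inl (Or.inr hz)
          · exact Or.inr ⟨⟨a, hz⟩, by tauto⟩
    have e2 : q.2 \ (gs q \ {x0, y, w, v}) = q.1 ∪ {x0, y, w, v} := by
      ext z
      simp only [gs, Finset.mem_union, Finset.mem_sdiff, Finset.mem_insert, Finset.mem_singleton]
      have h1 := hCG z
      have h2 := C0 z
      constructor
      · rintro ⟨a, c⟩
        by_cases hz : z ∈ q.1
        · exact Or.inl hz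
        · right
          by_contra hh
          exact c ⟨⟨a, hz⟩, hh⟩
      · rintro (hz | hz)
        · exact ⟨h1 hz, fun hh => hh.1.2 hz⟩
        · rcases hz with rfl | rfl | rfl | rfl
          · exact ⟨g0.1, fun hh => hh.2 (by tauto)⟩
          · exact ⟨gy.1, fun hh => hh.2 (by tauto)⟩
          · exact ⟨gw.1, fun hh => hh.2 (by tauto)⟩
          · exact ⟨gv.1, fun hh => hh.2 (by tauto)⟩
    rw [e1, e2] at k2
    have e3 : q.2.erase y \ {w, v} = q.2 \ {y, w, v} := by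
      ext z; simp only [Finset.mem_sdiff, Finset.mem_erase, Finset.mem_insert, Finset.mem_singleton]; tauto
    have e4 : insert x0 q.1 = q.1 ∪ {x0} := by
      ext z; simp only [Finset.mem_union, Finset.mem_insert, Finset.mem_singleton]; tauto
    have e5 : (q.2.erase x0).erase y = q.2.erase y \ {x0} := by
      ext z; simp only [Finset.mem_sdiff, Finset.mem_erase, Finset.mem_singleton]; tauto
    have e6 : q.2.erase y = q.2 \ {y} := by
      ext z; simp only [Finset.mem_sdiff, Finset.mem_erase, Finset.mem_singleton]; tauto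
    rw [e3] at hl
    rw [e4] at k2
    rw [e5] at k1
    have m1 : r ((q.2.erase y \ {x0}) \ {w}) ≤ r (q.2 \ {x0, y, w, v}) + 1 := by
      have h1 := hr.unit (q.2 \ {x0, y, w, v}) v
      have h2 := hr.mono ((q.2.erase y \ {x0}) \ {w}) (insert v (q.2 \ {x0, y, w, v})) (by
        intro z hz
        simp only [Finset.mem_sdiff, Finset.mem_erase, Finset.mem_insert, Finset.mem_singleton] at hz ⊢
        tauto)
      omega
    have m2 := hr.mono (q.1 ∪ {y, w, v}) (q.1 ∪ {x0, y, w, v}) (by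
      intro z hz
      simp only [Finset.mem_union, Finset.mem_insert, Finset.mem_singleton] at hz ⊢
      tauto)
    rw [e6] at hl syx k1 m1
    omega

/-- **combinatorial lemma** with one exceptional element `x0` -/
theorem lf_comb0 (hr : Rk r) {L : Finset E} (h : Lf r q L) (h4 : 4 ≤ L.card) (s : Bool) {x0 : E} (h0 : x0 ∈ L) :
    (∃ x ∈ L, ∃ y ∈ L, x ≠ y ∧ x ≠ x0 ∧ y ≠ x0 ∧ Cn r (rm s x (rm s y q)) ∧ Cn r (rm s x (rm (!s) y q))) ∨
    (∃ x ∈ L, ∃ z ∈ L, ∃ w ∈ L, x ≠ z ∧ z ≠ w ∧ x ≠ w ∧ x ≠ x0 ∧ z ≠ x0 ∧ w ≠ x0 ∧ Cn r (rm s x (rm s z q)) ∧ Cn r (rm s z (rm s w q)) ∧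
      Cn r (rm s x (rm (!s) w q))) ∨
    (∃ y ∈ L, ∃ w ∈ L, ∃ u ∈ L, ∃ z ∈ L, y ≠ w ∧ y ≠ u ∧ y ≠ z ∧ w ≠ u ∧ w ≠ z ∧ u ≠ z ∧ y ≠ x0 ∧ w ≠ x0 ∧
      Cn r (rm s y (rm (!s) u q)) ∧ Cn r (rm s y (rm (!s) z q)) ∧ Cn r (rm s w (rm (!s) u q)) ∧ Cn r (rm s w (rm (!s) z q)) ∧
      Cn r (rm s y (rm (!s) w q))) ∨
    (∃ x ∈ L, ∃ z ∈ L, ∃ w ∈ L, x ≠ z ∧ z ≠ w ∧ x ≠ w ∧ x ≠ x0 ∧ z ≠ x0 ∧ w ≠ x0 ∧ Cn r (rm s x (rm s z q)) ∧
      Cn r (rm s x (rm (!s) w q)) ∧ Cn r (rm s x (rm (!s) x0 q)) ∧ Cn r (rm s w (rm (!s) x0 q))) := by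
  classical
  by_cases hal : ∃ x ∈ L, ∃ y ∈ L, x ≠ y ∧ x ≠ x0 ∧ y ≠ x0 ∧ Cn r (rm s x (rm s y q)) ∧ Cn r (rm s x (rm (!s) y q))
  · exact Or.inl hal
  right
  by_cases hal' : ∃ x ∈ L, ∃ z ∈ L, ∃ w ∈ L, x ≠ z ∧ z ≠ w ∧ x ≠ w ∧ x ≠ x0 ∧ z ≠ x0 ∧ w ≠ x0 ∧ Cn r (rm s x (rm s z q)) ∧
      Cn r (rm s z (rm s w q)) ∧ Cn r (rm s x (rm (!s) w q))
  · exact Or.inl hal'
  right
  by_cases ha : ∃ x ∈ L, ∃ z ∈ L, x ≠ z ∧ x ≠ x0 ∧ z ≠ x0 ∧ Cn r (rm s x (rm s z q))
  · obtain ⟨x, hx, z, hz, hxz, hx0, hz0, axz⟩ := ha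
    have bxz : ¬ Cn r (rm s x (rm (!s) z q)) := fun hb => hal ⟨x, hx, z, hz, hxz, hx0, hz0, axz, hb⟩
    rcases lf_fail hr h h4 hx hz hxz bxz with ⟨M, m1, m2, m3⟩ | ⟨w, hw, w', hw', n1, n2, n3, lw, t1, t2, t3⟩
    · exfalso
      obtain ⟨y, hy⟩ : (M.erase x0).Nonempty := by
        rw [← Finset.card_pos]
        have := Finset.pred_card_le_card_erase (s := M) (a := x0)
        omega
      rw [Finset.mem_erase] at hy
      have hy2 := Finset.mem_erase.1 (m1 hy.2)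
      exact hal ⟨x, hx, y, hy2.2, hy2.1.symm, hx0, hy.1, m3 y hy.2 s, m3 y hy.2 (!s)⟩
    · have hzw : z ≠ w := fun hh => t1 (hh ▸ axz)
      have hzw' : z ≠ w' := fun hh => t2 (hh ▸ axz)
      have b1 := lf_tu hr h hx hw n1 t1
      have b2 := lf_tu hr h hx hw' n2 t2
      by_cases hw0 : w = x0
      · right
        have hw'0 : w' ≠ x0 := fun hh => n3 (hw0.trans hh.symm)
        refine ⟨x, hx, z, hz, w', hw', hxz, hzw', n2, hx0, hz0, hw'0, axz, b2, ?_, ?_⟩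
        · rw [← hw0]; exact b1
        · rw [← hw0]; exact lf_tu hr h hw' hw n3.symm (by rw [rm_comm]; exact t3)
      · by_cases hw'0 : w' = x0
        · right
          refine ⟨x, hx, z, hz, w, hw, hxz, hzw, n1, hx0, hz0, hw0, axz, b1, ?_, ?_⟩
          · rw [← hw'0]; exact b2
          · rw [← hw'0]; exact lf_tu hr h hw hw' n3 t3
        · left
          have k1 : ¬ Cn r (rm s z (rm s w q)) := fun hh => hal' ⟨x, hx, z, hz, w, hw, hxz, hzw, n1, hx0, hz0, hw0, axz, hh, b1⟩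
          have k2 : ¬ Cn r (rm s z (rm s w' q)) := fun hh => hal' ⟨x, hx, z, hz, w', hw', hxz, hzw', n2, hx0, hz0, hw'0, axz, hh, b2⟩
          refine ⟨w, hw, w', hw', x, hx, z, hz, n3, n1.symm, hzw.symm, n2.symm, hzw'.symm, hxz, hw0, hw'0, ?_, ?_, ?_, ?_, ?_⟩
          · exact lf_tu hr h hw hx n1.symm (by rw [rm_comm]; exact t1)
          · exact lf_tu hr h hw hz hzw.symm (by rw [rm_comm]; exact k1)
          · exact lf_tu hr h hw' hx n2.symm (by rw [rm_comm]; exact t2)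
          · exact lf_tu hr h hw' hz hzw'.symm (by rw [rm_comm]; exact k2)
          · exact lf_tu hr h hw hw' n3 t3
  · left
    have ha' : ∀ x ∈ L, ∀ z ∈ L, x ≠ z → x ≠ x0 → z ≠ x0 → ¬ Cn r (rm s x (rm s z q)) := fun x hx z hz hxz hx0 hz0 hh =>
      ha ⟨x, hx, z, hz, hxz, hx0, hz0, hh⟩
    have hb : ∀ x ∈ L, ∀ z ∈ L, x ≠ z → x ≠ x0 → z ≠ x0 → Cn r (rm s x (rm (!s) z q)) := fun x hx z hz hxz hx0 hz0 =>
      lf_tu hr h hx hz hxz (ha' x hx z hz hxz hx0 hz0)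
    by_cases h5 : 5 ≤ L.card
    · obtain ⟨K, hK, hK4⟩ := Finset.exists_subset_card_eq (show 4 ≤ (L.erase x0).card by
        rw [Finset.card_erase_of_mem h0]; omega)
      obtain ⟨y, w, u, z, n1, n2, n3, n4, n5, n6, rfl⟩ := Finset.card_eq_four.1 hK4
      have my := Finset.mem_erase.1 (hK (show y ∈ ({y, w, u, z} : Finset E) by simp))
      have mw := Finset.mem_erase.1 (hK (show w ∈ ({y, w, u, z} : Finset E) by simp))
      have mu := Finset.mem_erase.1 (hK (show u ∈ ({y, w, u, z} : Finset E) by simp))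
      have mz := Finset.mem_erase.1 (hK (show z ∈ ({y, w, u, z} : Finset E) by simp))
      exact ⟨y, my.2, w, mw.2, u, mu.2, z, mz.2, n1, n2, n3, n4, n5, n6, my.1, mw.1, hb y my.2 u mu.2 n2 my.1 mu.1,
        hb y my.2 z mz.2 n3 my.1 mz.1, hb w mw.2 u mu.2 n4 mw.1 mu.1, hb w mw.2 z mz.2 n5 mw.1 mz.1, hb y my.2 w mw.2 n1 my.1 mw.1⟩
    · -- four elements
      have hK3 : (L.erase x0).card = 3 := by rw [Finset.card_erase_of_mem h0]; omega
      obtain ⟨y, w, v, n1, n2, n3, hK⟩ := Finset.card_eq_three.1 hK3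
      have hLe : L = {x0, y, w, v} := by rw [← Finset.insert_erase h0, hK]
      have my := Finset.mem_erase.1 (show y ∈ L.erase x0 by rw [hK]; simp)
      have mw := Finset.mem_erase.1 (show w ∈ L.erase x0 by rw [hK]; simp)
      have mv := Finset.mem_erase.1 (show v ∈ L.erase x0 by rw [hK]; simp)
      -- the doubles with `x0`
      have key : ∀ a ∈ L, a ≠ x0 → Cn r (rm s a (rm (!s) x0 q)) := by
        intro a haL ha0
        by_contra hn
        have aa : Cn r (rm s a (rm s x0 q)) := by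
          by_contra h1
          exact hn (lf_tu hr h haL h0 ha0 h1)
        rcases lf_fail hr h h4 haL h0 ha0 hn with ⟨M, m1, m2, m3⟩ | ⟨c, hc, c', hc', k1, k2, k3, lc, t1, t2, t3⟩
        · obtain ⟨y', hy⟩ : (M.erase x0).Nonempty := by
            rw [← Finset.card_pos]
            have := Finset.pred_card_le_card_erase (s := M) (a := x0)
            omega
          rw [Finset.mem_erase] at hy
          have hy2 := Finset.mem_erase.1 (m1 hy.2)
          exact ha' a haL y' hy2.2 hy2.1.symm ha0 hy.1 (m3 y' hy.2 s)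
        · have c0 : c ≠ x0 := fun hh => t1 (hh ▸ aa)
          have c0' : c' ≠ x0 := fun hh => t2 (hh ▸ aa)
          have hL2 : L = {x0, a, c, c'} := by
            refine (Finset.eq_of_subset_of_card_le ?_ ?_).symm
            · intro z hz
              simp only [Finset.mem_insert, Finset.mem_singleton] at hz
              rcases hz with rfl | rfl | rfl | rfl <;> assumption
            · have : ({x0, a, c, c'} : Finset E).card = 4 := Finset.card_eq_four.2 ⟨x0, a, c, c', ha0.symm, c0.symm, c0'.symm, k1, k2, k3, rfl⟩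
              omega
          rw [hL2] at h
          exact lfe_four hr h ha0.symm c0.symm c0'.symm k1 k2 k3 lc aa
      exact ⟨y, my.2, w, mw.2, v, mv.2, x0, h0, n1, n2, my.1, n3, mw.1, mv.1, my.1, mw.1, hb y my.2 v mv.2 n2 my.1 mv.1, key y my.2 my.1,
        hb w mw.2 v mv.2 n3 mw.1 mv.1, key w mw.2 mw.1, hb y my.2 w mw.2 n1 my.1 mw.1⟩

end pure

section forms

variable {E : Type} [Fintype E] [DecidableEq E] {S : TP F4 E} {p : Itv E}

theorem Bs.swap {u j : E} {t τ : Bool} {L : Finset E} (b : Bs S p u t j τ L) : Bs S p j τ u t L := by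
  have e : rm τ j (rm t u p) = rm t u (rm τ j p) := rm_comm τ t j u p
  exact ⟨b.mj, b.mu, b.uj.symm, e ▸ b.lf, b.c4, e ▸ b.y2, e ▸ b.rich⟩

/-- the closure for the fourth configuration -/
private theorem lfe_ga (h : Cv S p) {u j : E} {t : Bool} {L : Finset E} (b : Bs S p u t j (!t) L) {x z w x0 : E} (hx : x ∈ L) (hz : z ∈ L)
    (hw : w ∈ L) (h0 : x0 ∈ L) (hxz : x ≠ z) (hzw : z ≠ w) (hxw : x ≠ w) (hx0 : x ≠ x0) (hz0 : z ≠ x0) (hw0 : w ≠ x0)
    (oux : Ok S.r (rm t u (rm t x p))) (ouz : Ok S.r (rm t u (rm t z p)))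
    (ouw : ∀ σ, Ok S.r (rm t u (rm σ w p))) (ou0 : Ok S.r (rm t u (rm (!t) x0 p)))
    (ojx : Ok S.r (rm (!t) j (rm t x p))) (ojz : Ok S.r (rm (!t) j (rm t z p))) (ojw : Ok S.r (rm (!t) j (rm t w p)))
    (oxz : Ok S.r (rm t x (rm t z p))) (oxw : Ok S.r (rm t x (rm (!t) w p)))
    (ox0 : Ok S.r (rm t x (rm (!t) x0 p))) (ow0 : Ok S.r (rm t w (rm (!t) x0 p)))
    (a1 : Cn S.r (rm t x (rm t z (rm t u (rm (!t) j p))))) (b1 : Cn S.r (rm t x (rm (!t) w (rm t u (rm (!t) j p)))))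
    (b2 : Cn S.r (rm t x (rm (!t) x0 (rm t u (rm (!t) j p))))) (b3 : Cn S.r (rm t w (rm (!t) x0 (rm t u (rm (!t) j p))))) :
    ∃ T : Fm F4 E, InV S.U S.W p T ∧ ¬ EqD S.U S.W p T 0 := by
  obtain ⟨mx, hux, hjx⟩ := b.sub hx
  obtain ⟨mz, huz, hjz⟩ := b.sub hz
  obtain ⟨mw, huw, hjw⟩ := b.sub hw
  obtain ⟨m0, hu0, hj0⟩ := b.sub h0
  obtain ⟨T, i1, i2, hne⟩ := h.two b.mu mx hux oux
  have u1 := b.up h hx hz hxz a1
  have u2 := b.up h hx hw hxw b1
  have u3 := b.up h hx h0 hx0 b2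
  have u4 := b.up h hw h0 hw0 b3
  have iz := h.third b.mu mx mz hux huz hxz i1 i2 ouz oxz u1.1 u1.2
  have iw' := h.third b.mu mx mw hux huw hxw i1 i2 (ouw (!t)) oxw u2.1 u2.2
  have i0 := h.third b.mu mx m0 hux hu0 hx0 i1 i2 ou0 ox0 u3.1 u3.2
  -- the other removal
  have a1' : Cn S.r (rm t x (rm t z (rm (!t) j (rm t u p)))) := by
    rw [rm_comm (!t) t j u p]
    exact a1
  have u5 := b.swap.up h hx hz hxz a1'
  have e5 : rm (!t) j (rm t x (rm t z p)) = rm t x (rm t z (rm (!t) j p)) := by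
    rw [rm_comm (!t) t j x, rm_comm (!t) t j z]
  rw [e5] at u5
  have ij := h.third mx mz b.mj hxz hjx.symm hjz.symm i2 iz (by rw [rm_comm]; exact ojx) (by rw [rm_comm]; exact ojz) u5.1 u5.2
  -- the target `w` of type `t`
  have cq := b.lf.cn1 S.rk hw t
  have eq1 : rm t w (rm t u (rm (!t) j p)) = rm t u (rm (!t) j (rm t w p)) := by
    rw [rm_comm t t w u, rm_comm t (!t) w j]
  have rq : HasRich S.r (rm t u (rm (!t) j (rm t w p))) := by
    rw [← eq1]
    exact hasRich_mono ((rm_sub (!t) x0 _).rm t w) (b.rich w hw x0 h0 hw0 t (!t) b3)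
  rw [eq1] at cq
  have e6 : rm t u (rm t w (rm (!t) x0 p)) = rm t u (rm (!t) x0 (rm t w p)) := by
    rw [rm_comm t (!t) w x0]
  rw [e6] at u4
  have iw := h.con b.mj m0 b.mu mw hj0 hjw hw0.symm b.uj hu0 huw ij i0 i1 ojw (by rw [rm_comm]; exact ow0) (ouw t) cq rq u4.1 u4.2
  have hin : InV S.U S.W p T := by
    cases t with
    | true => exact inV_of_rm iw iw'
    | false => exact inV_of_rm iw' iw
  refine ⟨T, hin, fun hT => ?_⟩
  obtain ⟨N, h1, h2⟩ := u1.2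
  have h3 : Sub N (rm t u p) := (((rm_sub t z p).trans (rm_sub t x _)).rm t u).trans h1
  exact hne N h3 h2 (hT.mono ((rm_sub t u p).trans h3))

/-- **leaf theorem** with one exceptional element `x0`: mixed pair `u, j`; the pair `(u, x0)` of the type of `u` may be bad -/
theorem leaf_done0 (h : Cv S p) {u j : E} {t : Bool} {L : Finset E} (b : Bs S p u t j (!t) L) {x0 : E} (h0 : x0 ∈ L)
    (ok1 : ∀ x ∈ L, ∀ σ : Bool, (x ≠ x0 ∨ σ = !t) → Ok S.r (rm t u (rm σ x p)))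
    (okj : ∀ x ∈ L, x ≠ x0 → Ok S.r (rm (!t) j (rm t x p)))
    (ok2 : ∀ x ∈ L, ∀ z ∈ L, x ≠ z → x ≠ x0 → ∀ σ : Bool, (z ≠ x0 ∨ σ = !t) → Cn S.r (rm t x (rm σ z (rm t u (rm (!t) j p)))) →
      Ok S.r (rm t x (rm σ z p))) :
    ∃ T : Fm F4 E, InV S.U S.W p T ∧ ¬ EqD S.U S.W p T 0 := by
  rcases lf_comb0 S.rk b.lf b.c4 t h0 with ⟨x, hx, y, hy, hxy, nx, ny, a1, b1⟩ | ⟨x, hx, z, hz, w, hw, hxz, hzw, hxw, nx, nz, nw, a1, a2, b1⟩ |
    ⟨y, hy, w, hw, v, hv, z, hz, n1, n2, n3, n4, n5, n6, ny, nw, b1, b2, b3, b4, b5⟩ |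
    ⟨x, hx, z, hz, w, hw, hxz, hzw, hxw, nx, nz, nw, a1, b1, b2, b3⟩
  · refine lfd_al h b hx hy hxy (ok1 x hx t (Or.inl nx)) (fun σ => ok1 y hy σ (Or.inl ny)) ?_ a1 b1
    intro σ
    by_cases hs : σ = t
    · rw [hs]; exact ok2 x hx y hy hxy nx t (Or.inl ny) a1
    · have : σ = !t := by cases σ <;> cases t <;> simp_all
      rw [this]; exact ok2 x hx y hy hxy nx (!t) (Or.inr rfl) b1
  · exact lfd_al' h b hx hz hw hxz hzw hxw (ok1 x hx t (Or.inl nx)) (ok1 z hz t (Or.inl nz)) (fun σ => ok1 w hw σ (Or.inl nw))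
      (ok2 x hx z hz hxz nx t (Or.inl nz) a1) (ok2 z hz w hw hzw nz t (Or.inl nw) a2) (ok2 x hx w hw hxw nx (!t) (Or.inr rfl) b1) a1 a2 b1
  · exact lfd_be h b hy hw hv hz n1 n2 n3 n4 n5 n6 (ok1 y hy t (Or.inl ny)) (fun σ => ok1 w hw σ (Or.inl nw)) (ok1 v hv (!t) (Or.inr rfl))
      (ok1 z hz (!t) (Or.inr rfl)) (ok2 y hy w hw n1 ny (!t) (Or.inr rfl) b5)
      (ok2 y hy v hv n2 ny (!t) (Or.inr rfl) b1) (ok2 y hy z hz n3 ny (!t) (Or.inr rfl) b2) (ok2 w hw v hv n4 nw (!t) (Or.inr rfl) b3)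
      (ok2 w hw z hz n5 nw (!t) (Or.inr rfl) b4) b1 b2 b3 b4 b5
  · exact lfe_ga h b hx hz hw h0 hxz hzw hxw nx nz nw (ok1 x hx t (Or.inl nx)) (ok1 z hz t (Or.inl nz)) (fun σ => ok1 w hw σ (Or.inl nw))
      (ok1 x0 h0 (!t) (Or.inr rfl)) (okj x hx nx) (okj z hz nz) (okj w hw nw) (ok2 x hx z hz hxz nx t (Or.inl nz) a1)
      (ok2 x hx w hw hxw nx (!t) (Or.inr rfl) b1) (ok2 x hx x0 h0 nx nx (!t) (Or.inr rfl) b2) (ok2 w hw x0 h0 nw nw (!t) (Or.inr rfl) b3)
      a1 b1 b2 b3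

end forms

end Pool.Agent.QU
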