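import Pool.Agent.QUT.Lem

/-!
# QUT/Lfc: the elements of a minimal two-side (a leaf), a combinatorial lemma on pairs of removals
-/

set_option autoImplicit false

open QUB

namespace Pool.Agent.QU

variable {E : Type} [DecidableEq E] {r : Finset E → ℤ} {q : Itv E}

/-- a leaf: a minimal side of a separation of order two -/
structure Lf (r : Finset E → ℤ) (q : Itv E) (L : Finset E) : Prop where
  wf : q.1 ⊆ q.2
  cn : Cn r q
  sub : L ⊆ gs q
  l1 : QUB.lam r q L ≤ 1
  ne : (gs q \ L).Nonempty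
  c3 : 3 ≤ L.card
  min : ∀ Z ⊆ L, Z ≠ L → 2 ≤ Z.card → 2 ≤ QUB.lam r q Z

theorem unc1 (hr : Rk r) (hc : Cn r q) {L A : Finset E} (hL : L ⊆ gs q) (lL : QUB.lam r q L ≤ 1) (hA : A ⊆ gs q)
    (lA : QUB.lam r q A ≤ 1) (h1 : L.Nonempty) (h2 : (gs q \ (L ∪ A)).Nonempty) : QUB.lam r q (L ∩ A) ≤ 1 := by
  have h3 := lam_sub (p := q) hr L A
  have h4 := hc (L ∪ A) (Finset.union_subset hL hA) (h1.mono Finset.subset_union_left) h2
  omega

/-- the two sides of a separation after the removal of an element `x` of `L`: a two-side with at least two elements inside `L` -/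
private theorem lfc_in (hr : Rk r) (hc : Cn r q) {L P Q : Finset E} {x : E} (hL : L ⊆ gs q) (lL : QUB.lam r q L ≤ 1)
    (hPQ : P ∪ Q = (gs q).erase x) (hdj : Disjoint P Q) (hP : P.Nonempty) (hx : x ∈ L) (h3 : 3 ≤ L.card)
    (lP : QUB.lam r q P ≤ 1) (lPx : QUB.lam r q (insert x P) ≤ 1)
    (hQ : (Q ∩ (gs q \ L)).Nonempty) (hLP : (L ∩ P).Nonempty) : ∃ Z ⊆ L, Z ≠ L ∧ 2 ≤ Z.card ∧ QUB.lam r q Z ≤ 1 := by
  have hxg : x ∈ gs q := hL hx
  have hPg : P ⊆ gs q := (Finset.subset_union_left.trans hPQ.subset).trans (Finset.erase_subset _ _)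
  have hxP : x ∉ P := fun h => (Finset.mem_erase.1 (hPQ ▸ Finset.mem_union_left Q h)).1 rfl
  obtain ⟨y, hy⟩ := hQ
  rw [Finset.mem_inter, Finset.mem_sdiff] at hy
  have hyP : y ∉ P := fun h => Finset.disjoint_left.1 hdj h hy.1
  have hyx : y ≠ x := (Finset.mem_erase.1 (hPQ ▸ Finset.mem_union_right P hy.1)).1
  by_cases hLQ : (L ∩ Q).Nonempty
  · refine ⟨L ∩ insert x P, Finset.inter_subset_left, ?_, ?_, ?_⟩
    · intro heq
      obtain ⟨z, hz⟩ := hLQ
      rw [Finset.mem_inter] at hz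
      have h1 : z ∈ L ∩ insert x P := by rw [heq]; exact hz.1
      rcases Finset.mem_insert.1 (Finset.mem_inter.1 h1).2 with h2 | h2
      · exact (Finset.mem_erase.1 (hPQ ▸ Finset.mem_union_right P hz.2)).1 h2
      · exact Finset.disjoint_left.1 hdj h2 hz.2
    · obtain ⟨z, hz⟩ := hLP
      rw [Finset.mem_inter] at hz
      have h1 : ({x, z} : Finset E) ⊆ L ∩ insert x P := by
        intro v hv
        simp only [Finset.mem_insert, Finset.mem_singleton] at hv
        simp only [Finset.mem_inter, Finset.mem_insert]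
        rcases hv with rfl | rfl
        · exact ⟨hx, Or.inl rfl⟩
        · exact ⟨hz.1, Or.inr hz.2⟩
      have h2 := Finset.card_le_card h1
      have hxz : x ≠ z := fun h => hxP (by rw [h]; exact hz.2)
      rwa [Finset.card_pair hxz] at h2
    · refine unc1 hr hc hL lL (Finset.insert_subset hxg hPg) lPx ⟨x, hx⟩ ⟨y, ?_⟩
      simp only [Finset.mem_sdiff, Finset.mem_union, Finset.mem_insert, not_or]
      exact ⟨hy.2.1, hy.2.2, hyx, hyP⟩
  · have h1 : L ∩ P = L.erase x := by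
      ext v
      simp only [Finset.mem_inter, Finset.mem_erase]
      constructor
      · rintro ⟨h2, h3⟩
        exact ⟨fun h => hxP (by rw [← h]; exact h3), h2⟩
      · rintro ⟨h2, h3⟩
        refine ⟨h3, ?_⟩
        have h4 : v ∈ P ∪ Q := by rw [hPQ]; exact Finset.mem_erase.2 ⟨h2, hL h3⟩
        rcases Finset.mem_union.1 h4 with h5 | h5
        · exact h5
        · exact absurd ⟨v, Finset.mem_inter.2 ⟨h3, h5⟩⟩ hLQ
    refine ⟨L ∩ P, Finset.inter_subset_left, ?_, ?_, ?_⟩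
    · rw [h1]
      intro h2
      rw [← h2] at hx
      exact Finset.notMem_erase x L hx
    · rw [h1, Finset.card_erase_of_mem hx]
      omega
    · refine unc1 hr hc hL lL hPg lP ⟨x, hx⟩ ⟨y, ?_⟩
      simp only [Finset.mem_sdiff, Finset.mem_union, not_or]
      exact ⟨hy.2.1, hy.2.2, hyP⟩

/-- a disconnected removal of an element of `L` gives a two-side inside `L` which is proper -/
theorem lfc_two (hr : Rk r) (wf : q.1 ⊆ q.2) (hc : Cn r q) {L : Finset E} {x : E} {s : Bool} (hL : L ⊆ gs q) (lL : QUB.lam r q L ≤ 1)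
    (hx : x ∈ L) (h3 : 3 ≤ L.card) (hn : ¬ Cn r (rm s x q)) : ∃ Z ⊆ L, Z ≠ L ∧ 2 ≤ Z.card ∧ QUB.lam r q Z ≤ 1 := by
  have hxg : x ∈ gs q := hL hx
  unfold Cn at hn
  push Not at hn
  obtain ⟨P, hP, nP, nQ, lP⟩ := hn
  have w1 : (rm s x q).1 ⊆ (rm s x q).2 := wf_rm wf hxg
  have lQ : QUB.lam r (rm s x q) (gs (rm s x q) \ P) < 1 := by rw [lam_compl r w1 hP]; exact lP
  rw [gs_rm] at hP nQ lQ
  set Q := (gs q).erase x \ P with hQ
  have hQs : Q ⊆ (gs q).erase x := Finset.sdiff_subset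
  have hPQ : P ∪ Q = (gs q).erase x := Finset.union_sdiff_of_subset hP
  have hdj : Disjoint P Q := Finset.disjoint_sdiff
  have p1 := lam_le_rm hr (t := s) hxg hP
  have p2 := lam_le_rm' hr (t := s) hxg hP
  have q1 := lam_le_rm hr (t := s) hxg hQs
  have q2 := lam_le_rm' hr (t := s) hxg hQs
  -- a part inside `L`
  have key : ∀ A ⊆ (gs q).erase x, A.Nonempty → A ⊆ L → QUB.lam r q A ≤ 1 → QUB.lam r q (insert x A) ≤ 1 →
      ∃ Z ⊆ L, Z ≠ L ∧ 2 ≤ Z.card ∧ QUB.lam r q Z ≤ 1 := by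
    intro A hA nA hAL l1 l2
    have hxA : x ∉ A := fun h => (Finset.mem_erase.1 (hA h)).1 rfl
    by_cases h2 : 2 ≤ A.card
    · exact ⟨A, hAL, fun h => hxA (h ▸ hx), h2, l1⟩
    · have h5 := Finset.card_pos.2 nA
      have h6 : (insert x A).card = A.card + 1 := Finset.card_insert_of_notMem hxA
      refine ⟨insert x A, Finset.insert_subset hx hAL, fun h => ?_, by omega, l2⟩
      rw [h] at h6
      omega
  by_cases hPY : (P ∩ (gs q \ L)).Nonempty
  · by_cases hQY : (Q ∩ (gs q \ L)).Nonempty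
    · by_cases hLP : (L ∩ P).Nonempty
      · exact lfc_in hr hc hL lL hPQ hdj nP hx h3 (by omega) (by omega) hQY hLP
      · have hLQ : (L ∩ Q).Nonempty := by
          have h5 : 0 < (L.erase x).card := by rw [Finset.card_erase_of_mem hx]; omega
          obtain ⟨v, hv⟩ := Finset.card_pos.1 h5
          rw [Finset.mem_erase] at hv
          have h6 : v ∈ P ∪ Q := by rw [hPQ]; exact Finset.mem_erase.2 ⟨hv.1, hL hv.2⟩
          rcases Finset.mem_union.1 h6 with h7 | h7
          · exact absurd ⟨v, Finset.mem_inter.2 ⟨hv.2, h7⟩⟩ hLP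
          · exact ⟨v, Finset.mem_inter.2 ⟨hv.2, h7⟩⟩
        exact lfc_in hr hc hL lL (by rw [Finset.union_comm]; exact hPQ) hdj.symm nQ hx h3 (by omega) (by omega) hPY hLQ
    · refine key Q hQs nQ ?_ (by omega) (by omega)
      intro v hv
      by_contra h
      exact hQY ⟨v, Finset.mem_inter.2 ⟨hv, Finset.mem_sdiff.2 ⟨Finset.mem_of_mem_erase (hQs hv), h⟩⟩⟩
  · refine key P hP nP ?_ (by omega) (by omega)
    intro v hv
    by_contra h
    exact hPY ⟨v, Finset.mem_inter.2 ⟨hv, Finset.mem_sdiff.2 ⟨Finset.mem_of_mem_erase (hP hv), h⟩⟩⟩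

/-- both removals of an element of a leaf are connected -/
theorem Lf.cn1 (hr : Rk r) {L : Finset E} (h : Lf r q L) {x : E} (hx : x ∈ L) (s : Bool) : Cn r (rm s x q) := by
  by_contra hn
  obtain ⟨Z, z1, z2, z3, z4⟩ := lfc_two hr h.wf h.cn h.sub h.l1 hx h.c3 hn
  have := h.min Z z1 z2 z3
  omega

/-- a two-side contains a pair of order two or a leaf -/
theorem lf_ex (wf : q.1 ⊆ q.2) (hc : Cn r q) {L Z : Finset E} (hL : L ⊆ gs q) (hne : (gs q \ L).Nonempty) (hZ : Z ⊆ L) (h2 : 2 ≤ Z.card)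
    (lZ : QUB.lam r q Z ≤ 1) : (∃ M ⊆ Z, Lf r q M) ∨ ∃ w w' : E, w ≠ w' ∧ w ∈ Z ∧ w' ∈ Z ∧ QUB.lam r q {w, w'} ≤ 1 := by
  classical
  let F : Finset (Finset E) := Z.powerset.filter fun A => 2 ≤ A.card ∧ QUB.lam r q A ≤ 1
  have hF : F.Nonempty := ⟨Z, Finset.mem_filter.2 ⟨Finset.mem_powerset.2 (Finset.Subset.refl _), h2, lZ⟩⟩
  obtain ⟨M, hM, hmin⟩ := Finset.exists_min_image F Finset.card hF
  rw [Finset.mem_filter, Finset.mem_powerset] at hM
  obtain ⟨m1, m2, m3⟩ := hM
  by_cases h3 : 3 ≤ M.card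
  · left
    refine ⟨M, m1, wf, hc, (m1.trans hZ).trans hL, m3, ?_, h3, ?_⟩
    · obtain ⟨y, hy⟩ := hne
      rw [Finset.mem_sdiff] at hy
      exact ⟨y, Finset.mem_sdiff.2 ⟨hy.1, fun h => hy.2 (hZ (m1 h))⟩⟩
    · intro A hA hne' hA2
      by_contra hcon
      have h4 : A ∈ F := Finset.mem_filter.2 ⟨Finset.mem_powerset.2 (hA.trans m1), hA2, by omega⟩
      have h5 := hmin A h4
      have h6 := Finset.card_lt_card (Finset.ssubset_iff_subset_ne.2 ⟨hA, hne'⟩)
      omega
  · right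
    have h4 : M.card = 2 := by omega
    obtain ⟨w, w', hw, rfl⟩ := Finset.card_eq_two.1 h4
    exact ⟨w, w', hw, m1 (by simp), m1 (by simp), m3⟩

/-- rank form: a pair which is a two-side after the removal of `x` and not before -/
private theorem lfc_tri (hr : Rk r) {x w w' e : E} {s : Bool} (hxw : x ≠ w) (hxw' : x ≠ w') (hww : w ≠ w')
    (hex : e ≠ x) (hew : e ≠ w) (hew' : e ≠ w') (he : e ∈ gs q)
    (hx : x ∈ gs q) (hw : w ∈ gs q) (hw' : w' ∈ gs q) (h2 : 2 ≤ QUB.lam r q {w, w'}) (h1 : QUB.lam r (rm s x q) {w, w'} ≤ 1)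
    (hc : Cn r (rm s x q)) : ¬ Cn r (rm s w (rm s x q)) ∧ ¬ Cn r (rm s w (rm s w' q)) := by
  have gx := Finset.mem_sdiff.1 hx
  have gw := Finset.mem_sdiff.1 hw
  have gw' := Finset.mem_sdiff.1 hw'
  have ge := Finset.mem_sdiff.1 he
  -- `w` alone after the removal of `x`
  have hcw : 1 ≤ QUB.lam r (rm s x q) {w} := by
    refine hc {w} ?_ ⟨w, Finset.mem_singleton_self w⟩ ⟨e, ?_⟩
    · rw [gs_rm, Finset.singleton_subset_iff]
      exact Finset.mem_erase.2 ⟨hxw.symm, hw⟩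
    · rw [gs_rm, Finset.mem_sdiff, Finset.mem_singleton]
      exact ⟨Finset.mem_erase.2 ⟨hex, he⟩, hew⟩
  constructor
  · intro hcn
    have h3 := hcn {w'} (by
      rw [gs_rm, gs_rm, Finset.singleton_subset_iff]
      exact Finset.mem_erase.2 ⟨hww.symm, Finset.mem_erase.2 ⟨hxw'.symm, hw'⟩⟩) ⟨w', Finset.mem_singleton_self w'⟩ ⟨e, by
      rw [gs_rm, gs_rm, Finset.mem_sdiff, Finset.mem_singleton]
      exact ⟨Finset.mem_erase.2 ⟨hew, Finset.mem_erase.2 ⟨hex, he⟩⟩, hew'⟩⟩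
    cases s
    · -- contraction
      unfold QUB.lam at h1 h2 h3 hcw
      simp only [rm] at h1 h3 hcw
      have e1 : insert x q.1 ∪ {w, w'} = insert w (insert x q.1) ∪ {w'} := by
        ext v; simp only [Finset.mem_union, Finset.mem_insert, Finset.mem_singleton]; tauto
      have u1 := hr.mono (q.1 ∪ {w, w'}) (insert x q.1 ∪ {w, w'}) (Finset.union_subset_union_left (Finset.subset_insert _ _))
      have u2 := hr.mono (q.2 \ {w, w'}) q.2 Finset.sdiff_subset
      have u3 := hr.mono (q.2 \ {w'}) q.2 Finset.sdiff_subset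
      have u4 := hr.unit q.1 x
      have u5 := hr.mono (q.2 \ {w}) q.2 Finset.sdiff_subset
      have e2 : insert x q.1 ∪ {w} = insert w (insert x q.1) := by
        ext v; simp only [Finset.mem_union, Finset.mem_insert, Finset.mem_singleton]; tauto
      rw [e1] at h1
      rw [e2] at hcw
      have u6 : r (q.1 ∪ {w}) ≤ r q.1 + 1 := by
        have := hr.unit q.1 w
        rwa [show insert w q.1 = q.1 ∪ {w} from by ext v; simp only [Finset.mem_union, Finset.mem_insert, Finset.mem_singleton]; tauto] at this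
      have u7 : r (q.1 ∪ {w, w'}) ≤ r q.1 + 2 := by
        have := hr.unit (q.1 ∪ {w}) w'
        rw [show insert w' (q.1 ∪ {w}) = q.1 ∪ {w, w'} from by ext v; simp only [Finset.mem_union, Finset.mem_insert, Finset.mem_singleton]; tauto] at this
        omega
      omega
    · -- deletion
      unfold QUB.lam at h1 h2 h3 hcw
      simp only [rm] at h1 h3 hcw
      have e1 : (q.2.erase x).erase w \ {w'} = q.2.erase x \ {w, w'} := by
        ext v; simp only [Finset.mem_sdiff, Finset.mem_erase, Finset.mem_insert, Finset.mem_singleton]; tauto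
      have e3 : (q.2.erase x).erase w = q.2.erase x \ {w} := by
        ext v; simp only [Finset.mem_sdiff, Finset.mem_erase, Finset.mem_singleton]; tauto
      rw [e1, e3] at h3
      have u1 := hr.mono (q.2.erase x \ {w, w'}) (q.2 \ {w, w'}) (Finset.sdiff_subset_sdiff (Finset.erase_subset _ _) (Finset.Subset.refl _))
      have u2 := hr.mono (q.2.erase x) q.2 (Finset.erase_subset _ _)
      have u3 := hr.unit (q.2.erase x) x
      have e4 : insert x (q.2.erase x) = q.2 := Finset.insert_erase gx.1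
      rw [e4] at u3
      have u4 : r (q.1 ∪ {w'}) ≤ r q.1 + 1 := by
        have := hr.unit q.1 w'
        rwa [show insert w' q.1 = q.1 ∪ {w'} from by ext v; simp only [Finset.mem_union, Finset.mem_insert, Finset.mem_singleton]; tauto] at this
      have u5 : r (q.1 ∪ {w}) ≤ r q.1 + 1 := by
        have := hr.unit q.1 w
        rwa [show insert w q.1 = q.1 ∪ {w} from by ext v; simp only [Finset.mem_union, Finset.mem_insert, Finset.mem_singleton]; tauto] at this
      have u8 := hr.mono (q.2 \ {w, w'}) q.2 Finset.sdiff_subset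
      have u6 := hr.unit (q.2.erase x \ {w, w'}) x
      have e5 : insert x (q.2.erase x \ {w, w'}) = q.2 \ {w, w'} := by
        ext v
        simp only [Finset.mem_insert, Finset.mem_sdiff, Finset.mem_erase, Finset.mem_singleton]
        by_cases hv : v = x
        · subst hv; simp [gx.1, hxw, hxw']
        · simp [hv]
      rw [e5] at u6
      have u7 : r (q.1 ∪ {w, w'}) ≤ r q.1 + 2 := by
        have := hr.unit (q.1 ∪ {w}) w'
        rw [show insert w' (q.1 ∪ {w}) = q.1 ∪ {w, w'} from by ext v; simp only [Finset.mem_union, Finset.mem_insert, Finset.mem_singleton]; tauto] at this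
        omega
      omega
  · intro hcn
    have h3 := hcn {x} (by
      rw [gs_rm, gs_rm, Finset.singleton_subset_iff]
      exact Finset.mem_erase.2 ⟨hxw, Finset.mem_erase.2 ⟨hxw', hx⟩⟩) ⟨x, Finset.mem_singleton_self x⟩ ⟨e, by
      rw [gs_rm, gs_rm, Finset.mem_sdiff, Finset.mem_singleton]
      exact ⟨Finset.mem_erase.2 ⟨hew, Finset.mem_erase.2 ⟨hew', he⟩⟩, hex⟩⟩
    have v0 : insert w q.1 = q.1 ∪ {w} := by ext v; simp only [Finset.mem_union, Finset.mem_insert, Finset.mem_singleton]; tauto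
    have v1 : r (q.1 ∪ {w}) ≤ r q.1 + 1 := by
      have := hr.unit q.1 w
      rwa [v0] at this
    have v2 : r (q.1 ∪ {w, w'}) ≤ r q.1 + 2 := by
      have := hr.unit (q.1 ∪ {w}) w'
      rw [show insert w' (q.1 ∪ {w}) = q.1 ∪ {w, w'} from by ext v; simp only [Finset.mem_union, Finset.mem_insert, Finset.mem_singleton]; tauto] at this
      omega
    have v3 := hr.mono (q.2 \ {w, w'}) q.2 Finset.sdiff_subset
    cases s
    · -- contraction
      unfold QUB.lam at h1 h2 h3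
      simp only [rm] at h1 h3
      have e1 : insert w (insert w' q.1) ∪ {x} = insert x q.1 ∪ {w, w'} := by
        ext v; simp only [Finset.mem_union, Finset.mem_insert, Finset.mem_singleton]; tauto
      have e2 : insert w (insert w' q.1) = q.1 ∪ {w, w'} := by
        ext v; simp only [Finset.mem_union, Finset.mem_insert, Finset.mem_singleton]; tauto
      rw [e1, e2] at h3
      have u1 := hr.mono (q.2 \ {x}) q.2 Finset.sdiff_subset
      have u2 := hr.unit q.1 x
      omega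
    · -- deletion
      unfold QUB.lam at h1 h2 h3
      simp only [rm] at h1 h3
      have e1 : (q.2.erase w').erase w \ {x} = q.2.erase x \ {w, w'} := by
        ext v; simp only [Finset.mem_sdiff, Finset.mem_erase, Finset.mem_insert, Finset.mem_singleton]; tauto
      have e3 : (q.2.erase w').erase w = q.2 \ {w, w'} := by
        ext v; simp only [Finset.mem_sdiff, Finset.mem_erase, Finset.mem_insert, Finset.mem_singleton]; tauto
      rw [e1, e3] at h3
      have u1 : r (q.1 ∪ {x}) ≤ r q.1 + 1 := by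
        have := hr.unit q.1 x
        rwa [show insert x q.1 = q.1 ∪ {x} from by ext v; simp only [Finset.mem_union, Finset.mem_insert, Finset.mem_singleton]; tauto] at this
      have u2 := hr.mono (q.2.erase x) q.2 (Finset.erase_subset _ _)
      omega

/-- a pair which is a two-side after the removal of `x` and not before: the three doubles of the same type are disconnected -/
theorem lf_tri (hr : Rk r) {x w w' e : E} {s : Bool} (hxw : x ≠ w) (hxw' : x ≠ w') (hww : w ≠ w')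
    (hex : e ≠ x) (hew : e ≠ w) (hew' : e ≠ w') (he : e ∈ gs q)
    (hx : x ∈ gs q) (hw : w ∈ gs q) (hw' : w' ∈ gs q) (h2 : 2 ≤ QUB.lam r q {w, w'}) (h1 : QUB.lam r (rm s x q) {w, w'} ≤ 1)
    (hc : Cn r (rm s x q)) : ¬ Cn r (rm s x (rm s w q)) ∧ ¬ Cn r (rm s x (rm s w' q)) ∧ ¬ Cn r (rm s w (rm s w' q)) := by
  obtain ⟨a1, a2⟩ := lfc_tri hr hxw hxw' hww hex hew hew' he hx hw hw' h2 h1 hc
  have h2' : 2 ≤ QUB.lam r q {w', w} := by rw [Finset.pair_comm]; exact h2
  have h1' : QUB.lam r (rm s x q) {w', w} ≤ 1 := by rw [Finset.pair_comm]; exact h1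
  obtain ⟨b1, -⟩ := lfc_tri hr hxw' hxw hww.symm hex hew' hew he hx hw' hw h2' h1' hc
  rw [rm_comm] at a1 b1
  exact ⟨a1, b1, a2⟩

/-- **combinatorial lemma**: a configuration of pairs of removals in a leaf with at least four elements -/
theorem lf_comb (hr : Rk r) {L : Finset E} (h : Lf r q L) (h4 : 4 ≤ L.card) (s : Bool) :
    (∃ x ∈ L, ∃ y ∈ L, x ≠ y ∧ Cn r (rm s x (rm s y q)) ∧ Cn r (rm s x (rm (!s) y q))) ∨
    (∃ x ∈ L, ∃ z ∈ L, ∃ w ∈ L, x ≠ z ∧ z ≠ w ∧ x ≠ w ∧ Cn r (rm s x (rm s z q)) ∧ Cn r (rm s z (rm s w q)) ∧ Cn r (rm s x (rm (!s) w q))) ∨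
    (∃ y ∈ L, ∃ w ∈ L, ∃ u ∈ L, ∃ z ∈ L, y ≠ w ∧ y ≠ u ∧ y ≠ z ∧ w ≠ u ∧ w ≠ z ∧ u ≠ z ∧
      Cn r (rm s y (rm (!s) u q)) ∧ Cn r (rm s y (rm (!s) z q)) ∧ Cn r (rm s w (rm (!s) u q)) ∧ Cn r (rm s w (rm (!s) z q)) ∧
      Cn r (rm s y (rm (!s) w q))) := by
  classical
  -- Tutte
  have tu : ∀ x ∈ L, ∀ z ∈ L, x ≠ z → ¬ Cn r (rm s x (rm s z q)) → Cn r (rm s x (rm (!s) z q)) := by
    intro x hx z hz hxz hn
    have c1 := h.cn1 hr hx s
    have w1 : (rm s x q).1 ⊆ (rm s x q).2 := wf_rm h.wf (h.sub hx)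
    have mz : z ∈ gs (rm s x q) := by rw [gs_rm]; exact Finset.mem_erase.2 ⟨hxz.symm, h.sub hz⟩
    have h1 := tutte hr w1 mz c1
    rw [rm_comm true s, rm_comm false s] at h1
    cases s
    · rcases h1 with h1 | h1
      · exact h1
      · exact absurd h1 hn
    · rcases h1 with h1 | h1
      · exact absurd h1 hn
      · exact h1
  by_cases hal : ∃ x ∈ L, ∃ y ∈ L, x ≠ y ∧ Cn r (rm s x (rm s y q)) ∧ Cn r (rm s x (rm (!s) y q))
  · exact Or.inl hal
  right
  by_cases hal' : ∃ x ∈ L, ∃ z ∈ L, ∃ w ∈ L, x ≠ z ∧ z ≠ w ∧ x ≠ w ∧ Cn r (rm s x (rm s z q)) ∧ Cn r (rm s z (rm s w q)) ∧ Cn r (rm s x (rm (!s) w q))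
  · exact Or.inl hal'
  right
  by_cases ha : ∃ x ∈ L, ∃ z ∈ L, x ≠ z ∧ Cn r (rm s x (rm s z q))
  · obtain ⟨x, hx, z, hz, hxz, axz⟩ := ha
    have bxz : ¬ Cn r (rm s x (rm (!s) z q)) := fun hb => hal ⟨x, hx, z, hz, hxz, axz, hb⟩
    have gx := h.sub hx
    have c1 := h.cn1 hr hx s
    have w1 : (rm s x q).1 ⊆ (rm s x q).2 := wf_rm h.wf gx
    have L1 : L.erase x ⊆ gs (rm s x q) := by rw [gs_rm]; exact Finset.erase_subset_erase _ h.sub
    have l1 : QUB.lam r (rm s x q) (L.erase x) ≤ 1 := by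
      have h1 := lam_rm_le' hr h.wf (t := s) gx (A := L.erase x) (Finset.erase_subset_erase _ h.sub)
      rw [Finset.insert_erase hx] at h1
      have := h.l1
      omega
    have hcard : (L.erase x).card = L.card - 1 := Finset.card_erase_of_mem hx
    obtain ⟨Z, z1, z2, z3, z4⟩ := lfc_two hr w1 c1 L1 l1 (Finset.mem_erase.2 ⟨hxz.symm, hz⟩) (by omega) (s := !s) (by
      rw [rm_comm]; exact bxz)
    obtain ⟨e0, he0⟩ := h.ne
    rw [Finset.mem_sdiff] at he0
    have hne1 : (gs (rm s x q) \ L.erase x).Nonempty := ⟨e0, by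
      rw [gs_rm, Finset.mem_sdiff]
      exact ⟨Finset.mem_erase.2 ⟨fun hh => he0.2 (hh ▸ hx), he0.1⟩, fun hh => he0.2 (Finset.mem_of_mem_erase hh)⟩⟩
    rcases lf_ex w1 c1 L1 hne1 z1 z3 z4 with ⟨M, m1, m2⟩ | ⟨w, w', hww, mw, mw', lw⟩
    · exfalso
      obtain ⟨y, hy⟩ : M.Nonempty := Finset.card_pos.1 (by have := m2.c3; omega)
      have hy2 := Finset.mem_erase.1 (z1 (m1 hy))
      refine hal ⟨x, hx, y, hy2.2, hy2.1.symm, ?_, ?_⟩
      · rw [rm_comm]
        exact m2.cn1 hr hy s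
      · rw [rm_comm]
        exact m2.cn1 hr hy (!s)
    · have nw := Finset.mem_erase.1 (z1 mw)
      have nw' := Finset.mem_erase.1 (z1 mw')
      have h2 : 2 ≤ QUB.lam r q {w, w'} := by
        refine h.min {w, w'} ?_ ?_ (by rw [Finset.card_pair hww])
        · intro v hv
          simp only [Finset.mem_insert, Finset.mem_singleton] at hv
          rcases hv with rfl | rfl
          · exact nw.2
          · exact nw'.2
        · intro hh
          have := Finset.card_pair hww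
          rw [hh] at this
          omega
      have ne0 : ∀ v ∈ L, e0 ≠ v := fun v hv hh => he0.2 (by rw [hh]; exact hv)
      obtain ⟨t1, t2, t3⟩ := lf_tri hr nw.1.symm nw'.1.symm hww (ne0 x hx) (ne0 w nw.2) (ne0 w' nw'.2) he0.1 gx (h.sub nw.2)
        (h.sub nw'.2) h2 lw c1
      have hzw : z ≠ w := fun hh => t1 (hh ▸ axz)
      have hzw' : z ≠ w' := fun hh => t2 (hh ▸ axz)
      have b1 := tu x hx w nw.2 nw.1.symm t1
      have b2 := tu x hx w' nw'.2 nw'.1.symm t2
      have n1 : ¬ Cn r (rm s z (rm s w q)) := fun hh => hal' ⟨x, hx, z, hz, w, nw.2, hxz, hzw, nw.1.symm, axz, hh, b1⟩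
      have n2 : ¬ Cn r (rm s z (rm s w' q)) := fun hh => hal' ⟨x, hx, z, hz, w', nw'.2, hxz, hzw', nw'.1.symm, axz, hh, b2⟩
      refine ⟨w, nw.2, w', nw'.2, x, hx, z, hz, hww, nw.1, hzw.symm, nw'.1, hzw'.symm, hxz, ?_, ?_, ?_, ?_, ?_⟩
      · exact tu w nw.2 x hx nw.1 (by rw [rm_comm]; exact t1)
      · exact tu w nw.2 z hz hzw.symm (by rw [rm_comm]; exact n1)
      · exact tu w' nw'.2 x hx nw'.1 (by rw [rm_comm]; exact t2)
      · exact tu w' nw'.2 z hz hzw'.symm (by rw [rm_comm]; exact n2)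
      · exact tu w nw.2 w' nw'.2 hww t3
  · have hb : ∀ x ∈ L, ∀ z ∈ L, x ≠ z → Cn r (rm s x (rm (!s) z q)) := fun x hx z hz hxz =>
      tu x hx z hz hxz fun hh => ha ⟨x, hx, z, hz, hxz, hh⟩
    obtain ⟨S, hS, hS4⟩ := Finset.exists_subset_card_eq h4
    obtain ⟨y, w, u, z, n1, n2, n3, n4, n5, n6, rfl⟩ := Finset.card_eq_four.1 hS4
    have my : y ∈ L := hS (by simp)
    have mw : w ∈ L := hS (by simp)
    have mu : u ∈ L := hS (by simp)
    have mz : z ∈ L := hS (by simp)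
    exact ⟨y, my, w, mw, u, mu, z, mz, n1, n2, n3, n4, n5, n6, hb y my u mu n2, hb y my z mz n3, hb w mw u mu n4, hb w mw z mz n5,
      hb y my w mw n1⟩

end Pool.Agent.QU
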