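import Pool.Agent.QUT.Fone
import Pool.Agent.QUY.Step

/-!
# QUT/Ffive: the pair of removals on the two sides of a 2-side (F5)

`X`, `Y` are the two sides of a separation of order at most two of `rm s w p`; `x ∈ X`, `y ∈ Y` are removals such that `rm t x p` and
`rm u y p` are 3-connected.  Then every separation of order at most two of `rm u y (rm t x p)` with two elements on each side has a side with
exactly two elements.  In particular `rm u y (rm t x p)` is connected and `Ok`.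
-/

set_option autoImplicit false

open QUB

namespace Pool.Agent.QU

variable {E : Type} [DecidableEq E] {r : Finset E → ℤ} {p : Itv E}

/-- the setting of F5 (symmetric in the two sides) -/
structure Fv (r : Finset E → ℤ) (p : Itv E) (w : E) (s : Bool) (X Y : Finset E) (x : E) (t : Bool) (y : E) (u : Bool) : Prop where
  hp : p.1 ⊆ p.2
  hw : w ∈ gs p
  hXY : X ∪ Y = (gs p).erase w
  hd : Disjoint X Y
  hx : x ∈ X
  hy : y ∈ Y
  hX2 : 2 ≤ (X.erase x).card
  hY2 : 2 ≤ (Y.erase y).card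
  hlX : QUB.lam r (QUB.rm s w p) X ≤ 1
  hlY : QUB.lam r (QUB.rm s w p) Y ≤ 1
  h3x : Th3 r (QUB.rm t x p)
  h3y : Th3 r (QUB.rm u y p)
  cxw : Cn r (QUB.rm t x (QUB.rm s w p))
  cyw : Cn r (QUB.rm u y (QUB.rm s w p))
  cQ : Cn r (QUB.rm u y (QUB.rm t x (QUB.rm s w p)))

variable {w x y : E} {s t u : Bool} {X Y : Finset E}

theorem Fv.symm (h : Fv r p w s X Y x t y u) : Fv r p w s Y X y u x t where
  hp := h.hp
  hw := h.hw
  hXY := by rw [Finset.union_comm]; exact h.hXY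
  hd := h.hd.symm
  hx := h.hy
  hy := h.hx
  hX2 := h.hY2
  hY2 := h.hX2
  hlX := h.hlY
  hlY := h.hlX
  h3x := h.h3y
  h3y := h.h3x
  cxw := h.cyw
  cyw := h.cxw
  cQ := by rw [QUB.rm_comm]; exact h.cQ

private theorem v_mem (h : Fv r p w s X Y x t y u) : x ∈ gs p ∧ y ∈ gs p ∧ x ≠ w ∧ y ≠ w ∧ x ≠ y ∧ w ∉ X ∧ w ∉ Y ∧ x ∉ Y ∧ y ∉ X := by
  have hX : X ⊆ (gs p).erase w := h.hXY ▸ Finset.subset_union_left
  have hY : Y ⊆ (gs p).erase w := h.hXY ▸ Finset.subset_union_right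
  have h1 := Finset.mem_erase.1 (hX h.hx)
  have h2 := Finset.mem_erase.1 (hY h.hy)
  refine ⟨h1.2, h2.2, h1.1, h2.1, ?_, fun h' => (Finset.mem_erase.1 (hX h')).1 rfl, fun h' => (Finset.mem_erase.1 (hY h')).1 rfl,
    fun h' => Finset.disjoint_left.1 h.hd h.hx h', fun h' => Finset.disjoint_left.1 h.hd h' h.hy⟩
  rintro rfl
  exact Finset.disjoint_left.1 h.hd h.hx h.hy

/-- `d_y` of `M_x` vanishes below `X - x` -/
private theorem v_zero (hr : Rk r) (h : Fv r p w s X Y x t y u) {A : Finset E} (hA : A ⊆ X.erase x) :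
    QUB.lam r (QUB.rm t x p) A ≤ QUB.lam r (QUB.rm u y (QUB.rm t x p)) A := by
  obtain ⟨hxG, hyG, hxw, hyw, hxy, wX, wY, xY, yX⟩ := v_mem h
  have hX : X ⊆ (gs p).erase w := h.hXY ▸ Finset.subset_union_left
  have hY : Y ⊆ (gs p).erase w := h.hXY ▸ Finset.subset_union_right
  have hpx : (QUB.rm t x p).1 ⊆ (QUB.rm t x p).2 := QUB.wf_rm h.hp hxG
  have hpw : (QUB.rm s w p).1 ⊆ (QUB.rm s w p).2 := QUB.wf_rm h.hp h.hw
  have comm : QUB.rm t x (QUB.rm s w p) = QUB.rm s w (QUB.rm t x p) := QUB.rm_comm t s p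
  have gx : gs (QUB.rm t x p) = (gs p).erase x := QUB.gs_rm t x p
  have gxw : gs (QUB.rm s w (QUB.rm t x p)) = ((gs p).erase x).erase w := by rw [QUB.gs_rm, gx]
  have hwx : w ∈ gs (QUB.rm t x p) := by rw [gx]; exact Finset.mem_erase.2 ⟨hxw.symm, h.hw⟩
  have hyx : y ∈ gs (QUB.rm t x p) := by rw [gx]; exact Finset.mem_erase.2 ⟨hxy.symm, hyG⟩
  have hyxw : y ∈ gs (QUB.rm s w (QUB.rm t x p)) := by rw [gxw]; exact Finset.mem_erase.2 ⟨hyw, Finset.mem_erase.2 ⟨hxy.symm, hyG⟩⟩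
  have hXx : X.erase x ⊆ (((gs p).erase x).erase w).erase y := by
    intro z hz
    have h1 := Finset.mem_erase.1 hz
    have h2 := Finset.mem_erase.1 (hX h1.2)
    exact Finset.mem_erase.2 ⟨fun h' => yX (h' ▸ h1.2), Finset.mem_erase.2 ⟨h2.1, Finset.mem_erase.2 ⟨h1.1, h2.2⟩⟩⟩
  have hXne : (X.erase x).Nonempty := Finset.card_pos.1 (by have := h.hX2; omega)
  have hYne : (Y.erase y).Nonempty := Finset.card_pos.1 (by have := h.hY2; omega)
  have cxw' : Cn r (QUB.rm s w (QUB.rm t x p)) := comm ▸ h.cxw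
  have sing : 1 ≤ QUB.lam r (QUB.rm s w (QUB.rm t x p)) {y} := by
    refine cxw'.single hyxw ?_
    rw [gxw]
    obtain ⟨z, hz⟩ := hXne
    exact ⟨z, Finset.mem_erase.2 ⟨(Finset.mem_erase.1 (hXx hz)).1, (Finset.mem_erase.1 (hXx hz)).2⟩⟩
  have h1 := lam_L4 (p := QUB.rm t x p) hr hpx (s := s) (t := u) hwx hyx hyw (A := A) (by rw [gx]; exact hA.trans hXx) sing
  have h2 := lam_L3 (p := QUB.rm s w (QUB.rm t x p)) hr (t := u) (x := y) (A := A) (B := X.erase x) hyxw hA (by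
    rw [gxw]; exact hXx)
  have h3 : QUB.lam r (QUB.rm s w (QUB.rm t x p)) (X.erase x) ≤ 1 := by
    rw [← comm]
    refine (lam_rm_le' (p := QUB.rm s w p) hr hpw (by rw [QUB.gs_rm]; exact Finset.mem_erase.2 ⟨hxw, hxG⟩) (by
      rw [QUB.gs_rm]; exact Finset.erase_subset_erase _ hX)).trans ?_
    rw [Finset.insert_erase h.hx]
    exact h.hlX
  have h4 : 1 ≤ QUB.lam r (QUB.rm u y (QUB.rm s w (QUB.rm t x p))) (X.erase x) := by
    rw [← comm]
    refine h.cQ _ ?_ hXne ?_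
    · rw [QUB.gs_rm, QUB.gs_rm, QUB.gs_rm]
      intro z hz
      have h1 := Finset.mem_erase.1 (hXx hz)
      have h2 := Finset.mem_erase.1 h1.2
      have h3 := Finset.mem_erase.1 h2.2
      exact Finset.mem_erase.2 ⟨h1.1, Finset.mem_erase.2 ⟨h3.1, Finset.mem_erase.2 ⟨h2.1, h3.2⟩⟩⟩
    · obtain ⟨z, hz⟩ := hYne
      refine ⟨z, ?_⟩
      have h1 := Finset.mem_erase.1 hz
      rw [QUB.gs_rm, QUB.gs_rm, QUB.gs_rm]
      refine Finset.mem_sdiff.2 ⟨Finset.mem_erase.2 ⟨h1.1, Finset.mem_erase.2 ⟨fun h' => xY (h' ▸ h1.2), hY h1.2⟩⟩, fun h' => ?_⟩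
      exact Finset.disjoint_left.1 h.hd (Finset.mem_erase.1 h').2 h1.2
  linarith

/-- no side inside of `X + w` -/
private theorem v_side (hr : Rk r) (h : Fv r p w s X Y x t y u) {B : Finset E} (hB : B ⊆ insert w (X.erase x)) (hB2 : 2 ≤ B.card)
    (hA2 : 2 ≤ (((gs p).erase x).erase y \ B).card) (hl : QUB.lam r (QUB.rm u y (QUB.rm t x p)) B ≤ 1) : False := by
  obtain ⟨hxG, hyG, hxw, hyw, hxy, wX, wY, xY, yX⟩ := v_mem h
  have hX : X ⊆ (gs p).erase w := h.hXY ▸ Finset.subset_union_left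
  have hY : Y ⊆ (gs p).erase w := h.hXY ▸ Finset.subset_union_right
  have hYG : Y ⊆ gs p := hY.trans (Finset.erase_subset _ _)
  have hpy : (QUB.rm u y p).1 ⊆ (QUB.rm u y p).2 := QUB.wf_rm h.hp hyG
  -- B in the ground set
  have hBm : ∀ z ∈ B, z = w ∨ (z ≠ x ∧ z ∈ X) := by
    intro z hz
    rcases Finset.mem_insert.1 (hB hz) with h1 | h1
    · exact Or.inl h1
    · exact Or.inr (Finset.mem_erase.1 h1)
  have hBG : B ⊆ gs p := by
    intro z hz
    rcases hBm z hz with rfl | h1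
    · exact h.hw
    · exact (Finset.mem_erase.1 (hX h1.2)).2
  have hBx : x ∉ B := fun h' => by
    rcases hBm x h' with h1 | h1
    · exact hxw h1
    · exact h1.1 rfl
  have hBy : y ∉ B := fun h' => by
    rcases hBm y h' with h1 | h1
    · exact hyw h1
    · exact yX h1.2
  have hBxy : B ⊆ ((gs p).erase x).erase y := fun z hz =>
    Finset.mem_erase.2 ⟨fun h' => hBy (h' ▸ hz), Finset.mem_erase.2 ⟨fun h' => hBx (h' ▸ hz), hBG hz⟩⟩
  -- (L5)
  have h5 := lam_L5 (p := p) hr h.hp (s := t) (t := u) (w := x) (e := y) (A := B) hxG hyG hxy.symm hBxy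
  -- (L3)
  have hwX : insert w X ⊆ (gs p).erase y := by
    intro z hz
    rcases Finset.mem_insert.1 hz with rfl | h1
    · exact Finset.mem_erase.2 ⟨hyw.symm, h.hw⟩
    · exact Finset.mem_erase.2 ⟨fun h' => yX (h' ▸ h1), (Finset.mem_erase.1 (hX h1)).2⟩
  have hBi : insert x B ⊆ insert w X := by
    intro z hz
    rcases Finset.mem_insert.1 hz with rfl | h1
    · exact Finset.mem_insert_of_mem h.hx
    · rcases hBm z h1 with rfl | h2
      · exact Finset.mem_insert_self _ _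
      · exact Finset.mem_insert_of_mem h2.2
  have h3 := lam_L3 (p := p) hr (t := u) (x := y) (A := insert x B) (B := insert w X) hyG hBi hwX
  -- the two values at `X + w`
  have eY : gs p \ insert w X = Y := by
    ext z
    have e1 : z ∈ (gs p).erase w ↔ z ∈ X ∨ z ∈ Y := by rw [← h.hXY, Finset.mem_union]
    rw [Finset.mem_erase] at e1
    have e2 : z ∈ X → z ∉ Y := fun h' => Finset.disjoint_left.1 h.hd h'
    rw [Finset.mem_sdiff, Finset.mem_insert]
    tauto
  have l1 : QUB.lam r p (insert w X) ≤ 2 := by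
    have h6 := lam_compl r (p := p) h.hp (A := insert w X) (hwX.trans (Finset.erase_subset _ _))
    rw [eY] at h6
    have h7 := lam_le_rm (p := p) hr (t := s) (x := w) (A := Y) h.hw hY
    have h8 := h.hlY
    linarith
  have l2 : 2 ≤ QUB.lam r (QUB.rm u y p) (insert w X) := by
    refine h.h3y (insert w X) (by rw [show gs (QUB.rm u y p) = (gs p).erase y from QUB.gs_rm u y p]; exact hwX) ?_ ?_
    · have h6 : (insert w X).card = X.card + 1 := Finset.card_insert_of_notMem wX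
      have h7 := Finset.card_le_card (Finset.erase_subset x X)
      have h8 := h.hX2
      omega
    · have h6 : (gs (QUB.rm u y p) \ insert w X) = Y.erase y := by
        rw [show gs (QUB.rm u y p) = (gs p).erase y from QUB.gs_rm u y p, ← eY]
        ext z
        simp only [Finset.mem_sdiff, Finset.mem_erase]
        tauto
      rw [h6]
      exact h.hY2
  have h9 := h.h3x B (by
    rw [show gs (QUB.rm t x p) = (gs p).erase x from QUB.gs_rm t x p]
    exact hBxy.trans (Finset.erase_subset _ _)) hB2 (by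
    rw [show gs (QUB.rm t x p) = (gs p).erase x from QUB.gs_rm t x p]
    exact hA2.trans (Finset.card_le_card (Finset.sdiff_subset_sdiff (Finset.erase_subset _ _) (Finset.Subset.refl B))))
  have h10 : QUB.lam r (QUB.rm t x p) B = lam r (QUB.rm t x p) B := rfl
  linarith

/-- one quarter -/
private theorem v_quart (hr : Rk r) (h : Fv r p w s X Y x t y u) {A : Finset E} (hA : A ⊆ ((gs p).erase x).erase y) (hwA : w ∉ A)
    (hAne : A.Nonempty) (hl : QUB.lam r (QUB.rm u y (QUB.rm t x p)) A ≤ 1) {b : E} (hbA : b ∉ A) (hby : b ≠ y) (hbY : b ∈ Y) :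
    (A ∩ X).card ≤ 1 := by
  by_contra hcon
  obtain ⟨hxG, hyG, hxw, hyw, hxy, wX, wY, xY, yX⟩ := v_mem h
  have hX : X ⊆ (gs p).erase w := h.hXY ▸ Finset.subset_union_left
  have hY : Y ⊆ (gs p).erase w := h.hXY ▸ Finset.subset_union_right
  have hpx : (QUB.rm t x p).1 ⊆ (QUB.rm t x p).2 := QUB.wf_rm h.hp hxG
  have hpw : (QUB.rm s w p).1 ⊆ (QUB.rm s w p).2 := QUB.wf_rm h.hp h.hw
  have gQ : gs (QUB.rm u y (QUB.rm t x (QUB.rm s w p))) = (((gs p).erase w).erase x).erase y := by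
    rw [QUB.gs_rm, QUB.gs_rm, QUB.gs_rm]
  have gxy : gs (QUB.rm u y (QUB.rm t x p)) = ((gs p).erase x).erase y := by rw [QUB.gs_rm, QUB.gs_rm]
  have comm : QUB.rm u y (QUB.rm t x (QUB.rm s w p)) = QUB.rm s w (QUB.rm u y (QUB.rm t x p)) := by
    rw [QUB.rm_comm t s, QUB.rm_comm u s]
  have hwxy : w ∈ gs (QUB.rm u y (QUB.rm t x p)) := by
    rw [gxy]
    exact Finset.mem_erase.2 ⟨hyw.symm, Finset.mem_erase.2 ⟨hxw.symm, h.hw⟩⟩
  have xA : x ∉ A := fun h' => (Finset.mem_erase.1 (Finset.mem_erase.1 (hA h')).2).1 rfl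
  have yA : y ∉ A := fun h' => (Finset.mem_erase.1 (hA h')).1 rfl
  have hAQ : A ⊆ (((gs p).erase w).erase x).erase y := by
    intro z hz
    have h1 := Finset.mem_erase.1 (hA hz)
    have h2 := Finset.mem_erase.1 h1.2
    exact Finset.mem_erase.2 ⟨h1.1, Finset.mem_erase.2 ⟨h2.1, Finset.mem_erase.2 ⟨fun h' => hwA (h' ▸ hz), h2.2⟩⟩⟩
  have hXQ : X.erase x ⊆ (((gs p).erase w).erase x).erase y := by
    intro z hz
    have h1 := Finset.mem_erase.1 hz
    exact Finset.mem_erase.2 ⟨fun h' => yX (h' ▸ h1.2), Finset.mem_erase.2 ⟨h1.1, hX h1.2⟩⟩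
  have hbQ : b ∈ (((gs p).erase w).erase x).erase y :=
    Finset.mem_erase.2 ⟨hby, Finset.mem_erase.2 ⟨fun h' => xY (h' ▸ hbY), hY hbY⟩⟩
  -- A has connectivity one in Q
  have hA1 : 1 ≤ QUB.lam r (QUB.rm u y (QUB.rm t x (QUB.rm s w p))) A := by
    refine h.cQ A (by rw [gQ]; exact hAQ) hAne ⟨b, ?_⟩
    rw [gQ]
    exact Finset.mem_sdiff.2 ⟨hbQ, hbA⟩
  -- `X - x` in Q
  have hX1 : QUB.lam r (QUB.rm u y (QUB.rm t x (QUB.rm s w p))) (X.erase x) ≤ 1 := by
    have h1 := lam_rm_le (p := QUB.rm t x (QUB.rm s w p)) hr (t := u) (x := y) (A := X.erase x)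
      (by rw [QUB.gs_rm, QUB.gs_rm]; exact Finset.mem_erase.2 ⟨hxy.symm, Finset.mem_erase.2 ⟨hyw, hyG⟩⟩)
      (by rw [QUB.gs_rm, QUB.gs_rm]; exact hXQ)
    have h2 := lam_rm_le' (p := QUB.rm s w p) hr hpw (t := t) (x := x) (A := X.erase x)
      (by rw [QUB.gs_rm]; exact Finset.mem_erase.2 ⟨hxw, hxG⟩) (by rw [QUB.gs_rm]; exact Finset.erase_subset_erase _ hX)
    rw [Finset.insert_erase h.hx] at h2
    have h3 := h.hlX
    linarith
  have hAw : QUB.lam r (QUB.rm u y (QUB.rm t x (QUB.rm s w p))) A ≤ QUB.lam r (QUB.rm u y (QUB.rm t x p)) A := by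
    rw [comm]
    exact lam_rm_le (p := QUB.rm u y (QUB.rm t x p)) hr hwxy (by
      rw [gxy]
      exact fun z hz => Finset.mem_erase.2 ⟨fun h' => hwA (h' ▸ hz), hA hz⟩)
  have e1 : A ∩ X.erase x = A ∩ X := by
    ext z
    simp only [Finset.mem_inter, Finset.mem_erase]
    constructor
    · exact fun h1 => ⟨h1.1, h1.2.2⟩
    · exact fun h1 => ⟨h1.1, fun h' => xA (h' ▸ h1.1), h1.2⟩
  obtain ⟨a, ha⟩ := hAne
  have hu : 1 ≤ QUB.lam r (QUB.rm u y (QUB.rm t x (QUB.rm s w p))) (A ∪ X.erase x) := by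
    refine h.cQ _ (by rw [gQ]; exact Finset.union_subset hAQ hXQ) ⟨a, Finset.mem_union_left _ ha⟩ ⟨b, ?_⟩
    rw [gQ]
    refine Finset.mem_sdiff.2 ⟨hbQ, fun h' => ?_⟩
    rcases Finset.mem_union.1 h' with h' | h'
    · exact hbA h'
    · exact Finset.disjoint_left.1 h.hd (Finset.mem_erase.1 h').2 hbY
  have hs := lam_sub (p := QUB.rm u y (QUB.rm t x (QUB.rm s w p))) hr A (X.erase x)
  rw [e1] at hs
  -- `d_w` vanishes below A
  have hdw := lam_L3 (p := QUB.rm u y (QUB.rm t x p)) hr (t := s) (x := w) (A := A ∩ X) (B := A) hwxy Finset.inter_subset_left (by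
    rw [gxy]
    exact fun z hz => Finset.mem_erase.2 ⟨fun h' => hwA (h' ▸ hz), hA hz⟩)
  rw [← comm] at hdw
  have hz := v_zero hr h (A := A ∩ X) (by rw [← e1]; exact Finset.inter_subset_right)
  have h9 := h.h3x (A ∩ X) (by
    rw [show gs (QUB.rm t x p) = (gs p).erase x from QUB.gs_rm t x p]
    exact Finset.inter_subset_left.trans (hA.trans (Finset.erase_subset _ _))) (by omega) (by
    rw [show gs (QUB.rm t x p) = (gs p).erase x from QUB.gs_rm t x p]
    have h1 : ({w, y} : Finset E) ⊆ (gs p).erase x \ (A ∩ X) := by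
      intro z hz
      rw [Finset.mem_insert, Finset.mem_singleton] at hz
      rcases hz with rfl | rfl
      · exact Finset.mem_sdiff.2 ⟨Finset.mem_erase.2 ⟨hxw.symm, h.hw⟩, fun h' => hwA (Finset.mem_inter.1 h').1⟩
      · exact Finset.mem_sdiff.2 ⟨Finset.mem_erase.2 ⟨hxy.symm, hyG⟩, fun h' => yA (Finset.mem_inter.1 h').1⟩
    have h2 := Finset.card_le_card h1
    rw [Finset.card_pair hyw.symm] at h2
    exact h2)
  have h10 : QUB.lam r (QUB.rm t x p) (A ∩ X) = lam r (QUB.rm t x p) (A ∩ X) := rfl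
  linarith

/-- F5, the side without `w` -/
private theorem v_key (hr : Rk r) (h : Fv r p w s X Y x t y u) {A : Finset E} (hA : A ⊆ ((gs p).erase x).erase y) (hwA : w ∉ A)
    (hA2 : 2 ≤ A.card) (hB2 : 2 ≤ (((gs p).erase x).erase y \ A).card) (hl : QUB.lam r (QUB.rm u y (QUB.rm t x p)) A ≤ 1) :
    A.card ≤ 2 := by
  obtain ⟨hxG, hyG, hxw, hyw, hxy, wX, wY, xY, yX⟩ := v_mem h
  have hX : X ⊆ (gs p).erase w := h.hXY ▸ Finset.subset_union_left
  have hY : Y ⊆ (gs p).erase w := h.hXY ▸ Finset.subset_union_right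
  have gxy : gs (QUB.rm u y (QUB.rm t x p)) = ((gs p).erase x).erase y := by rw [QUB.gs_rm, QUB.gs_rm]
  have hpxy : (QUB.rm u y (QUB.rm t x p)).1 ⊆ (QUB.rm u y (QUB.rm t x p)).2 :=
    QUB.wf_rm (QUB.wf_rm h.hp hxG) (by rw [QUB.gs_rm]; exact Finset.mem_erase.2 ⟨hxy.symm, hyG⟩)
  have hne : A.Nonempty := Finset.card_pos.1 (by omega)
  set B := ((gs p).erase x).erase y \ A with hB
  have hlB : QUB.lam r (QUB.rm u y (QUB.rm t x p)) B ≤ 1 := by
    have e1 := lam_compl r (p := QUB.rm u y (QUB.rm t x p)) hpxy (A := A) (by rw [gxy]; exact hA)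
    rw [gxy] at e1
    rw [hB, e1]
    exact hl
  have eA : ((gs p).erase x).erase y \ B = A := by
    rw [hB, Finset.sdiff_sdiff_eq_self hA]
  have eA' : ((gs p).erase y).erase x \ B = A := by
    rw [Finset.erase_right_comm]
    exact eA
  have spl : ∀ z ∈ B, z = w ∨ z ∈ X.erase x ∨ z ∈ Y.erase y := by
    intro z hz
    by_cases hzw : z = w
    · exact Or.inl hzw
    · have h1 := Finset.mem_erase.1 (Finset.mem_sdiff.1 hz).1
      have h2 := Finset.mem_erase.1 h1.2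
      have h3 : z ∈ X ∪ Y := by rw [h.hXY]; exact Finset.mem_erase.2 ⟨hzw, h2.2⟩
      rcases Finset.mem_union.1 h3 with h4 | h4
      · exact Or.inr (Or.inl (Finset.mem_erase.2 ⟨h2.1, h4⟩))
      · exact Or.inr (Or.inr (Finset.mem_erase.2 ⟨h1.1, h4⟩))
  have c1 : ∃ b ∈ B, b ∈ Y.erase y := by
    by_contra hcon
    push Not at hcon
    refine v_side hr h (B := B) ?_ hB2 (by rw [eA]; exact hA2) hlB
    intro z hz
    rcases spl z hz with h1 | h1 | h1
    · exact Finset.mem_insert.2 (Or.inl h1)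
    · exact Finset.mem_insert_of_mem h1
    · exact absurd h1 (hcon z hz)
  have c2 : ∃ b ∈ B, b ∈ X.erase x := by
    by_contra hcon
    push Not at hcon
    refine v_side hr h.symm (B := B) ?_ hB2 (by rw [eA']; exact hA2) (by rw [QUB.rm_comm]; exact hlB)
    intro z hz
    rcases spl z hz with h1 | h1 | h1
    · exact Finset.mem_insert.2 (Or.inl h1)
    · exact absurd h1 (hcon z hz)
    · exact Finset.mem_insert_of_mem h1
  obtain ⟨b, hb, hbY⟩ := c1
  obtain ⟨b', hb', hbX⟩ := c2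
  have k1 := v_quart hr h hA hwA hne hl (b := b) (Finset.mem_sdiff.1 hb).2 (Finset.mem_erase.1 hbY).1 (Finset.mem_erase.1 hbY).2
  have k2 := v_quart hr h.symm (A := A) (by rw [Finset.erase_right_comm]; exact hA) hwA hne (by rw [QUB.rm_comm]; exact hl) (b := b')
    (Finset.mem_sdiff.1 hb').2 (Finset.mem_erase.1 hbX).1 (Finset.mem_erase.1 hbX).2
  have hcov : A ⊆ (A ∩ X) ∪ (A ∩ Y) := by
    intro z hz
    have h1 := Finset.mem_erase.1 (hA hz)
    have h2 := Finset.mem_erase.1 h1.2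
    have h3 : z ∈ X ∪ Y := by rw [h.hXY]; exact Finset.mem_erase.2 ⟨fun h' => hwA (h' ▸ hz), h2.2⟩
    rcases Finset.mem_union.1 h3 with h4 | h4
    · exact Finset.mem_union_left _ (Finset.mem_inter.2 ⟨hz, h4⟩)
    · exact Finset.mem_union_right _ (Finset.mem_inter.2 ⟨hz, h4⟩)
  have h6 := (Finset.card_le_card hcov).trans (Finset.card_union_le _ _)
  omega

/-- F5: a separation of order at most two of `M_xy` with two elements on each side has a side with two elements. -/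
theorem Fv.five (hr : Rk r) (h : Fv r p w s X Y x t y u) {A : Finset E} (hA : A ⊆ gs (QUB.rm u y (QUB.rm t x p)))
    (hl : QUB.lam r (QUB.rm u y (QUB.rm t x p)) A ≤ 1) :
    A.card ≤ 2 ∨ (gs (QUB.rm u y (QUB.rm t x p)) \ A).card ≤ 2 := by
  obtain ⟨hxG, hyG, hxw, hyw, hxy, -⟩ := v_mem h
  have gxy : gs (QUB.rm u y (QUB.rm t x p)) = ((gs p).erase x).erase y := by rw [QUB.gs_rm, QUB.gs_rm]
  have hpxy : (QUB.rm u y (QUB.rm t x p)).1 ⊆ (QUB.rm u y (QUB.rm t x p)).2 :=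
    QUB.wf_rm (QUB.wf_rm h.hp hxG) (by rw [QUB.gs_rm]; exact Finset.mem_erase.2 ⟨hxy.symm, hyG⟩)
  rw [gxy] at hA ⊢
  by_cases h1 : 2 ≤ A.card
  · by_cases h2 : 2 ≤ (((gs p).erase x).erase y \ A).card
    · by_cases hwA : w ∈ A
      · right
        refine v_key hr h Finset.sdiff_subset (fun h' => (Finset.mem_sdiff.1 h').2 hwA) h2 ?_ ?_
        · rw [Finset.sdiff_sdiff_eq_self hA]
          exact h1
        · have e1 := lam_compl r (p := QUB.rm u y (QUB.rm t x p)) hpxy (A := A) (by rw [gxy]; exact hA)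
          rw [gxy] at e1
          rw [e1]
          exact hl
      · left
        exact v_key hr h hA hwA h1 h2 hl
    · right
      omega
  · left
    omega

/-- F5: `M_xy` is `Ok` -/
theorem Fv.ok (hr : Rk r) (h : Fv r p w s X Y x t y u) : Ok r (QUB.rm u y (QUB.rm t x p)) := by
  intro A hA hl hh
  obtain ⟨⟨N, -, hN⟩, ⟨N', -, hN'⟩⟩ := hh
  have c1 := Finset.card_le_card (Finset.inter_subset_right : N ∩ A ⊆ A)
  have c2 := Finset.card_le_card (Finset.inter_subset_right : N' ∩ (gs (QUB.rm u y (QUB.rm t x p)) \ A) ⊆ gs (QUB.rm u y (QUB.rm t x p)) \ A)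
  rcases h.five hr hA hl with h1 | h1 <;> omega

/-- F5: `M_xy` is connected -/
theorem Fv.cn (hr : Rk r) (h : Fv r p w s X Y x t y u) (cx : Cn r (QUB.rm t x p)) : Cn r (QUB.rm u y (QUB.rm t x p)) := by
  obtain ⟨hxG, hyG, hxw, hyw, hxy, wX, wY, xY, yX⟩ := v_mem h
  have hX : X ⊆ (gs p).erase w := h.hXY ▸ Finset.subset_union_left
  have hY : Y ⊆ (gs p).erase w := h.hXY ▸ Finset.subset_union_right
  refine th3_cn hr (QUB.wf_rm h.hp hxG) cx h.h3x ?_ ?_ u
  · have e1 : gs (QUB.rm t x p) = (gs p).erase x := QUB.gs_rm t x p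
    rw [e1]
    have h1 : X.erase x ∪ Y ⊆ (gs p).erase x := by
      intro z hz
      rcases Finset.mem_union.1 hz with h2 | h2
      · exact Finset.mem_erase.2 ⟨(Finset.mem_erase.1 h2).1, (Finset.mem_erase.1 (hX (Finset.mem_erase.1 h2).2)).2⟩
      · exact Finset.mem_erase.2 ⟨fun h' => xY (h' ▸ h2), (Finset.mem_erase.1 (hY h2)).2⟩
    have h2 := Finset.card_le_card h1
    rw [Finset.card_union_of_disjoint (Finset.disjoint_of_subset_left (Finset.erase_subset _ _) h.hd)] at h2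
    have h3 := Finset.card_le_card (Finset.erase_subset y Y)
    have h4 := h.hX2
    have h5 := h.hY2
    omega
  · rw [QUB.gs_rm]
    exact Finset.mem_erase.2 ⟨hxy.symm, hyG⟩

/-- the setting of F5 from a 2-side -/
theorem fv_of (hr : Rk r) (hp : p.1 ⊆ p.2) (hc : Cn r p) (h3 : Th3 r p) (hn : 5 ≤ (gs p).card) (hw : w ∈ gs p) (hX : TS r p w s X)
    (hX3 : 3 ≤ X.card) (hY3 : 3 ≤ ((gs p).erase w \ X).card) (hx : x ∈ X) (hy : y ∈ (gs p).erase w \ X)
    (h3x : Th3 r (QUB.rm t x p)) (h3y : Th3 r (QUB.rm u y p)) : Fv r p w s X ((gs p).erase w \ X) x t y u := by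
  have hX1 : X ⊆ gs p := hX.1.trans (Finset.erase_subset _ _)
  have hY1 : (gs p).erase w \ X ⊆ gs p := Finset.sdiff_subset.trans (Finset.erase_subset _ _)
  have hxG : x ∈ gs p := hX1 hx
  have hyG : y ∈ gs p := hY1 hy
  have hxw : x ≠ w := (Finset.mem_erase.1 (hX.1 hx)).1
  have hyw : y ≠ w := (Finset.mem_erase.1 (Finset.mem_sdiff.1 hy).1).1
  have hd : Disjoint X ((gs p).erase w \ X) := Finset.disjoint_sdiff
  have hXY : X ∪ ((gs p).erase w \ X) = (gs p).erase w := Finset.union_sdiff_of_subset hX.1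
  have cx : Cn r (QUB.rm t x p) := th3_cn hr hp hc h3 (by omega) hxG t
  have cy : Cn r (QUB.rm u y p) := th3_cn hr hp hc h3 (by omega) hyG u
  have c1 : Cn r (QUB.rm t x (QUB.rm s w p)) := by
    rw [QUB.rm_comm]
    refine th3_cn hr (QUB.wf_rm hp hxG) cx h3x ?_ ?_ s
    · rw [show gs (QUB.rm t x p) = (gs p).erase x from QUB.gs_rm t x p, Finset.card_erase_of_mem hxG]
      omega
    · rw [QUB.gs_rm]
      exact Finset.mem_erase.2 ⟨hxw.symm, hw⟩
  have c2 : Cn r (QUB.rm u y (QUB.rm s w p)) := by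
    rw [QUB.rm_comm]
    refine th3_cn hr (QUB.wf_rm hp hyG) cy h3y ?_ ?_ s
    · rw [show gs (QUB.rm u y p) = (gs p).erase y from QUB.gs_rm u y p, Finset.card_erase_of_mem hyG]
      omega
    · rw [QUB.gs_rm]
      exact Finset.mem_erase.2 ⟨hyw.symm, hw⟩
  have hx2 : 2 ≤ (X.erase x).card := by rw [Finset.card_erase_of_mem hx]; omega
  have hy2 : 2 ≤ (((gs p).erase w \ X).erase y).card := by rw [Finset.card_erase_of_mem hy]; omega
  exact
    { hp := hp
      hw := hw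
      hXY := hXY
      hd := hd
      hx := hx
      hy := hy
      hX2 := hx2
      hY2 := hy2
      hlX := hX.2.2.2
      hlY := (TS.compl hp hw hX).2.2.2
      h3x := h3x
      h3y := h3y
      cxw := c1
      cyw := c2
      cQ := cn_two hr (QUB.wf_rm hp hw) (by rw [QUB.gs_rm]; exact hXY) hd hx hy (Finset.card_pos.1 (by omega)) (Finset.card_pos.1 (by omega))
        hX.2.2.2 c1 c2 }

end Pool.Agent.QU
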