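import Pool.Agent.QUT.Tor

/-!
# QUT/Small: small torsos are rich; rich minors avoid one of six elements

`small_rich`: in a box without triangles and triads, a 3-connected torso of a single removal with five or six elements is rich.
`out_rich`: among six elements of a rich box some element has a rich removal.
-/

set_option autoImplicit false

open QUB

namespace Pool.Agent.QU

section

variable {E : Type} [DecidableEq E] {r : Finset E → ℤ}

/-- pairs are independent and their complements span -/
theorem sm_two (hr : QUB.Rk r) {p : Itv E} (hc : Th3 r p) (h : 4 ≤ (gs p).card) {x y : E} (hx : x ∈ gs p) (hy : y ∈ gs p)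
    (hxy : x ≠ y) : r (p.1 ∪ {x, y}) = r p.1 + 2 ∧ r (p.2 \ {x, y}) = r p.2 := by
  have h1 : ({x, y} : Finset E) ⊆ gs p := by
    intro z hz
    rcases Finset.mem_insert.1 hz with rfl | hz
    · exact hx
    · rw [Finset.mem_singleton.1 hz]
      exact hy
  have hcd : ({x, y} : Finset E).card = 2 := Finset.card_pair hxy
  have h2 := hc {x, y} h1 hcd.ge (by
    have := Finset.card_sdiff_add_card_eq_card h1
    omega)
  have h2' : 2 ≤ r (p.1 ∪ {x, y}) + r (p.2 \ {x, y}) - r p.2 - r p.1 := h2
  have h3 := hr.unit p.1 y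
  have h3' := hr.unit (insert y p.1) x
  have h4 := hr.mono (p.2 \ {x, y}) p.2 Finset.sdiff_subset
  have e1 : p.1 ∪ {x, y} = insert x (insert y p.1) := by
    ext z
    simp only [Finset.mem_union, Finset.mem_singleton, Finset.mem_insert]
    tauto
  rw [e1] at h2' ⊢
  omega

/-- a 3-connected box with five elements is rich -/
theorem rich_five (hr : QUB.Rk r) {q : Itv E} (hq : q.1 ⊆ q.2) (h3 : Th3 r q) (h5 : (gs q).card = 5) : Rich r q := by
  have h4 : 4 ≤ (gs q).card := by omega
  have two : ∀ x ∈ gs q, ∀ y ∈ gs q, x ≠ y → r (q.1 ∪ {x, y}) = r q.1 + 2 ∧ r (q.2 \ {x, y}) = r q.2 := fun x hx y hy hxy =>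
    sm_two hr h3 h4 hx hy hxy
  have e2 : q.1 ∪ gs q = q.2 := Finset.union_sdiff_of_subset hq
  -- the rank is at least two
  obtain ⟨x, hx, y, hy, hxy⟩ := Finset.one_lt_card.1 (show 1 < (gs q).card by omega)
  obtain ⟨t1, t2⟩ := two x hx y hy hxy
  have g2 : r q.1 + 2 ≤ r q.2 := by
    have := hr.mono (q.1 ∪ {x, y}) q.2 (by
      rw [← e2]
      refine Finset.union_subset_union (Finset.Subset.refl _) ?_
      intro z hz
      rw [Finset.mem_insert, Finset.mem_singleton] at hz
      rcases hz with rfl | rfl
      · exact hx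
      · exact hy)
    omega
  -- triples are complements of pairs
  have tri : ∀ i ∈ gs q, ∀ j ∈ gs q, ∀ k ∈ gs q, i ≠ j → i ≠ k → j ≠ k → r (q.1 ∪ {i, j, k}) = r q.2 := by
    intro i hi j hj k hk hij hik hjk
    have hc : ({i, j, k} : Finset E).card = 3 := Finset.card_eq_three.2 ⟨i, j, k, hij, hik, hjk, rfl⟩
    have hs : ({i, j, k} : Finset E) ⊆ gs q := by
      intro z hz
      rw [Finset.mem_insert, Finset.mem_insert, Finset.mem_singleton] at hz
      rcases hz with rfl | rfl | rfl
      · exact hi
      · exact hj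
      · exact hk
    have hc2 : (gs q \ {i, j, k}).card = 2 := by
      have := Finset.card_sdiff_add_card_eq_card hs
      omega
    obtain ⟨u, v, huv, huvs⟩ := Finset.card_eq_two.1 hc2
    have hu : u ∈ gs q \ {i, j, k} := by
      rw [huvs]
      exact Finset.mem_insert_self _ _
    have hv : v ∈ gs q \ {i, j, k} := by
      rw [huvs]
      exact Finset.mem_insert_of_mem (Finset.mem_singleton_self _)
    obtain ⟨-, t3⟩ := two u (Finset.mem_sdiff.1 hu).1 v (Finset.mem_sdiff.1 hv).1 huv
    rw [← t3]
    congr 1
    rw [← huvs]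
    ext z
    have f1 : z ∈ gs q ↔ z ∈ q.2 ∧ z ∉ q.1 := Finset.mem_sdiff
    have f2 := @hq z
    have f3 := @hs z
    simp only [Finset.mem_union, Finset.mem_sdiff] at *
    tauto
  have u3 := hr.unit
  refine ⟨hq, h5, ?_⟩
  by_cases hR : r q.2 = r q.1 + 2
  · exact Or.inl ⟨hR, fun i hi j hj hij => (two i hi j hj hij).1⟩
  · obtain ⟨i, j, k, hijk⟩ : ∃ i j k, i ∈ gs q ∧ j ∈ gs q ∧ k ∈ gs q ∧ i ≠ j ∧ i ≠ k ∧ j ≠ k := by
      obtain ⟨Z, hZ, hZc⟩ := Finset.exists_subset_card_eq (show 3 ≤ (gs q).card by omega)
      obtain ⟨i, j, k, a, b, c, rfl⟩ := Finset.card_eq_three.1 hZc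
      exact ⟨i, j, k, hZ (by simp), hZ (by simp), hZ (by simp), a, b, c⟩
    obtain ⟨hi, hj, hk, a, b, c⟩ := hijk
    have e3 := tri i hi j hj k hk a b c
    have e4 := (two i hi j hj a).1
    have e5 := hr.unit (q.1 ∪ {i, j}) k
    have e6 : insert k (q.1 ∪ {i, j}) = q.1 ∪ {i, j, k} := by
      ext z
      simp only [Finset.mem_union, Finset.mem_insert, Finset.mem_singleton]
      tauto
    rw [e6] at e5
    have hR3 : r q.2 = r q.1 + 3 := by omega
    exact Or.inr ⟨hR3, fun i hi j hj k hk a b c => by rw [tri i hi j hj k hk a b c, hR3]⟩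

theorem small_rich (hr : QUB.Rk r) {p : Itv E} (hp : p.1 ⊆ p.2) (t3 : ∀ Z ⊆ gs p, Z.card = 3 → r (p.1 ∪ Z) = r p.1 + 3)
    (d3 : ∀ Z ⊆ gs p, Z.card = 3 → r (p.2 \ Z) = r p.2) {w : E} {s : Bool} (hw : w ∈ gs p) {B C : Finset E} {a : E}
    (hT : Tor r (QUB.rm s w p) B C a) (h3 : Th3 r (tb (QUB.rm s w p) B C a)) (h4 : 4 ≤ B.card) (h5 : B.card ≤ 5) :
    HasRich r (tb (QUB.rm s w p) B C a) := by
  set t := tb (QUB.rm s w p) B C a with ht
  have hwf : t.1 ⊆ t.2 := hT.wf
  have hg : gs t = insert a B := hT.gs_eq
  have hgc : (gs t).card = B.card + 1 := by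
    rw [hg, Finset.card_insert_of_notMem hT.aB]
  have haB := hT.aB
  rcases (show B.card = 4 ∨ B.card = 5 by omega) with h | h
  · exact ⟨t, ⟨Finset.Subset.refl _, Finset.Subset.refl _⟩, rich_five hr hwf h3 (by omega)⟩
  · have h4' : 4 ≤ (gs t).card := by omega
    have hBp : B ⊆ gs p := by
      intro x hx
      have h1 : x ∈ QUB.gs (QUB.rm s w p) := hT.hB hx
      rw [QUB.gs_rm] at h1
      exact Finset.mem_of_mem_erase h1
    have hwB : w ∉ B := by
      intro hx
      have h1 : w ∈ QUB.gs (QUB.rm s w p) := hT.hB hx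
      rw [QUB.gs_rm] at h1
      exact Finset.notMem_erase _ _ h1
    have two : ∀ x ∈ gs t, ∀ y ∈ gs t, x ≠ y → r (t.1 ∪ {x, y}) = r t.1 + 2 ∧ r (t.2 \ {x, y}) = r t.2 := fun x hx y hy hxy =>
      sm_two hr h3 h4' hx hy hxy
    have haG : a ∈ gs t := by
      rw [hg]
      exact Finset.mem_insert_self _ _
    have hBG : B ⊆ gs t := by
      rw [hg]
      exact Finset.subset_insert _ _
    have e2 : t.1 ∪ gs t = t.2 := Finset.union_sdiff_of_subset hwf
    have hB2 : r (t.1 ∪ B) = r t.2 := by
      have h1 := hT.h1
      have h2 := hT.r2 hr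
      have h6 : t.1 ∪ B = (QUB.rm s w p).1 ∪ C ∪ B := rfl
      rw [h6, h1]
      exact h2.symm
    -- the four element sets span
    have four : ∀ A ⊆ gs t, A.card = 4 → r (t.1 ∪ A) = r t.2 := by
      intro A hA hAc
      have hc2 : (gs t \ A).card = 2 := by
        have := Finset.card_sdiff_add_card_eq_card hA
        omega
      obtain ⟨u, v, huv, huvs⟩ := Finset.card_eq_two.1 hc2
      have hu : u ∈ gs t \ A := by
        rw [huvs]
        exact Finset.mem_insert_self _ _
      have hv : v ∈ gs t \ A := by
        rw [huvs]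
        exact Finset.mem_insert_of_mem (Finset.mem_singleton_self _)
      obtain ⟨-, t3⟩ := two u (Finset.mem_sdiff.1 hu).1 v (Finset.mem_sdiff.1 hv).1 huv
      rw [← t3]
      congr 1
      rw [← huvs]
      ext z
      have f1 : z ∈ gs t ↔ z ∈ t.2 ∧ z ∉ t.1 := Finset.mem_sdiff
      have f2 := @hwf z
      have f3 := @hA z
      simp only [Finset.mem_union, Finset.mem_sdiff] at *
      tauto
    cases s with
    | true =>
      -- triples of `B` are independent
      have tB : ∀ Z ⊆ B, Z.card = 3 → r (t.1 ∪ Z) = r t.1 + 3 := by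
        intro Z hZ hZc
        have h1 := hT.rk_B hr hZ
        have h2 := t3 Z (hZ.trans hBp) hZc
        have h6 : (QUB.rm true w p).1 = p.1 := rfl
        rw [h6] at h1
        have h7 : r (t.1 ∪ Z) - r t.1 = r (p.1 ∪ Z) - r p.1 := h1
        omega
      obtain ⟨Z, hZ, hZc⟩ := Finset.exists_subset_card_eq (show 3 ≤ B.card by omega)
      have g1 := tB Z hZ hZc
      have g2 := hr.mono (t.1 ∪ Z) (t.1 ∪ B) (Finset.union_subset_union (Finset.Subset.refl _) hZ)
      by_cases hR : r t.2 = r t.1 + 3
      · refine ⟨(t.1, t.1 ∪ B), ⟨Finset.Subset.refl _, ?_⟩, Finset.subset_union_left, ?_, Or.inr ⟨?_, ?_⟩⟩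
        · rw [← e2]
          exact Finset.union_subset_union (Finset.Subset.refl _) hBG
        · have : gs (t.1, t.1 ∪ B) = B := by
            ext z
            have f1 := @hBG z
            have f2 : z ∈ gs t ↔ z ∈ t.2 ∧ z ∉ t.1 := Finset.mem_sdiff
            have f3 : z ∈ gs (t.1, t.1 ∪ B) ↔ z ∈ t.1 ∪ B ∧ z ∉ t.1 := Finset.mem_sdiff
            rw [f3, Finset.mem_union]
            tauto
          rw [this]
          exact h
        · show r (t.1 ∪ B) = r t.1 + 3
          omega
        · intro i hi j hj k hk hij hik hjk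
          have f3 : ∀ z, z ∈ gs (t.1, t.1 ∪ B) → z ∈ B := by
            intro z hz
            have f3 : z ∈ t.1 ∪ B ∧ z ∉ t.1 := Finset.mem_sdiff.1 hz
            rw [Finset.mem_union] at f3
            tauto
          refine tB {i, j, k} ?_ (Finset.card_eq_three.2 ⟨i, j, k, hij, hik, hjk, rfl⟩)
          intro z hz
          rw [Finset.mem_insert, Finset.mem_insert, Finset.mem_singleton] at hz
          rcases hz with rfl | rfl | rfl
          · exact f3 _ hi
          · exact f3 _ hj
          · exact f3 _ hk
      · -- the rank is four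
        obtain ⟨A, hA, hAc⟩ := Finset.exists_subset_card_eq (show 4 ≤ B.card by omega)
        have g3 := four A (hA.trans hBG) hAc
        have g4 : r t.2 ≤ r t.1 + 4 := by
          obtain ⟨b, T, hbT, hAe, hTc⟩ := Finset.card_eq_succ.1 hAc
          have g5 := tB T ((Finset.subset_insert b T).trans (hAe ▸ hA)) hTc
          have g6 := hr.unit (t.1 ∪ T) b
          have g7 : insert b (t.1 ∪ T) = t.1 ∪ A := by
            rw [← hAe]
            ext z
            simp only [Finset.mem_insert, Finset.mem_union]
            tauto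
          rw [g7] at g6
          omega
        obtain ⟨b, hb⟩ : B.Nonempty := Finset.card_pos.1 (by omega)
        have hbG := hBG hb
        have hb1 : r (insert b t.1) = r t.1 + 1 := by
          have k1 := (two b hbG a haG (fun h' => haB (h' ▸ hb))).1
          have k2 := hr.unit (insert b t.1) a
          have k3 := hr.unit t.1 b
          have k4 : insert a (insert b t.1) = t.1 ∪ {b, a} := by
            ext z
            simp only [Finset.mem_union, Finset.mem_insert, Finset.mem_singleton]
            tauto
          rw [k4] at k2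
          omega
        have hgc2 : gs (insert b t.1, t.2) = (gs t).erase b := by
          ext z
          have f1 : z ∈ gs t ↔ z ∈ t.2 ∧ z ∉ t.1 := Finset.mem_sdiff
          have f2 : z ∈ gs (insert b t.1, t.2) ↔ z ∈ t.2 ∧ z ∉ insert b t.1 := Finset.mem_sdiff
          rw [f2, Finset.mem_erase, f1, Finset.mem_insert]
          tauto
        refine ⟨(insert b t.1, t.2), ⟨Finset.subset_insert _ _, Finset.Subset.refl _⟩, ?_, ?_, Or.inr ⟨?_, ?_⟩⟩
        · exact Finset.insert_subset (Finset.mem_sdiff.1 hbG).1 hwf
        · rw [hgc2, Finset.card_erase_of_mem hbG]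
          omega
        · show r t.2 = r (insert b t.1) + 3
          omega
        · intro i hi j hj k hk hij hik hjk
          rw [hgc2] at hi hj hk
          obtain ⟨i1, i2⟩ := Finset.mem_erase.1 hi
          obtain ⟨j1, j2⟩ := Finset.mem_erase.1 hj
          obtain ⟨k1, k2⟩ := Finset.mem_erase.1 hk
          have g8 := four {b, i, j, k} (by
            intro z hz
            rw [Finset.mem_insert, Finset.mem_insert, Finset.mem_insert, Finset.mem_singleton] at hz
            rcases hz with rfl | rfl | rfl | rfl
            · exact hbG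
            · exact i2
            · exact j2
            · exact k2) (by
            rw [Finset.card_insert_of_notMem, Finset.card_eq_three.2 ⟨i, j, k, hij, hik, hjk, rfl⟩]
            rw [Finset.mem_insert, Finset.mem_insert, Finset.mem_singleton]
            rintro (h' | h' | h')
            · exact i1 h'.symm
            · exact j1 h'.symm
            · exact k1 h'.symm)
          have g9 : insert b t.1 ∪ {i, j, k} = t.1 ∪ {b, i, j, k} := by
            ext z
            simp only [Finset.mem_union, Finset.mem_insert, Finset.mem_singleton]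
            tauto
          show r (insert b t.1 ∪ {i, j, k}) = r (insert b t.1) + 3
          rw [g9]
          omega
    | false =>
      -- the complement of a triple of `B` spans
      have dB : ∀ Z ⊆ B, Z.card = 3 → r (t.2 \ Z) = r t.2 := by
        intro Z hZ hZc
        have h1 := hT.rk_B hr hZ
        have h2 := d3 Z (hZ.trans hBp) hZc
        have h6 := hT.lam_eq hr hZ
        unfold QUB.lam at h6
        have h7 : (QUB.rm false w p).2 = p.2 := rfl
        rw [h7] at h6
        have h8 : r (t.1 ∪ Z) - r t.1 = r ((QUB.rm false w p).1 ∪ Z) - r (QUB.rm false w p).1 := h1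
        have h9 : r (t.1 ∪ Z) + r (t.2 \ Z) - r t.2 - r t.1 = r ((QUB.rm false w p).1 ∪ Z) + r (p.2 \ Z) - r p.2 - r (QUB.rm false w p).1 := h6
        omega
      have dB' : ∀ i ∈ B, ∀ j ∈ B, i ≠ j → r (t.1 ∪ {a, i, j}) = r t.2 := by
        intro i hi j hj hij
        have hs : ({i, j} : Finset E) ⊆ B := by
          intro z hz
          rw [Finset.mem_insert, Finset.mem_singleton] at hz
          rcases hz with rfl | rfl
          · exact hi
          · exact hj
        have hc : (B \ {i, j}).card = 3 := by
          have k1 := Finset.card_sdiff_add_card_eq_card hs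
          rw [Finset.card_pair hij] at k1
          omega
        have g1 := dB (B \ {i, j}) Finset.sdiff_subset hc
        rw [← g1]
        congr 1
        ext z
        have f1 : z ∈ gs t ↔ z ∈ t.2 ∧ z ∉ t.1 := Finset.mem_sdiff
        rw [hg, Finset.mem_insert] at f1
        have f2 := @hwf z
        have f3 := @hs z
        have f4 : z = a → z ∉ B := fun h' => h' ▸ haB
        simp only [Finset.mem_union, Finset.mem_sdiff, Finset.mem_insert, Finset.mem_singleton] at *
        tauto
      obtain ⟨i, hi, j, hj, hij⟩ := Finset.one_lt_card.1 (show 1 < B.card by omega)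
      have g1 := dB' i hi j hj hij
      have g2 := (two i (hBG hi) j (hBG hj) hij).1
      have g3 := hr.unit (t.1 ∪ {i, j}) a
      have g4 : insert a (t.1 ∪ {i, j}) = t.1 ∪ {a, i, j} := by
        ext z
        simp only [Finset.mem_union, Finset.mem_insert, Finset.mem_singleton]
        tauto
      rw [g4] at g3
      have g5 := hr.mono (t.1 ∪ {i, j}) t.2 (by
        rw [← e2]
        refine Finset.union_subset_union (Finset.Subset.refl _) ?_
        intro z hz
        rw [Finset.mem_insert, Finset.mem_singleton] at hz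
        rcases hz with rfl | rfl
        · exact hBG hi
        · exact hBG hj)
      by_cases hR : r t.2 = r t.1 + 2
      · have hiG := hBG hi
        have hgc2 : gs (t.1, t.2.erase i) = (gs t).erase i := by
          ext z
          have f1 : z ∈ gs t ↔ z ∈ t.2 ∧ z ∉ t.1 := Finset.mem_sdiff
          have f2 : z ∈ gs (t.1, t.2.erase i) ↔ z ∈ t.2.erase i ∧ z ∉ t.1 := Finset.mem_sdiff
          rw [f2, Finset.mem_erase, Finset.mem_erase, f1]
          tauto
        refine ⟨(t.1, t.2.erase i), ⟨Finset.Subset.refl _, Finset.erase_subset _ _⟩, ?_, ?_, Or.inl ⟨?_, ?_⟩⟩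
        · intro z hz
          refine Finset.mem_erase.2 ⟨?_, hwf hz⟩
          rintro rfl
          exact (Finset.mem_sdiff.1 hiG).2 hz
        · rw [hgc2, Finset.card_erase_of_mem hiG]
          omega
        · show r (t.2.erase i) = r t.1 + 2
          have k1 := (two i hiG j (hBG hj) hij).2
          have k2 := hr.mono (t.2 \ {i, j}) (t.2.erase i) (by
            intro z hz
            rw [Finset.mem_sdiff, Finset.mem_insert] at hz
            rw [Finset.mem_erase]
            tauto)
          have k3 := hr.mono (t.2.erase i) t.2 (Finset.erase_subset _ _)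
          omega
        · intro x hx y hy hxy
          rw [hgc2] at hx hy
          exact (two x (Finset.mem_of_mem_erase hx) y (Finset.mem_of_mem_erase hy) hxy).1
      · have hR3 : r t.2 = r t.1 + 3 := by omega
        have ha1 : r (insert a t.1) = r t.1 + 1 := by
          have k1 := (two a haG i (hBG hi) (fun h' => haB (h' ▸ hi))).1
          have k2 := hr.unit (insert a t.1) i
          have k3 := hr.unit t.1 a
          have k4 : insert i (insert a t.1) = t.1 ∪ {a, i} := by
            ext z
            simp only [Finset.mem_union, Finset.mem_insert, Finset.mem_singleton]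
            tauto
          rw [k4] at k2
          omega
        have hgc2 : gs (insert a t.1, t.2) = B := by
          ext z
          have f1 : z ∈ gs t ↔ z ∈ t.2 ∧ z ∉ t.1 := Finset.mem_sdiff
          rw [hg, Finset.mem_insert] at f1
          have f2 : z ∈ gs (insert a t.1, t.2) ↔ z ∈ t.2 ∧ z ∉ insert a t.1 := Finset.mem_sdiff
          rw [f2, Finset.mem_insert]
          have f4 : z = a → z ∉ B := fun h' => h' ▸ haB
          tauto
        refine ⟨(insert a t.1, t.2), ⟨Finset.subset_insert _ _, Finset.Subset.refl _⟩, ?_, ?_, Or.inl ⟨?_, ?_⟩⟩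
        · exact Finset.insert_subset (Finset.mem_sdiff.1 haG).1 hwf
        · rw [hgc2]
          exact h
        · show r t.2 = r (insert a t.1) + 2
          omega
        · intro x hx y hy hxy
          rw [hgc2] at hx hy
          have k1 := dB' x hx y hy hxy
          have k2 : insert a t.1 ∪ {x, y} = t.1 ∪ {a, x, y} := by
            ext z
            simp only [Finset.mem_union, Finset.mem_insert, Finset.mem_singleton]
            tauto
          show r (insert a t.1 ∪ {x, y}) = r (insert a t.1) + 2
          rw [k2]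
          omega

/-- among six elements of a rich box some element has a rich removal -/
theorem out_rich {p : Itv E} (hR : HasRich r p) {X : Finset E} (_hX : X ⊆ gs p) (h : 6 ≤ X.card) :
    ∃ e ∈ X, ∃ t : Bool, HasRich r (QUB.rm t e p) := by
  obtain ⟨q, ⟨hq1, hq2⟩, hq⟩ := hR
  have h5 : (gs q).card = 5 := hq.2.1
  obtain ⟨e, heX, heq⟩ : ∃ e ∈ X, e ∉ gs q := by
    by_contra hcon
    push Not at hcon
    have := Finset.card_le_card (show X ⊆ gs q from hcon)
    omega
  have heq' : ¬ (e ∈ q.2 ∧ e ∉ q.1) := fun h' => heq (Finset.mem_sdiff.2 h')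
  refine ⟨e, heX, ?_⟩
  by_cases h1 : e ∈ q.1
  · refine ⟨false, q, ⟨?_, hq2⟩, hq⟩
    show insert e p.1 ⊆ q.1
    exact Finset.insert_subset h1 hq1
  · refine ⟨true, q, ⟨hq1, ?_⟩, hq⟩
    show q.2 ⊆ p.2.erase e
    intro z hz
    refine Finset.mem_erase.2 ⟨?_, hq2 hz⟩
    rintro rfl
    exact heq' ⟨hz, h1⟩

end

end Pool.Agent.QU
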