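import Pool.Agent.QUT.CaseB
import Pool.Agent.QUT.Ffive
import Pool.Agent.QUT.Small

/-!
# QUT/CaseC: NT case I, two disjoint minimum 2-sides and the choice of `f`
-/

set_option autoImplicit false

open QUB

namespace Pool.Agent.QU

open Pool.Agent.FRM

section

variable {E : Type} [DecidableEq E] {r : Finset E → ℤ}

/-- two disjoint minimum 2-sides -/
structure Tw (r : Finset E → ℤ) (p : Itv E) (w : E) (s : Bool) (X : Finset E) (w2 : E) (s2 : Bool) (X2 : Finset E) : Prop where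
  hw : w ∈ gs p
  ts : TS r p w s X
  min : ∀ v ∈ gs p, ∀ (t : Bool) (Z : Finset E), TS r p v t Z → X.card ≤ Z.card
  th : ∀ x ∈ X, ∀ u : Bool, Th3 r (QUB.rm u x p)
  hw2 : w2 ∈ gs p
  ts2 : TS r p w2 s2 X2
  min2 : ∀ v ∈ gs p, ∀ (t : Bool) (Z : Finset E), TS r p v t Z → Disjoint Z X → X2.card ≤ Z.card
  th2 : ∀ x ∈ X2, ∀ u : Bool, Th3 r (QUB.rm u x p)
  hd : Disjoint X2 X
  w2X : w2 ∉ X
  wX2 : w ∉ X2

theorem tw_ex (hr : Rk r) {p : Itv E} (hp : p.1 ⊆ p.2) (hC : Cn r p) (h3 : Th3 r p) (nt : Nt r p) (hn : 9 ≤ (gs p).card)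
    (h : ∃ v ∈ gs p, ∃ (t : Bool) (Z : Finset E), TS r p v t Z) :
    ∃ (w : E) (s : Bool) (X : Finset E) (w2 : E) (s2 : Bool) (X2 : Finset E), Tw r p w s X w2 s2 X2 := by
  have hfour : ∀ v ∈ gs p, ∀ (t : Bool) (Z : Finset E), TS r p v t Z → 4 ≤ Z.card := fun v hv t Z hZ => ts_four hr nt hv hZ
  obtain ⟨w, hw, s, X, ts, -, min⟩ := ts_min (r := r) (p := p) ∅ (by
    obtain ⟨v, hv, t, Z, hZ⟩ := h
    exact ⟨v, hv, t, Z, hZ, Finset.disjoint_empty_right _⟩)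
  have th : ∀ x ∈ X, ∀ u : Bool, Th3 r (QUB.rm u x p) := fun x hx u =>
    ts_th3 hr hp hC h3 (by omega) (a := fun _ => True) (D := ∅) hw trivial ts (Finset.disjoint_empty_right _) (Finset.notMem_empty _)
      (fun v hv t _ Z hZ => by have := hfour v hv t Z hZ; omega) (fun v hv t _ Z hZ hD => min v hv t Z hZ hD) hx trivial
  obtain ⟨w2, hw2, s2, X2, ts2, hd, min2⟩ := ts_min (r := r) (p := p) X
    ⟨w, hw, s, (gs p).erase w \ X, ts.compl hp hw, Finset.sdiff_disjoint⟩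
  have w2X : w2 ∉ X := fun h' => ts_not_th3 ts2 (th w2 h' s2)
  have th2 : ∀ x ∈ X2, ∀ u : Bool, Th3 r (QUB.rm u x p) := fun x hx u =>
    ts_th3 hr hp hC h3 (by omega) (a := fun _ => True) (D := X) hw2 trivial ts2 hd w2X
      (fun v hv t _ Z hZ => by have := hfour v hv t Z hZ; omega) (fun v hv t _ Z hZ hD => min2 v hv t Z hZ hD) hx trivial
  have wX2 : w ∉ X2 := fun h' => ts_not_th3 ts (th2 w h' s)
  exact ⟨w, s, X, w2, s2, X2, hw, ts, fun v hv t Z hZ => min v hv t Z hZ (Finset.disjoint_empty_right _), th, hw2, ts2,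
    min2, th2, hd, w2X, wX2⟩

end

section

variable {E : Type} [Fintype E] [DecidableEq E]

/-- the hypotheses of NT case I -/
structure Cs (S : TP F4 E) (p : Itv E) : Prop where
  nu : NU S.r
  hp : p.1 ⊆ p.2
  hC : Cn S.r p
  h3 : Th3 S.r p
  nt : Nt S.r p
  hR : HasRich S.r p
  hn : 9 ≤ (gs p).card
  ih : ∀ q : Itv E, q.1 ⊆ q.2 → Sub q p → (gs q).card < (gs p).card → ∃ T, InVs S q T

variable {S : TP F4 E} {p : Itv E} {w w2 : E} {s s2 : Bool} {X X2 : Finset E}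

theorem Tw.ci (h : Cs S p) (tw : Tw S.r p w s X w2 s2 X2) : Ci S.r p w2 s2 X2 X where
  hp := h.hp
  hC := h.hC
  h3 := h.h3
  hn := h.hn
  nt := h.nt
  hw := tw.hw2
  ts := tw.ts2
  hB3 := by
    have := ts_four S.rk h.nt tw.hw2 tw.ts2
    omega
  hX := tw.ts.1.trans (Finset.erase_subset _ _)
  hXB := tw.hd.symm
  wX := tw.w2X
  hX4 := ts_four S.rk h.nt tw.hw tw.ts
  hX3 := tw.th

/-- proper subsets of the second side -/
theorem Tw.min2' (tw : Tw S.r p w s X w2 s2 X2) : ∀ Z ⊆ X2, Z ≠ X2 → 2 ≤ Z.card → 2 ≤ QUB.lam S.r (QUB.rm s2 w2 p) Z := by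
  intro Z hZ hne h2
  by_contra hcon
  have hl : QUB.lam S.r (QUB.rm s2 w2 p) Z ≤ 1 := by omega
  have h1 : TS S.r p w2 s2 Z := by
    refine ⟨hZ.trans tw.ts2.1, h2, ?_, hl⟩
    exact tw.ts2.2.2.1.trans (Finset.card_le_card (Finset.sdiff_subset_sdiff (Finset.Subset.refl _) hZ))
  have h3 := tw.min2 w2 tw.hw2 s2 Z h1 (Finset.disjoint_of_subset_left hZ tw.hd)
  have h4 := Finset.card_lt_card (Finset.ssubset_iff_subset_ne.2 ⟨hZ, hne⟩)
  omega

/-- proper subsets of the first side -/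
theorem Tw.min' (tw : Tw S.r p w s X w2 s2 X2) : ∀ Z ⊆ X, Z ≠ X → 2 ≤ Z.card → 2 ≤ QUB.lam S.r (QUB.rm s w p) Z := by
  intro Z hZ hne h2
  by_contra hcon
  have hl : QUB.lam S.r (QUB.rm s w p) Z ≤ 1 := by omega
  have h1 : TS S.r p w s Z := by
    refine ⟨hZ.trans tw.ts.1, h2, ?_, hl⟩
    exact tw.ts.2.2.1.trans (Finset.card_le_card (Finset.sdiff_subset_sdiff (Finset.Subset.refl _) hZ))
  have h3 := tw.min w tw.hw s Z h1
  have h4 := Finset.card_lt_card (Finset.ssubset_iff_subset_ne.2 ⟨hZ, hne⟩)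
  omega

/-- F5 for `x ∈ X`, `f ∈ X2` -/
theorem Tw.fv (h : Cs S p) (tw : Tw S.r p w s X w2 s2 X2) {x f : E} (hx : x ∈ X) (hf : f ∈ X2) (u t : Bool) :
    Fv S.r p w s X ((gs p).erase w \ X) x u f t := by
  have hn := h.hn
  have h4 := ts_four S.rk h.nt tw.hw tw.ts
  have h4' := ts_four S.rk h.nt tw.hw (tw.ts.compl h.hp tw.hw)
  have hfp := Finset.mem_erase.1 (tw.ts2.1 hf)
  refine fv_of S.rk h.hp h.hC h.h3 (by omega) tw.hw tw.ts (by omega) (by omega) hx ?_ (tw.th x hx u) (tw.th2 f hf t)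
  refine Finset.mem_sdiff.2 ⟨Finset.mem_erase.2 ⟨fun h' => tw.wX2 (h' ▸ hf), hfp.2⟩, fun h' => Finset.disjoint_left.1 tw.hd hf h'⟩

/-- F5: the pair of removals -/
theorem Tw.five (h : Cs S p) (tw : Tw S.r p w s X w2 s2 X2) {x f : E} (hx : x ∈ X) (hf : f ∈ X2) (u t : Bool) :
    Cn S.r (rm t f (rm u x p)) ∧ Ok S.r (rm t f (rm u x p)) := by
  have hn := h.hn
  have fv := tw.fv h hx hf u t
  have hxp := (Finset.mem_erase.1 (tw.ts.1 hx)).2
  exact ⟨fv.cn S.rk (th3_cn S.rk h.hp h.hC h.h3 (by omega) hxp u), fv.ok S.rk⟩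

theorem Tw.exs (h : Cs S p) (tw : Tw S.r p w s X w2 s2 X2) {x f : E} (hx : x ∈ X) (hf : f ∈ X2) (u t : Bool) :
    Ex S t f (rm u x p) := by
  have hn := h.hn
  have hxp := (Finset.mem_erase.1 (tw.ts.1 hx)).2
  have hfp := (Finset.mem_erase.1 (tw.ts2.1 hf)).2
  have h5 := tw.five h hx hf u t
  have wf : (rm u x p).1 ⊆ (rm u x p).2 := QUB.wf_rm h.hp hxp
  refine ex_ok S h.nu wf ?_ h5.1 h5.2 (h.ih _ wf (rm_sub u x p) ?_)
  · rw [gs_rm]
    exact Finset.mem_erase.2 ⟨fun h' => Finset.disjoint_left.1 tw.hd hf (h' ▸ hx), hfp⟩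
  · rw [gs_rm, Finset.card_erase_of_mem hxp]
    omega

/-- the form of `p` if the conflict is solved -/
theorem Tw.fin (h : Cs S p) (tw : Tw S.r p w s X w2 s2 X2) {C : Finset E} {a : E}
    (T : Tor S.r (QUB.rm s2 w2 p) X2 C a) (h3t : Th3 S.r (tb (QUB.rm s2 w2 p) X2 C a)) {f : E} {t : Bool} (hf : f ∈ X2)
    (hg : Rg S t f (tb (QUB.rm s2 w2 p) X2 C a)) (hR : HasRich S.r (rm t f p))
    (hmix : t ≠ s2 → ∀ y ∈ X, ∀ z ∈ X, y ≠ z → ND S.r (rm true y (rm false z p)) f w2 t s2) :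
    ∃ T : Fm F4 E, InV S.U S.W p T ∧ ¬ EqD S.U S.W p T 0 := by
  have hn := h.hn
  have hfp := (Finset.mem_erase.1 (tw.ts2.1 hf)).2
  refine h_of_ex S (ci_ex S (tw.ci h) T h3t hf hg hmix fun x hx u => tw.exs h hx hf u t) ?_ hR
  refine h.ih _ (QUB.wf_rm h.hp hfp) (rm_sub t f p) ?_
  rw [gs_rm, Finset.card_erase_of_mem hfp]
  omega

/-- `M_f` is rich, `f` of the type of `w2` -/
theorem Tw.rich (h : Cs S p) (tw : Tw S.r p w s X w2 s2 X2) {C : Finset E} {a : E}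
    (T : Tor S.r (QUB.rm s2 w2 p) X2 C a) (h3t : Th3 S.r (tb (QUB.rm s2 w2 p) X2 C a)) {f : E} (hf : f ∈ X2)
    (hg : Rg S s2 f (tb (QUB.rm s2 w2 p) X2 C a)) : HasRich S.r (rm s2 f p) := by
  have hr : Rk S.r := S.rk
  have hn := h.hn
  have hfp := (Finset.mem_erase.1 (tw.ts2.1 hf)).2
  have hfw2 := (Finset.mem_erase.1 (tw.ts2.1 hf)).1
  have hfw : f ≠ w := fun h' => tw.wX2 (h' ▸ hf)
  have hfX : f ∉ X := fun h' => Finset.disjoint_left.1 tw.hd hf h'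
  have h4 := ts_four hr h.nt tw.hw tw.ts
  by_cases hX5 : X.card ≤ 5
  · -- the torso of `X` at `w`
    have hwf : (QUB.rm s w p).1 ⊆ (QUB.rm s w p).2 := QUB.wf_rm h.hp tw.hw
    have gq : gs (QUB.rm s w p) = (gs p).erase w := QUB.gs_rm s w p
    have hXq : X ⊆ gs (QUB.rm s w p) := by
      rw [gq]
      exact tw.ts.1
    have hfq : f ∈ gs (QUB.rm s w p) := by
      rw [gq]
      exact Finset.mem_erase.2 ⟨hfw, hfp⟩
    have hXne : X.Nonempty := Finset.card_pos.1 (by omega)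
    obtain ⟨x, hx⟩ := hXne
    have hcq : Cn S.r (QUB.rm s w p) := th3_cn hr h.hp h.hC h.h3 (by omega) tw.hw s
    have l1 : 1 ≤ QUB.lam S.r (QUB.rm s w p) X := hcq X hXq ⟨x, hx⟩ ⟨f, Finset.mem_sdiff.2 ⟨hfq, hfX⟩⟩
    obtain ⟨C0, a0, T0⟩ := tor_ex hr hwf hXq l1 tw.ts.2.2.2
    have r0 : HasRich S.r (tb (QUB.rm s w p) X C0 a0) :=
      small_rich hr h.hp h.nt.t3 h.nt.d3 tw.hw T0 (T0.th3 hr tw.min') h4 hX5
    -- a third element of `Y`
    have hY4 := ts_four hr h.nt tw.hw (tw.ts.compl h.hp tw.hw)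
    obtain ⟨v, hv, hvf⟩ : ∃ v ∈ (gs p).erase w \ X, v ≠ f := by
      by_contra hcon
      push Not at hcon
      have h1 : (gs p).erase w \ X ⊆ {f} := fun z hz => Finset.mem_singleton.2 (hcon z hz)
      have h2 := Finset.card_le_card h1
      rw [Finset.card_singleton] at h2
      omega
    have l2 : 1 ≤ QUB.lam S.r (QUB.rm s2 f (QUB.rm s w p)) X := by
      refine (tw.fv h hx hf s s2).cyw X ?_ ⟨x, hx⟩ ⟨v, ?_⟩
      · rw [QUB.gs_rm, gq]
        exact fun z hz => Finset.mem_erase.2 ⟨fun h' => hfX (h' ▸ hz), tw.ts.1 hz⟩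
      · rw [QUB.gs_rm, gq]
        exact Finset.mem_sdiff.2 ⟨Finset.mem_erase.2 ⟨hvf, (Finset.mem_sdiff.1 hv).1⟩, (Finset.mem_sdiff.1 hv).2⟩
    have st := stab hr hwf hXq tw.ts.2.2.2 (y := f) (t := s2) hfq hfX l2
    have hwf2 : (QUB.rm s2 f (QUB.rm s w p)).1 ⊆ (QUB.rm s2 f (QUB.rm s w p)).2 := QUB.wf_rm hwf hfq
    have hXq2 : X ⊆ gs (QUB.rm s2 f (QUB.rm s w p)) := by
      rw [QUB.gs_rm]
      exact fun z hz => Finset.mem_erase.2 ⟨fun h' => hfX (h' ▸ hz), hXq hz⟩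
    have l3 : QUB.lam S.r (QUB.rm s2 f (QUB.rm s w p)) X ≤ 1 := by
      rw [lam_rel hwf hwf2 hXq hXq2 st.1 st.2 (Finset.Subset.refl _)]
      exact tw.ts.2.2.2
    obtain ⟨C1, a1, T1⟩ := tor_ex hr hwf2 hXq2 l2 l3
    have r1 := hasRich_mono T1.sub (tor_iso0 hr T0 T1 st.1 st.2 r0)
    have r2 : HasRich S.r (QUB.rm s w (QUB.rm s2 f p)) := by
      rw [QUB.rm_comm]
      exact r1
    exact hasRich_mono (rm_sub s w (rm s2 f p)) r2
  · -- a rich removal in `X`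
    obtain ⟨e, he, t', hRe⟩ := out_rich h.hR (X := X) (tw.ts.1.trans (Finset.erase_subset _ _)) (by omega)
    have hep := (Finset.mem_erase.1 (tw.ts.1 he)).2
    have hew2 : e ≠ w2 := fun h' => tw.w2X (h' ▸ he)
    have hfe : f ≠ e := fun h' => hfX (h' ▸ he)
    have heX2 : e ∉ X2 := fun h' => Finset.disjoint_left.1 tw.hd h' he
    have wfe : (rm t' e p).1 ⊆ (rm t' e p).2 := QUB.wf_rm h.hp hep
    have h5 := tw.five h he hf t' s2
    have ci := tw.ci h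
    have gy := ci.good hr he
    have gq : gs (QUB.rm s2 w2 p) = (gs p).erase w2 := QUB.gs_rm s2 w2 p
    have hwf : (QUB.rm s2 w2 p).1 ⊆ (QUB.rm s2 w2 p).2 := QUB.wf_rm h.hp tw.hw2
    have hcq : Cn S.r (QUB.rm s2 w2 p) := th3_cn hr h.hp h.hC h.h3 (by omega) tw.hw2 s2
    have hgq : Rg S s2 f (QUB.rm s2 w2 p) := tor_rg S T hcq h3t ci.hB3 hf hg
    have hBq : X2 ⊆ gs (QUB.rm s2 w2 p) := by
      rw [gq]
      exact tw.ts2.1
    have hfq : f ∈ gs (QUB.rm s2 w2 p) := hBq hf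
    have heA : e ∈ gs (QUB.rm s2 w2 p) \ X2 := by
      rw [gq]
      exact Finset.mem_sdiff.2 ⟨Finset.mem_erase.2 ⟨hew2, hep⟩, heX2⟩
    have hlA : QUB.lam S.r (QUB.rm s2 w2 p) (gs (QUB.rm s2 w2 p) \ X2) ≤ 1 := by
      rw [lam_compl S.r hwf hBq]
      exact tw.ts2.2.2.2
    have hfA : f ∉ gs (QUB.rm s2 w2 p) \ X2 := fun h' => (Finset.mem_sdiff.1 h').2 hf
    have hst := T.steps hr h3t ci.hB3 hf
    have hAv : Av S.U S.W (QUB.rm s2 w2 p) (rm t' e (QUB.rm s2 w2 p)) (gs (QUB.rm s2 w2 p) \ X2) :=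
      av_one S hwf (X := gs (QUB.rm s2 w2 p) \ X2) Finset.sdiff_subset hlA heA gy.1 gy.2.1
    have eB : (QUB.rm s2 w2 p).2 \ (gs (QUB.rm s2 w2 p) \ X2) = (QUB.rm s2 w2 p).1 ∪ X2 := by
      ext v
      have h1 := @hwf v
      have h2 : v ∈ X2 → v ∈ (QUB.rm s2 w2 p).2 ∧ v ∉ (QUB.rm s2 w2 p).1 := fun hv => Finset.mem_sdiff.1 (hBq hv)
      simp only [QUB.gs, Finset.mem_union, Finset.mem_sdiff]
      tauto
    have hs2 : Sub (rm t' e (QUB.rm s2 w2 p)) (QUB.rm s2 w2 p) := rm_sub t' e _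
    have e1 : (rm t' e (QUB.rm s2 w2 p)).1 ⊆ (QUB.rm s2 w2 p).1 ∪ (gs (QUB.rm s2 w2 p) \ X2) := by
      cases t'
      · show insert e (QUB.rm s2 w2 p).1 ⊆ _
        exact Finset.insert_subset (Finset.mem_union_right _ heA) Finset.subset_union_left
      · exact Finset.subset_union_left
    have e2 : (QUB.rm s2 w2 p).2 \ (gs (QUB.rm s2 w2 p) \ X2) ⊆ (rm t' e (QUB.rm s2 w2 p)).2 := by
      cases t'
      · exact Finset.sdiff_subset
      · show _ ⊆ (QUB.rm s2 w2 p).2.erase e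
        exact fun v hv => Finset.mem_erase.2 ⟨fun h' => (Finset.mem_sdiff.1 hv).2 (h' ▸ heA), (Finset.mem_sdiff.1 hv).1⟩
    have hrg : Rg S s2 f (rm t' e (QUB.rm s2 w2 p)) := by
      generalize hq2 : QUB.rm s2 w2 p = q2 at *
      cases s2
      · exact rgs_con S hs2 e1 hAv hfq hfA hst.2 hgq
      · exact rgs_del S hs2 e2 hAv hfq hfA (by rw [eB]; exact hst.1) hgq
    have hrg' : Rg S s2 f (rm s2 w2 (rm t' e p)) := by
      have e3 : rm s2 w2 (rm t' e p) = rm t' e (rm s2 w2 p) := rm_comm s2 t' w2 e p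
      rw [e3]
      exact hrg
    have hnd : ND S.r (rm t' e p) f w2 s2 s2 := by
      cases s2
      · cases t'
        · have k := h.nt.ins hr hfp tw.hw2 hep hfw2 hfe hew2.symm
          have k' := h.nt.ins hr tw.hw2 hfp hep hfw2.symm hew2.symm hfe
          show S.r (insert f (insert e p.1)) + S.r (insert w2 (insert e p.1)) = S.r (insert e p.1) + S.r (insert f (insert w2 (insert e p.1)))
          omega
        · have k := h.nt.ins hr hep hfp tw.hw2 hfe.symm hew2 hfw2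
          have k' := h.nt.ins hr hep tw.hw2 hfp hew2 hfe.symm hfw2.symm
          show S.r (insert f p.1) + S.r (insert w2 p.1) = S.r p.1 + S.r (insert f (insert w2 p.1))
          omega
      · cases t'
        · have k := h.nt.del hr hep hfp tw.hw2 hfe.symm hew2 hfw2
          have k' := h.nt.del hr hep tw.hw2 hfp hew2 hfe.symm hfw2.symm
          show S.r (p.2.erase f) + S.r (p.2.erase w2) = S.r p.2 + S.r ((p.2.erase f).erase w2)
          have e4 : (p.2.erase f).erase w2 = (p.2.erase w2).erase f := Finset.erase_right_comm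
          rw [e4]
          omega
        · have k := h.nt.del hr tw.hw2 hfp hep hfw2.symm hew2.symm hfe
          have k' := h.nt.del hr hfp tw.hw2 hep hfw2 hfe hew2.symm
          show S.r ((p.2.erase e).erase f) + S.r ((p.2.erase e).erase w2) = S.r (p.2.erase e) + S.r (((p.2.erase e).erase f).erase w2)
          omega
    have hfe' : f ∈ gs (rm t' e p) := by
      rw [gs_rm]
      exact Finset.mem_erase.2 ⟨hfe, hfp⟩
    have hw2e' : w2 ∈ gs (rm t' e p) := by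
      rw [gs_rm]
      exact Finset.mem_erase.2 ⟨hew2.symm, tw.hw2⟩
    have r1 : HasRich S.r (rm s2 f (rm t' e p)) := by
      refine ttrick S h.nu wfe hfe' hw2e' hfw2 (h.ih _ wfe (rm_sub t' e p) ?_) hRe h5.1 h5.2 hrg' hnd
      rw [gs_rm, Finset.card_erase_of_mem hep]
      omega
    rw [rm_comm] at r1
    exact hasRich_mono (rm_sub t' e _) r1

end

end Pool.Agent.QU
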