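import Pool.Agent.QUT.Flv

/-!
# QUT/Flw: case II without real conflicts: done, or all rich flats of corank two are independent
-/

set_option autoImplicit false

open QUB

namespace Pool.Agent.QU

open Pool.Agent.FRM

variable {E : Type} [Fintype E] [DecidableEq E] {S : TP F4 E} {p : Itv E}

/-- **dependent rich flats** -/
theorem flt_dep (h : Cu S p) {W : Finset E} {P : Fin 5 → Finset E} (hF : Fan S.r p W P)
    (hν : S.r W + 1 ≤ S.r p.1 + ((W \ p.1).card : ℤ)) : ∃ T : Fm F4 E, InV S.U S.W p T ∧ ¬ EqD S.U S.W p T 0 := by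
  by_cases h3 : S.r W + 3 ≤ S.r p.1 + ((W \ p.1).card : ℤ)
  · exact flt_three h hF h3
  · exact flt_two h hF hν (by omega)

/-- a rich flat of corank two; if it is dependent we are done -/
theorem flt_or (h : Cu S p) (hR : HasRich S.r p) (hr3 : S.r p.2 - S.r p.1 + 3 ≤ (gs p).card) :
    (∃ T : Fm F4 E, InV S.U S.W p T ∧ ¬ EqD S.U S.W p T 0) ∨
      ∃ (W : Finset E) (P : Fin 5 → Finset E), Fan S.r p W P ∧ (∀ x ∈ p.2, S.r (insert x W) = S.r W → x ∈ W) ∧
        S.r W = S.r p.1 + ((W \ p.1).card : ℤ) := by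
  obtain ⟨q, hq, hRq, h2, hN⟩ := u25_ex S h.hp h.h3 hr3 hR
  obtain ⟨W, P, hF, -, -, hcl, -⟩ := fan_ex S hq hRq h2 hN.2
  have h1 := rk_union_card S.rk p.1 W
  rw [Finset.union_eq_right.2 hF.h1] at h1
  by_cases hν : S.r W + 1 ≤ S.r p.1 + ((W \ p.1).card : ℤ)
  · exact Or.inl (flt_dep h hF hν)
  · exact Or.inr ⟨W, P, hF, hcl, by omega⟩

end Pool.Agent.QU
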