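import Pool.Agent.QUN.Six
import Pool.Agent.QUN.Main
import Pool.Agent.QUL.LSf2

/-!
# QUT/Csm: small removals in the torso of a 2-side (layer D of (Q4), NT-case, case I, steps (c1), (c2), (c3))

`q` is a 3-connected box with at least six elements, `a` an element of `q` (the torso element).
* `csm_rich`: `q` rich: some removal of some `f ≠ a` is rich (and `f` is rigid).
* `csm_bin`: `q` without four point line minor: all removals are rigid if the rest is connected.
* `csm_ln`: `q` not rich, but with a four point line minor: for both types `t` there is `f ≠ a` such that `rm t f q` has a four point line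
  minor (and `f` is rigid).
-/

set_option autoImplicit false

open QUB

namespace Pool.Agent.QU

open Pool.Agent.FRM

section

variable {E : Type} [DecidableEq E] {r : Finset E → ℤ} {p : Itv E}

private theorem csm_cl (hr : QUB.Rk r) (X Z : Finset E) (h : ∀ v ∈ Z, r (insert v X) = r X) : r (X ∪ Z) = r X := by
  induction Z using Finset.induction_on with
  | empty => simp
  | insert a Z ha ih =>
    have h1 := ih (fun v hv => h v (Finset.mem_insert_of_mem hv))
    have h2 := h a (Finset.mem_insert_self _ _)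
    have h3 := hr.sub (insert a X) (X ∪ Z)
    have h4 := hr.mono X (insert a X ∩ (X ∪ Z)) (Finset.subset_inter (Finset.subset_insert _ _) Finset.subset_union_left)
    have h5 := hr.mono (X ∪ insert a Z) (insert a X ∪ (X ∪ Z)) (by
      intro s hs
      simp only [Finset.mem_union, Finset.mem_insert] at hs ⊢
      tauto)
    have h6 := hr.mono X (X ∪ insert a Z) Finset.subset_union_left
    omega

theorem csm_ok (h3 : Th3 r p) : QUB.Ok r p := by
  intro A hA hl hH
  obtain ⟨⟨N, hN, hN3⟩, N', hN', hN3'⟩ := hH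
  have h1 : 3 ≤ A.card := hN3.trans (Finset.card_le_card Finset.inter_subset_right)
  have h2 : 3 ≤ (gs p \ A).card := hN3'.trans (Finset.card_le_card Finset.inter_subset_right)
  have h4 := h3 A hA (by omega) (by omega)
  have h5 : lam r p A = QUB.lam r p A := rfl
  omega

/-- Lemma b for contractions -/
private theorem csm_b (hr : QUB.Rk r) (hp : p.1 ⊆ p.2) (h3 : Th3 r p) (hn : 6 ≤ (gs p).card) (hN : HasLn r p) (hR : ¬ HasRich r p)
    {a : E} (ha : a ∈ gs p) : ∃ f ∈ gs p, f ≠ a ∧ HasLn r (QUB.rm false f p) := by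
  by_contra hcon'
  have hcon : ∀ f ∈ gs p, f ≠ a → ¬ HasLn r (QUB.rm false f p) := fun f hf hfa h => hcon' ⟨f, hf, hfa, h⟩
  have hn4 : 4 ≤ (gs p).card := by omega
  have hpair : ∀ x ∈ gs p, ∀ y ∈ gs p, x ≠ y → r (insert x (insert y p.1)) = r p.1 + 2 := fun x hx y hy hxy =>
    th3_con2 hr hp h3 hn4 hx hy hxy
  have hone : ∀ x ∈ gs p, r (insert x p.1) = r p.1 + 1 := fun x hx => th3_con1 hr hp h3 hn4 hx
  obtain ⟨N, hN4, Y, h1, h2, hd, h4, h5⟩ := hN
  have hY : ∀ f ∈ Y, f ∉ p.1 → f = a := by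
    intro f hf hf1
    by_contra hne
    exact hcon f (Finset.mem_sdiff.2 ⟨h2 (Finset.mem_union_left _ hf), hf1⟩) hne
      ⟨N, hN4, Y, Finset.insert_subset hf h1, h2, hd, h4, h5⟩
  -- the line spans
  have hfull : r p.2 = r (Y ∪ N) := by
    by_contra hne
    have m1 := hr.mono _ _ h2
    have hdel := th3_del1 hr hp h3 hn4 ha
    have hex : ∃ f ∈ p.2.erase a, r (insert f (Y ∪ N)) ≠ r (Y ∪ N) := by
      by_contra hall
      push Not at hall
      have k1 := csm_cl hr _ _ hall
      have k2 := hr.mono (p.2.erase a) ((Y ∪ N) ∪ p.2.erase a) Finset.subset_union_right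
      omega
    obtain ⟨f, hf, hfr⟩ := hex
    obtain ⟨hfa, hf2⟩ := Finset.mem_erase.1 hf
    have hfYN : f ∉ Y ∪ N := fun h => hfr (by rw [Finset.insert_eq_of_mem h])
    have hfY : f ∉ Y := fun h => hfYN (Finset.mem_union_left _ h)
    have hfN : f ∉ N := fun h => hfYN (Finset.mem_union_right _ h)
    have hf1 : f ∉ p.1 := fun h => hfY (h1 h)
    have u1 := hr.unit (Y ∪ N) f
    have u2 := hr.mono (Y ∪ N) (insert f (Y ∪ N)) (Finset.subset_insert _ _)
    have hYf : r (insert f Y) = r Y + 1 := by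
      have k1 := hr.sub (insert f Y) (Y ∪ N)
      have k2 := hr.mono Y (insert f Y ∩ (Y ∪ N)) (Finset.subset_inter (Finset.subset_insert _ _) Finset.subset_union_left)
      have k3 := hr.mono (insert f (Y ∪ N)) (insert f Y ∪ (Y ∪ N)) (by
        intro s hs
        simp only [Finset.mem_union, Finset.mem_insert] at hs ⊢
        tauto)
      have k4 := hr.unit Y f
      omega
    refine hcon f (Finset.mem_sdiff.2 ⟨hf2, hf1⟩) hfa ⟨N, hN4, insert f Y, Finset.insert_subset_insert _ h1, ?_, ?_, ?_, ?_⟩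
    · intro s hs
      rw [Finset.mem_union, Finset.mem_insert] at hs
      rcases hs with (rfl | hs) | hs
      · exact hf2
      · exact h2 (Finset.mem_union_left _ hs)
      · exact h2 (Finset.mem_union_right _ hs)
    · rw [Finset.disjoint_insert_right]
      exact ⟨hfN, hd⟩
    · rw [Finset.insert_union]
      omega
    · intro i hi j hj hij
      have k0 := h5 i hi j hj hij
      have k1 := hr.sub (insert i (insert j (insert f Y))) (Y ∪ N)
      have k2 := hr.mono (insert i (insert j Y)) (insert i (insert j (insert f Y)) ∩ (Y ∪ N)) (by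
        intro s hs
        simp only [Finset.mem_inter, Finset.mem_union, Finset.mem_insert] at hs ⊢
        rcases hs with rfl | rfl | hs
        · exact ⟨Or.inl rfl, Or.inr hi⟩
        · exact ⟨Or.inr (Or.inl rfl), Or.inr hj⟩
        · exact ⟨Or.inr (Or.inr (Or.inr hs)), Or.inl hs⟩)
      have k3 := hr.mono (insert f (Y ∪ N)) (insert i (insert j (insert f Y)) ∪ (Y ∪ N)) (by
        intro s hs
        simp only [Finset.mem_union, Finset.mem_insert] at hs ⊢
        tauto)
      have k4 := hr.unit (insert i (insert j Y)) f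
      have k5 : insert i (insert j (insert f Y)) = insert f (insert i (insert j Y)) := by
        ext s
        simp only [Finset.mem_insert]
        tauto
      rw [k5] at k1 k3 k2 ⊢
      omega
  by_cases haY : a ∈ Y
  swap
  · -- rank two
    have hYp : Y = p.1 := by
      refine Finset.Subset.antisymm (fun f hf => ?_) h1
      by_contra hf1
      exact haY (hY f hf hf1 ▸ hf)
    rw [hYp] at h4 hfull
    obtain ⟨G, hG, hG5⟩ := Finset.exists_subset_card_eq (show 5 ≤ (gs p).card by omega)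
    have hGd : (p.1 ∪ G) \ p.1 = G := by
      rw [Finset.union_sdiff_left, Finset.sdiff_eq_self_of_disjoint]
      exact Finset.disjoint_of_subset_left hG Finset.sdiff_disjoint
    have hG2 : p.1 ∪ G ⊆ p.2 := Finset.union_subset hp (hG.trans Finset.sdiff_subset)
    refine hR ⟨(p.1, p.1 ∪ G), ⟨Finset.Subset.refl _, hG2⟩, Finset.subset_union_left, ?_, Or.inl ⟨?_, ?_⟩⟩
    · show ((p.1 ∪ G) \ p.1).card = 5
      rw [hGd, hG5]
    · show r (p.1 ∪ G) = r p.1 + 2
      obtain ⟨x, hx, y, hy, hxy⟩ := Finset.one_lt_card.1 (show 1 < G.card by omega)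
      have k1 := hpair x (hG hx) y (hG hy) hxy
      have k2 := hr.mono (insert x (insert y p.1)) (p.1 ∪ G) (by
        intro s hs
        simp only [Finset.mem_union, Finset.mem_insert] at hs ⊢
        rcases hs with rfl | rfl | hs
        · exact Or.inr hx
        · exact Or.inr hy
        · exact Or.inl hs)
      have k3 := hr.mono _ _ hG2
      omega
    · intro i hi j hj hij
      have hi' : i ∈ G := by
        have : i ∈ (p.1 ∪ G) \ p.1 := hi
        rwa [hGd] at this
      have hj' : j ∈ G := by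
        have : j ∈ (p.1 ∪ G) \ p.1 := hj
        rwa [hGd] at this
      show r (p.1 ∪ {i, j}) = r p.1 + 2
      have k1 : p.1 ∪ {i, j} = insert i (insert j p.1) := by
        ext s
        simp only [Finset.mem_union, Finset.mem_insert, Finset.mem_singleton]
        tauto
      rw [k1]
      exact hpair i (hG hi') j (hG hj') hij
  -- rank three
  have ha1 : a ∉ p.1 := (Finset.mem_sdiff.1 ha).2
  have ha2 : a ∈ p.2 := (Finset.mem_sdiff.1 ha).1
  have hYp : Y = insert a p.1 := by
    refine Finset.Subset.antisymm (fun f hf => ?_) (Finset.insert_subset haY h1)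
    by_cases hf1 : f ∈ p.1
    · exact Finset.mem_insert_of_mem hf1
    · rw [hY f hf hf1]
      exact Finset.mem_insert_self _ _
  have hra := hone a ha
  rw [hYp] at h4 hfull h5 hd
  have hr3 : r p.2 = r p.1 + 3 := by omega
  have haN : a ∉ N := fun h => (Finset.disjoint_left.1 hd h) (Finset.mem_insert_self _ _)
  have hNg : ∀ x ∈ N, x ∈ gs p := by
    intro x hx
    refine Finset.mem_sdiff.2 ⟨h2 (Finset.mem_union_right _ hx), fun h => ?_⟩
    exact (Finset.disjoint_left.1 hd hx) (Finset.mem_insert_of_mem h)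
  obtain ⟨b, hb, hbN⟩ : ∃ b ∈ gs p, b ∉ insert a N := by
    refine Finset.exists_mem_notMem_of_card_lt_card ?_
    have := Finset.card_insert_le a N
    omega
  rw [Finset.mem_insert, not_or] at hbN
  obtain ⟨hba, hbN⟩ := hbN
  -- collinearity
  have sw1 : ∀ x y z : E, insert x (insert y (insert z p.1)) = insert y (insert x (insert z p.1)) := fun x y z => Finset.insert_comm _ _ _
  have sw2 : ∀ x y z : E, insert x (insert y (insert z p.1)) = insert x (insert z (insert y p.1)) := fun x y z => by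
    rw [Finset.insert_comm y z]
  obtain ⟨P, hP⟩ : ∃ P : E → E → E → Prop, ∀ x y z, P x y z ↔ r (insert x (insert y (insert z p.1))) ≤ r p.1 + 2 :=
    ⟨fun x y z => r (insert x (insert y (insert z p.1))) ≤ r p.1 + 2, fun _ _ _ => Iff.rfl⟩
  have s1 : ∀ {x y z}, P x y z → P y x z := fun {x y z} h => by rw [hP] at h ⊢; rwa [sw1]
  have s2 : ∀ {x y z}, P x y z → P x z y := fun {x y z} h => by rw [hP] at h ⊢; rwa [sw2]
  have tr : ∀ {x y z w}, x ∈ gs p → y ∈ gs p → x ≠ y → P x y z → P x y w → P x z w := by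
    intro x y z w hx hy hxy hz hw
    rw [hP] at hz hw ⊢
    have k1 := hr.sub (insert x (insert y (insert z p.1))) (insert x (insert y (insert w p.1)))
    have k2 := hr.mono (insert x (insert y p.1)) (insert x (insert y (insert z p.1)) ∩ insert x (insert y (insert w p.1))) (by
      intro s hs
      simp only [Finset.mem_inter, Finset.mem_insert] at hs ⊢
      tauto)
    have k3 := hr.mono (insert x (insert z (insert w p.1))) (insert x (insert y (insert z p.1)) ∪ insert x (insert y (insert w p.1))) (by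
      intro s hs
      simp only [Finset.mem_union, Finset.mem_insert] at hs ⊢
      tauto)
    have k4 := hpair x hx y hy hxy
    omega
  have sub2 : ∀ {x y z}, x ∈ gs p → y ∈ gs p → z ∈ gs p → insert x (insert y (insert z p.1)) ⊆ p.2 := by
    intro x y z hx hy hz s hs
    simp only [Finset.mem_insert] at hs
    rcases hs with rfl | rfl | rfl | hs
    · exact (Finset.mem_sdiff.1 hx).1
    · exact (Finset.mem_sdiff.1 hy).1
    · exact (Finset.mem_sdiff.1 hz).1
    · exact hp hs
  have e3 : ∀ {x y z}, x ∈ gs p → y ∈ gs p → z ∈ gs p → ¬ P x y z → r (insert x (insert y (insert z p.1))) = r p.1 + 3 := by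
    intro x y z hx hy hz h
    rw [hP] at h
    have := hr.mono _ _ (sub2 hx hy hz)
    omega
  -- a contraction with four directions
  have key : ∀ f ∈ gs p, f ≠ a → ∀ x ∈ gs p, ∀ y ∈ gs p, ∀ z ∈ gs p, ∀ w ∈ gs p, x ≠ f → y ≠ f → z ≠ f → w ≠ f → x ≠ y → x ≠ z → x ≠ w →
      y ≠ z → y ≠ w → z ≠ w → ¬ P f x y → ¬ P f x z → ¬ P f x w → ¬ P f y z → ¬ P f y w → ¬ P f z w → False := by
    intro f hf hfa x hx y hy z hz w hw hxf hyf hzf hwf hxy hxz hxw hyz hyw hzw n1 n2 n3 n4 n5 n6
    have hf1 := hone f hf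
    have hpr : ∀ i ∈ ({x, y, z, w} : Finset E), ∀ j ∈ ({x, y, z, w} : Finset E), i ≠ j →
        r (insert i (insert j (insert f p.1))) = r (insert f p.1) + 2 := by
      have q1 : ∀ {i j}, i ∈ gs p → j ∈ gs p → ¬ P f i j → r (insert i (insert j (insert f p.1))) = r (insert f p.1) + 2 ∧
          r (insert j (insert i (insert f p.1))) = r (insert f p.1) + 2 := by
        intro i j hi hj h
        have k1 := e3 hf hi hj h
        have k2 : insert i (insert j (insert f p.1)) = insert f (insert i (insert j p.1)) := by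
          ext s
          simp only [Finset.mem_insert]
          tauto
        have k3 : insert j (insert i (insert f p.1)) = insert f (insert i (insert j p.1)) := by
          ext s
          simp only [Finset.mem_insert]
          tauto
        rw [k2, k3]
        omega
      intro i hi j hj hij
      simp only [Finset.mem_insert, Finset.mem_singleton] at hi hj
      rcases hi with rfl | rfl | rfl | rfl <;> rcases hj with rfl | rfl | rfl | rfl <;>
        first
        | exact absurd rfl hij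
        | exact (q1 (by assumption) (by assumption) (by assumption)).1
        | exact (q1 (by assumption) (by assumption) (by assumption)).2
    refine hcon f hf hfa ⟨{x, y, z, w}, Finset.card_eq_four.2 ⟨x, y, z, w, hxy, hxz, hxw, hyz, hyw, hzw, rfl⟩, insert f p.1,
      Finset.Subset.refl _, ?_, ?_, ?_, hpr⟩
    · intro s hs
      simp only [Finset.mem_union, Finset.mem_insert, Finset.mem_singleton] at hs
      rcases hs with (rfl | hs) | rfl | rfl | rfl | rfl
      · exact (Finset.mem_sdiff.1 hf).1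
      · exact hp hs
      · exact (Finset.mem_sdiff.1 hx).1
      · exact (Finset.mem_sdiff.1 hy).1
      · exact (Finset.mem_sdiff.1 hz).1
      · exact (Finset.mem_sdiff.1 hw).1
    · rw [Finset.disjoint_left]
      intro s hs hs'
      simp only [Finset.mem_insert, Finset.mem_singleton] at hs hs'
      rcases hs with rfl | rfl | rfl | rfl <;> rcases hs' with hs' | hs'
      · exact hxf hs'
      · exact (Finset.mem_sdiff.1 hx).2 hs'
      · exact hyf hs'
      · exact (Finset.mem_sdiff.1 hy).2 hs'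
      · exact hzf hs'
      · exact (Finset.mem_sdiff.1 hz).2 hs'
      · exact hwf hs'
      · exact (Finset.mem_sdiff.1 hw).2 hs'
    · have k1 := hpr x (by simp) y (by simp) hxy
      have k2 := hr.mono (insert x (insert y (insert f p.1))) (insert f p.1 ∪ {x, y, z, w}) (by
        intro s hs
        simp only [Finset.mem_union, Finset.mem_insert, Finset.mem_singleton] at hs ⊢
        tauto)
      have k3 := hr.mono (insert f p.1 ∪ {x, y, z, w}) p.2 (by
        intro s hs
        simp only [Finset.mem_union, Finset.mem_insert, Finset.mem_singleton] at hs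
        rcases hs with (rfl | hs) | rfl | rfl | rfl | rfl
        · exact (Finset.mem_sdiff.1 hf).1
        · exact hp hs
        · exact (Finset.mem_sdiff.1 hx).1
        · exact (Finset.mem_sdiff.1 hy).1
        · exact (Finset.mem_sdiff.1 hz).1
        · exact (Finset.mem_sdiff.1 hw).1)
      show r (insert f p.1 ∪ {x, y, z, w}) = r (insert f p.1) + 2
      omega
  -- directions from `a`
  have hNP : ∀ x ∈ N, ∀ y ∈ N, x ≠ y → ¬ P a x y := by
    intro x hx y hy hxy h
    have k1 := h5 x hx y hy hxy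
    rw [hP] at h
    have k2 : insert x (insert y (insert a p.1)) = insert a (insert x (insert y p.1)) := by
      ext s
      simp only [Finset.mem_insert]
      tauto
    rw [k2] at k1
    omega
  -- an element of `N` on the line `a b`
  obtain ⟨b', hb'N, hbb'⟩ : ∃ b' ∈ N, P a b b' := by
    by_contra hno
    push Not at hno
    have hbg := hb
    have hNb : insert a p.1 ∪ insert b N ⊆ p.2 := by
      intro s hs
      simp only [Finset.mem_union, Finset.mem_insert] at hs
      rcases hs with (rfl | hs) | rfl | hs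
      · exact ha2
      · exact hp hs
      · exact (Finset.mem_sdiff.1 hb).1
      · exact (Finset.mem_sdiff.1 (hNg s hs)).1
    have hgd : (insert a p.1 ∪ insert b N) \ insert a p.1 = insert b N := by
      rw [Finset.union_sdiff_left, Finset.sdiff_eq_self_of_disjoint]
      rw [Finset.disjoint_left]
      intro s hs hs'
      simp only [Finset.mem_insert] at hs hs'
      rcases hs with rfl | hs
      · rcases hs' with hs' | hs'
        · exact hba hs'
        · exact (Finset.mem_sdiff.1 hb).2 hs'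
      · rcases hs' with rfl | hs'
        · exact haN hs
        · exact (Finset.mem_sdiff.1 (hNg s hs)).2 hs'
    refine hR ⟨(insert a p.1, insert a p.1 ∪ insert b N), ⟨Finset.subset_insert _ _, hNb⟩, Finset.subset_union_left, ?_, Or.inl ⟨?_, ?_⟩⟩
    · show ((insert a p.1 ∪ insert b N) \ insert a p.1).card = 5
      rw [hgd, Finset.card_insert_of_notMem hbN, hN4]
    · show r (insert a p.1 ∪ insert b N) = r (insert a p.1) + 2
      have k1 := hr.mono _ _ hNb
      have k2 := hr.mono (insert a p.1 ∪ N) (insert a p.1 ∪ insert b N) (Finset.union_subset_union_right (Finset.subset_insert _ _))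
      omega
    · intro i hi j hj hij
      have hi' : i ∈ insert b N := by
        have : i ∈ (insert a p.1 ∪ insert b N) \ insert a p.1 := hi
        rwa [hgd] at this
      have hj' : j ∈ insert b N := by
        have : j ∈ (insert a p.1 ∪ insert b N) \ insert a p.1 := hj
        rwa [hgd] at this
      show r (insert a p.1 ∪ {i, j}) = r (insert a p.1) + 2
      have k1 : insert a p.1 ∪ {i, j} = insert a (insert i (insert j p.1)) := by
        ext s
        simp only [Finset.mem_union, Finset.mem_insert, Finset.mem_singleton]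
        tauto
      have k2 : ¬ P a i j := by
        rcases Finset.mem_insert.1 hi' with rfl | hi''
        · rcases Finset.mem_insert.1 hj' with rfl | hj''
          · exact absurd rfl hij
          · exact hno j hj''
        · rcases Finset.mem_insert.1 hj' with rfl | hj''
          · exact fun h => hno i hi'' (s2 h)
          · exact hNP i hi'' j hj'' hij
      have hig : i ∈ gs p := by
        rcases Finset.mem_insert.1 hi' with rfl | h
        · exact hb
        · exact hNg i h
      have hjg : j ∈ gs p := by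
        rcases Finset.mem_insert.1 hj' with rfl | h
        · exact hb
        · exact hNg j h
      have k3 := e3 ha hig hjg k2
      rw [k1]
      omega
  have hb'g := hNg b' hb'N
  have hb'a : b' ≠ a := fun h => haN (h ▸ hb'N)
  have hbb'n : b ≠ b' := fun h => hbN (h ▸ hb'N)
  have hab : a ≠ b := Ne.symm hba
  -- the other three elements
  have hT3 : (N.erase b').card = 3 := by
    rw [Finset.card_erase_of_mem hb'N, hN4]
  have tN : ∀ x ∈ N.erase b', x ∈ N ∧ x ≠ b' ∧ x ∈ gs p ∧ x ≠ a ∧ x ≠ b := by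
    intro x hx
    obtain ⟨g1, g2⟩ := Finset.mem_erase.1 hx
    exact ⟨g2, g1, hNg x g2, fun h => haN (h ▸ g2), fun h => hbN (h ▸ g2)⟩
  have f1 : ∀ x ∈ N.erase b', ¬ P a b' x := fun x hx => hNP b' hb'N x (tN x hx).1 (tN x hx).2.1.symm
  have f2 : ∀ x ∈ N.erase b', ¬ P a b x := fun x hx h => f1 x hx (tr ha hb hab hbb' h)
  have f3 : ∀ x ∈ N.erase b', ¬ P b b' x := by
    intro x hx h
    have k1 : P b b' a := s2 (s1 hbb')
    have k2 := tr hb'g hb hbb'n.symm (s1 k1) (s1 h)
    exact f1 x hx (s1 k2)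
  have f4 : ∀ x ∈ N.erase b', ∀ y ∈ N.erase b', x ≠ y → ¬ P a x y := fun x hx y hy hxy => hNP x (tN x hx).1 y (tN y hy).1 hxy
  -- every pair is collinear with `b` or `b'`
  have pr : ∀ x ∈ N.erase b', ∀ y ∈ N.erase b', x ≠ y → P b x y ∨ P b' x y := by
    intro x hx y hy hxy
    by_contra hcon2
    rw [not_or] at hcon2
    obtain ⟨g1, g2, g3, g4, g5⟩ := tN x hx
    obtain ⟨i1, i2, i3, i4, i5⟩ := tN y hy
    exact key x g3 g4 a ha b hb b' hb'g y i3 g4.symm g5.symm g2.symm hxy.symm hab hb'a.symm i4.symm hbb'n i5.symm i2.symm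
      (fun h => f2 x hx (s2 (s1 h))) (fun h => f1 x hx (s2 (s1 h))) (fun h => f4 x hx y hy hxy (s1 h))
      (fun h => f3 x hx (s2 (s1 h))) (fun h => hcon2.1 (s1 h)) (fun h => hcon2.2 (s1 h))
  have fin : ∀ x ∈ gs p, ∀ y ∈ gs p, x ≠ y → x ≠ a → y ≠ a → (∀ z ∈ N.erase b', z ≠ y) → (∀ z ∈ N.erase b', z ≠ x) →
      (∀ z ∈ N.erase b', ¬ P a y z) → (∀ z ∈ N.erase b', ¬ P x y z) →
      ∀ c ∈ N.erase b', ∀ d ∈ N.erase b', ∀ e ∈ N.erase b', c ≠ d → c ≠ e → d ≠ e → P x c d → P x c e → False := by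
    intro x hx y hy hxy hxa hya hTy hTx hay hxyz c hc d hd' e he hcd hce hde h1' h2'
    have hcg := (tN c hc).2.2.1
    have hdg := (tN d hd').2.2.1
    have heg := (tN e he).2.2.1
    have hxde : P x d e := tr hx hcg (hTx c hc).symm h1' h2'
    have no : ∀ u ∈ N.erase b', ∀ v ∈ N.erase b', u ≠ v → P x u v → ¬ P y u v := by
      intro u hu v hv huv hxuv hyuv
      have k1 : P u v x := s2 (s1 hxuv)
      have k2 : P u v y := s2 (s1 hyuv)
      have k3 := tr (tN u hu).2.2.1 (tN v hv).2.2.1 huv k1 k2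
      exact hxyz u hu (s2 (s1 k3))
    exact key y hy hya a ha c hcg d hdg e heg hya.symm (hTy c hc) (hTy d hd') (hTy e he) (tN c hc).2.2.2.1.symm (tN d hd').2.2.2.1.symm
      (tN e he).2.2.2.1.symm hcd hce hde (fun h => hay c hc (s1 h)) (fun h => hay d hd' (s1 h)) (fun h => hay e he (s1 h))
      (no c hc d hd' hcd h1') (no c hc e he hce h2') (no d hd' e he hde hxde)
  obtain ⟨c, d, e, hcd, hce, hde, hT⟩ := Finset.card_eq_three.1 hT3
  have hc : c ∈ N.erase b' := by rw [hT]; simp
  have hd' : d ∈ N.erase b' := by rw [hT]; simp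
  have he : e ∈ N.erase b' := by rw [hT]; simp
  have finb := fin b hb b' hb'g hbb'n hba hb'a (fun z hz => (tN z hz).2.1) (fun z hz => (tN z hz).2.2.2.2) f1 f3
  have finb' := fin b' hb'g b hb hbb'n.symm hb'a hba (fun z hz => (tN z hz).2.2.2.2) (fun z hz => (tN z hz).2.1) f2
    (fun z hz h => f3 z hz (s1 h))
  rcases pr c hc d hd' hcd with g1 | g1 <;> rcases pr c hc e he hce with g2 | g2 <;> rcases pr d hd' e he hde with g3 | g3
  · exact finb c hc d hd' e he hcd hce hde g1 g2
  · exact finb c hc d hd' e he hcd hce hde g1 g2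
  · exact finb d hd' c hc e he hcd.symm hde hce (s2 g1) g3
  · exact finb' e he c hc d hd' hce.symm hde.symm hcd (s2 g2) (s2 g3)
  · exact finb e he c hc d hd' hce.symm hde.symm hcd (s2 g2) (s2 g3)
  · exact finb' d hd' c hc e he hcd.symm hde hce (s2 g1) g3
  · exact finb' c hc d hd' e he hcd hce hde g1 g2
  · exact finb' c hc d hd' e he hcd hce hde g1 g2

end

section

variable {E : Type} [Fintype E] [DecidableEq E]

private theorem csm_rk {K : Type} [Field K] (S : TP K E) : Rk S.r :=
  ⟨S.r_empty, fun _ _ h => S.r_mono h, fun A x => S.r_insert_le x A, fun A B => S.r_submod A B⟩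

private theorem csm_dd {K : Type} [Field K] (S : TP K E) : S.dual.dual.r = S.r := QUB.rd_rd (csm_rk S)

/-- duality for `HasRich` -/
theorem hasRich_dual {K : Type} [Field K] (S : TP K E) {p : Itv E} : HasRich S.dual.r (QUB.dp p) ↔ HasRich S.r p := by
  constructor
  · rintro ⟨q', h1, h2⟩
    refine ⟨QUB.dp q', ?_, ?_⟩
    · have h3 : Sub (QUB.dp q') (QUB.dp (QUB.dp p)) := ⟨Finset.compl_subset_compl.2 h1.2, Finset.compl_subset_compl.2 h1.1⟩
      rwa [QUB.dp_dp] at h3
    · have h3 := rich_dual S.dual h2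
      rwa [csm_dd] at h3
  · rintro ⟨q', h1, h2⟩
    exact ⟨QUB.dp q', ⟨Finset.compl_subset_compl.2 h1.2, Finset.compl_subset_compl.2 h1.1⟩, rich_dual S h2⟩

/-- duality for `HasLn` -/
theorem hasLn_dual {K : Type} [Field K] (S : TP K E) {p : Itv E} (hp : p.1 ⊆ p.2) : HasLn S.dual.r (QUB.dp p) ↔ HasLn S.r p := by
  constructor
  · rintro ⟨N, hN⟩
    exact ⟨N, (QUB.ln_dp (csm_rk S) hp N).1 hN⟩
  · rintro ⟨N, hN⟩
    exact ⟨N, (QUB.ln_dp (csm_rk S) hp N).2 hN⟩

/-- Lemma b -/
theorem ln_off {K : Type} [Field K] (S : TP K E) {p : Itv E} (hp : p.1 ⊆ p.2) (h3 : Th3 S.r p) (hn : 6 ≤ (gs p).card) (hN : HasLn S.r p)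
    (hR : ¬ HasRich S.r p) {a : E} (ha : a ∈ gs p) (t : Bool) : ∃ f ∈ gs p, f ≠ a ∧ HasLn S.r (QUB.rm t f p) := by
  cases t
  · exact csm_b (csm_rk S) hp h3 hn hN hR ha
  · have hg : gs (QUB.dp p) = gs p := QUB.gs_dp p
    obtain ⟨f, hf, hfa, h⟩ := csm_b (csm_rk S.dual) (QUB.wf_dp hp) (th3_dual S hp h3) (by rw [hg]; exact hn)
      ((hasLn_dual S hp).2 hN) (fun h => hR ((hasRich_dual S).1 h)) (a := a) (by rw [hg]; exact ha)
    rw [hg] at hf
    refine ⟨f, hf, hfa, ?_⟩
    have h1 : QUB.rm false f (QUB.dp p) = QUB.dp (QUB.rm true f p) := QUB.rm_dp false f p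
    rw [h1] at h
    exact (hasLn_dual S (QUB.wf_rm hp hf)).1 h

private theorem csm_fin5 : ∀ i j k l : Fin 5, i ≠ j → i ≠ k → i ≠ l → j ≠ k → j ≠ l → k ≠ l →
    ∃ m : Fin 5, m ≠ i ∧ m ≠ j ∧ m ≠ k ∧ m ≠ l ∧ ∀ b, b ≠ m → b = i ∨ b = j ∨ b = k ∨ b = l := by
  intro i j k l hij hik hil hjk hjl hkl
  have h4 : ({i, j, k, l} : Finset (Fin 5)).card = 4 := Finset.card_eq_four.2 ⟨i, j, k, l, hij, hik, hil, hjk, hjl, hkl, rfl⟩
  have h1 : (({i, j, k, l} : Finset (Fin 5))ᶜ).card = 1 := by
    rw [Finset.card_compl, h4, Fintype.card_fin]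
  obtain ⟨m, hm⟩ := Finset.card_eq_one.1 h1
  have hmem : m ∈ ({i, j, k, l} : Finset (Fin 5))ᶜ := by
    rw [hm]
    exact Finset.mem_singleton_self _
  rw [Finset.mem_compl] at hmem
  simp only [Finset.mem_insert, Finset.mem_singleton, not_or] at hmem
  refine ⟨m, hmem.1, hmem.2.1, hmem.2.2.1, hmem.2.2.2, fun b hb => ?_⟩
  by_contra hcon
  have hb2 : b ∈ ({i, j, k, l} : Finset (Fin 5))ᶜ := by
    rw [Finset.mem_compl]
    simpa only [Finset.mem_insert, Finset.mem_singleton] using hcon
  rw [hm, Finset.mem_singleton] at hb2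
  exact hb hb2

private theorem csm_six (S : TP F4 E) (hNU : NU S.r) {p : Itv E} (hp : p.1 ⊆ p.2) (h3 : Th3 S.r p) (hn : (gs p).card = 6) {x : E}
    (hx : x ∈ gs p) (hR : Rich S.r (QUB.rm true x p)) : ∃ y ∈ gs p, y ≠ x ∧ Rich S.r (QUB.rm false y p) := by
  classical
  have hr := csm_rk S
  have hn4 : 4 ≤ (gs p).card := by omega
  have hgq : gs (QUB.rm true x p) = (gs p).erase x := QUB.gs_rm true x p
  have hdel : S.r (p.2.erase x) = S.r p.2 := th3_del1 hr hp h3 hn4 hx
  obtain ⟨_, h5, hR⟩ := hR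
  have hx2 : x ∈ p.2 := (Finset.mem_sdiff.1 hx).1
  rcases hR with ⟨hR1, _⟩ | ⟨hR1, hR2⟩
  · exfalso
    have hR1' : S.r (p.2.erase x) = S.r p.1 + 2 := hR1
    have := line_six S hp (by linarith) (fun i hi j hj hij => th3_con2 hr hp h3 hn4 hi hj hij)
    omega
  have hR1' : S.r (p.2.erase x) = S.r p.1 + 3 := hR1
  have hr3 : S.r p.2 = S.r p.1 + 3 := by linarith
  have hq3 : ∀ i ∈ gs (QUB.rm true x p), ∀ j ∈ gs (QUB.rm true x p), ∀ k ∈ gs (QUB.rm true x p), i ≠ j → i ≠ k → j ≠ k →
      S.r (p.1 ∪ {i, j, k}) = S.r p.1 + 3 := hR2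
  obtain ⟨v, hv⟩ := vec_exists S hp hr3
  let e := (Finset.equivFinOfCardEq h5).symm
  let w : Fin 5 → E := fun a => (e a : E)
  have hwm : ∀ a, w a ∈ gs (QUB.rm true x p) := fun a => (e a).2
  have hwi : ∀ a b, a ≠ b → w a ≠ w b := by
    intro a b hab he
    exact hab (e.injective (Subtype.ext he))
  have hws : ∀ y ∈ gs (QUB.rm true x p), ∃ a, w a = y := by
    intro y hy
    refine ⟨e.symm ⟨y, hy⟩, ?_⟩
    change ((e (e.symm ⟨y, hy⟩) : _) : E) = y
    rw [Equiv.apply_symm_apply]
  have hwp : ∀ a, w a ∈ gs p ∧ w a ≠ x := by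
    intro a
    have h1 := hwm a
    rw [hgq, Finset.mem_erase] at h1
    exact ⟨h1.2, h1.1⟩
  have hw2 : ∀ a, w a ∈ p.2 := fun a => (Finset.mem_sdiff.1 (hwp a).1).1
  have hdv : ∀ a b c, a ≠ b → a ≠ c → b ≠ c → dt (v (w a)) (v (w b)) (v (w c)) ≠ 0 := by
    intro a b c hab hac hbc
    exact (hv _ (hw2 a) _ (hw2 b) _ (hw2 c)).1
      (hq3 _ (hwm a) _ (hwm b) _ (hwm c) (hwi a b hab) (hwi a c hac) (hwi b c hbc))
  have hcon : ∀ a, S.r (insert x (insert (w a) p.1)) = S.r p.1 + 2 := fun a =>
    th3_con2 hr hp h3 hn4 hx (hwp a).1 (hwp a).2.symm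
  have hset3 : ∀ y z u : E, p.1 ∪ {y, z, u} = insert y (insert z (insert u p.1)) := by
    intro y z u
    ext s
    simp only [Finset.mem_union, Finset.mem_insert, Finset.mem_singleton]
    tauto
  have hset2 : ∀ y z : E, p.1 ∪ {y, z} = insert y (insert z p.1) := by
    intro y z
    ext s
    simp only [Finset.mem_union, Finset.mem_insert, Finset.mem_singleton]
    tauto
  -- the triples with `x` which are not independent
  have hz1 : ∀ a b, S.r (p.1 ∪ {x, w a, w b}) ≠ S.r p.1 + 3 → S.r (insert x (insert (w a) (insert (w b) p.1))) = S.r p.1 + 2 := by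
    intro a b h1
    rw [hset3] at h1
    have h2 := hr.mono (insert x (insert (w a) p.1)) (insert x (insert (w a) (insert (w b) p.1)))
      (Finset.insert_subset_insert _ (Finset.insert_subset_insert _ (Finset.subset_insert _ _)))
    have h3' := hr.unit (insert (w a) (insert (w b) p.1)) x
    have h4 := hr.unit (insert (w b) p.1) (w a)
    have h5' := hr.unit p.1 (w b)
    have h6 := hcon a
    omega
  have hzero : ∀ a b, dt (v x) (v (w a)) (v (w b)) = 0 → S.r (insert x (insert (w a) (insert (w b) p.1))) = S.r p.1 + 2 :=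
    fun a b hd => hz1 a b fun he => (hv _ hx2 _ (hw2 a) _ (hw2 b)).1 he hd
  -- at most one line through `x` and `w a`
  have hno : ∀ a b c, a ≠ b → a ≠ c → b ≠ c → S.r (insert x (insert (w a) (insert (w b) p.1))) = S.r p.1 + 2 →
      S.r (insert x (insert (w a) (insert (w c) p.1))) = S.r p.1 + 2 → False := by
    intro a b c hab hac hbc k1 k2
    have k3 := hr.sub (insert x (insert (w a) (insert (w b) p.1))) (insert x (insert (w a) (insert (w c) p.1)))
    have k4 := hr.mono (insert x (insert (w a) p.1))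
      (insert x (insert (w a) (insert (w b) p.1)) ∩ insert x (insert (w a) (insert (w c) p.1)))
      (Finset.subset_inter
        (Finset.insert_subset_insert _ (Finset.insert_subset_insert _ (Finset.subset_insert _ _)))
        (Finset.insert_subset_insert _ (Finset.insert_subset_insert _ (Finset.subset_insert _ _))))
    have k5 := hq3 _ (hwm a) _ (hwm b) _ (hwm c) (hwi a b hab) (hwi a c hac) (hwi b c hbc)
    have k6 := hr.mono (p.1 ∪ {w a, w b, w c})
      (insert x (insert (w a) (insert (w b) p.1)) ∪ insert x (insert (w a) (insert (w c) p.1))) (by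
        intro s hs
        simp only [Finset.mem_union, Finset.mem_insert, Finset.mem_singleton] at hs ⊢
        tauto)
    have k7 := hcon a
    omega
  have hxx : ∀ a, ∃ b, b ≠ a ∧ dt (v x) (v (w a)) (v (w b)) ≠ 0 := by
    intro a
    by_contra hcon2
    push Not at hcon2
    obtain ⟨b, c, hb, hc, hbc⟩ : ∃ b c : Fin 5, b ≠ a ∧ c ≠ a ∧ b ≠ c := by
      clear hcon2
      revert a
      decide
    exact hno a b c hb.symm hc.symm hbc (hzero a b (hcon2 b hb)) (hzero a c (hcon2 c hc))
  rcases fg_six (fun a => v (w a)) (v x) hdv hxx with hA | ⟨i, j, k, l, hij, hik, hil, hjk, hjl, hkl, hA, hB⟩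
  · exfalso
    have hxab : ∀ a b, a ≠ b → S.r (p.1 ∪ {x, w a, w b}) = S.r p.1 + 3 := fun a b hab =>
      (hv _ hx2 _ (hw2 a) _ (hw2 b)).2 (hA a b hab)
    have hxyz : ∀ y ∈ gs p, ∀ z ∈ gs p, y ≠ x → z ≠ x → y ≠ z → S.r (p.1 ∪ {x, y, z}) = S.r p.1 + 3 := by
      intro y hy z hz hyx hzx hyz
      obtain ⟨a, rfl⟩ := hws y (by rw [hgq]; exact Finset.mem_erase.2 ⟨hyx, hy⟩)
      obtain ⟨b, rfl⟩ := hws z (by rw [hgq]; exact Finset.mem_erase.2 ⟨hzx, hz⟩)
      exact hxab a b (fun he => hyz (by rw [he]))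
    refine hNU p hp hn hr3 ?_
    intro y hy z hz u hu hyz hyu hzu
    by_cases e1 : y = x
    · subst e1
      exact hxyz z hz u hu hyz.symm hyu.symm hzu
    · by_cases e2 : z = x
      · subst e2
        rw [Finset.insert_comm y z]
        exact hxyz y hy u hu e1 hzu.symm hyu
      · by_cases e3 : u = x
        · subst e3
          rw [Finset.pair_comm z u, Finset.insert_comm y u]
          exact hxyz y hy z hz e1 e2 hyz
        · refine hq3 y ?_ z ?_ u ?_ hyz hyu hzu <;> rw [hgq]
          · exact Finset.mem_erase.2 ⟨e1, hy⟩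
          · exact Finset.mem_erase.2 ⟨e2, hz⟩
          · exact Finset.mem_erase.2 ⟨e3, hu⟩
  · obtain ⟨m, hmi, hmj, hmk, hml, hall⟩ : ∃ m : Fin 5, m ≠ i ∧ m ≠ j ∧ m ≠ k ∧ m ≠ l ∧ ∀ b, b ≠ m → b = i ∨ b = j ∨ b = k ∨ b = l :=
      csm_fin5 i j k l hij hik hil hjk hjl hkl
    have zA := hzero i j hA
    have zB := hzero k l hB
    have zA' : S.r (insert x (insert (w j) (insert (w i) p.1))) = S.r p.1 + 2 := by rw [Finset.insert_comm (w j)]; exact zA
    have zB' : S.r (insert x (insert (w l) (insert (w k) p.1))) = S.r p.1 + 2 := by rw [Finset.insert_comm (w l)]; exact zB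
    -- `x` and `w m` span no other point
    have hmx : ∀ b, b ≠ m → S.r (p.1 ∪ {x, w b, w m}) = S.r p.1 + 3 := by
      intro b hb
      by_contra hcon3
      have z := hz1 b m hcon3
      rcases hall b hb with rfl | rfl | rfl | rfl
      · exact hno b j m hij hb (Ne.symm hmj) zA z
      · exact hno b i m (Ne.symm hij) hb (Ne.symm hmi) zA' z
      · exact hno b l m hkl hb (Ne.symm hml) zB z
      · exact hno b k m (Ne.symm hkl) hb (Ne.symm hmk) zB' z
    have hcm := th3_con1 hr hp h3 hn4 (hwp m).1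
    have hgm : gs (QUB.rm false (w m) p) = (gs p).erase (w m) := QUB.gs_rm false (w m) p
    refine ⟨w m, (hwp m).1, (hwp m).2, QUB.wf_rm hp (hwp m).1, ?_, Or.inl ⟨?_, ?_⟩⟩
    · rw [hgm, Finset.card_erase_of_mem (hwp m).1, hn]
    · show S.r p.2 = S.r (insert (w m) p.1) + 2
      omega
    · intro y hy z hz hyz
      show S.r (insert (w m) p.1 ∪ {y, z}) = S.r (insert (w m) p.1) + 2
      rw [hgm, Finset.mem_erase] at hy hz
      have key : S.r (p.1 ∪ {w m, y, z}) = S.r p.1 + 3 := by
        have aux : ∀ z, z ≠ w m → z ≠ x → z ∈ gs p → S.r (p.1 ∪ {w m, x, z}) = S.r p.1 + 3 := by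
          intro z hz1 hz2 hz3
          obtain ⟨b, rfl⟩ := hws z (by rw [hgq]; exact Finset.mem_erase.2 ⟨hz2, hz3⟩)
          have k1 := hmx b (fun h => hz1 (by rw [h]))
          have k2 : ({w m, x, w b} : Finset E) = {x, w b, w m} := by
            ext s
            simp only [Finset.mem_insert, Finset.mem_singleton]
            tauto
          rw [k2]
          exact k1
        by_cases e1 : y = x
        · subst e1
          exact aux z hz.1 hyz.symm hz.2
        · by_cases e2 : z = x
          · subst e2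
            rw [Finset.pair_comm y z]
            exact aux y hy.1 hyz hy.2
          · refine hq3 _ (hwm m) y ?_ z ?_ hy.1.symm hz.1.symm hyz <;> rw [hgq]
            · exact Finset.mem_erase.2 ⟨e1, hy.2⟩
            · exact Finset.mem_erase.2 ⟨e2, hz.2⟩
      have k1 : insert (w m) p.1 ∪ {y, z} = p.1 ∪ {w m, y, z} := by
        ext s
        simp only [Finset.mem_union, Finset.mem_insert, Finset.mem_singleton]
        tauto
      rw [k1]
      omega

/-- an element different from `a` with a rich removal -/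
theorem rich_off (S : TP F4 E) (hNU : NU S.r) {p : Itv E} (hp : p.1 ⊆ p.2) (h3 : Th3 S.r p) (hn : 6 ≤ (gs p).card) (hR : HasRich S.r p)
    (a : E) : ∃ x ∈ gs p, x ≠ a ∧ ∃ t : Bool, HasRich S.r (QUB.rm t x p) := by
  obtain ⟨q, hs, hq⟩ := hR
  have h5 := hq.2.1
  have hg : gs q ⊆ gs p := Finset.sdiff_subset_sdiff hs.2 hs.1
  have hrm : ∀ x ∈ gs p, x ∉ gs q → ∃ t : Bool, Sub q (QUB.rm t x p) := by
    intro x hx hxq
    by_cases h1 : x ∈ q.1
    · exact ⟨false, Finset.insert_subset h1 hs.1, hs.2⟩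
    · refine ⟨true, hs.1, fun y hy => Finset.mem_erase.2 ⟨?_, hs.2 hy⟩⟩
      rintro rfl
      exact hxq (Finset.mem_sdiff.2 ⟨hy, h1⟩)
  by_cases hex : ∃ x ∈ gs p, x ∉ gs q ∧ x ≠ a
  · obtain ⟨x, hx, hxq, hxa⟩ := hex
    obtain ⟨t, ht⟩ := hrm x hx hxq
    exact ⟨x, hx, hxa, t, q, ht, hq⟩
  · push Not at hex
    have h6 : gs p ⊆ insert a (gs q) := by
      intro y hy
      by_cases hyq : y ∈ gs q
      · exact Finset.mem_insert_of_mem hyq
      · rw [hex y hy hyq]
        exact Finset.mem_insert_self _ _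
    have h7 := Finset.card_le_card h6
    have h8 := Finset.card_insert_le a (gs q)
    have hn6 : (gs p).card = 6 := by omega
    obtain ⟨x, hx, hxq⟩ : ∃ x ∈ gs p, x ∉ gs q := Finset.exists_mem_notMem_of_card_lt_card (by omega)
    have hxa := hex x hx hxq
    subst hxa
    obtain ⟨t, ht⟩ := hrm x hx hxq
    have hcard : (gs (QUB.rm t x p)).card = 5 := by
      have h9 : gs (QUB.rm t x p) = (gs p).erase x := QUB.gs_rm t x p
      rw [h9, Finset.card_erase_of_mem hx, hn6]
    have hbox := box_eq (QUB.wf_rm hp hx) hq.1 ht (by omega)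
    rw [hbox] at hq
    cases t
    · have hgp : gs (QUB.dp p) = gs p := QUB.gs_dp p
      have e1 : QUB.rm true x (QUB.dp p) = QUB.dp (QUB.rm false x p) := QUB.rm_dp true x p
      obtain ⟨y, hy, hyx, h9⟩ := csm_six S.dual (nu_dual S hNU) (p := QUB.dp p) (QUB.wf_dp hp) (th3_dual S hp h3)
        (by rw [hgp]; exact hn6) (x := x) (by rw [hgp]; exact hx) (by rw [e1]; exact rich_dual S hq)
      rw [hgp] at hy
      have e2 : QUB.rm false y (QUB.dp p) = QUB.dp (QUB.rm true y p) := QUB.rm_dp false y p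
      rw [e2] at h9
      exact ⟨y, hy, hyx, true, (hasRich_dual S).1 ⟨_, ⟨Finset.Subset.refl _, Finset.Subset.refl _⟩, h9⟩⟩
    · obtain ⟨y, hy, hyx, h9⟩ := csm_six S hNU hp h3 hn6 hx hq
      exact ⟨y, hy, hyx, false, _, ⟨Finset.Subset.refl _, Finset.Subset.refl _⟩, h9⟩

/-! ## Rigidity -/

/-- binary rigidity -/
theorem csm_bin {K : Type} [Field K] (S : TP K E) {q : Itv E} (hq : q.1 ⊆ q.2) (hb : ∀ N, ¬ QUB.Ln S.r q N) {f : E} {t : Bool}
    (hf : f ∈ gs q) (hc : QUB.Cn S.r (rm t f q)) : Rg S t f q := by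
  intro T hT h0
  obtain ⟨l, hl⟩ := bin_diag S hq hb hT
  rw [zero_add] at hl
  obtain ⟨w, hw0, hw⟩ := bin_hom S hq hb
  have h1 : EqOn S.U S.W (rm t f q) (dg l) 0 := (hl.mono (rm_sub t f q)).symm.trans h0
  obtain ⟨k, hk⟩ := hom_line S (QUB.wf_rm hq hf) hc h1 (hw.mono (rm_sub t f q)) (fun x hx => hw0 x (by
    rw [gs_rm] at hx
    exact (Finset.mem_erase.1 hx).2))
  refine ⟨l f - k * w f, ?_⟩
  have h2 : EqOn S.U S.W q T (dg (fun x => l x - k * w x)) := by
    intro c hc' d hd
    rw [hl c hc' d hd]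
    have h3 := hw c hc' d hd
    rw [dg_apply, LinearMap.zero_apply, LinearMap.zero_apply] at h3
    rw [dg_apply, dg_apply]
    have h4 : ∑ x, (l x - k * w x) * (c x * d x) = ∑ x, l x * (c x * d x) - k * ∑ x, w x * (c x * d x) := by
      rw [Finset.mul_sum, ← Finset.sum_sub_distrib]
      exact Finset.sum_congr rfl fun x _ => by ring
    rw [h4, h3, mul_zero, sub_zero]
  refine h2.trans (dg_congr fun x hx => ?_)
  by_cases hxf : x = f
  · rw [hxf, Pi.single_eq_same]
  · rw [Pi.single_eq_of_ne hxf, hk x (by rw [gs_rm]; exact Finset.mem_erase.2 ⟨hxf, hx⟩), sub_self]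

/-- rigidity by uniqueness (no hypothesis `ExpAll`) -/
theorem csm_rg (S : TP F4 E) (hNU : NU S.r) {q : Itv E} (hq : q.1 ⊆ q.2) {f : E} {t : Bool} (hf : f ∈ gs q) (hc : QUB.Cn S.r q)
    (ho : QUB.Ok S.r q) (hc' : QUB.Cn S.r (rm t f q)) (hN : HasLn S.r (rm t f q)) (hR : HasRich S.r (rm t f q) ∨ ¬ HasRich S.r q) :
    Rg S t f q := by
  intro T hT h0
  have hd : EqD S.U S.W q T 0 := by
    rcases hR with ⟨q', hq', hrich⟩ | hR
    · exact thmU S hNU q hq hc ho hT (Or.inl ⟨q', (rm_sub t f q).trans hq', hrich, (h0.eqD).mono hq'⟩)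
    · exact thmU S hNU q hq hc ho hT (Or.inr hR)
  obtain ⟨l, hl⟩ := hd
  rw [zero_add] at hl
  have h1 : EqOn S.U S.W (rm t f q) (dg l) 0 := (hl.mono (rm_sub t f q)).symm.trans h0
  have h2 := hom_cn S (QUB.wf_rm hq hf) hc' hN h1
  refine ⟨l f, hl.trans (dg_congr fun x hx => ?_)⟩
  by_cases hxf : x = f
  · rw [hxf, Pi.single_eq_same]
  · rw [Pi.single_eq_of_ne hxf]
    refine h2 x ?_
    rw [gs_rm]
    exact Finset.mem_erase.2 ⟨hxf, hx⟩

/-- (c1): a rich torso -/
theorem csm_rich (S : TP F4 E) (hNU : NU S.r) {q : Itv E} (hq : q.1 ⊆ q.2) (hc : QUB.Cn S.r q) (h3 : Th3 S.r q) (hn : 6 ≤ (gs q).card)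
    (hR : HasRich S.r q) (a : E) : ∃ f ∈ gs q, f ≠ a ∧ ∃ t : Bool, HasRich S.r (rm t f q) ∧ Rg S t f q := by
  obtain ⟨f, hf, hfa, t, h⟩ := rich_off S hNU hq h3 hn hR a
  refine ⟨f, hf, hfa, t, h, csm_rg S hNU hq hf hc (csm_ok h3) (th3_cn (csm_rk S) hq hc h3 (by omega) hf t) ?_ (Or.inl h)⟩
  obtain ⟨q', hq', hrich⟩ := h
  have hne : (gs q').Nonempty := Finset.card_pos.1 (by rw [hrich.2.1]; norm_num)
  obtain ⟨x, hx⟩ := hne
  obtain ⟨N, hN, -⟩ := rich_ln (csm_rk S) hrich hx
  exact HasLn.mono ⟨N, hN⟩ hq'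

/-- (c3): a torso which is neither rich nor binary -/
theorem csm_ln (S : TP F4 E) (hNU : NU S.r) {q : Itv E} (hq : q.1 ⊆ q.2) (hc : QUB.Cn S.r q) (h3 : Th3 S.r q) (hn : 6 ≤ (gs q).card)
    (hN : HasLn S.r q) (hR : ¬ HasRich S.r q) {a : E} (ha : a ∈ gs q) (t : Bool) :
    ∃ f ∈ gs q, f ≠ a ∧ HasLn S.r (rm t f q) ∧ Rg S t f q := by
  obtain ⟨f, hf, hfa, h⟩ := ln_off S hq h3 hn hN hR ha t
  exact ⟨f, hf, hfa, h, csm_rg S hNU hq hf hc (csm_ok h3) (th3_cn (csm_rk S) hq hc h3 (by omega) hf t) h (Or.inr hR)⟩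

end

end Pool.Agent.QU
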