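import Pool.Agent.QUP.Tri
import Pool.Agent.QUT.Csm

/-!
# QUT/Conn: two hubs of one type and a connector

`T` lies in `V` after the removals `k1`, `k2` (one type) and `a`.  If the pairs with the target `x` are connected and `Ok`, the triples
`x, a, k1` and `x, a, k2` are connected and rich, and `a` is no loop and no coloop after the removals `x, k1, k2`, then `T` lies in `V` after the
removal of `x`.
-/

set_option autoImplicit false

open QUB

namespace Pool.Agent.QU

open Pool.Agent.FRM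

variable {E : Type} [Fintype E] [DecidableEq E]

omit [Fintype E] in
private theorem cn_mem {p : Itv E} {a b : E} {s : Bool} (hab : a ≠ b) (ha : a ∈ gs p) : a ∈ gs (rm s b p) := by
  rw [gs_rm]
  exact Finset.mem_erase.2 ⟨hab, ha⟩

theorem hasLn_of_rich {S : TP F4 E} {q : Itv E} (h : HasRich S.r q) : HasLn S.r q := by
  obtain ⟨q', hq', hrich⟩ := h
  have hne : (gs q').Nonempty := Finset.card_pos.1 (by rw [hrich.2.1]; norm_num)
  obtain ⟨x, hx⟩ := hne
  obtain ⟨N, hN, -⟩ := rich_ln S.rk hrich hx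
  exact HasLn.mono ⟨N, hN⟩ hq'

/-- the two-hub rule with a connector -/
theorem con_hub (S : TP F4 E) (hNU : NU S.r) {p : Itv E} (hp : p.1 ⊆ p.2) {k1 k2 a x : E} {t u s : Bool}
    (h12 : k1 ≠ k2) (h1x : k1 ≠ x) (h2x : k2 ≠ x) (ha1 : a ≠ k1) (ha2 : a ≠ k2) (hax : a ≠ x)
    (m1 : k1 ∈ gs p) (m2 : k2 ∈ gs p) (ma : a ∈ gs p) (mx : x ∈ gs p) {T : Fm F4 E}
    (i1 : InV S.U S.W (rm t k1 p) T) (i2 : InV S.U S.W (rm t k2 p) T) (ia : InV S.U S.W (rm u a p) T)
    (hex : ∃ T, InVs S (rm s x p) T)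
    (c1 : Cn S.r (rm t k1 (rm s x p))) (o1 : Ok S.r (rm t k1 (rm s x p)))
    (c2 : Cn S.r (rm t k2 (rm s x p))) (o2 : Ok S.r (rm t k2 (rm s x p)))
    (ca : Cn S.r (rm u a (rm s x p))) (oa : Ok S.r (rm u a (rm s x p)))
    (ca1 : Cn S.r (rm u a (rm t k1 (rm s x p)))) (ra1 : HasRich S.r (rm u a (rm t k1 (rm s x p))))
    (ca2 : Cn S.r (rm u a (rm t k2 (rm s x p)))) (ra2 : HasRich S.r (rm u a (rm t k2 (rm s x p))))
    (hnd : ND S.r (rm s x p) k1 k2 t t)
    (hla : S.r (insert a (rm t k1 (rm t k2 (rm s x p))).1) = S.r (rm t k1 (rm t k2 (rm s x p))).1 + 1)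
    (hlb : S.r ((rm t k1 (rm t k2 (rm s x p))).2.erase a) = S.r (rm t k1 (rm t k2 (rm s x p))).2) :
    InV S.U S.W (rm s x p) T := by
  obtain ⟨Ts, hTs⟩ := hex
  have j1 : InV S.U S.W (rm t k1 (rm s x p)) T := i1.mono ((rm_sub s x p).rm t k1)
  have j2 : InV S.U S.W (rm t k2 (rm s x p)) T := i2.mono ((rm_sub s x p).rm t k2)
  have ja : InV S.U S.W (rm u a (rm s x p)) T := ia.mono ((rm_sub s x p).rm u a)
  have wq : (rm s x p).1 ⊆ (rm s x p).2 := QUB.wf_rm hp mx
  have n1 : k1 ∈ gs (rm s x p) := cn_mem h1x m1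
  have n2 : k2 ∈ gs (rm s x p) := cn_mem h2x m2
  have na : a ∈ gs (rm s x p) := cn_mem hax ma
  generalize rm s x p = q at *
  have w1 : (rm t k1 q).1 ⊆ (rm t k1 q).2 := QUB.wf_rm wq n1
  have w2 : (rm t k2 q).1 ⊆ (rm t k2 q).2 := QUB.wf_rm wq n2
  have wa : (rm u a q).1 ⊆ (rm u a q).2 := QUB.wf_rm wq na
  have v1 : InVs S (rm t k1 q) Ts := invs_sub hTs (rm_sub t k1 q)
  have v2 : InVs S (rm t k2 q) Ts := invs_sub hTs (rm_sub t k2 q)
  have va : InVs S (rm u a q) Ts := invs_sub hTs (rm_sub u a q)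
  obtain ⟨x1, l1, e1⟩ := uniq_f4 S hNU w1 c1 o1 j1 v1
  obtain ⟨x2, l2, e2⟩ := uniq_f4 S hNU w2 c2 o2 j2 v2
  obtain ⟨xa, la, ea⟩ := uniq_f4 S hNU wa ca oa ja va
  have key : ∀ (k : E) (y : F4) (l : E → F4), a ≠ k → k ∈ gs q → (rm t k q).1 ⊆ (rm t k q).2 → InVs S (rm t k q) Ts →
      EqOn S.U S.W (rm t k q) T (y • Ts + dg l) → Cn S.r (rm u a (rm t k q)) → HasRich S.r (rm u a (rm t k q)) →
      y = xa ∧ ∀ v ∈ gs (rm u a (rm t k q)), l v = la v := by
    intro k y l hak mk wk vk hl hc hR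
    have s1 : Sub (rm u a (rm t k q)) (rm t k q) := rm_sub u a _
    have s2 : Sub (rm u a (rm t k q)) (rm u a q) := (rm_sub t k q).rm u a
    have hy : y = xa := by
      by_contra hne
      obtain ⟨N, hN1, hN2⟩ := hR
      have h1 : EqD S.U S.W (rm u a (rm t k q)) Ts 0 :=
        eqd_diff (a := y) (b := xa) (⟨l, hl.mono s1⟩ : EqD S.U S.W _ T (y • Ts)) (⟨la, ea.mono s2⟩ : EqD S.U S.W _ T (xa • Ts)) hne
      exact vk.2 N (s1.trans hN1) hN2 (h1.mono hN1)
    refine ⟨hy, ?_⟩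
    have wk' : (rm u a (rm t k q)).1 ⊆ (rm u a (rm t k q)).2 := QUB.wf_rm wk (cn_mem hak na)
    have h2 : EqOn S.U S.W (rm u a (rm t k q)) (dg (l - la)) 0 := by
      intro c hc' d hd'
      have g1 := (hl.mono s1) c hc' d hd'
      have g2 := (ea.mono s2) c hc' d hd'
      rw [LinearMap.add_apply, LinearMap.add_apply] at g1 g2
      rw [hy] at g1
      rw [dg_sub, LinearMap.sub_apply, LinearMap.sub_apply, LinearMap.zero_apply, LinearMap.zero_apply]
      linear_combination g2 - g1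
    have h3 := hom_cn S wk' hc (hasLn_of_rich hR) h2
    intro v hv
    have h4 := h3 v hv
    rw [Pi.sub_apply] at h4
    exact sub_eq_zero.1 h4
  obtain ⟨y1, q1⟩ := key k1 x1 l1 ha1 n1 w1 v1 e1 ca1 ra1
  obtain ⟨y2, q2⟩ := key k2 x2 l2 ha2 n2 w2 v2 e2 ca2 ra2
  rw [y1] at e1
  rw [y2] at e2
  -- the value at `a`
  have hB1 : Sub (rm t k1 (rm t k2 q)) (rm t k1 q) := (rm_sub t k2 q).rm t k1
  have hB2 : Sub (rm t k1 (rm t k2 q)) (rm t k2 q) := rm_sub t k1 _
  have gB : ∀ v ∈ gs (rm t k1 (rm t k2 q)), v ≠ a → l1 v = l2 v := by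
    intro v hv hva
    rw [gs_rm, gs_rm] at hv
    have h1 := Finset.mem_erase.1 hv
    have h2 := Finset.mem_erase.1 h1.2
    rw [q1 v, q2 v]
    · rw [gs_rm, gs_rm]
      exact Finset.mem_erase.2 ⟨hva, Finset.mem_erase.2 ⟨h2.1, h2.2⟩⟩
    · rw [gs_rm, gs_rm]
      exact Finset.mem_erase.2 ⟨hva, Finset.mem_erase.2 ⟨h1.1, h2.2⟩⟩
  have haB : a ∈ gs (rm t k1 (rm t k2 q)) := cn_mem ha1 (cn_mem ha2 na)
  have hval : l1 a = l2 a := by
    obtain ⟨c, hc, hca⟩ := S.van_one hla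
    obtain ⟨d, hd, hda⟩ := S.spt_one (Finset.mem_sdiff.1 haB).1 hlb
    have g1 := (e1.mono hB1) c hc d hd
    have g2 := (e2.mono hB2) c hc d hd
    have g3 : dg l1 c d = dg l2 c d := by
      rw [LinearMap.add_apply, LinearMap.add_apply] at g1 g2
      linear_combination g2 - g1
    have g4 : EqOn S.U S.W (rm t k1 (rm t k2 q)) (dg (l1 - l2)) (dg (Pi.single a (l1 a - l2 a) : E → F4)) := by
      refine dg_congr fun v hv => ?_
      by_cases hva : v = a
      · rw [hva, Pi.single_eq_same, Pi.sub_apply]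
      · rw [Pi.single_eq_of_ne hva, Pi.sub_apply, gB v hv hva, sub_self]
    have g5 := g4 c hc d hd
    rw [dg_sub, LinearMap.sub_apply, LinearMap.sub_apply, dg_single, hca, hda, g3, sub_self, mul_one, mul_one] at g5
    exact (sub_eq_zero.1 g5.symm)
  -- the common diagonal
  set l : E → F4 := fun v => if v = k1 then l2 k1 else l1 v with hl
  have f1 : EqOn S.U S.W (rm t k1 q) (T - xa • Ts - dg l) 0 := by
    intro c hc d hd
    have g1 := e1 c hc d hd
    have g2 : dg l c d = dg l1 c d := (dg_congr (U := S.U) (W := S.W) (p := rm t k1 q) fun v hv => by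
      rw [gs_rm] at hv
      rw [hl]
      exact if_neg (Finset.mem_erase.1 hv).1) c hc d hd
    rw [LinearMap.add_apply, LinearMap.add_apply] at g1
    rw [LinearMap.sub_apply, LinearMap.sub_apply, LinearMap.sub_apply, LinearMap.sub_apply, LinearMap.zero_apply, LinearMap.zero_apply, g2]
    linear_combination g1
  have f2 : EqOn S.U S.W (rm t k2 q) (T - xa • Ts - dg l) 0 := by
    intro c hc d hd
    have g1 := e2 c hc d hd
    have g2 : dg l c d = dg l2 c d := (dg_congr (U := S.U) (W := S.W) (p := rm t k2 q) fun v hv => by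
      rw [gs_rm] at hv
      have h1 := Finset.mem_erase.1 hv
      rw [hl]
      by_cases hv1 : v = k1
      · rw [hv1]
        exact if_pos rfl
      · have h2 : (if v = k1 then l2 k1 else l1 v) = l1 v := if_neg hv1
        refine h2.trans ?_
        by_cases hva : v = a
        · rw [hva, hval]
        · refine gB v ?_ hva
          rw [gs_rm, gs_rm]
          exact Finset.mem_erase.2 ⟨hv1, Finset.mem_erase.2 h1⟩) c hc d hd
    rw [LinearMap.add_apply, LinearMap.add_apply] at g1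
    rw [LinearMap.sub_apply, LinearMap.sub_apply, LinearMap.sub_apply, LinearMap.sub_apply, LinearMap.zero_apply, LinearMap.zero_apply, g2]
    linear_combination g1
  have f3 := nd_zero S h12 n1 n2 hnd (fun h => absurd rfl h) f1 f2
  intro c hc d hd hcd
  have g1 := f3 c hc d hd
  rw [LinearMap.sub_apply, LinearMap.sub_apply, LinearMap.sub_apply, LinearMap.sub_apply, LinearMap.zero_apply, LinearMap.zero_apply,
    LinearMap.smul_apply, LinearMap.smul_apply, hTs.1 c hc d hd hcd, smul_zero] at g1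
  have g2 : dg l c d = 0 := by
    rw [dg_apply]
    exact Finset.sum_eq_zero fun v _ => by rw [hcd v, mul_zero]
  rw [g2] at g1
  linear_combination g1

end Pool.Agent.QU
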