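import Pool.Agent.QUP.Md

/-!
# QUT/Mdh: a three element 2-side of a mixed pair is heavy
-/

set_option autoImplicit false

open QUB

namespace Pool.Agent.QU

open Pool.Agent.FRM

variable {E : Type} [DecidableEq E]

/-- a three element side of rank two and corank two without parallel or series pairs is heavy -/
theorem hv_three {r : Finset E → ℤ} (hr : Rk r) {q : Itv E} (hq : q.1 ⊆ q.2) {X : Finset E} (hX : X ⊆ gs q) (h3 : X.card = 3)
    (h1 : r (q.1 ∪ X) = r q.1 + 2) (h2 : r (q.2 \ X) = r q.2 - 1)
    (hp : ∀ a ∈ X, ∀ b ∈ X, a ≠ b → r (insert a (insert b q.1)) = r q.1 + 2)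
    (hs : ∀ a ∈ X, ∀ b ∈ X, a ≠ b → r (q.2 \ {a, b}) = r q.2) : Hv r q X := by
  classical
  have hXq : ∀ x ∈ X, x ∈ q.2 ∧ x ∉ q.1 := fun x hx => Finset.mem_sdiff.1 (hX hx)
  -- a maximal set over which `X` has rank two
  obtain ⟨Y, hY, hmax⟩ : ∃ Y ∈ ((q.2 \ X).powerset.filter fun Y => q.1 ⊆ Y ∧ r (Y ∪ X) = r Y + 2),
      ∀ Y' ∈ ((q.2 \ X).powerset.filter fun Y => q.1 ⊆ Y ∧ r (Y ∪ X) = r Y + 2), Y'.card ≤ Y.card := by
    refine Finset.exists_max_image _ _ ⟨q.1, ?_⟩
    rw [Finset.mem_filter, Finset.mem_powerset]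
    refine ⟨fun x hx => Finset.mem_sdiff.2 ⟨hq hx, fun h => (hXq x h).2 hx⟩, Finset.Subset.refl _, h1⟩
  rw [Finset.mem_filter, Finset.mem_powerset] at hY
  obtain ⟨hY1, hY2, hY3⟩ := hY
  have eX : (q.2 \ X) ∪ X = q.2 := by
    rw [Finset.sdiff_union_of_subset]
    exact fun x hx => (hXq x hx).1
  have hne : Y ≠ q.2 \ X := by
    rintro rfl
    rw [eX] at hY3
    omega
  obtain ⟨y, hy, hyY⟩ : ∃ y ∈ q.2 \ X, y ∉ Y := by
    by_contra hcon
    push Not at hcon
    exact hne (Finset.Subset.antisymm hY1 hcon)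
  obtain ⟨hyq, hyX⟩ := Finset.mem_sdiff.1 hy
  have hstep : r (insert y Y ∪ X) ≤ r (insert y Y) + 1 := by
    by_contra hcon
    have h4 : r (insert y Y ∪ X) = r (insert y Y) + 2 := by
      have h5 := hr.sub (Y ∪ X) (insert y Y)
      have h6 : r Y ≤ r ((Y ∪ X) ∩ insert y Y) := by
        refine hr.mono _ _ fun z hz => ?_
        exact Finset.mem_inter.2 ⟨Finset.mem_union_left _ hz, Finset.mem_insert_of_mem hz⟩
      have h7 : (Y ∪ X) ∪ insert y Y = insert y Y ∪ X := by
        ext z
        simp only [Finset.mem_union, Finset.mem_insert]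
        tauto
      rw [h7] at h5
      omega
    have h8 := hmax (insert y Y) (by
      rw [Finset.mem_filter, Finset.mem_powerset]
      refine ⟨fun z hz => ?_, fun z hz => Finset.mem_insert_of_mem (hY2 hz), h4⟩
      rcases Finset.mem_insert.1 hz with rfl | hz
      · exact hy
      · exact hY1 hz)
    rw [Finset.card_insert_of_notMem hyY] at h8
    omega
  have hu := hr.unit Y y
  have hm1 : r (Y ∪ X) ≤ r (insert y Y ∪ X) := hr.mono _ _ (Finset.union_subset_union_left (Finset.subset_insert _ _))
  have hm2 := hr.mono _ _ (Finset.subset_insert y Y)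
  have ey : r (insert y Y) = r Y + 1 := by omega
  have eyX : r (insert y Y ∪ X) = r Y + 2 := by omega
  -- pairs of `X` over `Y`
  have hpr : ∀ a ∈ X, ∀ b ∈ X, a ≠ b → r (insert a (insert b Y)) = r Y + 2 := by
    intro a ha b hb hab
    have h5 := hr.sub (insert a (insert b Y)) (q.1 ∪ X)
    have h6 : insert a (insert b Y) ∪ (q.1 ∪ X) = Y ∪ X := by
      ext z
      simp only [Finset.mem_union, Finset.mem_insert]
      constructor
      · rintro ((rfl | rfl | h) | h | h)
        · exact Or.inr ha
        · exact Or.inr hb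
        · exact Or.inl h
        · exact Or.inl (hY2 h)
        · exact Or.inr h
      · rintro (h | h)
        · exact Or.inl (Or.inr (Or.inr h))
        · exact Or.inr (Or.inr h)
    have h7 : r (insert a (insert b q.1)) ≤ r (insert a (insert b Y) ∩ (q.1 ∪ X)) := by
      refine hr.mono _ _ fun z hz => ?_
      simp only [Finset.mem_insert] at hz
      simp only [Finset.mem_inter, Finset.mem_union, Finset.mem_insert]
      rcases hz with rfl | rfl | h
      · exact ⟨Or.inl rfl, Or.inr ha⟩
      · exact ⟨Or.inr (Or.inl rfl), Or.inr hb⟩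
      · exact ⟨Or.inr (Or.inr (hY2 h)), Or.inl h⟩
    rw [h6] at h5
    have h8 := hp a ha b hb hab
    have h9 := hr.unit (insert b Y) a
    have h10 := hr.unit Y b
    omega
  -- pairs with `y`
  have hpy : ∀ a ∈ X, r (insert a (insert y Y)) = r Y + 2 := by
    intro a ha
    by_contra hcon
    have h4 := hr.unit (insert y Y) a
    have h5 := hr.mono _ _ (Finset.subset_insert a (insert y Y))
    have h6 : r (insert a (insert y Y)) = r (insert y Y) := by omega
    have h7 := hr.sub (insert a (insert y Y)) (q.2 \ X)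
    have h8 : insert a (insert y Y) ∪ (q.2 \ X) = insert a (q.2 \ X) := by
      ext z
      simp only [Finset.mem_union, Finset.mem_insert]
      constructor
      · rintro ((rfl | rfl | h) | h)
        · exact Or.inl rfl
        · exact Or.inr hy
        · exact Or.inr (hY1 h)
        · exact Or.inr h
      · rintro (h | h)
        · exact Or.inl (Or.inl h)
        · exact Or.inr h
    have h9 : r (insert y Y) ≤ r (insert a (insert y Y) ∩ (q.2 \ X)) := by
      refine hr.mono _ _ fun z hz => ?_
      refine Finset.mem_inter.2 ⟨Finset.mem_insert_of_mem hz, ?_⟩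
      rcases Finset.mem_insert.1 hz with rfl | hz
      · exact hy
      · exact hY1 hz
    obtain ⟨b, c, hbc, hX'⟩ := Finset.card_eq_two.1 (show (X.erase a).card = 2 by rw [Finset.card_erase_of_mem ha, h3])
    have hbX : b ∈ X := Finset.mem_of_mem_erase (hX' ▸ Finset.mem_insert_self b {c})
    have hcX : c ∈ X := Finset.mem_of_mem_erase (hX' ▸ Finset.mem_insert_of_mem (Finset.mem_singleton_self c))
    have h10 : q.2 \ {b, c} = insert a (q.2 \ X) := by
      rw [← hX']
      ext z
      simp only [Finset.mem_sdiff, Finset.mem_erase, Finset.mem_insert]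
      by_cases hz : z = a
      · subst hz
        simp [(hXq z ha).1]
      · simp [hz]
    have h11 := hs b hbX c hcX hbc
    rw [h10] at h11
    rw [h8] at h7
    omega
  refine ⟨insert y X, ⟨?_, Y, hY2, ?_, ?_, ?_, ?_⟩, ?_⟩
  · rw [Finset.card_insert_of_notMem hyX, h3]
  · intro z hz
    rcases Finset.mem_union.1 hz with h | h
    · exact (Finset.mem_sdiff.1 (hY1 h)).1
    · rcases Finset.mem_insert.1 h with rfl | h
      · exact hyq
      · exact (hXq z h).1
  · rw [Finset.disjoint_left]
    intro z hz hzY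
    rcases Finset.mem_insert.1 hz with rfl | h
    · exact hyY hzY
    · exact (Finset.mem_sdiff.1 (hY1 hzY)).2 h
  · have h4 : Y ∪ insert y X = insert y Y ∪ X := by
      ext z
      simp only [Finset.mem_union, Finset.mem_insert]
      tauto
    rw [h4, eyX]
  · intro i hi j hj hij
    rcases Finset.mem_insert.1 hi with rfl | hi
    · rcases Finset.mem_insert.1 hj with rfl | hj
      · exact absurd rfl hij
      · rw [Finset.insert_comm]
        exact hpy j hj
    · rcases Finset.mem_insert.1 hj with h4 | hj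
      · rw [h4]
        exact hpy i hi
      · exact hpr i hi j hj hij
  · have h4 : insert y X ∩ X = X := Finset.inter_eq_right.2 (Finset.subset_insert _ _)
    rw [h4, h3]

variable [Fintype E] {S : TP F4 E} {p : Itv E}

/-- ranks of a three element 2-side of a mixed pair -/
theorem md_rk3 (h : Cw S p) {u v : E} {X : Finset E} (hX : Md S.r p true u false v X) (h3 : X.card = 3) :
    Hv S.r (rm true u (rm false v p)) X := by
  have hr := S.rk
  have hg := gs_rm2 true false u v p
  have hsub := hX.sub
  rw [hg] at hsub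
  have hmem : ∀ x ∈ X, x ≠ u ∧ x ≠ v ∧ x ∈ gs p := by
    intro x hx
    have h4 := hsub hx
    rw [Finset.mem_erase, Finset.mem_erase] at h4
    exact h4
  have hq := hX.wf h.hp
  have e1 : (rm true u (rm false v p)).1 = insert v p.1 := rfl
  have e2 : (rm true u (rm false v p)).2 = p.2.erase u := rfl
  have hn := h.hn
  have key : ∀ a ∈ X, ∀ b ∈ X, a ≠ b → S.r (insert a (insert b (insert v p.1))) = S.r (insert v p.1) + 2 ∧
      S.r (p.2.erase u \ {a, b}) = S.r (p.2.erase u) := by
    intro a ha b hb hab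
    obtain ⟨i1, -, i3⟩ := h.nt.ins hr (hmem a ha).2.2 (hmem b hb).2.2 hX.mb hab (hmem a ha).2.1 (hmem b hb).2.1
    obtain ⟨d1, -, d3⟩ := h.nt.del hr (hmem a ha).2.2 (hmem b hb).2.2 hX.ma hab (hmem a ha).1 (hmem b hb).1
    have e : ((p.2.erase u).erase b).erase a = p.2.erase u \ {a, b} := by
      ext z
      simp only [Finset.mem_sdiff, Finset.mem_insert, Finset.mem_singleton, Finset.mem_erase]
      tauto
    rw [e] at d1
    constructor <;> omega
  have hpp : ∀ a ∈ X, ∀ b ∈ X, a ≠ b → S.r (insert a (insert b (insert v p.1))) = S.r (insert v p.1) + 2 :=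
    fun a ha b hb hab => (key a ha b hb hab).1
  have hss : ∀ a ∈ X, ∀ b ∈ X, a ≠ b → S.r (p.2.erase u \ {a, b}) = S.r (p.2.erase u) :=
    fun a ha b hb hab => (key a ha b hb hab).2
  obtain ⟨a, b, c, hab, hac, hbc, rfl⟩ := Finset.card_eq_three.1 h3
  have ha : a ∈ ({a, b, c} : Finset E) := by simp
  have hb : b ∈ ({a, b, c} : Finset E) := by simp
  have hc : c ∈ ({a, b, c} : Finset E) := by simp
  have k1 : S.r (insert v p.1) + 2 ≤ S.r (insert v p.1 ∪ {a, b, c}) := by
    rw [← hpp a ha b hb hab]
    refine hr.mono _ _ fun z hz => ?_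
    simp only [Finset.mem_insert] at hz
    simp only [Finset.mem_union, Finset.mem_insert, Finset.mem_singleton]
    tauto
  have k2 : S.r (p.2.erase u) - 1 ≤ S.r (p.2.erase u \ {a, b, c}) := by
    have h4 := hss a ha b hb hab
    have h5 := hr.unit (p.2.erase u \ {a, b, c}) c
    have h6 : S.r (p.2.erase u \ {a, b}) ≤ S.r (insert c (p.2.erase u \ {a, b, c})) := by
      refine hr.mono _ _ fun z hz => ?_
      simp only [Finset.mem_insert, Finset.mem_sdiff, Finset.mem_singleton] at hz ⊢
      by_cases hzc : z = c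
      · exact Or.inl hzc
      · exact Or.inr ⟨hz.1, fun h7 => by tauto⟩
    omega
  have hl := hX.lam
  have hl' : S.r (insert v p.1 ∪ {a, b, c}) + S.r (p.2.erase u \ {a, b, c}) - S.r (p.2.erase u) - S.r (insert v p.1) ≤ 1 := hl
  exact hv_three hr hq hX.sub h3 (by rw [e1]; omega) (by rw [e2]; omega) (by rw [e1]; exact hpp) (by rw [e2]; exact hss)

/-- a three element mixed member of the class is a real conflict -/
theorem md_rcf3 (h : Cw S p) {u v : E} {X : Finset E} (hX : Md S.r p true u false v X) (h3 : X.card = 3) : Rcf S p u true v false X :=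
  hX.rcf (md_rk3 h hX h3)

end Pool.Agent.QU
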