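import Pool.Agent.QUT.Flt
import Pool.Agent.QUN.Dul

/-!
# QUT/Rcf: real conflicts, common definitions

`Cw`: the hypotheses of NT case II (`Cu` without `ok`).  `Rcf S p u s v t X`: the typed pair `u^s, v^t` has a real conflict with the heavy side
`X`; a rich minor lies on the other side.  `rcf_min`: if some rich pair is not `Ok`, there is a real conflict with smallest `X`.
-/

set_option autoImplicit false

open QUB

namespace Pool.Agent.QU

open Pool.Agent.FRM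

variable {E : Type} [Fintype E] [DecidableEq E]

/-- the hypotheses of NT case II -/
structure Cw (S : TP F4 E) (p : Itv E) : Prop where
  nu : NU S.r
  hp : p.1 ⊆ p.2
  hC : Cn S.r p
  h3 : Th3 S.r p
  nt : Nt S.r p
  hn : 10 ≤ (gs p).card
  th : ∀ w ∈ gs p, ∀ s : Bool, Th3 S.r (rm s w p)
  ih : ∀ q : Itv E, q.1 ⊆ q.2 → Sub q p → (gs q).card < (gs p).card → ∃ T, InVs S q T

/-- a real conflict of the pair `u^s, v^t` with the side `X`; a rich minor lies on the other side -/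
structure Rcf (S : TP F4 E) (p : Itv E) (u : E) (s : Bool) (v : E) (t : Bool) (X : Finset E) : Prop where
  mu : u ∈ gs p
  mv : v ∈ gs p
  uv : u ≠ v
  sub : X ⊆ gs (rm s u (rm t v p))
  lam : QUB.lam S.r (rm s u (rm t v p)) X ≤ 1
  hv : Hv S.r (rm s u (rm t v p)) X
  rich : ∃ q', Sub q' (rm s u (rm t v p)) ∧ Rich S.r q' ∧ (X ∩ gs q').card ≤ 1

/-- `X` has the smallest number of elements of all sides of real conflicts -/
def RcMin (S : TP F4 E) (p : Itv E) (X : Finset E) : Prop := ∀ u s v t X', Rcf S p u s v t X' → X.card ≤ X'.card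

variable {S : TP F4 E} {p : Itv E}

theorem Cw.cu (h : Cw S p)
    (ok : ∀ a ∈ gs p, ∀ b ∈ gs p, a ≠ b → ∀ s t : Bool, HasRich S.r (rm s a (rm t b p)) → Ok S.r (rm s a (rm t b p))) : Cu S p :=
  ⟨h.nu, h.hp, h.hC, h.h3, h.nt, h.hn, h.th, h.ih, ok⟩

theorem Cw.cn1 (h : Cw S p) {w : E} (hw : w ∈ gs p) (s : Bool) : Cn S.r (rm s w p) :=
  th3_cn S.rk h.hp h.hC h.h3 (by have := h.hn; omega) hw s

theorem Cw.cn2 (h : Cw S p) {a b : E} (ha : a ∈ gs p) (hb : b ∈ gs p) (hab : a ≠ b) (s t : Bool) : Cn S.r (rm s a (rm t b p)) := by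
  have hn := h.hn
  refine th3_cn S.rk (QUB.wf_rm h.hp hb) (h.cn1 hb t) (h.th b hb t) ?_ ?_ s
  · rw [show gs (rm t b p) = (gs p).erase b from QUB.gs_rm t b p, Finset.card_erase_of_mem hb]
    omega
  · rw [show gs (rm t b p) = (gs p).erase b from QUB.gs_rm t b p]
    exact Finset.mem_erase.2 ⟨hab, ha⟩

theorem Cw.ex1 (h : Cw S p) {w : E} (hw : w ∈ gs p) (s : Bool) : ∃ T, InVs S (rm s w p) T := by
  have hn := h.hn
  refine h.ih _ (QUB.wf_rm h.hp hw) (rm_sub s w p) ?_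
  rw [gs_rm, Finset.card_erase_of_mem hw]
  omega

omit [Fintype E] in
theorem gs_rm2 (s t : Bool) (u v : E) (p : Itv E) : gs (rm s u (rm t v p)) = ((gs p).erase v).erase u := by
  rw [gs_rm, gs_rm]

theorem Rcf.symm {u v : E} {s t : Bool} {X : Finset E} (h : Rcf S p u s v t X) : Rcf S p v t u s X := by
  have e : rm t v (rm s u p) = rm s u (rm t v p) := rm_comm t s v u p
  exact ⟨h.mv, h.mu, h.uv.symm, e ▸ h.sub, e ▸ h.lam, e ▸ h.hv, e ▸ h.rich⟩

theorem Rcf.wf (hp : p.1 ⊆ p.2) {u v : E} {s t : Bool} {X : Finset E} (h : Rcf S p u s v t X) :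
    (rm s u (rm t v p)).1 ⊆ (rm s u (rm t v p)).2 := by
  refine QUB.wf_rm (QUB.wf_rm hp h.mv) ?_
  rw [show gs (rm t v p) = (gs p).erase v from QUB.gs_rm t v p]
  exact Finset.mem_erase.2 ⟨h.uv, h.mu⟩

theorem Rcf.hasRich {u v : E} {s t : Bool} {X : Finset E} (h : Rcf S p u s v t X) : HasRich S.r (rm s u (rm t v p)) := by
  obtain ⟨q', h1, h2, -⟩ := h.rich
  exact ⟨q', h1, h2⟩

theorem Rcf.notMem {u v : E} {s t : Bool} {X : Finset E} (h : Rcf S p u s v t X) : u ∉ X ∧ v ∉ X := by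
  have h1 := h.sub
  rw [gs_rm2] at h1
  constructor
  · intro h2
    exact (Finset.mem_erase.1 (h1 h2)).1 rfl
  · intro h2
    exact (Finset.mem_erase.1 (Finset.mem_erase.1 (h1 h2)).2).1 rfl

theorem Rcf.subp {u v : E} {s t : Bool} {X : Finset E} (h : Rcf S p u s v t X) : X ⊆ gs p := by
  have h1 := h.sub
  rw [gs_rm2] at h1
  exact h1.trans ((Finset.erase_subset _ _).trans (Finset.erase_subset _ _))

/-! ## Duality -/

private theorem rcf_dd (S : TP F4 E) : S.dual.dual.r = S.r := QUB.rd_rd S.rk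

private theorem rcf_sub {p q : Itv E} (h : Sub q p) : Sub (QUB.dp q) (QUB.dp p) :=
  ⟨Finset.compl_subset_compl.2 h.2, Finset.compl_subset_compl.2 h.1⟩

private theorem rcf_rm2 (s t : Bool) (u v : E) (p : Itv E) :
    rm (!s) u (rm (!t) v (QUB.dp p)) = QUB.dp (rm s u (rm t v p)) := by
  have h1 : QUB.rm (!t) v (QUB.dp p) = QUB.dp (QUB.rm t v p) := by
    have := QUB.rm_dp (!t) v p
    rwa [Bool.not_not] at this
  have h2 : QUB.rm (!s) u (QUB.dp (QUB.rm t v p)) = QUB.dp (QUB.rm s u (QUB.rm t v p)) := by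
    have := QUB.rm_dp (!s) u (QUB.rm t v p)
    rwa [Bool.not_not] at this
  show QUB.rm (!s) u (QUB.rm (!t) v (QUB.dp p)) = QUB.dp (QUB.rm s u (QUB.rm t v p))
  rw [h1, h2]

theorem Rcf.dual (hp : p.1 ⊆ p.2) {u v : E} {s t : Bool} {X : Finset E} (h : Rcf S p u s v t X) :
    Rcf S.dual (QUB.dp p) u (!s) v (!t) X := by
  have hw := h.wf hp
  have e := rcf_rm2 s t u v p
  have hg : gs (QUB.dp (rm s u (rm t v p))) = gs (rm s u (rm t v p)) := QUB.gs_dp _
  have hgp : gs (QUB.dp p) = gs p := QUB.gs_dp _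
  refine ⟨hgp ▸ h.mu, hgp ▸ h.mv, h.uv, ?_, ?_, ?_, ?_⟩
  · rw [e, hg]
    exact h.sub
  · rw [e]
    exact (QUB.lam_dp hw h.sub).trans_le h.lam
  · rw [e]
    exact (QUB.hv_dp S.rk hw X).2 h.hv
  · rw [e]
    obtain ⟨q', h1, h2, h3⟩ := h.rich
    refine ⟨QUB.dp q', rcf_sub h1, rich_dual S h2, ?_⟩
    rw [show gs (QUB.dp q') = gs q' from QUB.gs_dp q']
    exact h3

theorem Nt.dual (hp : p.1 ⊆ p.2) (h : Nt S.r p) : Nt S.dual.r (QUB.dp p) := by
  have hgp : gs (QUB.dp p) = gs p := QUB.gs_dp _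
  have key : ∀ Z ⊆ gs p, (QUB.rd S.r ((QUB.dp p).1 ∪ Z) = QUB.rd S.r (QUB.dp p).1 + Z.card ↔ S.r (p.2 \ Z) = S.r p.2) ∧
      (QUB.rd S.r ((QUB.dp p).2 \ Z) = QUB.rd S.r (QUB.dp p).2 ↔ S.r (p.1 ∪ Z) = S.r p.1 + Z.card) := by
    intro Z hZ
    have hZ1 : ∀ y ∈ Z, y ∈ p.2 ∧ y ∉ p.1 := fun y hy => Finset.mem_sdiff.1 (hZ hy)
    have e1 : ((QUB.dp p).1 ∪ Z)ᶜ = p.2 \ Z := by
      ext y
      show y ∈ (p.2ᶜ ∪ Z)ᶜ ↔ _
      simp only [Finset.mem_compl, Finset.mem_union, Finset.mem_sdiff]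
      tauto
    have e2 : ((QUB.dp p).1)ᶜ = p.2 := by
      show (p.2ᶜ)ᶜ = _
      rw [compl_compl]
    have e3 : ((QUB.dp p).2 \ Z)ᶜ = p.1 ∪ Z := by
      ext y
      show y ∈ (p.1ᶜ \ Z)ᶜ ↔ _
      simp only [Finset.mem_compl, Finset.mem_union, Finset.mem_sdiff]
      tauto
    have e4 : ((QUB.dp p).2)ᶜ = p.1 := by
      show (p.1ᶜ)ᶜ = _
      rw [compl_compl]
    have c1 : (((QUB.dp p).1 ∪ Z).card : ℤ) = (QUB.dp p).1.card + Z.card := by
      have : ((QUB.dp p).1 ∪ Z).card = (QUB.dp p).1.card + Z.card := by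
        apply Finset.card_union_of_disjoint
        rw [Finset.disjoint_left]
        intro y hy hyZ
        exact (Finset.mem_compl.1 (hy : y ∈ p.2ᶜ)) (hZ1 y hyZ).1
      exact_mod_cast this
    have c2 : (((QUB.dp p).2 \ Z).card : ℤ) + Z.card = (QUB.dp p).2.card := by
      have : ((QUB.dp p).2 \ Z).card + Z.card = (QUB.dp p).2.card :=
        Finset.card_sdiff_add_card_eq_card fun y hy => (Finset.mem_compl.2 (hZ1 y hy).2 : y ∈ p.1ᶜ)
      exact_mod_cast this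
    unfold QUB.rd
    rw [e1, e2, e3, e4, c1]
    constructor
    · constructor <;> intro h <;> linarith
    · constructor <;> intro h <;> linarith
  constructor
  · intro Z hZ hc
    rw [hgp] at hZ
    have h1 := (key Z hZ).1.2 (h.d3 Z hZ hc)
    rw [hc] at h1
    exact_mod_cast h1
  · intro Z hZ hc
    rw [hgp] at hZ
    have h2 := h.t3 Z hZ hc
    exact (key Z hZ).2.2 (by rw [h2, hc]; norm_num)

theorem Cw.dual (h : Cw S p) : Cw S.dual (QUB.dp p) := by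
  have hgp : gs (QUB.dp p) = gs p := QUB.gs_dp _
  refine ⟨nu_dual S h.nu, QUB.wf_dp h.hp, (QUB.cn_dp h.hp).2 h.hC, th3_dual S h.hp h.h3, h.nt.dual h.hp, ?_, ?_, ?_⟩
  · rw [hgp]
    exact h.hn
  · intro w hw s
    rw [hgp] at hw
    have h1 := th3_dual S (QUB.wf_rm h.hp hw) (h.th w hw (!s))
    have h2 : QUB.rm s w (QUB.dp p) = QUB.dp (QUB.rm (!s) w p) := QUB.rm_dp s w p
    show Th3 S.dual.r (QUB.rm s w (QUB.dp p))
    rw [h2]
    exact h1
  · intro q hq hs hc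
    rw [hgp] at hc
    have h1 : Sub (QUB.dp q) p := by
      have := rcf_sub hs
      rwa [QUB.dp_dp] at this
    have h2 : gs (QUB.dp q) = gs q := QUB.gs_dp q
    obtain ⟨T, hT⟩ := h.ih (QUB.dp q) (QUB.wf_dp hq) h1 (by rw [h2]; exact hc)
    refine ⟨LinearMap.flip T, ?_⟩
    have h3 := (inVs_dual S).2 hT
    rwa [QUB.dp_dp] at h3

/-- the conclusion passes from the dual -/
theorem goal_dual (h : ∃ T : Fm F4 E, InV S.dual.U S.dual.W (QUB.dp p) T ∧ ¬ EqD S.dual.U S.dual.W (QUB.dp p) T 0) :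
    ∃ T : Fm F4 E, InV S.U S.W p T ∧ ¬ EqD S.U S.W p T 0 := by
  obtain ⟨T, h1, h2⟩ := h
  have e : LinearMap.flip (LinearMap.flip T) = T := rfl
  refine ⟨LinearMap.flip T, ?_, fun h3 => h2 ?_⟩
  · refine inV_dual.1 ?_
    rw [e]
    exact h1
  · have h4 := eqD_dual.2 h3
    rw [e] at h4
    exact h4

/-! ## Existence -/

theorem rcf_ex (h : Cw S p) {a b : E} {s t : Bool} (ha : a ∈ gs p) (hb : b ∈ gs p) (hab : a ≠ b)
    (hR : HasRich S.r (rm s a (rm t b p))) (hO : ¬ Ok S.r (rm s a (rm t b p))) : ∃ X, Rcf S p a s b t X := by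
  obtain ⟨q', h1, h2⟩ := hR
  have hw : (rm s a (rm t b p)).1 ⊆ (rm s a (rm t b p)).2 := h1.1.trans (h2.1.trans h1.2)
  unfold Ok at hO
  push Not at hO
  obtain ⟨A, hA, hl, hv1, hv2⟩ := hO
  rcases rich_side S.rk hw hA hl h1 h2 with h3 | h3
  · exact ⟨A, ha, hb, hab, hA, hl, hv1, q', h1, h2, h3⟩
  · refine ⟨gs (rm s a (rm t b p)) \ A, ha, hb, hab, Finset.sdiff_subset, ?_, hv2, q', h1, h2, h3⟩
    have e : QUB.lam S.r (rm s a (rm t b p)) (gs (rm s a (rm t b p)) \ A) = QUB.lam S.r (rm s a (rm t b p)) A := by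
      have e1 : (rm s a (rm t b p)).1 ∪ (gs (rm s a (rm t b p)) \ A) = (rm s a (rm t b p)).2 \ A := by
        ext y
        have g1 := @hw y
        have g2 := @hA y
        simp only [gs, Finset.mem_union, Finset.mem_sdiff] at *
        tauto
      have e2 : (rm s a (rm t b p)).2 \ (gs (rm s a (rm t b p)) \ A) = (rm s a (rm t b p)).1 ∪ A := by
        ext y
        have g1 := @hw y
        have g2 := @hA y
        simp only [gs, Finset.mem_union, Finset.mem_sdiff] at *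
        tauto
      unfold QUB.lam
      rw [e1, e2]
      ring
    rw [e]
    exact hl

/-- a smallest real conflict -/
theorem rcf_min (h : Cw S p) (hno : ¬ ∀ a ∈ gs p, ∀ b ∈ gs p, a ≠ b → ∀ s t : Bool, HasRich S.r (rm s a (rm t b p)) →
    Ok S.r (rm s a (rm t b p))) : ∃ u s v t X, Rcf S p u s v t X ∧ RcMin S p X := by
  push Not at hno
  obtain ⟨a, ha, b, hb, hab, s, t, hR, hO⟩ := hno
  obtain ⟨X0, h0⟩ := rcf_ex h ha hb hab hR hO
  have hex : ∃ n : ℕ, ∃ u s v t X, Rcf S p u s v t X ∧ X.card = n := ⟨_, a, s, b, t, X0, h0, rfl⟩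
  classical
  obtain ⟨u, s, v, t, X, hX, hc⟩ := Nat.find_spec hex
  refine ⟨u, s, v, t, X, hX, fun u' s' v' t' X' h' => ?_⟩
  rw [hc]
  exact Nat.find_min' hex ⟨u', s', v', t', X', h', rfl⟩

end Pool.Agent.QU
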