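import Pool.Agent.QUT.Tor

/-!
# QUT/Iso: two torso boxes of the same side

`iso_rich`: an isomorphism of two boxes preserves rich minors.  `tor_iso`: two torso boxes of `B` in two boxes with the same ranks on `B`
modulo the other side are isomorphic.
-/

set_option autoImplicit false

open QUB

namespace Pool.Agent.QU

section

variable {E : Type} [DecidableEq E] {r : Finset E → ℤ}

/-- an isomorphism of boxes preserves rich minors -/
theorem iso_rich {q q' : Itv E} (hq : q.1 ⊆ q.2) {e : E ≃ E} (hg : gs q' = (gs q).map e.toEmbedding) (hq' : q'.1 ⊆ q'.2)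
    (h : ∀ S ⊆ gs q, r (q'.1 ∪ S.map e.toEmbedding) - r q'.1 = r (q.1 ∪ S) - r q.1) (hR : HasRich r q) : HasRich r q' := by
  obtain ⟨x, hx, hx0, hx5, hx3⟩ := hR
  have s1 : x.1 \ q.1 ⊆ gs q := fun y hy => Finset.mem_sdiff.2 ⟨hx.2 (hx0 (Finset.mem_sdiff.1 hy).1), (Finset.mem_sdiff.1 hy).2⟩
  have s2 : x.2 \ q.1 ⊆ gs q := fun y hy => Finset.mem_sdiff.2 ⟨hx.2 (Finset.mem_sdiff.1 hy).1, (Finset.mem_sdiff.1 hy).2⟩
  have u1 : q.1 ∪ (x.1 \ q.1) = x.1 := Finset.union_sdiff_of_subset hx.1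
  have u2 : q.1 ∪ (x.2 \ q.1) = x.2 := Finset.union_sdiff_of_subset (hx.1.trans hx0)
  have hmem : ∀ y, y ∈ (gs q).map e.toEmbedding → y ∉ q'.1 := by
    intro y hy
    rw [← hg] at hy
    exact (Finset.mem_sdiff.1 hy).2
  have m1 : ∀ S : Finset E, S ⊆ gs q → S.map e.toEmbedding ⊆ (gs q).map e.toEmbedding := fun S hS => Finset.map_subset_map.2 hS
  have gx : gs ((q'.1 ∪ (x.1 \ q.1).map e.toEmbedding, q'.1 ∪ (x.2 \ q.1).map e.toEmbedding) : Itv E) = (gs x).map e.toEmbedding := by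
    ext y
    simp only [QUB.gs, Finset.mem_sdiff, Finset.mem_union, Finset.mem_map_equiv]
    constructor
    · rintro ⟨h1 | h1, h2⟩
      · exact absurd (Or.inl h1) h2
      · refine ⟨h1.1, fun h3 => h2 (Or.inr ⟨h3, h1.2⟩)⟩
    · rintro ⟨h1, h2⟩
      have h3 : e.symm y ∉ q.1 := fun h4 => h2 (hx.1 h4)
      refine ⟨Or.inr ⟨h1, h3⟩, ?_⟩
      rintro (h4 | h4)
      · refine hmem y ?_ h4
        rw [Finset.mem_map_equiv]
        exact s2 (Finset.mem_sdiff.2 ⟨h1, h3⟩)
      · exact h2 h4.1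
  have hr1 := h _ s1
  have hr2 := h _ s2
  rw [u1] at hr1
  rw [u2] at hr2
  refine ⟨(q'.1 ∪ (x.1 \ q.1).map e.toEmbedding, q'.1 ∪ (x.2 \ q.1).map e.toEmbedding), ⟨Finset.subset_union_left, ?_⟩, ?_, ?_, ?_⟩
  · refine Finset.union_subset hq' ((m1 _ s2).trans ?_)
    rw [← hg]
    exact Finset.sdiff_subset
  · exact Finset.union_subset_union (Finset.Subset.refl _)
      (Finset.map_subset_map.2 (Finset.sdiff_subset_sdiff hx0 (Finset.Subset.refl _)))
  · rw [gx, Finset.card_map]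
    exact hx5
  · have hset : ∀ T : Finset E, T ⊆ gs x →
        r (q'.1 ∪ (x.1 \ q.1).map e.toEmbedding ∪ T.map e.toEmbedding) - r q'.1 = r (x.1 ∪ T) - r q.1 := by
      intro T hT
      have h1 : (x.1 \ q.1) ∪ T ⊆ gs q := by
        refine Finset.union_subset s1 fun y hy => ?_
        have h2 := Finset.mem_sdiff.1 (hT hy)
        exact s2 (Finset.mem_sdiff.2 ⟨h2.1, fun h3 => h2.2 (hx.1 h3)⟩)
      have h2 := h _ h1
      rw [Finset.map_union, ← Finset.union_assoc, ← Finset.union_assoc, u1] at h2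
      exact h2
    rcases hx3 with ⟨h5, h6⟩ | ⟨h5, h6⟩
    · left
      refine ⟨?_, ?_⟩
      · show r (q'.1 ∪ (x.2 \ q.1).map e.toEmbedding) = r (q'.1 ∪ (x.1 \ q.1).map e.toEmbedding) + 2
        omega
      · rw [gx]
        intro i hi j hj hij
        rw [Finset.mem_map_equiv] at hi hj
        have h7 := h6 _ hi _ hj (fun h8 => hij (e.symm.injective h8))
        have h8 := hset {e.symm i, e.symm j} (by
          intro y hy
          simp only [Finset.mem_insert, Finset.mem_singleton] at hy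
          rcases hy with rfl | rfl
          · exact hi
          · exact hj)
        have h9 : ({e.symm i, e.symm j} : Finset E).map e.toEmbedding = {i, j} := by
          simp [Finset.map_insert]
        rw [h9] at h8
        show r (q'.1 ∪ (x.1 \ q.1).map e.toEmbedding ∪ {i, j}) = r (q'.1 ∪ (x.1 \ q.1).map e.toEmbedding) + 2
        omega
    · right
      refine ⟨?_, ?_⟩
      · show r (q'.1 ∪ (x.2 \ q.1).map e.toEmbedding) = r (q'.1 ∪ (x.1 \ q.1).map e.toEmbedding) + 3
        omega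
      · rw [gx]
        intro i hi j hj k hk hij hik hjk
        rw [Finset.mem_map_equiv] at hi hj hk
        have h7 := h6 _ hi _ hj _ hk (fun h8 => hij (e.symm.injective h8)) (fun h8 => hik (e.symm.injective h8))
          (fun h8 => hjk (e.symm.injective h8))
        have h8 := hset {e.symm i, e.symm j, e.symm k} (by
          intro y hy
          simp only [Finset.mem_insert, Finset.mem_singleton] at hy
          rcases hy with rfl | rfl | rfl
          · exact hi
          · exact hj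
          · exact hk)
        have h9 : ({e.symm i, e.symm j, e.symm k} : Finset E).map e.toEmbedding = {i, j, k} := by
          simp [Finset.map_insert]
        rw [h9] at h8
        show r (q'.1 ∪ (x.1 \ q.1).map e.toEmbedding ∪ {i, j, k}) = r (q'.1 ∪ (x.1 \ q.1).map e.toEmbedding) + 3
        omega

/-- two torso boxes of `B` are isomorphic -/
theorem tor_rel (hr : Rk r) {q q2 : Itv E} {B C C2 : Finset E} {a a2 : E} (T1 : Tor r q B C a) (T2 : Tor r q2 B C2 a2)
    (h1 : ∀ Z ⊆ B, r (q2.1 ∪ Z) - r q2.1 = r (q.1 ∪ Z) - r q.1)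
    (h2 : ∀ Z ⊆ B, r (q2.1 ∪ (gs q2 \ B) ∪ Z) - r (q2.1 ∪ (gs q2 \ B)) = r (q.1 ∪ (gs q \ B) ∪ Z) - r (q.1 ∪ (gs q \ B))) :
    ∃ e : E ≃ E, (∀ x ∈ B, e x = x) ∧ (insert a B).map e.toEmbedding = insert a2 B ∧
      ∀ S ⊆ gs (tb q B C a), r ((tb q2 B C2 a2).1 ∪ S.map e.toEmbedding) - r (tb q2 B C2 a2).1 =
        r ((tb q B C a).1 ∪ S) - r (tb q B C a).1 := by
  set e : E ≃ E := Equiv.swap a a2 with he
  have hsB : ∀ x ∈ B, e x = x := fun x hx =>
    Equiv.swap_apply_of_ne_of_ne (fun h => T1.aB (h ▸ hx)) (fun h => T2.aB (h ▸ hx))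
  have hmB : ∀ Z ⊆ B, Z.map e.toEmbedding = Z := by
    intro Z hZ
    ext y
    rw [Finset.mem_map]
    constructor
    · rintro ⟨x, hx, rfl⟩
      show e x ∈ Z
      rw [hsB x (hZ hx)]
      exact hx
    · intro hy
      exact ⟨y, hy, hsB y (hZ hy)⟩
  have hma : ∀ Z ⊆ B, (insert a Z).map e.toEmbedding = insert a2 Z := by
    intro Z hZ
    rw [Finset.map_insert, hmB Z hZ]
    congr 1
    exact Equiv.swap_apply_left a a2
  refine ⟨e, hsB, hma B (Finset.Subset.refl _), ?_⟩
  intro S hS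
  rw [T1.gs_eq] at hS
  by_cases haS : a ∈ S
  · have hZ : S.erase a ⊆ B := by
      intro x hx
      rcases Finset.mem_insert.1 (hS (Finset.mem_of_mem_erase hx)) with h | h
      · exact absurd h (Finset.ne_of_mem_erase hx)
      · exact h
    have e1 : insert a (S.erase a) = S := Finset.insert_erase haS
    have e2 := hma _ hZ
    rw [e1] at e2
    rw [e2, Finset.union_insert]
    conv_rhs => rw [← e1, Finset.union_insert]
    rw [T1.rk_a hr hZ, T2.rk_a hr hZ, h2 _ hZ]
  · have hZ : S ⊆ B := by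
      intro x hx
      rcases Finset.mem_insert.1 (hS hx) with h | h
      · exact absurd (h ▸ hx) haS
      · exact h
    rw [hmB _ hZ, T1.rk_B hr hZ, T2.rk_B hr hZ, h1 _ hZ]

/-- rich torso boxes -/
theorem tor_iso0 (hr : Rk r) {q q2 : Itv E} {B C C2 : Finset E} {a a2 : E} (T1 : Tor r q B C a) (T2 : Tor r q2 B C2 a2)
    (h1 : ∀ Z ⊆ B, r (q2.1 ∪ Z) - r q2.1 = r (q.1 ∪ Z) - r q.1)
    (h2 : ∀ Z ⊆ B, r (q2.1 ∪ (gs q2 \ B) ∪ Z) - r (q2.1 ∪ (gs q2 \ B)) = r (q.1 ∪ (gs q \ B) ∪ Z) - r (q.1 ∪ (gs q \ B)))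
    (hR : HasRich r (tb q B C a)) : HasRich r (tb q2 B C2 a2) := by
  obtain ⟨e, -, hma, hR0⟩ := tor_rel hr T1 T2 h1 h2
  refine iso_rich T1.wf (e := e) ?_ T2.wf hR0 hR
  rw [T1.gs_eq, T2.gs_eq, hma]

/-- removals of `f` from two torso boxes of `B` -/
theorem tor_iso (hr : Rk r) {q q2 : Itv E} {B C C2 : Finset E} {a a2 : E} (T1 : Tor r q B C a) (T2 : Tor r q2 B C2 a2)
    (h1 : ∀ Z ⊆ B, r (q2.1 ∪ Z) - r q2.1 = r (q.1 ∪ Z) - r q.1)
    (h2 : ∀ Z ⊆ B, r (q2.1 ∪ (gs q2 \ B) ∪ Z) - r (q2.1 ∪ (gs q2 \ B)) = r (q.1 ∪ (gs q \ B) ∪ Z) - r (q.1 ∪ (gs q \ B)))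
    {f : E} (hf : f ∈ B) {t : Bool} (hR : HasRich r (QUB.rm t f (tb q B C a))) : HasRich r (QUB.rm t f (tb q2 B C2 a2)) := by
  obtain ⟨e, hsB, hma, hR0⟩ := tor_rel hr T1 T2 h1 h2
  have hft : f ∈ gs (tb q B C a) := by
    rw [T1.gs_eq]
    exact Finset.mem_insert_of_mem hf
  have hft2 : f ∈ gs (tb q2 B C2 a2) := by
    rw [T2.gs_eq]
    exact Finset.mem_insert_of_mem hf
  refine iso_rich (QUB.wf_rm T1.wf hft) (e := e) ?_ (QUB.wf_rm T2.wf hft2) ?_ hR
  · rw [QUB.gs_rm, QUB.gs_rm, T1.gs_eq, T2.gs_eq, Finset.map_erase, hma]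
    congr 1
    exact (hsB f hf).symm
  · intro S hS
    rw [QUB.gs_rm] at hS
    have hS' : S ⊆ gs (tb q B C a) := hS.trans (Finset.erase_subset _ _)
    cases t
    · have e1 : ∀ (A Z : Finset E), insert f A ∪ Z = A ∪ insert f Z := by
        intro A Z
        rw [Finset.insert_union, Finset.union_insert]
      have k1 := hR0 (insert f S) (Finset.insert_subset hft hS')
      have k2 := hR0 {f} (Finset.singleton_subset_iff.2 hft)
      have e2 : (insert f S).map e.toEmbedding = insert f (S.map e.toEmbedding) := by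
        rw [Finset.map_insert]
        congr 1
        exact hsB f hf
      have e3 : ({f} : Finset E).map e.toEmbedding = {f} := by
        rw [Finset.map_singleton]
        congr 1
        exact hsB f hf
      rw [e2] at k1
      rw [e3] at k2
      have e4 : ∀ A : Finset E, A ∪ {f} = insert f A := by
        intro A
        rw [Finset.union_comm]
        rfl
      rw [e4, e4] at k2
      show r (insert f (tb q2 B C2 a2).1 ∪ S.map e.toEmbedding) - r (insert f (tb q2 B C2 a2).1) =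
        r (insert f (tb q B C a).1 ∪ S) - r (insert f (tb q B C a).1)
      rw [e1, e1]
      omega
    · exact hR0 S hS'

/-- the torso of `B` does not change when an element of the other side is removed such that `B` keeps its connectivity -/
theorem stab (hr : Rk r) {q : Itv E} (hq : q.1 ⊆ q.2) {B : Finset E} (hB : B ⊆ gs q) (hl : QUB.lam r q B ≤ 1) {y : E} {t : Bool}
    (hy : y ∈ gs q) (hyB : y ∉ B) (hl1 : 1 ≤ QUB.lam r (QUB.rm t y q) B) :
    (∀ Z ⊆ B, r ((QUB.rm t y q).1 ∪ Z) - r (QUB.rm t y q).1 = r (q.1 ∪ Z) - r q.1) ∧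
    ∀ Z ⊆ B, r ((QUB.rm t y q).1 ∪ (gs (QUB.rm t y q) \ B) ∪ Z) - r ((QUB.rm t y q).1 ∪ (gs (QUB.rm t y q) \ B)) =
      r (q.1 ∪ (gs q \ B) ∪ Z) - r (q.1 ∪ (gs q \ B)) := by
  have hy' := Finset.mem_sdiff.1 hy
  have hBq : ∀ x ∈ B, x ∈ q.2 ∧ x ∉ q.1 := fun x hx => Finset.mem_sdiff.1 (hB hx)
  have hl' : r (q.1 ∪ B) + r (q.2 \ B) - r q.2 - r q.1 ≤ 1 := hl
  have eA : q.2 \ B = q.1 ∪ (gs q \ B) := by
    ext x
    have h1 := @hq x
    have h2 := hBq x
    simp only [QUB.gs, Finset.mem_union, Finset.mem_sdiff]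
    tauto
  have eQ : q.1 ∪ (gs q \ B) ∪ B = q.2 := by
    ext x
    have h1 := @hq x
    have h2 := hBq x
    simp only [QUB.gs, Finset.mem_union, Finset.mem_sdiff]
    tauto
  rw [eA] at hl'
  rw [QUB.gs_rm]
  cases t
  · have h1 : 1 ≤ r (insert y q.1 ∪ B) + r (q.2 \ B) - r q.2 - r (insert y q.1) := hl1
    rw [eA, Finset.insert_union] at h1
    have key : ∀ Z ⊆ B, r (insert y (q.1 ∪ Z)) - r (q.1 ∪ Z) = r (insert y q.1) - r q.1 := by
      intro Z hZ
      have m1 := QUB.marg hr (Finset.subset_union_left (s₁ := q.1) (s₂ := Z)) y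
      have m2 := QUB.marg hr (Finset.union_subset_union_right (s := q.1) hZ) y
      omega
    constructor
    · intro Z hZ
      have h2 := key Z hZ
      show r (insert y q.1 ∪ Z) - r (insert y q.1) = _
      rw [Finset.insert_union]
      omega
    · intro Z hZ
      have e1 : ∀ Z : Finset E, insert y q.1 ∪ ((gs q).erase y \ B) ∪ Z = q.1 ∪ (gs q \ B) ∪ Z := by
        intro Z
        ext x
        by_cases hxy : x = y
        · rw [hxy]
          simp only [Finset.mem_union, Finset.mem_insert, Finset.mem_sdiff, Finset.mem_erase]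
          tauto
        · simp only [Finset.mem_union, Finset.mem_insert, Finset.mem_sdiff, Finset.mem_erase]
          tauto
      have e2 := e1 Z
      have e3 := e1 ∅
      rw [Finset.union_empty, Finset.union_empty] at e3
      show r (insert y q.1 ∪ ((gs q).erase y \ B) ∪ Z) - r (insert y q.1 ∪ ((gs q).erase y \ B)) = _
      rw [e2, e3]
  · have h1 : 1 ≤ r (q.1 ∪ B) + r (q.2.erase y \ B) - r (q.2.erase y) - r q.1 := hl1
    have e1 : q.2.erase y \ B = q.1 ∪ ((gs q).erase y \ B) := by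
      ext x
      have h1 := @hq x
      have h2 := hBq x
      by_cases hxy : x = y
      · rw [hxy]
        simp only [Finset.mem_union, Finset.mem_sdiff, Finset.mem_erase]
        tauto
      · simp only [QUB.gs, Finset.mem_union, Finset.mem_sdiff, Finset.mem_erase]
        tauto
    rw [e1] at h1
    refine ⟨fun Z _ => rfl, ?_⟩
    intro Z hZ
    show r (q.1 ∪ ((gs q).erase y \ B) ∪ Z) - r (q.1 ∪ ((gs q).erase y \ B)) = _
    have i1 : insert y (q.1 ∪ ((gs q).erase y \ B)) = q.1 ∪ (gs q \ B) := by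
      ext x
      by_cases hxy : x = y
      · rw [hxy]
        simp only [Finset.mem_union, Finset.mem_insert, Finset.mem_sdiff, Finset.mem_erase]
        tauto
      · simp only [Finset.mem_union, Finset.mem_insert, Finset.mem_sdiff, Finset.mem_erase]
        tauto
    have i2 : insert y (q.1 ∪ ((gs q).erase y \ B) ∪ Z) = q.1 ∪ (gs q \ B) ∪ Z := by
      rw [← Finset.insert_union, i1]
    have i3 : insert y (q.1 ∪ ((gs q).erase y \ B) ∪ B) = q.2 := by
      rw [← Finset.insert_union, i1, eQ]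
    have i4 : q.1 ∪ ((gs q).erase y \ B) ∪ B = q.2.erase y := by
      ext x
      have h1 := @hq x
      have h2 := hBq x
      by_cases hxy : x = y
      · rw [hxy]
        simp only [Finset.mem_union, Finset.mem_sdiff, Finset.mem_erase]
        tauto
      · simp only [QUB.gs, Finset.mem_union, Finset.mem_sdiff, Finset.mem_erase]
        tauto
    have m1 := QUB.marg hr (Finset.subset_union_left (s₁ := q.1 ∪ ((gs q).erase y \ B)) (s₂ := Z)) y
    have m2 := QUB.marg hr (Finset.union_subset_union_right (s := q.1 ∪ ((gs q).erase y \ B)) hZ) y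
    rw [i1, i2] at m1
    rw [i2, i3, i4] at m2
    omega

end

end Pool.Agent.QU
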