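import Pool.Agent.QUR.RgTwo
import Pool.Agent.QUL.LSf2

set_option autoImplicit false

/-!
# QUT/Rgs: a rigid element stays rigid when elements of the other side are removed

`Av`: disjoint pairs can be moved to the smaller box without changing them outside of `X`.  `av_gen`: a sufficient condition, `X` a side of
order at most one.  `rgs_del`, `rgs_con`: if `f` outside of `X` is rigid in `q`, then it is rigid in the smaller box.
-/

open Module (finrank)

namespace Pool.Agent.QU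

variable {K E : Type} [Field K] [Fintype E] [DecidableEq E]

private theorem rs_van {U : Submodule K (E → K)} {A B : Finset E} {c : E → K} (hA : c ∈ van U A) (hB : ∀ x ∈ B, c x = 0) :
    c ∈ van U (A ∪ B) := by
  refine ⟨hA.1, fun y hy => ?_⟩
  rcases Finset.mem_union.1 hy with h | h
  · exact hA.2 y h
  · exact hB y h

private theorem rs_spt_sup (S : TP K E) {A B : Finset E}
    (h : S.r A + S.r B ≤ S.r (A ∪ B) + S.r (A ∩ B)) : spt S.W A ⊔ spt S.W B = spt S.W (A ∪ B) := by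
  refine Submodule.eq_of_le_of_finrank_le
    (sup_le (spt_mono Finset.subset_union_left) (spt_mono Finset.subset_union_right)) ?_
  have h5 := Submodule.finrank_sup_add_finrank_inf_eq (spt S.W A) (spt S.W B)
  rw [← spt_inter] at h5
  have a1 := S.hW A
  have a2 := S.hW B
  have a3 := S.hW (A ∪ B)
  have a4 := S.hW (A ∩ B)
  have b : ((A ∪ B).card : ℤ) + (A ∩ B).card = A.card + B.card := by exact_mod_cast Finset.card_union_add_card_inter A B
  have c5 : (finrank K ↥(spt S.W A ⊔ spt S.W B) : ℤ) + finrank K (spt S.W (A ∩ B)) =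
      finrank K (spt S.W A) + finrank K (spt S.W B) := by exact_mod_cast h5
  have c6 : (finrank K (spt S.W (A ∪ B)) : ℤ) ≤ finrank K ↥(spt S.W A ⊔ spt S.W B) := by linarith
  exact_mod_cast c6

private theorem rs_van_sup (S : TP K E) {A B D : Finset E} (hA : D ⊆ A) (hB : D ⊆ B)
    (h : S.r A + S.r B ≤ S.r (A ∪ B) + S.r D) : van S.U A ⊔ van S.U B = van S.U D := by
  refine Submodule.eq_of_le_of_finrank_le (sup_le (van_anti hA) (van_anti hB)) ?_
  have h5 := Submodule.finrank_sup_add_finrank_inf_eq (van S.U A) (van S.U B)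
  rw [← van_union] at h5
  have a1 := S.hU A
  have a2 := S.hU B
  have a3 := S.hU (A ∪ B)
  have a4 := S.hU D
  have c5 : (finrank K ↥(van S.U A ⊔ van S.U B) : ℤ) + finrank K (van S.U (A ∪ B)) =
      finrank K (van S.U A) + finrank K (van S.U B) := by exact_mod_cast h5
  have c6 : (finrank K (van S.U D) : ℤ) ≤ finrank K ↥(van S.U A ⊔ van S.U B) := by linarith
  exact_mod_cast c6

/-- disjoint pairs of `q` can be moved to `q2` without changing them outside of `X` -/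
def Av (U W : Submodule K (E → K)) (q q2 : Itv E) (X : Finset E) : Prop :=
  ∀ c ∈ van U q.1, ∀ d ∈ spt W q.2, (∀ x, c x * d x = 0) →
    ∃ c' ∈ van U q2.1, ∃ d' ∈ spt W q2.2, (∀ x, c' x * d' x = 0) ∧ ∀ y ∈ gs q, y ∉ X → c' y = c y ∧ d' y = d y

theorem av_dual {U W : Submodule K (E → K)} {q q2 : Itv E} {X : Finset E} (h : Av U W q q2 X) :
    Av W U (QUB.dp q) (QUB.dp q2) X := by
  intro c hc d hd hcd
  have h1 : van W (QUB.dp q).1 = spt W q.2 := van_compl W q.2
  have h2 : spt U (QUB.dp q).2 = van U q.1 := spt_compl U q.1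
  have h3 : van W (QUB.dp q2).1 = spt W q2.2 := van_compl W q2.2
  have h4 : spt U (QUB.dp q2).2 = van U q2.1 := spt_compl U q2.1
  rw [h1] at hc
  rw [h2] at hd
  obtain ⟨d', hd', c', hc', h5, h6⟩ := h d hd c hc fun x => by rw [mul_comm]; exact hcd x
  refine ⟨c', by rw [h3]; exact hc', d', by rw [h4]; exact hd', fun x => by rw [mul_comm]; exact h5 x, fun y hy hyX => ?_⟩
  have h7 : gs (QUB.dp q) = gs q := QUB.gs_dp q
  rw [h7] at hy
  exact ⟨(h6 y hy hyX).2, (h6 y hy hyX).1⟩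

/-- a sufficient condition for `Av` -/
theorem av_gen (S : TP K E) {q q2 : Itv E} (hq : q.1 ⊆ q.2) {X : Finset E} (hX : X ⊆ gs q) (hl : QUB.lam S.r q X ≤ 1)
    (h1 : q2.1 ⊆ q.1 ∪ X) (h2 : q.2 \ X ⊆ q2.2)
    (ha : ∀ c ∈ van S.U q.1, ∃ x ∈ van S.U (q.2 \ X), c - x ∈ van S.U q2.1)
    (hb : ∀ d ∈ spt S.W q.2, ∃ x ∈ spt S.W (q.1 ∪ X), d - x ∈ spt S.W q2.2) : Av S.U S.W q q2 X := by
  classical
  intro c hc d hd hcd
  have hl' : S.r (q.1 ∪ X) + S.r (q.2 \ X) - S.r q.2 - S.r q.1 ≤ 1 := hl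
  have hXq : X ⊆ q.2 := fun x hx => (Finset.mem_sdiff.1 (hX hx)).1
  have hXd : ∀ x ∈ X, x ∉ q.1 := fun x hx => (Finset.mem_sdiff.1 (hX hx)).2
  have hqX : q.1 ⊆ q.2 \ X := fun x hx => Finset.mem_sdiff.2 ⟨hq hx, fun h => hXd x h hx⟩
  by_cases hA : d ∈ spt S.W (q.1 ∪ X) ⊔ spt S.W (q.2 \ X)
  · obtain ⟨dX, hdX, dY, hdY, rfl⟩ := Submodule.mem_sup.1 hA
    obtain ⟨x, hx, hxc⟩ := ha c hc
    have hY : ∀ y ∈ gs q, y ∉ X → dX y = 0 := by
      intro y hy hyX
      refine hdX.2 y fun h => ?_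
      rcases Finset.mem_union.1 h with h | h
      · exact (Finset.mem_sdiff.1 hy).2 h
      · exact hyX h
    have hc' : ∀ y ∈ q.2 \ X, (c - x) y = c y := by
      intro y hy
      rw [Pi.sub_apply, hx.2 y hy, sub_zero]
    refine ⟨c - x, hxc, dY, spt_mono h2 hdY, ?_, ?_⟩
    · intro y
      by_cases hy : y ∈ q.2 \ X
      · rw [hc' y hy]
        by_cases hyq : y ∈ q.1
        · rw [hc.2 y hyq, zero_mul]
        · have h3 := hcd y
          rw [Pi.add_apply, hY y (Finset.mem_sdiff.2 ⟨(Finset.mem_sdiff.1 hy).1, hyq⟩) (Finset.mem_sdiff.1 hy).2,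
            zero_add] at h3
          exact h3
      · rw [hdY.2 y hy, mul_zero]
    · intro y hy hyX
      refine ⟨hc' y (Finset.mem_sdiff.2 ⟨(Finset.mem_sdiff.1 hy).1, hyX⟩), ?_⟩
      rw [Pi.add_apply, hY y hy hyX, zero_add]
  · set Z : Finset E := (gs q \ X).filter fun y => c y = 0 with hZ
    have hZg : Z ⊆ gs q \ X := Finset.filter_subset _ _
    have hZX : ∀ x ∈ Z, x ∉ X := fun x hx => (Finset.mem_sdiff.1 (hZg hx)).2
    have hZ1 : ∀ x ∈ Z, x ∉ q.1 := fun x hx => (Finset.mem_sdiff.1 (Finset.mem_sdiff.1 (hZg hx)).1).2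
    have hZ2 : ∀ x ∈ Z, x ∈ q.2 := fun x hx => (Finset.mem_sdiff.1 (Finset.mem_sdiff.1 (hZg hx)).1).1
    have e1 : (q.1 ∪ X) ∪ (q.1 ∪ Z) = q.1 ∪ X ∪ Z := by
      ext x
      simp only [Finset.mem_union]
      tauto
    have e2 : (q.1 ∪ X) ∩ (q.1 ∪ Z) = q.1 := by
      ext x
      simp only [Finset.mem_union, Finset.mem_inter]
      constructor
      · rintro ⟨h3 | h3, h4 | h4⟩
        · exact h3
        · exact h3
        · exact h4
        · exact absurd h3 (hZX x h4)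
      · intro h
        exact ⟨Or.inl h, Or.inl h⟩
    have hdZ : d ∈ spt S.W (q.1 ∪ X ∪ Z) := by
      refine ⟨hd.1, fun x hx => ?_⟩
      by_contra hne
      apply hx
      have hxq : x ∈ q.2 := by
        by_contra h
        exact hne (hd.2 x h)
      by_cases hx1 : x ∈ q.1
      · exact Finset.mem_union_left _ (Finset.mem_union_left _ hx1)
      by_cases hxX : x ∈ X
      · exact Finset.mem_union_left _ (Finset.mem_union_right _ hxX)
      refine Finset.mem_union_right _ (Finset.mem_filter.2 ⟨Finset.mem_sdiff.2 ⟨Finset.mem_sdiff.2 ⟨hxq, hx1⟩, hxX⟩, ?_⟩)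
      rcases mul_eq_zero.1 (hcd x) with h | h
      · exact h
      · exact absurd h hne
    have hr : S.r (q.1 ∪ X ∪ Z) + S.r q.1 + 1 ≤ S.r (q.1 ∪ X) + S.r (q.1 ∪ Z) := by
      by_contra hcon
      have h3 := rs_spt_sup S (A := q.1 ∪ X) (B := q.1 ∪ Z) (by rw [e1, e2]; omega)
      rw [e1] at h3
      rw [← h3] at hdZ
      have hZY : q.1 ∪ Z ⊆ q.2 \ X := by
        intro x hx
        rcases Finset.mem_union.1 hx with h | h
        · exact hqX h
        · exact Finset.mem_sdiff.2 ⟨hZ2 x h, hZX x h⟩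
      have h4 : spt S.W (q.1 ∪ X) ⊔ spt S.W (q.1 ∪ Z) ≤ spt S.W (q.1 ∪ X) ⊔ spt S.W (q.2 \ X) :=
        sup_le_sup le_rfl (spt_mono hZY)
      exact hA (h4 hdZ)
    have e3 : (q.1 ∪ X ∪ Z) ∪ (q.2 \ X) = q.2 := by
      ext x
      simp only [Finset.mem_union, Finset.mem_sdiff]
      constructor
      · rintro (((h | h) | h) | h)
        · exact hq h
        · exact hXq h
        · exact hZ2 x h
        · exact h.1
      · intro h
        by_cases hxX : x ∈ X
        · exact Or.inl (Or.inl (Or.inr hxX))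
        · exact Or.inr ⟨h, hxX⟩
    have hsup := rs_van_sup S (A := q.1 ∪ X ∪ Z) (B := q.2 \ X) (D := q.1 ∪ Z)
      (by
        intro x hx
        rcases Finset.mem_union.1 hx with h | h
        · exact Finset.mem_union_left _ (Finset.mem_union_left _ h)
        · exact Finset.mem_union_right _ h)
      (by
        intro x hx
        rcases Finset.mem_union.1 hx with h | h
        · exact hqX h
        · exact Finset.mem_sdiff.2 ⟨hZ2 x h, hZX x h⟩)
      (by rw [e3]; linarith)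
    have hcZ : c ∈ van S.U (q.1 ∪ Z) := rs_van hc fun x hx => (Finset.mem_filter.1 hx).2
    rw [← hsup] at hcZ
    obtain ⟨c1, hc1, c2, hc2, hcc⟩ := Submodule.mem_sup.1 hcZ
    obtain ⟨x, hx, hxd⟩ := hb d hd
    have hYc : ∀ y ∈ gs q, y ∉ X → c1 y = c y := by
      intro y hy hyX
      have h3 := hc2.2 y (Finset.mem_sdiff.2 ⟨(Finset.mem_sdiff.1 hy).1, hyX⟩)
      rw [← hcc, Pi.add_apply, h3, add_zero]
    have hYd : ∀ y, y ∉ q.1 → y ∉ X → (d - x) y = d y := by
      intro y hy hyX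
      rw [Pi.sub_apply, hx.2 y (by simp only [Finset.mem_union, not_or]; exact ⟨hy, hyX⟩), sub_zero]
    have hc1X : ∀ y ∈ X, c1 y = 0 := fun y hy => hc1.2 y (Finset.mem_union_left _ (Finset.mem_union_right _ hy))
    have hc1q : ∀ y ∈ q.1, c1 y = 0 := fun y hy => hc1.2 y (Finset.mem_union_left _ (Finset.mem_union_left _ hy))
    refine ⟨c1, van_anti (h1.trans Finset.subset_union_left) hc1, d - x, hxd, ?_, ?_⟩
    · intro y
      by_cases hy1 : y ∈ q.1
      · rw [hc1q y hy1, zero_mul]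
      by_cases hyX : y ∈ X
      · rw [hc1X y hyX, zero_mul]
      rw [hYd y hy1 hyX]
      by_cases hy2 : y ∈ q.2
      · rw [hYc y (Finset.mem_sdiff.2 ⟨hy2, hy1⟩) hyX]
        exact hcd y
      · have h3 : (d - x) y = 0 := by
          rw [hYd y hy1 hyX]
          exact hd.2 y hy2
        rw [hYd y hy1 hyX] at h3
        rw [h3, mul_zero]
    · intro y hy hyX
      exact ⟨hYc y hy hyX, hYd y (Finset.mem_sdiff.1 hy).2 hyX⟩

/-- a rigid element outside of `X`, deletion -/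
theorem rgs_del (S : TP K E) {q q2 : Itv E} (hs : Sub q2 q) {X : Finset E} (h2 : q.2 \ X ⊆ q2.2) (hAv : Av S.U S.W q q2 X)
    {f : E} (hf : f ∈ gs q) (hfX : f ∉ X) (hfc : S.r ((q.2 \ X).erase f) = S.r (q.2 \ X)) (hg : Rg S true f q) :
    Rg S true f q2 := by
  intro T hT h0
  have hfY : f ∈ q.2 \ X := Finset.mem_sdiff.2 ⟨(Finset.mem_sdiff.1 hf).1, hfX⟩
  obtain ⟨v, hv, hvf⟩ := S.spt_one hfY hfc
  have hv2 : v ∈ spt S.W q2.2 := spt_mono h2 hv
  have hform : ∀ c ∈ van S.U q2.1, ∀ d ∈ spt S.W q2.2, T c d = T c v * d f := by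
    intro c hc d hd
    have h3 : d - d f • v ∈ spt S.W (rm true f q2).2 := by
      refine ⟨S.W.sub_mem hd.1 (S.W.smul_mem _ hv.1), fun y hy => ?_⟩
      by_cases hyf : y = f
      · rw [hyf, Pi.sub_apply, Pi.smul_apply, smul_eq_mul, hvf, mul_one, sub_self]
      · have hy2 : y ∉ q2.2 := fun h => hy (Finset.mem_erase.2 ⟨hyf, h⟩)
        rw [Pi.sub_apply, Pi.smul_apply, hd.2 y hy2, hv2.2 y hy2, smul_zero, sub_zero]
    have h4 := h0 c hc _ h3
    rw [map_sub, map_smul, smul_eq_mul, LinearMap.zero_apply, LinearMap.zero_apply] at h4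
    linear_combination h4
  -- the projection on the side of `f`
  let P : (E → K) →ₗ[K] (E → K) :=
    { toFun := fun c y => if y ∈ gs q ∧ y ∉ X then c y else 0
      map_add' := by
        intro c c'
        ext y
        by_cases hy : y ∈ gs q ∧ y ∉ X
        · simp [hy]
        · simp [hy]
      map_smul' := by
        intro k c
        ext y
        by_cases hy : y ∈ gs q ∧ y ∉ X
        · simp [hy]
        · simp [hy] }
  have hP : ∀ c y, P c y = if y ∈ gs q ∧ y ∉ X then c y else 0 := fun _ _ => rfl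
  have hzero : ∀ c ∈ van S.U q2.1, P c = 0 → T c v = 0 := by
    intro c hc hc0
    refine hT c hc v hv2 fun y => ?_
    by_cases hy1 : y ∈ q.1
    · rw [hc.2 y (hs.1 hy1), zero_mul]
    by_cases hy2 : y ∈ q.2 \ X
    · have h3 := congrFun hc0 y
      rw [hP, if_pos ⟨Finset.mem_sdiff.2 ⟨(Finset.mem_sdiff.1 hy2).1, hy1⟩, (Finset.mem_sdiff.1 hy2).2⟩] at h3
      rw [h3, Pi.zero_apply, zero_mul]
    · rw [hv.2 y hy2, mul_zero]
  let g : ↥(van S.U q2.1) →ₗ[K] (E → K) := P.comp (van S.U q2.1).subtype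
  let φ : ↥(van S.U q2.1) →ₗ[K] K := ((LinearMap.flip T) v).comp (van S.U q2.1).subtype
  have hφ : φ ∈ (LinearMap.ker g).dualAnnihilator := by
    rw [Submodule.mem_dualAnnihilator]
    intro c hc
    exact hzero c.1 c.2 (LinearMap.mem_ker.1 hc)
  rw [← LinearMap.range_dualMap_eq_dualAnnihilator_ker] at hφ
  obtain ⟨ψ, hψ⟩ := hφ
  have hψ' : ∀ c ∈ van S.U q2.1, ψ (P c) = T c v := by
    intro c hc
    have h3 := LinearMap.congr_fun hψ ⟨c, hc⟩
    exact h3
  let T' : Fm K E := (ψ.comp P).smulRight (LinearMap.proj f)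
  have hT' : ∀ c d, T' c d = ψ (P c) * d f := fun c d => rfl
  have hin : InV S.U S.W q T' := by
    intro c hc d hd hcd
    obtain ⟨c', hc', d', hd', h5, h6⟩ := hAv c hc d hd hcd
    have h7 : P c' = P c := by
      ext y
      rw [hP, hP]
      by_cases hy : y ∈ gs q ∧ y ∉ X
      · rw [if_pos hy, if_pos hy]
        exact (h6 y hy.1 hy.2).1
      · rw [if_neg hy, if_neg hy]
    rw [hT', ← h7, hψ' c' hc', ← (h6 f hf hfX).2, ← hform c' hc' d' hd']
    exact hT c' hc' d' hd' h5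
  obtain ⟨k, hk⟩ := hg T' hin (by
    intro c _ d hd
    rw [hT', hd.2 f (Finset.notMem_erase f q.2), mul_zero]
    rfl)
  refine ⟨k, fun c hc d hd => ?_⟩
  have h3 := hk c (van_anti hs.1 hc) d (spt_mono hs.2 hd)
  rw [hT', hψ' c hc] at h3
  rw [hform c hc d hd, h3]

/-- a rigid element outside of `X`, contraction -/
theorem rgs_con (S : TP K E) {q q2 : Itv E} (hs : Sub q2 q) {X : Finset E} (h1 : q2.1 ⊆ q.1 ∪ X) (hAv : Av S.U S.W q q2 X)
    {f : E} (hf : f ∈ gs q) (hfX : f ∉ X) (hfc : S.r (insert f (q.1 ∪ X)) = S.r (q.1 ∪ X) + 1) (hg : Rg S false f q) :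
    Rg S false f q2 := by
  have hf0 := Finset.mem_sdiff.1 hf
  have h5 : gs (QUB.dp q) = gs q := QUB.gs_dp q
  have hr : ∀ Z, S.dual.r Z = (Z.card : ℤ) + S.r Zᶜ - S.r Finset.univ := fun Z => rfl
  have e3 : (q.1ᶜ \ X)ᶜ = q.1 ∪ X := by
    ext y
    simp only [Finset.mem_compl, Finset.mem_union, Finset.mem_sdiff]
    tauto
  have e5 : ((q.1ᶜ \ X).erase f)ᶜ = insert f (q.1 ∪ X) := by
    ext y
    by_cases hyf : y = f
    · simp [hyf]
    · simp only [Finset.mem_compl, Finset.mem_union, Finset.mem_sdiff, Finset.mem_insert, Finset.mem_erase]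
      tauto
  have c3 : (((q.1ᶜ \ X).erase f).card : ℤ) + 1 = (q.1ᶜ \ X).card := by
    exact_mod_cast Finset.card_erase_add_one (Finset.mem_sdiff.2 ⟨Finset.mem_compl.2 hf0.2, hfX⟩)
  refine rg_dual S (rgs_del S.dual (q := QUB.dp q) (q2 := QUB.dp q2) (X := X)
    ⟨Finset.compl_subset_compl.2 hs.2, Finset.compl_subset_compl.2 hs.1⟩ ?_ (av_dual hAv) (by rw [h5]; exact hf) hfX ?_ (rg_dual' S hg))
  · intro y hy
    have h6 := Finset.mem_sdiff.1 hy
    have h7 : y ∉ q.1 := Finset.mem_compl.1 h6.1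
    refine Finset.mem_compl.2 fun h => ?_
    rcases Finset.mem_union.1 (h1 h) with h | h
    · exact h7 h
    · exact h6.2 h
  · show S.dual.r ((q.1ᶜ \ X).erase f) = S.dual.r (q.1ᶜ \ X)
    rw [hr, hr, e5, e3, hfc]
    linarith

/-- `Av` for the deletion of `y` and the contraction of `z` -/
theorem av_two (S : TP K E) {q : Itv E} (hq : q.1 ⊆ q.2) {X : Finset E} (hX : X ⊆ gs q) (hl : QUB.lam S.r q X ≤ 1) {y z : E}
    (hy : y ∈ X) (hz : z ∈ X) (hyc : S.r (q.1 ∪ X.erase y) = S.r (q.1 ∪ X)) (hzc : S.r (insert z (q.2 \ X)) = S.r (q.2 \ X) + 1) :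
    Av S.U S.W q (rm true y (rm false z q)) X := by
  have hXq : X ⊆ q.2 := fun x hx => (Finset.mem_sdiff.1 (hX hx)).1
  have hXd : ∀ x ∈ X, x ∉ q.1 := fun x hx => (Finset.mem_sdiff.1 (hX hx)).2
  have hqX : q.1 ⊆ q.2 \ X := fun x hx => Finset.mem_sdiff.2 ⟨hq hx, fun h => hXd x h hx⟩
  have e4 : (q.1 ∪ X).erase y = q.1 ∪ X.erase y := by
    ext x
    simp only [Finset.mem_erase, Finset.mem_union]
    constructor
    · rintro ⟨h3, h4 | h4⟩
      · exact Or.inl h4
      · exact Or.inr ⟨h3, h4⟩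
    · rintro (h | h)
      · exact ⟨fun h3 => hXd y hy (h3 ▸ h), Or.inl h⟩
      · exact ⟨h.1, Or.inr h.2⟩
  refine av_gen S hq hX hl ?_ ?_ ?_ ?_
  · show insert z q.1 ⊆ q.1 ∪ X
    exact Finset.insert_subset (Finset.mem_union_right _ hz) Finset.subset_union_left
  · show q.2 \ X ⊆ q.2.erase y
    exact fun x hx => Finset.mem_erase.2 ⟨fun h => (Finset.mem_sdiff.1 hx).2 (h ▸ hy), (Finset.mem_sdiff.1 hx).1⟩
  · intro c hc
    obtain ⟨x, hx, hxz⟩ := S.van_one hzc
    refine ⟨c z • x, (van S.U _).smul_mem _ hx, ?_⟩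
    show c - c z • x ∈ van S.U (insert z q.1)
    refine ⟨S.U.sub_mem hc.1 (S.U.smul_mem _ hx.1), fun w hw => ?_⟩
    rcases Finset.mem_insert.1 hw with rfl | hw
    · rw [Pi.sub_apply, Pi.smul_apply, smul_eq_mul, hxz, mul_one, sub_self]
    · rw [Pi.sub_apply, Pi.smul_apply, hc.2 w hw, hx.2 w (hqX hw), smul_zero, sub_zero]
  · intro d hd
    obtain ⟨x, hx, hxy⟩ := S.spt_one (G := q.1 ∪ X) (Finset.mem_union_right _ hy) (by rw [e4]; exact hyc)
    refine ⟨d y • x, (spt S.W _).smul_mem _ hx, ?_⟩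
    show d - d y • x ∈ spt S.W (q.2.erase y)
    refine ⟨S.W.sub_mem hd.1 (S.W.smul_mem _ hx.1), fun w hw => ?_⟩
    by_cases hwy : w = y
    · rw [hwy, Pi.sub_apply, Pi.smul_apply, smul_eq_mul, hxy, mul_one, sub_self]
    · have h3 : w ∉ q.2 := fun h => hw (Finset.mem_erase.2 ⟨hwy, h⟩)
      rw [Pi.sub_apply, Pi.smul_apply, hd.2 w h3, hx.2 w (fun h => h3 (Finset.union_subset hq hXq h)), smul_zero, sub_zero]

/-- `Av` for one removal -/
theorem av_one (S : TP K E) {q : Itv E} (hq : q.1 ⊆ q.2) {X : Finset E} (hX : X ⊆ gs q) (hl : QUB.lam S.r q X ≤ 1) {y : E} {t : Bool}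
    (hy : y ∈ X) (hyc : S.r (q.1 ∪ X.erase y) = S.r (q.1 ∪ X)) (hzc : S.r (insert y (q.2 \ X)) = S.r (q.2 \ X) + 1) :
    Av S.U S.W q (rm t y q) X := by
  intro c hc d hd hcd
  obtain ⟨c', hc', d', hd', h5, h6⟩ := av_two S hq hX hl hy hy hyc hzc c hc d hd hcd
  have hs : Sub (rm true y (rm false y q)) (rm t y q) := by
    cases t
    · exact rm_sub true y _
    · exact (rm_sub false y q).rm true y
  exact ⟨c', van_anti hs.1 hc', d', spt_mono hs.2 hd', h5, h6⟩

end Pool.Agent.QU
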