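import Pool.Agent.QUT.Sq
import Pool.Agent.QUT.Rgs
import Pool.Agent.QUT.Iso

/-!
# QUT/CaseA: extension of the forms of `M_f` in case I

`B` is a 2-side of `rm s w p` with a 3-connected torso box, `f ∈ B` is rigid in the torso box, `X` is a set with at least four elements
disjoint from `B + w` whose removals are all 3-connected.  If the forms of `M_f` extend to all `M_x`, `x ∈ X`, then they extend to `M`
(the square lemma).
-/

set_option autoImplicit false

open QUB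

namespace Pool.Agent.QU

section

variable {K E : Type} [Field K] [Fintype E] [DecidableEq E]

/-- every three elements are independent and coindependent -/
structure Nt (r : Finset E → ℤ) (p : Itv E) : Prop where
  t3 : ∀ Z ⊆ gs p, Z.card = 3 → r (p.1 ∪ Z) = r p.1 + 3
  d3 : ∀ Z ⊆ gs p, Z.card = 3 → r (p.2 \ Z) = r p.2

omit [Fintype E] in
theorem Nt.ins {r : Finset E → ℤ} {p : Itv E} (hr : Rk r) (h : Nt r p) {x y z : E} (hx : x ∈ gs p) (hy : y ∈ gs p) (hz : z ∈ gs p)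
    (hxy : x ≠ y) (hxz : x ≠ z) (hyz : y ≠ z) :
    r (insert x (insert y (insert z p.1))) = r p.1 + 3 ∧ r (insert y (insert z p.1)) = r p.1 + 2 ∧ r (insert z p.1) = r p.1 + 1 := by
  have e1 : p.1 ∪ {x, y, z} = insert x (insert y (insert z p.1)) := by
    ext v
    simp only [Finset.mem_union, Finset.mem_insert, Finset.mem_singleton]
    tauto
  have h1 := h.t3 {x, y, z} (by
    intro v hv
    simp only [Finset.mem_insert, Finset.mem_singleton] at hv
    rcases hv with rfl | rfl | rfl <;> assumption) (Finset.card_eq_three.2 ⟨x, y, z, hxy, hxz, hyz, rfl⟩)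
  rw [e1] at h1
  have m1 := hr.unit (insert y (insert z p.1)) x
  have m2 := hr.unit (insert z p.1) y
  have m3 := hr.unit p.1 z
  refine ⟨h1, ?_, ?_⟩ <;> omega

omit [Fintype E] in
theorem Nt.del {r : Finset E → ℤ} {p : Itv E} (hr : Rk r) (h : Nt r p) {x y z : E} (hx : x ∈ gs p) (hy : y ∈ gs p) (hz : z ∈ gs p)
    (hxy : x ≠ y) (hxz : x ≠ z) (hyz : y ≠ z) :
    r (((p.2.erase z).erase y).erase x) = r p.2 ∧ r ((p.2.erase z).erase y) = r p.2 ∧ r (p.2.erase z) = r p.2 := by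
  have e1 : p.2 \ {x, y, z} = ((p.2.erase z).erase y).erase x := by
    ext v
    simp only [Finset.mem_sdiff, Finset.mem_insert, Finset.mem_singleton, Finset.mem_erase]
    tauto
  have h1 := h.d3 {x, y, z} (by
    intro v hv
    simp only [Finset.mem_insert, Finset.mem_singleton] at hv
    rcases hv with rfl | rfl | rfl <;> assumption) (Finset.card_eq_three.2 ⟨x, y, z, hxy, hxz, hyz, rfl⟩)
  rw [e1] at h1
  have m1 := hr.mono _ _ (Finset.erase_subset x ((p.2.erase z).erase y))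
  have m2 := hr.mono _ _ (Finset.erase_subset y (p.2.erase z))
  have m3 := hr.mono _ _ (Finset.erase_subset z p.2)
  refine ⟨h1, ?_, ?_⟩ <;> omega

/-- the setting of case I at a 2-side `B` -/
structure Ci (r : Finset E → ℤ) (p : Itv E) (w : E) (s : Bool) (B X : Finset E) : Prop where
  hp : p.1 ⊆ p.2
  hC : Cn r p
  h3 : Th3 r p
  hn : 9 ≤ (gs p).card
  nt : Nt r p
  hw : w ∈ gs p
  ts : TS r p w s B
  hB3 : 3 ≤ B.card
  hX : X ⊆ gs p
  hXB : Disjoint X B
  wX : w ∉ X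
  hX4 : 4 ≤ X.card
  hX3 : ∀ x ∈ X, ∀ u : Bool, Th3 r (QUB.rm u x p)

omit [Fintype E] in
/-- no element of `X` is parallel or in series with the base point -/
theorem Ci.good {r : Finset E → ℤ} {p : Itv E} {w : E} {s : Bool} {B X : Finset E} (hr : Rk r) (h : Ci r p w s B X) {y : E} (hy : y ∈ X) :
    r ((QUB.rm s w p).1 ∪ (gs (QUB.rm s w p) \ B).erase y) = r ((QUB.rm s w p).1 ∪ (gs (QUB.rm s w p) \ B)) ∧
      r (insert y ((QUB.rm s w p).2 \ (gs (QUB.rm s w p) \ B))) = r ((QUB.rm s w p).2 \ (gs (QUB.rm s w p) \ B)) + 1 ∧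
      ∀ u : Bool, 1 ≤ QUB.lam r (QUB.rm u y (QUB.rm s w p)) B := by
  have hyp : y ∈ gs p := h.hX hy
  have hyw : y ≠ w := fun h' => h.wX (h' ▸ hy)
  have hyB : y ∉ B := fun h' => Finset.disjoint_left.1 h.hXB hy h'
  have hn := h.hn
  have gq : gs (QUB.rm s w p) = (gs p).erase w := QUB.gs_rm s w p
  have hBq : B ⊆ gs (QUB.rm s w p) := by rw [gq]; exact h.ts.1
  have hwf : (QUB.rm s w p).1 ⊆ (QUB.rm s w p).2 := QUB.wf_rm h.hp h.hw
  have hyq : y ∈ gs (QUB.rm s w p) := by rw [gq]; exact Finset.mem_erase.2 ⟨hyw, hyp⟩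
  have hBne : B.Nonempty := Finset.card_pos.1 (by have := h.hB3; omega)
  have hcq : Cn r (QUB.rm s w p) := th3_cn hr h.hp h.hC h.h3 (by omega) h.hw s
  -- another element outside of B
  obtain ⟨x, hx, hxy⟩ : ∃ x ∈ X, x ≠ y := by
    by_contra hcon
    push Not at hcon
    have h1 : X ⊆ {y} := fun z hz => Finset.mem_singleton.2 (hcon z hz)
    have h2 := Finset.card_le_card h1
    rw [Finset.card_singleton] at h2
    have := h.hX4
    omega
  have hxp : x ∈ gs p := h.hX hx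
  have hxw : x ≠ w := fun h' => h.wX (h' ▸ hx)
  have hxB : x ∉ B := fun h' => Finset.disjoint_left.1 h.hXB hx h'
  have hlam : ∀ u : Bool, 1 ≤ QUB.lam r (QUB.rm u y (QUB.rm s w p)) B := by
    intro u
    have cy : Cn r (QUB.rm u y p) := th3_cn hr h.hp h.hC h.h3 (by omega) hyp u
    have c1 : Cn r (QUB.rm u y (QUB.rm s w p)) := by
      rw [QUB.rm_comm]
      refine th3_cn hr (QUB.wf_rm h.hp hyp) cy (h.hX3 y hy u) ?_ ?_ s
      · rw [show gs (QUB.rm u y p) = (gs p).erase y from QUB.gs_rm u y p, Finset.card_erase_of_mem hyp]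
        omega
      · rw [QUB.gs_rm]
        exact Finset.mem_erase.2 ⟨hyw.symm, h.hw⟩
    refine c1 B ?_ hBne ⟨x, ?_⟩
    · rw [QUB.gs_rm, gq]
      exact fun v hv => Finset.mem_erase.2 ⟨fun h' => hyB (h' ▸ hv), h.ts.1 hv⟩
    · rw [QUB.gs_rm, gq]
      exact Finset.mem_sdiff.2 ⟨Finset.mem_erase.2 ⟨hxy, Finset.mem_erase.2 ⟨hxw, hxp⟩⟩, hxB⟩
  have hst := cn_step hr hcq hyq ⟨x, Finset.mem_erase.2 ⟨hxy, by rw [gq]; exact Finset.mem_erase.2 ⟨hxw, hxp⟩⟩⟩
  have hl := h.ts.2.2.2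
  generalize QUB.rm s w p = q at *
  have hBq' : ∀ v ∈ B, v ∈ q.2 ∧ v ∉ q.1 := fun v hv => Finset.mem_sdiff.1 (hBq hv)
  have hyq' := Finset.mem_sdiff.1 hyq
  have eA : q.2 \ B = q.1 ∪ (gs q \ B) := by
    ext v
    have h1 := @hwf v
    have h2 := hBq' v
    simp only [QUB.gs, Finset.mem_union, Finset.mem_sdiff]
    tauto
  have eB : q.2 \ (gs q \ B) = q.1 ∪ B := by
    ext v
    have h1 := @hwf v
    have h2 := hBq' v
    simp only [QUB.gs, Finset.mem_union, Finset.mem_sdiff]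
    tauto
  have hl' : r (q.1 ∪ B) + r (q.2 \ B) - r q.2 - r q.1 ≤ 1 := hl
  refine ⟨?_, ?_, hlam⟩
  · have h1 : 1 ≤ r (q.1 ∪ B) + r (q.2.erase y \ B) - r (q.2.erase y) - r q.1 := hlam true
    have e1 : q.2.erase y \ B = q.1 ∪ (gs q \ B).erase y := by
      ext v
      have h1 := @hwf v
      have h2 := hBq' v
      by_cases hvy : v = y
      · rw [hvy]
        simp only [Finset.mem_union, Finset.mem_sdiff, Finset.mem_erase]
        tauto
      · simp only [QUB.gs, Finset.mem_union, Finset.mem_sdiff, Finset.mem_erase]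
        tauto
    rw [e1, hst.1] at h1
    rw [eA] at hl'
    have m1 := hr.mono _ _ (Finset.union_subset_union_right (s := q.1) (Finset.erase_subset y (gs q \ B)))
    omega
  · have h1 : 1 ≤ r (insert y q.1 ∪ B) + r (q.2 \ B) - r q.2 - r (insert y q.1) := hlam false
    rw [Finset.insert_union, hst.2] at h1
    have m1 := hr.unit (q.1 ∪ B) y
    rw [eB]
    omega

/-- `f` is rigid in the minors `M \ y / z` -/
theorem ci_rg (S : TP K E) {p : Itv E} {w : E} {s : Bool} {B X : Finset E} (h : Ci S.r p w s B X) {C : Finset E} {a : E}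
    (T : Tor S.r (QUB.rm s w p) B C a) (h3t : Th3 S.r (tb (QUB.rm s w p) B C a)) {f : E} {t : Bool} (hf : f ∈ B)
    (hg : Rg S t f (tb (QUB.rm s w p) B C a)) {y z : E} (hy : y ∈ X) (hz : z ∈ X) (hyz : y ≠ z)
    (hmix : t ≠ s → ND S.r (rm true y (rm false z p)) f w t s) : Rg S t f (rm true y (rm false z p)) := by
  have hr : Rk S.r := S.rk
  have hn := h.hn
  have gq : gs (QUB.rm s w p) = (gs p).erase w := QUB.gs_rm s w p
  have hcq : Cn S.r (QUB.rm s w p) := th3_cn hr h.hp h.hC h.h3 (by omega) h.hw s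
  have hwf : (QUB.rm s w p).1 ⊆ (QUB.rm s w p).2 := QUB.wf_rm h.hp h.hw
  have hyp : y ∈ gs p := h.hX hy
  have hzp : z ∈ gs p := h.hX hz
  have hyw : y ≠ w := fun h' => h.wX (h' ▸ hy)
  have hzw : z ≠ w := fun h' => h.wX (h' ▸ hz)
  have hyB : y ∉ B := fun h' => Finset.disjoint_left.1 h.hXB hy h'
  have hzB : z ∉ B := fun h' => Finset.disjoint_left.1 h.hXB hz h'
  have hfw' := Finset.mem_erase.1 (h.ts.1 hf)
  have hfy : f ≠ y := fun h' => hyB (h' ▸ hf)
  have hfz : f ≠ z := fun h' => hzB (h' ▸ hf)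
  have hgq : Rg S t f (QUB.rm s w p) := tor_rg S T hcq h3t h.hB3 hf hg
  have gy := h.good hr hy
  have gz := h.good hr hz
  have hyA : y ∈ gs (QUB.rm s w p) \ B := by
    rw [gq]
    exact Finset.mem_sdiff.2 ⟨Finset.mem_erase.2 ⟨hyw, hyp⟩, hyB⟩
  have hzA : z ∈ gs (QUB.rm s w p) \ B := by
    rw [gq]
    exact Finset.mem_sdiff.2 ⟨Finset.mem_erase.2 ⟨hzw, hzp⟩, hzB⟩
  have hBq : B ⊆ gs (QUB.rm s w p) := by rw [gq]; exact h.ts.1
  have hlA : QUB.lam S.r (QUB.rm s w p) (gs (QUB.rm s w p) \ B) ≤ 1 := by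
    rw [lam_compl S.r hwf hBq]
    exact h.ts.2.2.2
  have hfq : f ∈ gs (QUB.rm s w p) := hBq hf
  have hfA : f ∉ gs (QUB.rm s w p) \ B := fun h' => (Finset.mem_sdiff.1 h').2 hf
  have hst := T.steps hr h3t h.hB3 hf
  have hAv := av_two S hwf (X := gs (QUB.rm s w p) \ B) Finset.sdiff_subset hlA hyA hzA gy.1 gz.2.1
  have hs2 : Sub (rm true y (rm false z (QUB.rm s w p))) (QUB.rm s w p) := (rm_sub false z _).trans (rm_sub true y _)
  have eB : (QUB.rm s w p).2 \ (gs (QUB.rm s w p) \ B) = (QUB.rm s w p).1 ∪ B := by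
    ext v
    have h1 := @hwf v
    have h2 : v ∈ B → v ∈ (QUB.rm s w p).2 ∧ v ∉ (QUB.rm s w p).1 := fun hv => Finset.mem_sdiff.1 (hBq hv)
    simp only [QUB.gs, Finset.mem_union, Finset.mem_sdiff]
    tauto
  have hrg : Rg S t f (rm true y (rm false z (QUB.rm s w p))) := by
    cases t
    · refine rgs_con S hs2 ?_ hAv hfq hfA hst.2 hgq
      show insert z (QUB.rm s w p).1 ⊆ _
      exact Finset.insert_subset (Finset.mem_union_right _ hzA) Finset.subset_union_left
    · refine rgs_del S hs2 ?_ hAv hfq hfA (by rw [eB]; exact hst.1) hgq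
      show _ ⊆ (QUB.rm s w p).2.erase y
      exact fun v hv => Finset.mem_erase.2 ⟨fun h' => (Finset.mem_sdiff.1 hv).2 (h' ▸ hyA), (Finset.mem_sdiff.1 hv).1⟩
  have hcomm : rm true y (rm false z (QUB.rm s w p)) = rm s w (rm true y (rm false z p)) := by
    have e1 : rm false z (QUB.rm s w p) = rm s w (rm false z p) := rm_comm false s z w p
    rw [e1, rm_comm]
  rw [hcomm] at hrg
  have gm : gs (rm true y (rm false z p)) = ((gs p).erase z).erase y := by rw [gs_rm, gs_rm]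
  refine rg_up S hfw'.1 ?_ ?_ ?_ hrg
  · rw [gm]
    exact Finset.mem_erase.2 ⟨hfy, Finset.mem_erase.2 ⟨hfz, hfw'.2⟩⟩
  · rw [gm]
    exact Finset.mem_erase.2 ⟨hyw.symm, Finset.mem_erase.2 ⟨hzw.symm, h.hw⟩⟩
  · by_cases hts : t = s
    · subst hts
      cases t
      · have k := h.nt.ins hr hfw'.2 h.hw hzp hfw'.1 hfz hzw.symm
        have k' := h.nt.ins hr h.hw hfw'.2 hzp hfw'.1.symm hzw.symm hfz
        show S.r (insert f (insert z p.1)) + S.r (insert w (insert z p.1)) = S.r (insert z p.1) + S.r (insert f (insert w (insert z p.1)))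
        omega
      · have k := h.nt.del hr h.hw hfw'.2 hyp hfw'.1.symm hyw.symm hfy
        have k' := h.nt.del hr hfw'.2 h.hw hyp hfw'.1 hfy hyw.symm
        show S.r ((p.2.erase y).erase f) + S.r ((p.2.erase y).erase w) = S.r (p.2.erase y) + S.r (((p.2.erase y).erase f).erase w)
        omega
    · exact hmix hts

/-- extension of the forms of `M_f` -/
theorem ci_ex (S : TP K E) {p : Itv E} {w : E} {s : Bool} {B X : Finset E} (h : Ci S.r p w s B X) {C : Finset E} {a : E}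
    (T : Tor S.r (QUB.rm s w p) B C a) (h3t : Th3 S.r (tb (QUB.rm s w p) B C a)) {f : E} {t : Bool} (hf : f ∈ B)
    (hg : Rg S t f (tb (QUB.rm s w p) B C a))
    (hmix : t ≠ s → ∀ y ∈ X, ∀ z ∈ X, y ≠ z → ND S.r (rm true y (rm false z p)) f w t s)
    (hEx : ∀ x ∈ X, ∀ u : Bool, Ex S t f (rm u x p)) : Ex S t f p := by
  have hr : Rk S.r := S.rk
  obtain ⟨X0, hX0, hX0c⟩ := Finset.exists_subset_card_eq h.hX4
  obtain ⟨x, X1, hxX1, hX1, hX1c⟩ := Finset.card_eq_succ.1 hX0c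
  obtain ⟨y, z, z', hyz, hyz', hzz', rfl⟩ := Finset.card_eq_three.1 hX1c
  have mx : x ∈ X := hX0 (by rw [← hX1]; simp)
  have my : y ∈ X := hX0 (by rw [← hX1]; simp)
  have mz : z ∈ X := hX0 (by rw [← hX1]; simp)
  have mz' : z' ∈ X := hX0 (by rw [← hX1]; simp)
  have hxy : x ≠ y := fun h' => hxX1 (by rw [h']; simp)
  have hxz : x ≠ z := fun h' => hxX1 (by rw [h']; simp)
  have hxz' : x ≠ z' := fun h' => hxX1 (by rw [h']; simp)
  have hXf : ∀ v ∈ X, f ≠ v := fun v hv h' => Finset.disjoint_left.1 h.hXB hv (h' ▸ hf)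
  have hfp := (Finset.mem_erase.1 (h.ts.1 hf)).2
  have rg : ∀ v ∈ X, ∀ v' ∈ X, v ≠ v' → Rg S t f (rm true v (rm false v' p)) := fun v hv v' hv' hne =>
    ci_rg S h T h3t hf hg hv hv' hne fun hts => hmix hts v hv v' hv' hne
  cases t
  · have k1 := h.nt.del hr (h.hX mz') (h.hX mz) hfp hzz'.symm (hXf z' mz').symm (hXf z mz).symm
    have k2 := h.nt.del hr hfp (h.hX mz') (h.hX mz) (hXf z' mz') (hXf z mz) hzz'.symm
    have k3 := h.nt.del hr hfp (h.hX mz) (h.hX mz') (hXf z mz) (hXf z' mz') hzz'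
    have k4 := h.nt.ins hr hfp (h.hX mx) (h.hX my) (hXf x mx) (hXf y my) hxy
    have rg' : ∀ v ∈ X, ∀ v' ∈ X, v ≠ v' → Rg S false f (rm false v (rm true v' p)) := by
      intro v hv v' hv' hne
      rw [rm_comm]
      exact rg v' hv' v hv hne.symm
    refine sq_con S (x := x) (y := y) (z := z) (z' := z') hfp (h.hX mx) (h.hX my) (h.hX mz) (h.hX mz') hzz' (hXf z mz) (hXf z' mz')
      (hXf x mx) (hXf y my) (hEx x mx false) (hEx x mx true) (hEx y my false) (hEx z mz true) (hEx z' mz' true)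
      (rg' x mx z mz hxz) (rg' x mx z' mz' hxz') (rg' y my z mz hyz) (rg' y my z' mz' hyz') (rg' y my x mx hxy.symm) ?_ ?_ ?_
    · omega
    · rw [k2.2.1]
      exact k2.1
    · rw [k4.1, k4.2.1]
      ring
  · have k1 := h.nt.ins hr hfp (h.hX mz) (h.hX mz') (hXf z mz) (hXf z' mz') hzz'
    have k2 := h.nt.ins hr hfp (h.hX mz') (h.hX mz) (hXf z' mz') (hXf z mz) hzz'.symm
    have k3 := h.nt.del hr hfp (h.hX my) (h.hX mx) (hXf y my) (hXf x mx) hxy.symm
    refine sq_del S (x := x) (y := y) (z := z) (z' := z') (hEx x mx true) (hEx x mx false) (hEx y my true) (hEx z mz false)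
      (hEx z' mz' false) (rg x mx z mz hxz) (rg x mx z' mz' hxz') (rg y my z mz hyz) (rg y my z' mz' hyz') (rg y my x mx hxy.symm)
      ?_ ?_ ?_ ?_
    · omega
    · rw [k1.1, k1.2.1]
      ring
    · exact Finset.mem_erase.2 ⟨hXf y my, Finset.mem_erase.2 ⟨hXf x mx, (Finset.mem_sdiff.1 hfp).1⟩⟩
    · rw [k3.1, k3.2.1]

end

end Pool.Agent.QU
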