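import Pool.Agent.QUT.CaseA
import Pool.Agent.QUT.Csm
import Pool.Agent.QUR.ExF

/-!
# QUT/CaseB: the T-trick and the torso boxes of the minors `M \ y / z`
-/

set_option autoImplicit false

open QUB

namespace Pool.Agent.QU

open Pool.Agent.FRM

section

variable {E : Type} [DecidableEq E] {r : Finset E → ℤ}

theorem hasRich_mono {p q : Itv E} (h : Sub q p) (hR : HasRich r q) : HasRich r p := by
  obtain ⟨N, h1, h2⟩ := hR
  exact ⟨N, h.trans h1, h2⟩

/-- a 2-side shows that the removal is not 3-connected -/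
theorem ts_not_th3 {p : Itv E} {w : E} {s : Bool} {Z : Finset E} (h : TS r p w s Z) : ¬ Th3 r (QUB.rm s w p) := by
  intro h3
  have g1 : gs (QUB.rm s w p) = (gs p).erase w := QUB.gs_rm s w p
  have h1 := h3 Z (by rw [g1]; exact h.1) h.2.1 (by rw [g1]; exact h.2.2.1)
  have h2 : QUB.lam r (QUB.rm s w p) Z = lam r (QUB.rm s w p) Z := rfl
  have h4 := h.2.2.2
  omega

/-- 2-sides have at least four elements -/
theorem ts_four (hr : Rk r) {p : Itv E} (nt : Nt r p) {w : E} {s : Bool} {Z : Finset E} (hw : w ∈ gs p) (h : TS r p w s Z) :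
    4 ≤ Z.card := by
  obtain ⟨hZ, h2, -, hl⟩ := h
  have hZp : ∀ v ∈ Z, v ∈ gs p ∧ v ≠ w := fun v hv => ⟨(Finset.mem_erase.1 (hZ hv)).2, (Finset.mem_erase.1 (hZ hv)).1⟩
  by_contra hcon
  have hc : Z.card = 2 ∨ Z.card = 3 := by omega
  rcases hc with hc | hc
  · obtain ⟨x, y, hxy, rfl⟩ := Finset.card_eq_two.1 hc
    have hx := hZp x (by simp)
    have hy := hZp y (by simp)
    have k1 := nt.ins hr hx.1 hy.1 hw hxy hx.2 hy.2
    have k1' := nt.ins hr hw hx.1 hy.1 hx.2.symm hy.2.symm hxy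
    have k2 := nt.del hr hy.1 hx.1 hw hxy.symm hy.2 hx.2
    have k2' := nt.del hr hw hy.1 hx.1 hy.2.symm hx.2.symm hxy.symm
    cases s
    · have h3 : r (insert w p.1 ∪ {x, y}) + r (p.2 \ {x, y}) - r p.2 - r (insert w p.1) ≤ 1 := hl
      have e1 : insert w p.1 ∪ {x, y} = insert x (insert y (insert w p.1)) := by
        ext v
        simp only [Finset.mem_union, Finset.mem_insert, Finset.mem_singleton]
        tauto
      have e2 : p.2 \ {x, y} = (p.2.erase x).erase y := by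
        ext v
        simp only [Finset.mem_sdiff, Finset.mem_erase, Finset.mem_insert, Finset.mem_singleton]
        tauto
      rw [e1, e2] at h3
      omega
    · have h3 : r (p.1 ∪ {x, y}) + r (p.2.erase w \ {x, y}) - r (p.2.erase w) - r p.1 ≤ 1 := hl
      have e1 : p.1 ∪ {x, y} = insert x (insert y p.1) := by
        ext v
        simp only [Finset.mem_union, Finset.mem_insert, Finset.mem_singleton]
        tauto
      have e2 : p.2.erase w \ {x, y} = ((p.2.erase w).erase x).erase y := by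
        ext v
        simp only [Finset.mem_sdiff, Finset.mem_erase, Finset.mem_insert, Finset.mem_singleton]
        tauto
      rw [e1, e2] at h3
      omega
  · have k1 := nt.t3 Z (fun v hv => (hZp v hv).1) hc
    have k2 := nt.d3 Z (fun v hv => (hZp v hv).1) hc
    cases s
    · have h3 : r (insert w p.1 ∪ Z) + r (p.2 \ Z) - r p.2 - r (insert w p.1) ≤ 1 := hl
      have m1 := hr.mono _ _ (Finset.union_subset_union_left (t := Z) (Finset.subset_insert w p.1))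
      have m2 := hr.unit p.1 w
      omega
    · have h3 : r (p.1 ∪ Z) + r (p.2.erase w \ Z) - r (p.2.erase w) - r p.1 ≤ 1 := hl
      have e2 : insert w (p.2.erase w \ Z) = p.2 \ Z := by
        have hw2 : w ∈ p.2 := (Finset.mem_sdiff.1 hw).1
        ext v
        by_cases hvw : v = w
        · rw [hvw]
          have hwZ : w ∉ Z := fun h' => (hZp w h').2 rfl
          simp only [Finset.mem_sdiff, Finset.mem_erase, Finset.mem_insert]
          tauto
        · simp only [Finset.mem_sdiff, Finset.mem_erase, Finset.mem_insert]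
          tauto
      have m1 := hr.unit (p.2.erase w \ Z) w
      have m2 := hr.mono _ _ (Finset.erase_subset w p.2)
      rw [e2] at m1
      omega

/-- a minimum 2-side -/
theorem ts_min {p : Itv E} (D : Finset E) (h : ∃ v ∈ gs p, ∃ (t : Bool) (Z : Finset E), TS r p v t Z ∧ Disjoint Z D) :
    ∃ v ∈ gs p, ∃ (t : Bool) (Z : Finset E), TS r p v t Z ∧ Disjoint Z D ∧
      ∀ v' ∈ gs p, ∀ (t' : Bool) (Z' : Finset E), TS r p v' t' Z' → Disjoint Z' D → Z.card ≤ Z'.card := by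
  classical
  have h' : ∃ n : ℕ, ∃ v ∈ gs p, ∃ (t : Bool) (Z : Finset E), TS r p v t Z ∧ Disjoint Z D ∧ Z.card = n := by
    obtain ⟨v, hv, t, Z, h1, h2⟩ := h
    exact ⟨Z.card, v, hv, t, Z, h1, h2, rfl⟩
  obtain ⟨v, hv, t, Z, h1, h2, h3⟩ := Nat.find_spec h'
  refine ⟨v, hv, t, Z, h1, h2, fun v' hv' t' Z' h4 h5 => ?_⟩
  rw [h3]
  exact Nat.find_min' h' ⟨v', hv', t', Z', h4, h5, rfl⟩

/-- the connectivity of the subsets of `B` from the two relations -/
theorem lam_rel {q q2 : Itv E} (hq : q.1 ⊆ q.2) (hq2 : q2.1 ⊆ q2.2) {B : Finset E} (hB : B ⊆ gs q) (hB2 : B ⊆ gs q2)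
    (h1 : ∀ Z ⊆ B, r (q2.1 ∪ Z) - r q2.1 = r (q.1 ∪ Z) - r q.1)
    (h2 : ∀ Z ⊆ B, r (q2.1 ∪ (gs q2 \ B) ∪ Z) - r (q2.1 ∪ (gs q2 \ B)) = r (q.1 ∪ (gs q \ B) ∪ Z) - r (q.1 ∪ (gs q \ B)))
    {Z : Finset E} (hZ : Z ⊆ B) : QUB.lam r q2 Z = QUB.lam r q Z := by
  have e : ∀ {m : Itv E}, m.1 ⊆ m.2 → B ⊆ gs m → m.2 \ Z = m.1 ∪ (gs m \ B) ∪ (B \ Z) ∧ m.2 = m.1 ∪ (gs m \ B) ∪ B := by
    intro m hm hBm
    have hBm' : ∀ v ∈ B, v ∈ m.2 ∧ v ∉ m.1 := fun v hv => Finset.mem_sdiff.1 (hBm hv)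
    constructor
    · ext v
      have h3 := @hm v
      have h4 := hBm' v
      have h5 := @hZ v
      simp only [QUB.gs, Finset.mem_sdiff, Finset.mem_union]
      tauto
    · ext v
      have h3 := @hm v
      have h4 := hBm' v
      simp only [QUB.gs, Finset.mem_sdiff, Finset.mem_union]
      tauto
  have a1 := h1 Z hZ
  have a2 := h2 (B \ Z) Finset.sdiff_subset
  have a3 := h2 B (Finset.Subset.refl _)
  have e1 := e hq hB
  have e2 := e hq2 hB2
  have b1 : QUB.lam r q2 Z = r (q2.1 ∪ Z) + r (q2.2 \ Z) - r q2.2 - r q2.1 := rfl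
  have b2 : QUB.lam r q Z = r (q.1 ∪ Z) + r (q.2 \ Z) - r q.2 - r q.1 := rfl
  rw [e2.1] at b1
  rw [e1.1] at b2
  have c1 : r q2.2 = r (q2.1 ∪ (gs q2 \ B) ∪ B) := by rw [← e2.2]
  have c2 : r q.2 = r (q.1 ∪ (gs q \ B) ∪ B) := by rw [← e1.2]
  omega

end

section

variable {E : Type} [Fintype E] [DecidableEq E]

/-- **the T-trick**: `f` and `w` are removals of one type, `f` is rigid in `rm t w p`; then `rm t f p` is rich -/
theorem ttrick (S : TP F4 E) (hNU : NU S.r) {p : Itv E} (hp : p.1 ⊆ p.2) {f w : E} {t : Bool} (hf : f ∈ gs p) (hw : w ∈ gs p)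
    (hfw : f ≠ w) (hex : ∃ T, InVs S p T) (hR : HasRich S.r p) (hc : Cn S.r (rm t f p)) (ho : Ok S.r (rm t f p))
    (hg : Rg S t f (rm t w p)) (hnd : ND S.r p f w t t) : HasRich S.r (rm t f p) := by
  by_contra hno
  obtain ⟨T, hT⟩ := hex
  have wf : (rm t f p).1 ⊆ (rm t f p).2 := QUB.wf_rm hp hf
  obtain ⟨l, hl⟩ := thmU S hNU (rm t f p) wf hc ho (hT.1.mono (rm_sub t f p)) (Or.inr hno)
  rw [zero_add] at hl
  have h1 : EqOn S.U S.W (rm t f p) (T - dg l) 0 := by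
    intro c hc d hd
    rw [LinearMap.sub_apply, LinearMap.sub_apply, hl c hc d hd, sub_self, LinearMap.zero_apply, LinearMap.zero_apply]
  have hV : InV S.U S.W p (T - dg l) := hT.1.sub (dg_inV _ _)
  obtain ⟨k, hk⟩ := hg (T - dg l) (hV.mono (rm_sub t w p)) (h1.mono ((rm_sub t w p).rm t f))
  have h2 : EqOn S.U S.W (rm t f p) (T - dg l - dg (Pi.single f k)) 0 := by
    have h5 : EqOn S.U S.W (rm t f p) (dg (Pi.single f k)) (dg (0 : E → F4)) := by
      refine dg_congr fun x hx => ?_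
      rw [gs_rm] at hx
      rw [Pi.single_eq_of_ne (Finset.mem_erase.1 hx).1, Pi.zero_apply]
    intro c hc d hd
    rw [LinearMap.sub_apply, LinearMap.sub_apply, h1 c hc d hd, h5 c hc d hd, dg_zero, sub_self, LinearMap.zero_apply,
      LinearMap.zero_apply]
  have h3 : EqOn S.U S.W (rm t w p) (T - dg l - dg (Pi.single f k)) 0 := by
    intro c hc d hd
    rw [LinearMap.sub_apply, LinearMap.sub_apply, hk c hc d hd, sub_self, LinearMap.zero_apply, LinearMap.zero_apply]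
  have h4 := nd_zero S hfw hf hw hnd (fun h => absurd rfl h) h2 h3
  obtain ⟨N, hN1, hN2⟩ := hR
  refine hT.2 N hN1 hN2 ⟨l + Pi.single f k, fun c hc d hd => ?_⟩
  have h5 := (h4.mono hN1) c hc d hd
  rw [LinearMap.sub_apply, LinearMap.sub_apply, LinearMap.sub_apply, LinearMap.sub_apply, LinearMap.zero_apply, LinearMap.zero_apply] at h5
  rw [zero_add, dg_add, LinearMap.add_apply, LinearMap.add_apply]
  linear_combination h5

/-- the torso boxes of the minors `M \ y / z` -/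
theorem ci_tor2 (S : TP F4 E) {p : Itv E} {w : E} {s : Bool} {B X : Finset E} (h : Ci S.r p w s B X) {C : Finset E} {a : E}
    (T : Tor S.r (QUB.rm s w p) B C a) (hmin : ∀ Z ⊆ B, Z ≠ B → 2 ≤ Z.card → 2 ≤ QUB.lam S.r (QUB.rm s w p) Z)
    {f : E} {t : Bool} (hf : f ∈ B) (hR : HasRich S.r (rm t f (tb (QUB.rm s w p) B C a))) {y z : E} (hy : y ∈ X) (hz : z ∈ X)
    (hyz : y ≠ z) :
    ∃ (C' : Finset E) (a' : E), Tor S.r (rm s w (rm true y (rm false z p))) B C' a' ∧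
      Th3 S.r (tb (rm s w (rm true y (rm false z p))) B C' a') ∧ Cn S.r (tb (rm s w (rm true y (rm false z p))) B C' a') ∧
      HasRich S.r (rm t f (tb (rm s w (rm true y (rm false z p))) B C' a')) := by
  have hr : Rk S.r := S.rk
  have hn := h.hn
  have gq : gs (QUB.rm s w p) = (gs p).erase w := QUB.gs_rm s w p
  have hcq : Cn S.r (QUB.rm s w p) := th3_cn hr h.hp h.hC h.h3 (by omega) h.hw s
  have hwf : (QUB.rm s w p).1 ⊆ (QUB.rm s w p).2 := QUB.wf_rm h.hp h.hw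
  have hyp : y ∈ gs p := h.hX hy
  have hzp : z ∈ gs p := h.hX hz
  have hyw : y ≠ w := fun h' => h.wX (h' ▸ hy)
  have hzw : z ≠ w := fun h' => h.wX (h' ▸ hz)
  have hyB : y ∉ B := fun h' => Finset.disjoint_left.1 h.hXB hy h'
  have hzB : z ∉ B := fun h' => Finset.disjoint_left.1 h.hXB hz h'
  have gy := h.good hr hy
  have gz := h.good hr hz
  have hl := h.ts.2.2.2
  have hBq : B ⊆ gs (QUB.rm s w p) := by rw [gq]; exact h.ts.1
  have hzq : z ∈ gs (QUB.rm s w p) := by rw [gq]; exact Finset.mem_erase.2 ⟨hzw, hzp⟩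
  have hyq : y ∈ gs (QUB.rm s w p) := by rw [gq]; exact Finset.mem_erase.2 ⟨hyw, hyp⟩
  have hcomm : rm s w (rm true y (rm false z p)) = rm true y (rm false z (QUB.rm s w p)) := by
    have e1 : rm s w (rm true y (rm false z p)) = rm true y (rm s w (rm false z p)) := rm_comm s true w y _
    have e2 : rm s w (rm false z p) = rm false z (rm s w p) := rm_comm s false w z p
    rw [e1, e2]
  rw [hcomm]
  have hBc := h.hB3
  have hBne : B.Nonempty := Finset.card_pos.1 (by omega)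
  have hl0 : ∀ Z ⊆ B, Z.Nonempty → 1 ≤ QUB.lam S.r (QUB.rm s w p) Z := fun Z hZ hne =>
    hcq Z (hZ.trans hBq) hne ⟨y, Finset.mem_sdiff.2 ⟨hyq, fun h' => hyB (hZ h')⟩⟩
  generalize QUB.rm s w p = q at *
  -- first step: contraction of z
  have st1 := stab hr hwf hBq hl (y := z) (t := false) hzq hzB (gz.2.2 false)
  have hwf1 : (QUB.rm false z q).1 ⊆ (QUB.rm false z q).2 := QUB.wf_rm hwf hzq
  have g1 : gs (QUB.rm false z q) = (gs q).erase z := QUB.gs_rm false z q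
  have hBq1 : B ⊆ gs (QUB.rm false z q) := by
    rw [g1]
    exact fun v hv => Finset.mem_erase.2 ⟨fun h' => hzB (h' ▸ hv), hBq hv⟩
  have hyq1 : y ∈ gs (QUB.rm false z q) := by
    rw [g1]
    exact Finset.mem_erase.2 ⟨hyz, hyq⟩
  have hl1 : QUB.lam S.r (QUB.rm false z q) B ≤ 1 := by
    rw [lam_rel hwf hwf1 hBq hBq1 st1.1 st1.2 (Finset.Subset.refl _)]
    exact hl
  -- second step: deletion of y
  have hyB' : 1 ≤ QUB.lam S.r (QUB.rm true y (QUB.rm false z q)) B := by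
    have hBq' : ∀ v ∈ B, v ∈ q.2 ∧ v ∉ q.1 := fun v hv => Finset.mem_sdiff.1 (hBq hv)
    have hyq' := Finset.mem_sdiff.1 hyq
    have b1 : 1 ≤ QUB.lam S.r (QUB.rm true y q) B := gy.2.2 true
    have b2 : QUB.lam S.r (QUB.rm false z q) B = QUB.lam S.r q B := lam_rel hwf hwf1 hBq hBq1 st1.1 st1.2 (Finset.Subset.refl _)
    have b3 : QUB.lam S.r (QUB.rm true y (QUB.rm false z q)) B =
        S.r (insert z q.1 ∪ B) + S.r (q.2.erase y \ B) - S.r (q.2.erase y) - S.r (insert z q.1) := rfl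
    have b4 : QUB.lam S.r (QUB.rm true y q) B = S.r (q.1 ∪ B) + S.r (q.2.erase y \ B) - S.r (q.2.erase y) - S.r q.1 := rfl
    have b5 : QUB.lam S.r (QUB.rm false z q) B = S.r (insert z q.1 ∪ B) + S.r (q.2 \ B) - S.r q.2 - S.r (insert z q.1) := rfl
    have b6 : QUB.lam S.r q B = S.r (q.1 ∪ B) + S.r (q.2 \ B) - S.r q.2 - S.r q.1 := rfl
    omega
  have st2 := stab hr hwf1 hBq1 hl1 (y := y) (t := true) hyq1 hyB hyB'
  have hwf2 : (QUB.rm true y (QUB.rm false z q)).1 ⊆ (QUB.rm true y (QUB.rm false z q)).2 := QUB.wf_rm hwf1 hyq1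
  have g2 : gs (QUB.rm true y (QUB.rm false z q)) = (gs (QUB.rm false z q)).erase y := QUB.gs_rm true y _
  have hBq2 : B ⊆ gs (QUB.rm true y (QUB.rm false z q)) := by
    rw [g2]
    exact fun v hv => Finset.mem_erase.2 ⟨fun h' => hyB (h' ▸ hv), hBq1 hv⟩
  have r1 : ∀ Z ⊆ B, S.r ((QUB.rm true y (QUB.rm false z q)).1 ∪ Z) - S.r (QUB.rm true y (QUB.rm false z q)).1 =
      S.r (q.1 ∪ Z) - S.r q.1 := fun Z hZ => (st2.1 Z hZ).trans (st1.1 Z hZ)
  have r2 : ∀ Z ⊆ B, S.r ((QUB.rm true y (QUB.rm false z q)).1 ∪ (gs (QUB.rm true y (QUB.rm false z q)) \ B) ∪ Z) -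
      S.r ((QUB.rm true y (QUB.rm false z q)).1 ∪ (gs (QUB.rm true y (QUB.rm false z q)) \ B)) =
      S.r (q.1 ∪ (gs q \ B) ∪ Z) - S.r (q.1 ∪ (gs q \ B)) := fun Z hZ => (st2.2 Z hZ).trans (st1.2 Z hZ)
  have hlam : ∀ Z ⊆ B, QUB.lam S.r (QUB.rm true y (QUB.rm false z q)) Z = QUB.lam S.r q Z := fun Z hZ =>
    lam_rel hwf hwf2 hBq hBq2 r1 r2 hZ
  obtain ⟨C', a', T'⟩ := tor_ex hr hwf2 hBq2 hyB' (by rw [hlam B (Finset.Subset.refl _)]; exact hl)
  refine ⟨C', a', T', ?_, ?_, tor_iso hr T T' r1 r2 hf hR⟩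
  · refine T'.th3 hr fun Z hZ hne h2 => ?_
    rw [hlam Z hZ]
    exact hmin Z hZ hne h2
  · refine T'.cn' hr fun Z hZ hne => ?_
    rw [hlam Z hZ]
    exact hl0 Z hZ hne

end

end Pool.Agent.QU
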