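import Pool.Agent.QUT.Tor
import Pool.Agent.QUT.Iso
import Pool.Agent.QUT.Csm
import Pool.Agent.QUR.Tth
import Pool.Agent.QUN.Cnl

/-!
# QUT/Ndu: nondegeneracy of mixed removals through a torso box (layer D of (Q4), NT-case, case I)

`nd_mix`: `m` a box, `w` contracted, `B` a side of `m / w` with torso box `tb (rm false w m) B C a`, `f ∈ B` deleted. If the torso box is
3-connected, `w` is in the closure of `B - f` and the torso box without `f` is rich, then the removals `(f, deletion)`, `(w, contraction)`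
of `m` are nondegenerate: otherwise `c w * d f` is a form in `V` of the torso box with `w`, it is diagonal (uniqueness), so `f` and `w` are
parallel, but `f` is no loop of the torso box. `nd_mix'` is the dual statement.
-/

set_option autoImplicit false

open QUB

namespace Pool.Agent.QU

open Pool.Agent.FRM

section

variable {E : Type} [DecidableEq E] {r : Finset E → ℤ} {q : Itv E} {B C : Finset E} {a : E}

private theorem ndu_cl (hr : QUB.Rk r) (X Z : Finset E) (h : ∀ v ∈ Z, r (insert v X) = r X) : r (X ∪ Z) = r X := by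
  induction Z using Finset.induction_on with
  | empty => simp
  | insert a Z ha ih =>
    have h1 := ih (fun v hv => h v (Finset.mem_insert_of_mem hv))
    have h2 := h a (Finset.mem_insert_self _ _)
    have h3 := hr.sub (insert a X) (X ∪ Z)
    have h4 := hr.mono X (insert a X ∩ (X ∪ Z)) (Finset.subset_inter (Finset.subset_insert _ _) Finset.subset_union_left)
    have h5 := hr.mono (X ∪ insert a Z) (insert a X ∪ (X ∪ Z)) (by
      intro s hs
      simp only [Finset.mem_union, Finset.mem_insert] at hs ⊢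
      tauto)
    have h6 := hr.mono X (X ∪ insert a Z) Finset.subset_union_left
    omega

private theorem ndu_up (hr : QUB.Rk r) (X A : Finset E) : r (X ∪ A) ≤ r X + A.card := by
  induction A using Finset.induction_on with
  | empty => simp
  | insert a A ha ih =>
    rw [Finset.union_insert, Finset.card_insert_of_notMem ha]
    have h1 := hr.unit (X ∪ A) a
    push_cast
    linarith

/-- the contracted set of a torso box can be chosen independent -/
theorem tor_basis (hr : Rk r) (h : Tor r q B C a) : ∃ C' ⊆ C, Tor r q B C' a ∧ r (q.1 ∪ C') = r q.1 + C'.card := by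
  classical
  let P : Finset E → Prop := fun C' => r (q.1 ∪ C') = r q.1 + C'.card
  have h0 : (C.powerset.filter P).Nonempty := by
    refine ⟨∅, Finset.mem_filter.2 ⟨Finset.empty_mem_powerset _, ?_⟩⟩
    show r (q.1 ∪ ∅) = r q.1 + (∅ : Finset E).card
    rw [Finset.union_empty, Finset.card_empty]
    simp
  obtain ⟨C', hC', hmax⟩ := Finset.exists_max_image _ Finset.card h0
  obtain ⟨hCC, hP⟩ := Finset.mem_filter.1 hC'
  have hCC' : C' ⊆ C := Finset.mem_powerset.1 hCC
  have hP' : r (q.1 ∪ C') = r q.1 + C'.card := hP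
  have hcl : r (q.1 ∪ C' ∪ C) = r (q.1 ∪ C') := by
    refine ndu_cl hr _ _ fun x hx => ?_
    by_cases hxC : x ∈ C'
    · rw [Finset.insert_eq_of_mem (Finset.mem_union_right _ hxC)]
    · by_contra hne
      have m1 := hr.unit (q.1 ∪ C') x
      have m2 := hr.mono _ _ (Finset.subset_insert x (q.1 ∪ C'))
      have hPi : P (insert x C') := by
        show r (q.1 ∪ insert x C') = r q.1 + (insert x C').card
        rw [Finset.union_insert, Finset.card_insert_of_notMem hxC]
        push_cast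
        omega
      have := hmax (insert x C') (Finset.mem_filter.2 ⟨Finset.mem_powerset.2 (Finset.insert_subset hx hCC'), hPi⟩)
      rw [Finset.card_insert_of_notMem hxC] at this
      omega
  have eC : q.1 ∪ C' ∪ C = q.1 ∪ C := by
    ext y
    have := @hCC' y
    simp only [Finset.mem_union]
    tauto
  rw [eC] at hcl
  have ex : ∀ Z, r (q.1 ∪ C' ∪ Z) = r (q.1 ∪ C ∪ Z) := by
    intro Z
    have m1 := hr.sub (q.1 ∪ C' ∪ Z) (q.1 ∪ C)
    have m2 := hr.mono (q.1 ∪ C') ((q.1 ∪ C' ∪ Z) ∩ (q.1 ∪ C)) (Finset.subset_inter Finset.subset_union_left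
      (Finset.union_subset_union_right hCC'))
    have m3 := hr.mono (q.1 ∪ C ∪ Z) ((q.1 ∪ C' ∪ Z) ∪ (q.1 ∪ C)) (by
      intro s hs
      simp only [Finset.mem_union] at hs ⊢
      tauto)
    have m4 := hr.mono (q.1 ∪ C' ∪ Z) (q.1 ∪ C ∪ Z) (Finset.union_subset_union_left (Finset.union_subset_union_right hCC'))
    omega
  have ea : r (insert a (q.1 ∪ C')) = r (insert a (q.1 ∪ C)) := by
    have := ex {a}
    rwa [Finset.union_comm, ← Finset.insert_eq, Finset.union_comm _ {a}, ← Finset.insert_eq] at this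
  refine ⟨C', hCC', ⟨h.hq, h.hB, hCC'.trans h.hC, h.ha, fun h' => h.haC (hCC' h'), ?_, ?_, ?_, ?_⟩, hP'⟩
  · rw [ex B]
    exact h.h1
  · rw [ea, hcl.symm.trans rfl]
    have := h.h2
    omega
  · rw [ea]
    exact h.h3
  · rw [← hcl]
    exact h.h4

/-- two torso boxes of the same side of the same box -/
theorem tor_th3 (hr : Rk r) {C' : Finset E} {a' : E} (h : Tor r q B C a) (h' : Tor r q B C' a') (h3 : Th3 r (tb q B C a)) :
    Th3 r (tb q B C' a') := by
  refine h'.th3 hr fun Z hZ hZB h2 => ?_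
  rw [← h.lam_eq hr hZ]
  refine h3 Z (by rw [h.gs_eq]; exact hZ.trans (Finset.subset_insert _ _)) h2 ?_
  rw [h.compl_B hZ]
  have h4 : (B \ Z).Nonempty := by
    rw [Finset.sdiff_nonempty]
    intro h5
    exact hZB (Finset.Subset.antisymm hZ h5)
  have h5 := h4.card_pos
  rw [Finset.card_insert_of_notMem (fun h6 => h.aB (Finset.mem_sdiff.1 h6).1)]
  omega

theorem tor_cn (hr : Rk r) {C' : Finset E} {a' : E} (h : Tor r q B C a) (h' : Tor r q B C' a') (hc : Cn r (tb q B C a)) :
    Cn r (tb q B C' a') := by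
  refine h'.cn' hr fun Z hZ hne => ?_
  rw [← h.lam_eq hr hZ]
  refine hc Z (by rw [h.gs_eq]; exact hZ.trans (Finset.subset_insert _ _)) hne ?_
  rw [h.compl_B hZ]
  exact Finset.insert_nonempty _ _

end

section

variable {K E : Type} [Field K] [Fintype E] [DecidableEq E]

/-- the form `c w * d f` -/
private def ndF (w f : E) : Fm K E :=
  LinearMap.mk₂ K (fun c d => c w * d f)
    (fun c c' d => by rw [Pi.add_apply]; ring)
    (fun k c d => by rw [Pi.smul_apply, smul_eq_mul, smul_eq_mul]; ring)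
    (fun c d d' => by rw [Pi.add_apply]; ring)
    (fun k c d => by rw [Pi.smul_apply, smul_eq_mul, smul_eq_mul]; ring)

omit [Fintype E] [DecidableEq E] in
private theorem ndF_apply (w f : E) (c d : E → K) : ndF w f c d = c w * d f := rfl

private theorem ndF_inV (S : TP K E) {m Q : Itv E} (h1 : m.1 ⊆ Q.1) (h2 : Q.2 ⊆ m.2) {w f : E} (hnd : ¬ ND S.r m f w true false) :
    InV S.U S.W Q (ndF w f : Fm K E) := by
  classical
  intro c hc d hd hz
  by_contra hne
  rw [ndF_apply] at hne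
  have hcw : c w ≠ 0 := left_ne_zero_of_mul hne
  have hdf : d f ≠ 0 := right_ne_zero_of_mul hne
  obtain ⟨D, hD⟩ : ∃ D : Finset E, ∀ x, x ∈ D ↔ d x ≠ 0 :=
    ⟨Finset.univ.filter (fun x => d x ≠ 0), fun x => by rw [Finset.mem_filter]; exact ⟨fun h => h.2, fun h => ⟨Finset.mem_univ _, h⟩⟩⟩
  have hfD : f ∈ D := (hD f).2 hdf
  refine hnd ⟨D, ?_, hfD, ?_, ?_⟩
  · intro x hx
    by_contra hx2
    exact (hD x).1 hx (hd.2 x (fun h => hx2 (h2 h)))
  · by_contra hne2
    have m1 := S.rk.mono _ _ (Finset.erase_subset f D)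
    have m2 := S.rk.unit (D.erase f) f
    rw [Finset.insert_erase hfD] at m2
    have m3 := S.spt_eq_zero (G := D) (x := f) hfD (by omega) d ⟨hd.1, fun x hx => by
      by_contra hx2
      exact hx ((hD x).2 hx2)⟩
    exact hdf m3
  · by_contra hne2
    have m1 := S.rk.unit (m.1 ∪ D) w
    have m2 := S.rk.mono _ _ (Finset.subset_insert w (m.1 ∪ D))
    have m3 := S.van_eq_zero (C := m.1 ∪ D) (x := w) (by omega) c ⟨hc.1, fun x hx => by
      rcases Finset.mem_union.1 hx with h | h
      · exact hc.2 x (h1 h)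
      · exact (mul_eq_zero.1 (hz x)).resolve_right ((hD x).1 h)⟩
    exact hcw m3

end

section

variable {E : Type} [Fintype E] [DecidableEq E]

private theorem nd_mix_core (S : TP F4 E) (hNU : NU S.r) {m : Itv E} {w f : E} (hw : w ∈ gs m) {B C : Finset E} {a : E}
    (hT : Tor S.r (rm false w m) B C a) (hCi : S.r (insert w m.1 ∪ C) = S.r (insert w m.1) + C.card)
    (h3 : Th3 S.r (tb (rm false w m) B C a)) (hc : Cn S.r (tb (rm false w m) B C a))
    (hB : 3 ≤ B.card) (hf : f ∈ B) (hwB : S.r (insert w (m.1 ∪ B)) = S.r (m.1 ∪ B)) (hw0 : S.r (insert w m.1) = S.r m.1 + 1)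
    (hfc : S.r ((m.1 ∪ B).erase f) = S.r (m.1 ∪ B)) (hR : HasRich S.r (rm true f (tb (rm false w m) B C a)))
    (hex : ∀ Q : Itv E, Q.1 ⊆ Q.2 → Sub Q m → ∃ Ts : Fm F4 E, InVs S Q Ts) : ND S.r m f w true false := by
  have hr : Rk S.r := S.rk
  by_contra hnd
  have hw' := Finset.mem_sdiff.1 hw
  have haq := hT.aq
  have hg : gs (rm false w m) = (gs m).erase w := gs_rm false w m
  have hBm : ∀ x ∈ B, x ∈ m.2 ∧ x ∉ m.1 ∧ x ≠ w := by
    intro x hx
    have h1 := hT.hB hx
    have h1' : x ∈ (gs m).erase w := by rw [← hg]; exact h1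
    have h2 := Finset.mem_erase.1 h1'
    have h4 := Finset.mem_sdiff.1 h2.2
    exact ⟨h4.1, h4.2, h2.1⟩
  have hCm : ∀ x ∈ C, x ∈ m.2 ∧ x ∉ m.1 ∧ x ≠ w ∧ x ∉ B := by
    intro x hx
    have h1 := Finset.mem_sdiff.1 (hT.hC hx)
    have h1' : x ∈ (gs m).erase w := by rw [← hg]; exact h1.1
    have h2 := Finset.mem_erase.1 h1'
    have h4 := Finset.mem_sdiff.1 h2.2
    exact ⟨h4.1, h4.2, h2.1, h1.2⟩
  have ham : a ∈ m.2 ∧ a ∉ m.1 ∧ a ≠ w ∧ a ∉ B := by
    have h1 := Finset.mem_sdiff.1 hT.ha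
    have h1' : a ∈ (gs m).erase w := by rw [← hg]; exact h1.1
    have h2 := Finset.mem_erase.1 h1'
    have h4 := Finset.mem_sdiff.1 h2.2
    exact ⟨h4.1, h4.2, h2.1, h1.2⟩
  have hm12 : m.1 ⊆ m.2 := fun x hx => hT.hq (Finset.mem_insert_of_mem hx)
  obtain ⟨Q, hQd⟩ : ∃ Q : Itv E, Q = (m.1 ∪ C, insert a (insert w (m.1 ∪ C ∪ B))) := ⟨_, rfl⟩
  have hQ1 : Q.1 = m.1 ∪ C := by rw [hQd]
  have hQ2 : Q.2 = insert a (insert w (m.1 ∪ C ∪ B)) := by rw [hQd]
  have hQ : Q.1 ⊆ Q.2 := by
    rw [hQ1, hQ2]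
    exact fun x hx => Finset.mem_insert_of_mem (Finset.mem_insert_of_mem (Finset.mem_union_left _ hx))
  have hwQ : w ∈ gs Q := by
    refine Finset.mem_sdiff.2 ⟨?_, ?_⟩
    · rw [hQ2]
      exact Finset.mem_insert_of_mem (Finset.mem_insert_self _ _)
    · rw [hQ1, Finset.mem_union]
      rintro (h | h)
      · exact hw'.2 h
      · exact (hCm w h).2.2.1 rfl
  have hQw : rm false w Q = tb (rm false w m) B C a := by
    refine Prod.ext ?_ ?_
    · show insert w Q.1 = insert w m.1 ∪ C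
      rw [hQ1, Finset.insert_union]
    · show Q.2 = insert a (insert w m.1 ∪ C ∪ B)
      rw [hQ2, Finset.insert_union, Finset.insert_union]
  have hfQ : f ∈ gs Q := by
    have hf' := hBm f hf
    refine Finset.mem_sdiff.2 ⟨?_, ?_⟩
    · rw [hQ2]
      exact Finset.mem_insert_of_mem (Finset.mem_insert_of_mem (Finset.mem_union_right _ hf))
    · rw [hQ1, Finset.mem_union]
      rintro (h | h)
      · exact hf'.2.1 h
      · exact (hCm f h).2.2.2 hf
  have hfw : f ≠ w := (hBm f hf).2.2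
  have hft : f ∈ gs (tb (rm false w m) B C a) := by
    rw [hT.gs_eq]
    exact Finset.mem_insert_of_mem hf
  have hgt : (gs (tb (rm false w m) B C a)).card = B.card + 1 := by
    rw [hT.gs_eq, Finset.card_insert_of_notMem ham.2.2.2]
  -- `w` is no loop
  have hwl : S.r (insert w Q.1) = S.r Q.1 + 1 := by
    rw [hQ1]
    have k1 := ndu_up hr m.1 C
    have k2 := hr.unit (m.1 ∪ C) w
    rw [Finset.insert_union] at hCi
    omega
  -- `w` is no coloop
  have hwc : ∀ A : Finset E, m.1 ∪ B ⊆ A → S.r (insert w A) = S.r A := by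
    intro A hA
    have k1 := QUB.marg hr hA w
    have k2 := hr.mono _ _ (Finset.subset_insert w A)
    omega
  have hwc' : ∀ A : Finset E, (m.1 ∪ B).erase f ⊆ A → S.r (insert w A) = S.r A := by
    intro A hA
    have k0 : S.r (insert w ((m.1 ∪ B).erase f)) = S.r ((m.1 ∪ B).erase f) := by
      have k1 := hr.mono (insert w ((m.1 ∪ B).erase f)) (insert w (m.1 ∪ B)) (Finset.insert_subset_insert _ (Finset.erase_subset _ _))
      have k2 := hr.mono _ _ (Finset.subset_insert w ((m.1 ∪ B).erase f))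
      omega
    have k1 := QUB.marg hr hA w
    have k2 := hr.mono _ _ (Finset.subset_insert w A)
    omega
  have hQc : Cn S.r Q := by
    refine cn_add hr hQ hwQ (s := false) ?_ ?_
    · have : QUB.rm false w Q = tb (rm false w m) B C a := hQw
      rw [this]
      exact hc
    · show 1 ≤ S.r (Q.1 ∪ {w}) + S.r (Q.2 \ {w}) - S.r Q.2 - S.r Q.1
      have e1 : Q.1 ∪ {w} = insert w Q.1 := by rw [Finset.union_comm, ← Finset.insert_eq]
      have e2 : Q.2 \ {w} = Q.2.erase w := Finset.sdiff_singleton_eq_erase w Q.2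
      have k1 := hwc (Q.2.erase w) (by
        intro x hx
        rw [hQ2]
        refine Finset.mem_erase.2 ⟨?_, ?_⟩
        · rintro rfl
          rcases Finset.mem_union.1 hx with h | h
          · exact hw'.2 h
          · exact (hBm _ h).2.2 rfl
        · refine Finset.mem_insert_of_mem (Finset.mem_insert_of_mem ?_)
          rcases Finset.mem_union.1 hx with h | h
          · exact Finset.mem_union_left _ (Finset.mem_union_left _ h)
          · exact Finset.mem_union_right _ h)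
      rw [Finset.insert_erase (Finset.mem_sdiff.1 hwQ).1] at k1
      rw [e1, e2]
      omega
  have hQo : Ok S.r Q := by
    intro A hA hl hH
    obtain ⟨⟨N, hN, hN3⟩, N', hN', hN3'⟩ := hH
    have c1 : 3 ≤ A.card := hN3.trans (Finset.card_le_card Finset.inter_subset_right)
    have c2 : 3 ≤ (gs Q \ A).card := hN3'.trans (Finset.card_le_card Finset.inter_subset_right)
    have hgQ : gs (tb (rm false w m) B C a) = (gs Q).erase w := by
      rw [← hQw]
      exact gs_rm false w Q
    -- a side without `w`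
    have key : ∀ A' : Finset E, A' ⊆ gs Q → w ∉ A' → QUB.lam S.r Q A' ≤ 1 → 3 ≤ A'.card → 3 ≤ (gs Q \ A').card → False := by
      intro A' hA' hwA hl' d1 d2
      have hA'' : A' ⊆ (gs Q).erase w := fun x hx => Finset.mem_erase.2 ⟨fun h => hwA (h ▸ hx), hA' hx⟩
      have k1 := QUB.lam_rm_le hr (t := false) hwQ hA''
      have e1 : QUB.rm false w Q = tb (rm false w m) B C a := hQw
      rw [e1] at k1
      have k2 := h3 A' (by rw [hgQ]; exact hA'') (by omega) (by
        rw [hgQ]
        have e2 : (gs Q).erase w \ A' = (gs Q \ A').erase w := by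
          ext x
          simp only [Finset.mem_sdiff, Finset.mem_erase]
          tauto
        rw [e2, Finset.card_erase_of_mem (Finset.mem_sdiff.2 ⟨hwQ, hwA⟩)]
        omega)
      have k3 : lam S.r (tb (rm false w m) B C a) A' = QUB.lam S.r (tb (rm false w m) B C a) A' := rfl
      omega
    by_cases hwA : w ∈ A
    · refine key (gs Q \ A) Finset.sdiff_subset (fun h => (Finset.mem_sdiff.1 h).2 hwA) ?_ c2 ?_
      · rw [QUB.lam_compl S.r hQ hA]
        exact hl
      · rw [Finset.sdiff_sdiff_eq_self hA]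
        exact c1
    · exact key A hA hwA hl c1 c2
  have hQs : Sub Q m := by
    refine ⟨?_, ?_⟩
    · rw [hQ1]
      exact Finset.subset_union_left
    · rw [hQ2]
      refine Finset.insert_subset ham.1 (Finset.insert_subset hw'.1 ?_)
      refine Finset.union_subset (Finset.union_subset hm12 fun x hx => (hCm x hx).1) fun x hx => (hBm x hx).1
  have hV : InV S.U S.W Q (ndF w f : Fm F4 E) := ndF_inV S hQs.1 hQs.2 hnd
  obtain ⟨Ts, hTs⟩ := hex Q hQ hQs
  obtain ⟨k, hk⟩ := uniq_f4 S hNU hQ hQc hQo hV hTs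
  -- the form vanishes on the deletion of `f`
  have hz : EqOn S.U S.W (rm true f Q) (ndF w f : Fm F4 E) 0 := by
    intro c _ d hd
    have h1 : d f = 0 := hd.2 f (Finset.notMem_erase f Q.2)
    rw [ndF_apply, h1, mul_zero, LinearMap.zero_apply, LinearMap.zero_apply]
  obtain ⟨N, hN, hNr⟩ := hR
  have hNQ : Sub N (rm true f Q) := by
    refine Sub.trans ?_ hN
    refine ⟨?_, ?_⟩
    · show Q.1 ⊆ insert w m.1 ∪ C
      rw [hQ1, Finset.insert_union]
      exact Finset.subset_insert _ _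
    · show (insert a (insert w m.1 ∪ C ∪ B)).erase f ⊆ Q.2.erase f
      rw [hQ2, Finset.insert_union, Finset.insert_union]
  have hk0 : k = 0 := by
    by_contra hne
    refine hTs.2 N ((rm_sub true f Q).trans hNQ) hNr ?_
    have h1 : EqD S.U S.W N (k • Ts) 0 := ((hk.mono ((rm_sub true f Q).trans hNQ)).symm).trans ((hz.mono hNQ).eqD)
    have h2 := h1.smul k⁻¹
    rw [smul_smul, inv_mul_cancel₀ hne, one_smul, smul_zero] at h2
    exact h2
  rw [hk0, zero_smul] at hk
  obtain ⟨l, hl⟩ := hk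
  rw [zero_add] at hl
  -- the deletion of `f` is connected and has a four point line minor
  have hQf : (rm true f Q).1 ⊆ (rm true f Q).2 := QUB.wf_rm hQ hfQ
  have hwQf : w ∈ gs (rm true f Q) := by
    rw [gs_rm]
    exact Finset.mem_erase.2 ⟨hfw.symm, hwQ⟩
  have hcf : Cn S.r (rm true f Q) := by
    refine cn_add hr hQf hwQf (s := false) ?_ ?_
    · have e1 : QUB.rm false w (rm true f Q) = QUB.rm true f (tb (rm false w m) B C a) := by
        have e2 : QUB.rm false w (rm true f Q) = QUB.rm true f (QUB.rm false w Q) := QUB.rm_comm false true Q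
        have e3 : QUB.rm false w Q = tb (rm false w m) B C a := hQw
        rw [e2, e3]
      rw [e1]
      exact th3_cn hr hT.wf hc h3 (by omega) hft true
    · show 1 ≤ S.r (Q.1 ∪ {w}) + S.r (Q.2.erase f \ {w}) - S.r (Q.2.erase f) - S.r Q.1
      have e1 : Q.1 ∪ {w} = insert w Q.1 := by rw [Finset.union_comm, ← Finset.insert_eq]
      have e2 : Q.2.erase f \ {w} = (Q.2.erase f).erase w := Finset.sdiff_singleton_eq_erase w _
      have k1 := hwc' ((Q.2.erase f).erase w) (by
        intro x hx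
        obtain ⟨hxf, hx'⟩ := Finset.mem_erase.1 hx
        refine Finset.mem_erase.2 ⟨?_, Finset.mem_erase.2 ⟨hxf, ?_⟩⟩
        · rintro rfl
          rcases Finset.mem_union.1 hx' with h | h
          · exact hw'.2 h
          · exact (hBm _ h).2.2 rfl
        · rw [hQ2]
          refine Finset.mem_insert_of_mem (Finset.mem_insert_of_mem ?_)
          rcases Finset.mem_union.1 hx' with h | h
          · exact Finset.mem_union_left _ (Finset.mem_union_left _ h)
          · exact Finset.mem_union_right _ h)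
      rw [Finset.insert_erase (Finset.mem_erase.2 ⟨hfw.symm, (Finset.mem_sdiff.1 hwQ).1⟩)] at k1
      rw [e1, e2]
      omega
  have hln : ∃ N, QUB.Ln S.r (rm true f Q) N := by
    have hne : (gs N).Nonempty := Finset.card_pos.1 (by rw [hNr.2.1]; norm_num)
    obtain ⟨x, hx⟩ := hne
    obtain ⟨N', hN', -⟩ := rich_ln hr hNr hx
    exact HasLn.mono ⟨N', hN'⟩ hNQ
  have hl0 := hom_cn S hQf hcf hln (((hl.mono (rm_sub true f Q)).symm).trans hz)
  have hlf : EqOn S.U S.W Q (ndF w f : Fm F4 E) (dg (Pi.single f (l f))) := by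
    refine hl.trans (dg_congr fun x hx => ?_)
    by_cases hxf : x = f
    · rw [hxf, Pi.single_eq_same]
    · rw [Pi.single_eq_of_ne hxf]
      refine hl0 x ?_
      rw [gs_rm]
      exact Finset.mem_erase.2 ⟨hxf, hx⟩
  -- `f` and `w` are parallel
  have hfd : S.r (Q.2.erase f) = S.r Q.2 := (cn_step hr hQc hfQ ⟨w, Finset.mem_erase.2 ⟨hfw.symm, hwQ⟩⟩).1
  obtain ⟨d, hd, hdf⟩ := S.spt_one (Finset.mem_sdiff.1 hfQ).1 hfd
  have hcf' : ∀ c ∈ van S.U Q.1, c w = l f * c f := by
    intro c hc'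
    have h1 := hlf c hc' d hd
    rw [ndF_apply, hdf, mul_one, dg_single, hdf, mul_one] at h1
    exact h1
  have hfl : S.r (insert f (insert w Q.1)) = S.r (insert w Q.1) + 1 := by
    have h1 := (cn_step hr hc hft (by
      refine Finset.card_pos.1 ?_
      rw [Finset.card_erase_of_mem hft, hgt]
      omega)).2
    rw [← hQw] at h1
    exact h1
  obtain ⟨c, hc1, hcf1⟩ := S.van_one hfl
  have hc2 : c ∈ van S.U Q.1 := van_anti (Finset.subset_insert _ _) hc1
  have h1 := hcf' c hc2
  have h2 : c w = 0 := hc1.2 w (Finset.mem_insert_self _ _)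
  rw [h2, hcf1, mul_one] at h1
  obtain ⟨c', hc3, hc4⟩ := S.van_one hwl
  have h4 := hcf' c' hc3
  rw [hc4, ← h1, zero_mul] at h4
  exact one_ne_zero h4

/-- nondegeneracy of the deletion of `f ∈ B` and the contraction of `w` -/
theorem nd_mix (S : TP F4 E) (hNU : NU S.r) {m : Itv E} {w f : E} (hw : w ∈ gs m) {B C : Finset E} {a : E}
    (hT : Tor S.r (rm false w m) B C a) (h3 : Th3 S.r (tb (rm false w m) B C a)) (hc : Cn S.r (tb (rm false w m) B C a))
    (hB : 3 ≤ B.card) (hf : f ∈ B) (hwB : S.r (insert w (m.1 ∪ B)) = S.r (m.1 ∪ B)) (hw0 : S.r (insert w m.1) = S.r m.1 + 1)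
    (hfc : S.r ((m.1 ∪ B).erase f) = S.r (m.1 ∪ B)) (hR : HasRich S.r (rm true f (tb (rm false w m) B C a)))
    (hex : ∀ Q : Itv E, Q.1 ⊆ Q.2 → Sub Q m → ∃ Ts : Fm F4 E, InVs S Q Ts) : ND S.r m f w true false := by
  obtain ⟨C', -, hT', hCi⟩ := tor_basis S.rk hT
  exact nd_mix_core S hNU hw hT' hCi (tor_th3 S.rk hT hT' h3) (tor_cn S.rk hT hT' hc) hB hf hwB hw0 hfc
    (tor_iso S.rk hT hT' (fun _ _ => rfl) (fun _ _ => rfl) hf hR) hex

/-! ## Duality -/

private theorem ndu_rdc (r : Finset E → ℤ) (Y : Finset E) :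
    QUB.rd r Yᶜ = ((Finset.univ : Finset E).card : ℤ) - Y.card + r Y - r Finset.univ := by
  unfold QUB.rd
  rw [compl_compl, Finset.card_compl, Nat.cast_sub (Finset.card_le_univ Y), Finset.card_univ]

/-- the dual of a torso box with an independent set -/
theorem tor_dual {r : Finset E → ℤ} (hr : Rk r) {q : Itv E} {B C : Finset E} {a : E} (h : Tor r q B C a)
    (hCi : r (q.1 ∪ C) = r q.1 + C.card) : Tor (QUB.rd r) (QUB.dp q) B ((gs q \ B) \ insert a C) a ∧
      tb (QUB.dp q) B ((gs q \ B) \ insert a C) a = QUB.dp (tb q B C a) := by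
  have haq := h.aq
  have hgd : gs (QUB.dp q) = gs q := QUB.gs_dp q
  have hq := h.hq
  have hCB := h.CB
  have hBq := h.Bq
  have haC := h.haC
  obtain ⟨D, hD⟩ : ∃ D : Finset E, D = (gs q \ B) \ insert a C := ⟨_, rfl⟩
  have hDm : ∀ x, x ∈ D ↔ x ∈ q.2 ∧ x ∉ q.1 ∧ x ∉ B ∧ x ≠ a ∧ x ∉ C := by
    intro x
    rw [hD]
    simp only [gs, Finset.mem_sdiff, Finset.mem_insert, not_or]
    tauto
  rw [← hD]
  -- complements
  have e1 : q.2ᶜ ∪ D = (insert a (q.1 ∪ C ∪ B))ᶜ := by
    ext x
    have k1 := hDm x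
    have k2 := @hq x
    have k3 := hCB x
    have k4 := hBq x
    by_cases hxa : x = a
    · rw [hxa] at k1 ⊢
      simp only [Finset.mem_union, Finset.mem_compl, Finset.mem_insert]
      tauto
    · simp only [Finset.mem_union, Finset.mem_compl, Finset.mem_insert]
      tauto
  have e2 : insert a (q.2ᶜ ∪ D) = (q.1 ∪ C ∪ B)ᶜ := by
    rw [e1]
    ext x
    by_cases hxa : x = a
    · rw [hxa]
      simp only [Finset.mem_union, Finset.mem_compl, Finset.mem_insert]
      tauto
    · simp only [Finset.mem_union, Finset.mem_compl, Finset.mem_insert]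
      tauto
  have e3 : q.2ᶜ ∪ D ∪ B = (insert a (q.1 ∪ C))ᶜ := by
    rw [e1]
    ext x
    have k3 := hCB x
    have k4 := hBq x
    by_cases hxa : x = a
    · rw [hxa]
      simp only [Finset.mem_union, Finset.mem_compl, Finset.mem_insert]
      tauto
    · simp only [Finset.mem_union, Finset.mem_compl, Finset.mem_insert]
      tauto
  have e4 : q.2ᶜ ∪ B = (q.1 ∪ (gs q \ B))ᶜ := by
    ext x
    have k2 := @hq x
    have k4 := hBq x
    simp only [gs, Finset.mem_union, Finset.mem_compl, Finset.mem_sdiff]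
    tauto
  have e5 : q.2ᶜ ∪ (gs q \ B) = (q.1 ∪ B)ᶜ := by
    ext x
    have k2 := @hq x
    have k4 := hBq x
    simp only [gs, Finset.mem_union, Finset.mem_compl, Finset.mem_sdiff]
    tauto
  -- cardinalities
  have n1 : (q.1 ∪ C).card = q.1.card + C.card := Finset.card_union_of_disjoint (Finset.disjoint_left.2 fun x hx hxC => (hCB x hxC).2.1 hx)
  have n2 : (q.1 ∪ C ∪ B).card = q.1.card + C.card + B.card := by
    rw [Finset.card_union_of_disjoint (Finset.disjoint_left.2 fun x hx hxB => ?_), n1]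
    rcases Finset.mem_union.1 hx with h' | h'
    · exact (hBq x hxB).2 h'
    · exact (hCB x h').2.2 hxB
  have n3 : (insert a (q.1 ∪ C)).card = q.1.card + C.card + 1 := by
    rw [Finset.card_insert_of_notMem, n1]
    rw [Finset.mem_union, not_or]
    exact ⟨haq.2.1, haC⟩
  have n4 : (insert a (q.1 ∪ C ∪ B)).card = q.1.card + C.card + B.card + 1 := by
    rw [Finset.card_insert_of_notMem, n2]
    rw [Finset.mem_union, Finset.mem_union, not_or, not_or]
    exact ⟨⟨haq.2.1, haC⟩, haq.2.2⟩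
  have n5 : (q.1 ∪ B).card = q.1.card + B.card := Finset.card_union_of_disjoint (Finset.disjoint_left.2 fun x hx hxB => (hBq x hxB).2 hx)
  have n6 : (q.1 ∪ (gs q \ B)).card = q.1.card + (gs q \ B).card := by
    refine Finset.card_union_of_disjoint (Finset.disjoint_left.2 fun x hx hxB => ?_)
    exact (Finset.mem_sdiff.1 (Finset.mem_sdiff.1 hxB).1).2 hx
  have n7 : q.2.card = q.1.card + (gs q \ B).card + B.card := by
    have k1 : q.2 = (q.1 ∪ (gs q \ B)) ∪ B := by
      ext x
      have k2 := @hq x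
      have k4 := hBq x
      simp only [gs, Finset.mem_union, Finset.mem_sdiff]
      tauto
    conv_lhs => rw [k1]
    rw [Finset.card_union_of_disjoint (Finset.disjoint_left.2 fun x hx hxB => ?_), n6]
    rcases Finset.mem_union.1 hx with h' | h'
    · exact (hBq x hxB).2 h'
    · exact (Finset.mem_sdiff.1 h').2 hxB
  have r2' : r (insert a (q.1 ∪ C ∪ B)) = r q.2 := h.r2 hr
  have t1 := h.h1
  have t2 := h.h2
  have t3 := h.h3
  have t4 := h.h4
  have g1 : (QUB.dp q).1 = q.2ᶜ := rfl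
  have g2 : (QUB.dp q).2 = q.1ᶜ := rfl
  refine ⟨⟨QUB.wf_dp hq, ?_, ?_, ?_, ?_, ?_, ?_, ?_, ?_⟩, ?_⟩
  · rw [hgd]
    exact h.hB
  · rw [hgd, hD]
    exact Finset.sdiff_subset
  · rw [hgd]
    exact h.ha
  · intro h'
    exact ((hDm a).1 h').2.2.2.1 rfl
  · rw [g1, g2, e3, ndu_rdc, ndu_rdc, n3]
    push_cast
    omega
  · rw [g1, e2, e1, ndu_rdc, ndu_rdc, n2, n4]
    push_cast
    omega
  · rw [g1, e2, hgd, e5, ndu_rdc, ndu_rdc, n2, n5]
    push_cast
    omega
  · rw [g1, g2, e4, e1, ndu_rdc, ndu_rdc, ndu_rdc, ndu_rdc, n4, n6, n7]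
    push_cast
    omega
  · refine Prod.ext ?_ ?_
    · show q.2ᶜ ∪ D = (insert a (q.1 ∪ C ∪ B))ᶜ
      exact e1
    · show insert a (q.2ᶜ ∪ D ∪ B) = (q.1 ∪ C)ᶜ
      rw [e3]
      ext x
      by_cases hxa : x = a
      · rw [hxa]
        simp only [Finset.mem_union, Finset.mem_compl, Finset.mem_insert]
        tauto
      · simp only [Finset.mem_union, Finset.mem_compl, Finset.mem_insert]
        tauto

/-- nondegeneracy of the contraction of `f ∈ B` and the deletion of `w` -/
theorem nd_mix' (S : TP F4 E) (hNU : NU S.r) {m : Itv E} {w f : E} (hw : w ∈ gs m) {B C : Finset E} {a : E}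
    (hT : Tor S.r (rm true w m) B C a) (h3 : Th3 S.r (tb (rm true w m) B C a)) (hc : Cn S.r (tb (rm true w m) B C a))
    (hB : 3 ≤ B.card) (hf : f ∈ B) (hwB : S.r (m.2 \ B) = S.r ((m.2 \ B).erase w) + 1) (hw0 : S.r (m.2.erase w) = S.r m.2)
    (hfc : S.r (insert f (m.2 \ B)) = S.r (m.2 \ B) + 1) (hR : HasRich S.r (rm false f (tb (rm true w m) B C a)))
    (hex : ∀ Q : Itv E, Q.1 ⊆ Q.2 → Sub Q m → ∃ Ts : Fm F4 E, InVs S Q Ts) : ND S.r m f w false true := by
  have hr : Rk S.r := S.rk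
  obtain ⟨C', -, hT', hCi⟩ := tor_basis hr hT
  have h3' := tor_th3 hr hT hT' h3
  have hc' := tor_cn hr hT hT' hc
  have hR' := tor_iso hr hT hT' (fun _ _ => rfl) (fun _ _ => rfl) hf hR
  obtain ⟨hTd, hTb⟩ := tor_dual hr hT' hCi
  have hw' := Finset.mem_sdiff.1 hw
  have hfm : f ∈ m.2 ∧ f ∉ m.1 ∧ f ≠ w := by
    have h1 := hT.hB hf
    have h1' : f ∈ (gs m).erase w := by
      rw [← gs_rm true w m]
      exact h1
    have h2 := Finset.mem_erase.1 h1'
    have h4 := Finset.mem_sdiff.1 h2.2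
    exact ⟨h4.1, h4.2, h2.1⟩
  have hwB' : w ∉ B := by
    intro h1
    have h2 := hT.hB h1
    rw [gs_rm] at h2
    exact (Finset.mem_erase.1 h2).1 rfl
  have eq1 : rm false w (QUB.dp m) = QUB.dp (rm true w m) := QUB.rm_dp false w m
  have hgm : gs (QUB.dp m) = gs m := QUB.gs_dp m
  have hmd : m.1 ⊆ m.2 := fun x hx => by
    have h1 := hT.hq hx
    exact Finset.mem_of_mem_erase h1
  rw [← eq1] at hTd hTb
  have key := nd_mix S.dual (nu_dual S hNU) (m := QUB.dp m) (w := w) (f := f) (by rw [hgm]; exact hw) hTd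
    (by rw [hTb]; exact th3_dual S hT'.wf h3') (by rw [hTb]; exact (QUB.cn_dp hT'.wf).2 hc') hB hf ?_ ?_ ?_ ?_ ?_
  · have h1 := nd_dual S.dual (p := QUB.dp m) (u := f) (v := w) (by
      rw [hgm]
      exact Finset.mem_sdiff.2 ⟨hfm.1, hfm.2.1⟩) (by rw [hgm]; exact hw) hfm.2.2 key
    have e2 : S.dual.dual.r = S.r := QUB.rd_rd hr
    rw [e2, QUB.dp_dp] at h1
    exact h1
  · show QUB.rd S.r (insert w (m.2ᶜ ∪ B)) = QUB.rd S.r (m.2ᶜ ∪ B)
    have e1 : m.2ᶜ ∪ B = (m.2 \ B)ᶜ := by
      ext x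
      simp only [Finset.mem_union, Finset.mem_compl, Finset.mem_sdiff]
      tauto
    have hwm : w ∈ m.2 \ B := Finset.mem_sdiff.2 ⟨hw'.1, hwB'⟩
    have e2 : insert w (m.2 \ B)ᶜ = ((m.2 \ B).erase w)ᶜ := by
      ext x
      simp only [Finset.mem_insert, Finset.mem_compl, Finset.mem_erase]
      tauto
    have n1 := Finset.card_erase_add_one hwm
    rw [e1, e2, ndu_rdc, ndu_rdc]
    have n2 : (((m.2 \ B).erase w).card : ℤ) + 1 = (m.2 \ B).card := by exact_mod_cast n1
    omega
  · show QUB.rd S.r (insert w m.2ᶜ) = QUB.rd S.r m.2ᶜ + 1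
    have e2 : insert w m.2ᶜ = (m.2.erase w)ᶜ := by
      ext x
      simp only [Finset.mem_insert, Finset.mem_compl, Finset.mem_erase]
      tauto
    have n1 := Finset.card_erase_add_one hw'.1
    have n2 : ((m.2.erase w).card : ℤ) + 1 = m.2.card := by exact_mod_cast n1
    rw [e2, ndu_rdc, ndu_rdc]
    omega
  · show QUB.rd S.r ((m.2ᶜ ∪ B).erase f) = QUB.rd S.r (m.2ᶜ ∪ B)
    have e1 : m.2ᶜ ∪ B = (m.2 \ B)ᶜ := by
      ext x
      simp only [Finset.mem_union, Finset.mem_compl, Finset.mem_sdiff]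
      tauto
    have hfn : f ∉ m.2 \ B := fun h => (Finset.mem_sdiff.1 h).2 hf
    have e2 : ((m.2 \ B)ᶜ).erase f = (insert f (m.2 \ B))ᶜ := by
      ext x
      simp only [Finset.mem_insert, Finset.mem_compl, Finset.mem_erase]
      tauto
    have n1 := Finset.card_insert_of_notMem hfn
    have n2 : ((insert f (m.2 \ B)).card : ℤ) = (m.2 \ B).card + 1 := by exact_mod_cast n1
    rw [e1, e2, ndu_rdc, ndu_rdc]
    omega
  · rw [hTb]
    have e1 : rm true f (QUB.dp (tb (rm true w m) B C' a)) = QUB.dp (rm false f (tb (rm true w m) B C' a)) := QUB.rm_dp true f _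
    rw [e1]
    exact (hasRich_dual S).2 hR'
  · intro Q hQ hQs
    obtain ⟨Ts, hTs⟩ := hex (QUB.dp Q) (QUB.wf_dp hQ) (by
      have h1 : Sub (QUB.dp Q) (QUB.dp (QUB.dp m)) := ⟨Finset.compl_subset_compl.2 hQs.2, Finset.compl_subset_compl.2 hQs.1⟩
      rwa [QUB.dp_dp] at h1)
    refine ⟨LinearMap.flip Ts, ?_⟩
    have h1 := (inVs_dual S).2 hTs
    rwa [QUB.dp_dp] at h1

end

end Pool.Agent.QU
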