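import Pool.Agent.QUT.CaseC
import Pool.Agent.QUT.Ndu

/-!
# QUT/CaseI: no triangles, no triads, and some single removal is not 3-connected
-/

set_option autoImplicit false

open QUB

namespace Pool.Agent.QU

open Pool.Agent.FRM

section

variable {E : Type} [Fintype E] [DecidableEq E]
variable {S : TP F4 E} {p : Itv E} {w w2 : E} {s s2 : Bool} {X X2 : Finset E}

/-- the mixed nondegeneracy -/
theorem Tw.mix (h : Cs S p) (tw : Tw S.r p w s X w2 s2 X2) {C : Finset E} {a : E}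
    (T : Tor S.r (QUB.rm s2 w2 p) X2 C a) {f : E} {t : Bool} (hf : f ∈ X2)
    (hR : HasRich S.r (rm t f (tb (QUB.rm s2 w2 p) X2 C a))) {y z : E} (hy : y ∈ X) (hz : z ∈ X) (hyz : y ≠ z) (hts : t ≠ s2) :
    ND S.r (rm true y (rm false z p)) f w2 t s2 := by
  have hr : Rk S.r := S.rk
  have hn := h.hn
  have ci := tw.ci h
  obtain ⟨C', a', T', h3', hc', hR'⟩ := ci_tor2 S ci T tw.min2' hf hR hy hz hyz
  have hyp := ci.hX hy
  have hzp := ci.hX hz
  have hyw : y ≠ w2 := fun h' => tw.w2X (h' ▸ hy)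
  have hzw : z ≠ w2 := fun h' => tw.w2X (h' ▸ hz)
  have hfp := (Finset.mem_erase.1 (tw.ts2.1 hf)).2
  have hfw2 := (Finset.mem_erase.1 (tw.ts2.1 hf)).1
  have hyB : y ∉ X2 := fun h' => Finset.disjoint_left.1 tw.hd h' hy
  have hzB : z ∉ X2 := fun h' => Finset.disjoint_left.1 tw.hd h' hz
  have hB4 := ts_four hr h.nt tw.hw2 tw.ts2
  have gm : gs (rm true y (rm false z p)) = ((gs p).erase z).erase y := by rw [gs_rm, gs_rm]
  have hwm : w2 ∈ gs (rm true y (rm false z p)) := by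
    rw [gm]
    exact Finset.mem_erase.2 ⟨hyw.symm, Finset.mem_erase.2 ⟨hzw.symm, tw.hw2⟩⟩
  have hex : ∀ Q : Itv E, Q.1 ⊆ Q.2 → Sub Q (rm true y (rm false z p)) → ∃ Ts, InVs S Q Ts := by
    intro Q hQ hQm
    refine h.ih Q hQ ((rm_sub false z p).trans ((rm_sub true y _).trans hQm)) ?_
    have h1 : gs Q ⊆ (gs p).erase z := fun v hv => by
      have h2 := Finset.mem_sdiff.1 hv
      have h3 : v ∈ gs (rm true y (rm false z p)) := Finset.mem_sdiff.2 ⟨hQm.2 h2.1, fun h' => h2.2 (hQm.1 h')⟩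
      rw [gm] at h3
      exact (Finset.mem_erase.1 h3).2
    have h2 := Finset.card_le_card h1
    rw [Finset.card_erase_of_mem hzp] at h2
    omega
  have hX2p : X2 ⊆ gs p := tw.ts2.1.trans (Finset.erase_subset _ _)
  have hX2' : ∀ v ∈ X2, v ∈ p.2 ∧ v ∉ p.1 := fun v hv => Finset.mem_sdiff.1 (hX2p hv)
  -- the other side
  have hc2 := tw.ts2.2.2.1
  have hM : 2 ≤ QUB.lam S.r p X2 := by
    refine h.h3 X2 hX2p (by omega) (hc2.trans (Finset.card_le_card (Finset.sdiff_subset_sdiff (Finset.erase_subset _ _) (Finset.Subset.refl _))))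
  have hMf : 2 ≤ QUB.lam S.r (QUB.rm t f p) (X2.erase f) := by
    refine tw.th2 f hf t (X2.erase f) ?_ ?_ ?_
    · rw [show gs (QUB.rm t f p) = (gs p).erase f from QUB.gs_rm t f p]
      exact Finset.erase_subset_erase _ hX2p
    · rw [Finset.card_erase_of_mem hf]
      omega
    · rw [show gs (QUB.rm t f p) = (gs p).erase f from QUB.gs_rm t f p]
      refine hc2.trans (Finset.card_le_card fun v hv => ?_)
      have h1 := Finset.mem_sdiff.1 hv
      exact Finset.mem_sdiff.2 ⟨Finset.mem_erase.2 ⟨fun h' => h1.2 (h' ▸ hf), (Finset.mem_erase.1 h1.1).2⟩,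
        fun h' => h1.2 (Finset.mem_erase.1 h').2⟩
  have hl := tw.ts2.2.2.2
  have hw2p := Finset.mem_sdiff.1 tw.hw2
  have hw2X : w2 ∉ X2 := fun h' => (Finset.mem_erase.1 (tw.ts2.1 h')).1 rfl
  have hfp' := Finset.mem_sdiff.1 hfp
  have hzp' := Finset.mem_sdiff.1 hzp
  have hyp' := Finset.mem_sdiff.1 hyp
  cases s2
  · -- `w2` contracted, `f` deleted
    have ht : t = true := by
      cases t
      · exact absurd rfl hts
      · rfl
    subst ht
    have k := h.nt.ins hr hfp tw.hw2 hzp hfw2 (fun h' => hzB (h' ▸ hf)) hzw.symm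
    have l1 : S.r (insert w2 p.1 ∪ X2) + S.r (p.2 \ X2) - S.r p.2 - S.r (insert w2 p.1) ≤ 1 := hl
    have l2 : 2 ≤ S.r (p.1 ∪ X2) + S.r (p.2 \ X2) - S.r p.2 - S.r p.1 := hM
    have l3 : 2 ≤ S.r (p.1 ∪ X2.erase f) + S.r (p.2.erase f \ X2.erase f) - S.r (p.2.erase f) - S.r p.1 := hMf
    have e1 : p.2.erase f \ X2.erase f = p.2 \ X2 := by
      ext v
      by_cases hvf : v = f
      · rw [hvf]
        simp only [Finset.mem_sdiff, Finset.mem_erase]
        tauto
      · simp only [Finset.mem_sdiff, Finset.mem_erase]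
        tauto
    rw [e1] at l3
    have k' := h.nt.del hr tw.hw2 hzp hfp hzw.symm hfw2.symm (fun h' => hzB (h' ▸ hf))
    have k4 := h.nt.ins hr hfp hzp tw.hw2 (fun h' => hzB (h' ▸ hf)) hfw2 hzw
    have e2 : insert w2 p.1 ∪ X2 = insert w2 (p.1 ∪ X2) := Finset.insert_union _ _ _
    rw [e2] at l1
    have m1 := hr.mono _ _ (Finset.subset_insert w2 (p.1 ∪ X2))
    have m2 := hr.mono _ _ (Finset.union_subset_union_right (s := p.1) (Finset.erase_subset f X2))
    have u1 : S.r (insert w2 (p.1 ∪ X2)) = S.r (p.1 ∪ X2) := by omega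
    have u2 : S.r (p.1 ∪ X2.erase f) = S.r (p.1 ∪ X2) := by omega
    refine nd_mix S h.nu hwm T' h3' hc' (by omega) hf ?_ ?_ ?_ hR' hex
    · show S.r (insert w2 (insert z p.1 ∪ X2)) = S.r (insert z p.1 ∪ X2)
      have h1 := hr.sub (insert w2 (p.1 ∪ X2)) (insert z p.1 ∪ X2)
      have h2 := hr.mono (p.1 ∪ X2) (insert w2 (p.1 ∪ X2) ∩ (insert z p.1 ∪ X2)) (by
        intro v hv
        simp only [Finset.mem_inter, Finset.mem_insert, Finset.mem_union] at *
        tauto)
      have h3 := hr.mono (insert w2 (insert z p.1 ∪ X2)) (insert w2 (p.1 ∪ X2) ∪ (insert z p.1 ∪ X2)) (by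
        intro v hv
        simp only [Finset.mem_insert, Finset.mem_union] at *
        tauto)
      have h4 := hr.mono _ _ (Finset.subset_insert w2 (insert z p.1 ∪ X2))
      omega
    · show S.r (insert w2 (insert z p.1)) = S.r (insert z p.1) + 1
      omega
    · show S.r ((insert z p.1 ∪ X2).erase f) = S.r (insert z p.1 ∪ X2)
      have h1 := hr.sub (p.1 ∪ X2) ((insert z p.1 ∪ X2).erase f)
      have h2 := hr.mono (p.1 ∪ X2.erase f) ((p.1 ∪ X2) ∩ ((insert z p.1 ∪ X2).erase f)) (by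
        intro v hv
        have h5 : f ∉ p.1 := hfp'.2
        have h6 : v = f → v ∉ p.1 := fun h' => h' ▸ h5
        simp only [Finset.mem_inter, Finset.mem_insert, Finset.mem_union, Finset.mem_erase] at *
        tauto)
      have h3 := hr.mono (insert z p.1 ∪ X2) ((p.1 ∪ X2) ∪ ((insert z p.1 ∪ X2).erase f)) (by
        intro v hv
        by_cases hvf : v = f
        · rw [hvf]
          exact Finset.mem_union_left _ (Finset.mem_union_right _ hf)
        · exact Finset.mem_union_right _ (Finset.mem_erase.2 ⟨hvf, hv⟩))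
      have h4 := hr.mono _ _ (Finset.erase_subset f (insert z p.1 ∪ X2))
      omega
  · -- `w2` deleted, `f` contracted
    have ht : t = false := by
      cases t
      · rfl
      · exact absurd rfl hts
    subst ht
    have l1 : S.r (p.1 ∪ X2) + S.r (p.2.erase w2 \ X2) - S.r (p.2.erase w2) - S.r p.1 ≤ 1 := hl
    have l2 : 2 ≤ S.r (p.1 ∪ X2) + S.r (p.2 \ X2) - S.r p.2 - S.r p.1 := hM
    have l3 : 2 ≤ S.r (insert f p.1 ∪ X2.erase f) + S.r (p.2 \ X2.erase f) - S.r p.2 - S.r (insert f p.1) := hMf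
    have e1 : insert f p.1 ∪ X2.erase f = p.1 ∪ X2 := by
      ext v
      by_cases hvf : v = f
      · rw [hvf]
        simp only [Finset.mem_union, Finset.mem_insert, Finset.mem_erase]
        tauto
      · simp only [Finset.mem_union, Finset.mem_insert, Finset.mem_erase]
        tauto
    have e2 : p.2 \ X2.erase f = insert f (p.2 \ X2) := by
      ext v
      by_cases hvf : v = f
      · rw [hvf]
        simp only [Finset.mem_sdiff, Finset.mem_insert, Finset.mem_erase]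
        tauto
      · simp only [Finset.mem_sdiff, Finset.mem_insert, Finset.mem_erase]
        tauto
    have e3 : p.2.erase w2 \ X2 = (p.2 \ X2).erase w2 := by
      ext v
      simp only [Finset.mem_sdiff, Finset.mem_erase]
      tauto
    rw [e1, e2] at l3
    rw [e3] at l1
    have k := h.nt.del hr hfp hyp tw.hw2 (fun h' => hyB (h' ▸ hf)) hfw2 hyw
    have k2 := h.nt.del hr hfp tw.hw2 hyp hfw2 (fun h' => hyB (h' ▸ hf)) hyw.symm
    have k' := h.nt.ins hr hyp tw.hw2 hfp hyw (fun h' => hyB (h' ▸ hf)) hfw2.symm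
    have m1 := hr.mono _ _ (Finset.erase_subset w2 (p.2 \ X2))
    have m2 := hr.unit (p.2 \ X2) f
    have m3 := hr.unit ((p.2 \ X2).erase w2) w2
    have e4 : insert w2 ((p.2 \ X2).erase w2) = p.2 \ X2 := Finset.insert_erase (Finset.mem_sdiff.2 ⟨hw2p.1, hw2X⟩)
    rw [e4] at m3
    have u1 : S.r (p.2 \ X2) = S.r ((p.2 \ X2).erase w2) + 1 := by omega
    have u2 : S.r (insert f (p.2 \ X2)) = S.r (p.2 \ X2) + 1 := by omega
    refine nd_mix' S h.nu hwm T' h3' hc' (by omega) hf ?_ ?_ ?_ hR' hex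
    · show S.r (p.2.erase y \ X2) = S.r ((p.2.erase y \ X2).erase w2) + 1
      have h1 := hr.sub ((p.2 \ X2).erase w2) (p.2.erase y \ X2)
      have h2 := hr.mono ((p.2.erase y \ X2).erase w2) (((p.2 \ X2).erase w2) ∩ (p.2.erase y \ X2)) (by
        intro v hv
        simp only [Finset.mem_inter, Finset.mem_erase, Finset.mem_sdiff] at *
        tauto)
      have h3 := hr.mono (p.2 \ X2) (((p.2 \ X2).erase w2) ∪ (p.2.erase y \ X2)) (by
        intro v hv
        by_cases hvw : v = w2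
        · rw [hvw]
          exact Finset.mem_union_right _ (Finset.mem_sdiff.2 ⟨Finset.mem_erase.2 ⟨hyw.symm, hw2p.1⟩, hw2X⟩)
        · exact Finset.mem_union_left _ (Finset.mem_erase.2 ⟨hvw, hv⟩))
      have h4 := hr.unit ((p.2.erase y \ X2).erase w2) w2
      have e5 : insert w2 ((p.2.erase y \ X2).erase w2) = p.2.erase y \ X2 :=
        Finset.insert_erase (Finset.mem_sdiff.2 ⟨Finset.mem_erase.2 ⟨hyw.symm, hw2p.1⟩, hw2X⟩)
      rw [e5] at h4
      omega
    · show S.r ((p.2.erase y).erase w2) = S.r (p.2.erase y)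
      have e5 : (p.2.erase y).erase w2 = (p.2.erase w2).erase y := Finset.erase_right_comm
      rw [e5]
      omega
    · show S.r (insert f (p.2.erase y \ X2)) = S.r (p.2.erase y \ X2) + 1
      have h1 := hr.sub (p.2 \ X2) (insert f (p.2.erase y \ X2))
      have h2 := hr.mono (p.2.erase y \ X2) ((p.2 \ X2) ∩ (insert f (p.2.erase y \ X2))) (by
        intro v hv
        simp only [Finset.mem_inter, Finset.mem_erase, Finset.mem_sdiff, Finset.mem_insert] at *
        tauto)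
      have h3 := hr.mono (insert f (p.2 \ X2)) ((p.2 \ X2) ∪ (insert f (p.2.erase y \ X2))) (by
        intro v hv
        simp only [Finset.mem_union, Finset.mem_erase, Finset.mem_sdiff, Finset.mem_insert] at *
        tauto)
      have h4 := hr.unit (p.2.erase y \ X2) f
      omega

/-- **NT case I** -/
theorem case_one (h : Cs S p)
    (hqq : ∀ (s : Bool) (w : E) (X Y : Finset E), w ∈ gs p → X ⊆ gs p → Y ⊆ gs p → X.card = 4 → Y.card = 4 → Disjoint X Y →
      w ∉ X → w ∉ Y → QUB.lam S.r (QUB.rm s w p) Y ≤ 1 → QUB.lam S.r p X ≤ 2 → False)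
    (hcase : ∃ v ∈ gs p, ∃ (t : Bool) (Z : Finset E), TS S.r p v t Z) :
    ∃ T : Fm F4 E, InV S.U S.W p T ∧ ¬ EqD S.U S.W p T 0 := by
  have hr : Rk S.r := S.rk
  have hn := h.hn
  obtain ⟨w, s, X, w2, s2, X2, tw⟩ := tw_ex hr h.hp h.hC h.h3 h.nt h.hn hcase
  have hX4 := ts_four hr h.nt tw.hw tw.ts
  have hX24 := ts_four hr h.nt tw.hw2 tw.ts2
  have hle := tw.min w2 tw.hw2 s2 X2 tw.ts2
  -- the second side has at least five elements
  have h5 : 5 ≤ X2.card := by
    by_contra hcon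
    refine hqq s2 w2 X X2 tw.hw2 (tw.ts.1.trans (Finset.erase_subset _ _)) (tw.ts2.1.trans (Finset.erase_subset _ _)) (by omega)
      (by omega) tw.hd.symm tw.w2X (fun h' => (Finset.mem_erase.1 (tw.ts2.1 h')).1 rfl) tw.ts2.2.2.2 ?_
    have h1 := lam_le_rm hr (t := s) tw.hw tw.ts.1
    have h2 := tw.ts.2.2.2
    omega
  -- the torso
  have hwf : (QUB.rm s2 w2 p).1 ⊆ (QUB.rm s2 w2 p).2 := QUB.wf_rm h.hp tw.hw2
  have gq : gs (QUB.rm s2 w2 p) = (gs p).erase w2 := QUB.gs_rm s2 w2 p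
  have hXq : X2 ⊆ gs (QUB.rm s2 w2 p) := by
    rw [gq]
    exact tw.ts2.1
  have hcq : Cn S.r (QUB.rm s2 w2 p) := th3_cn hr h.hp h.hC h.h3 (by omega) tw.hw2 s2
  have l1 : 1 ≤ QUB.lam S.r (QUB.rm s2 w2 p) X2 := by
    refine hcq X2 hXq (Finset.card_pos.1 (by omega)) (Finset.card_pos.1 ?_)
    rw [gq]
    have := tw.ts2.2.2.1
    omega
  obtain ⟨C, a, T⟩ := tor_ex hr hwf hXq l1 tw.ts2.2.2.2
  have h3t : Th3 S.r (tb (QUB.rm s2 w2 p) X2 C a) := T.th3 hr tw.min2'
  have hct : Cn S.r (tb (QUB.rm s2 w2 p) X2 C a) := T.cn hr hcq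
  have gt : gs (tb (QUB.rm s2 w2 p) X2 C a) = insert a X2 := T.gs_eq
  have ct : (gs (tb (QUB.rm s2 w2 p) X2 C a)).card = X2.card + 1 := by
    rw [gt, Finset.card_insert_of_notMem T.aB]
  have hmem : ∀ f ∈ gs (tb (QUB.rm s2 w2 p) X2 C a), f ≠ a → f ∈ X2 := by
    intro f hf hfa
    rw [gt] at hf
    rcases Finset.mem_insert.1 hf with h' | h'
    · exact absurd h' hfa
    · exact h'
  by_cases hRt : HasRich S.r (tb (QUB.rm s2 w2 p) X2 C a)
  · obtain ⟨f, hf, hfa, t, hRf, hg⟩ := csm_rich S h.nu T.wf hct h3t (by omega) hRt a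
    have hfX := hmem f hf hfa
    refine tw.fin h T h3t hfX hg (hasRich_mono ?_ hRf) fun hts y hy z hz hyz => tw.mix h T hfX hRf hy hz hyz hts
    exact ((rm_sub s2 w2 p).trans T.sub).rm t f
  · have h6 : 6 ≤ X2.card := by
      by_contra hcon
      exact hRt (small_rich hr h.hp h.nt.t3 h.nt.d3 tw.hw2 T h3t hX24 (by omega))
    obtain ⟨f, hfX, hg⟩ : ∃ f ∈ X2, Rg S s2 f (tb (QUB.rm s2 w2 p) X2 C a) := by
      by_cases hL : HasLn S.r (tb (QUB.rm s2 w2 p) X2 C a)
      · obtain ⟨f, hf, hfa, -, hg⟩ := csm_ln S h.nu T.wf hct h3t (by omega) hL hRt (a := a) (by rw [gt]; exact Finset.mem_insert_self _ _) s2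
        exact ⟨f, hmem f hf hfa, hg⟩
      · obtain ⟨f, hf⟩ : X2.Nonempty := Finset.card_pos.1 (by omega)
        have hft : f ∈ gs (tb (QUB.rm s2 w2 p) X2 C a) := by
          rw [gt]
          exact Finset.mem_insert_of_mem hf
        exact ⟨f, hf, csm_bin S T.wf (fun N hN => hL ⟨N, hN⟩) hft (th3_cn hr T.wf hct h3t (by omega) hft s2)⟩
    exact tw.fin h T h3t hfX hg (tw.rich h T h3t hfX hg) fun hts => absurd rfl hts

end

end Pool.Agent.QU
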