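import Pool.Agent.QUT.Flt

/-!
# QUT/Flu: a rich flat of corank two with nullity one or two, the choice of the elements
-/

set_option autoImplicit false

open QUB

namespace Pool.Agent.QU

open Pool.Agent.FRM

variable {E : Type} [Fintype E] [DecidableEq E] {S : TP F4 E} {p : Itv E}

/-- **nullity one or two** -/
theorem flt_two (h : Cu S p) {W : Finset E} {P : Fin 5 → Finset E} (hF : Fan S.r p W P)
    (hν1 : S.r W + 1 ≤ S.r p.1 + ((W \ p.1).card : ℤ)) (hν2 : ((W \ p.1).card : ℤ) ≤ S.r W - S.r p.1 + 2) :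
    ∃ T : Fm F4 E, InV S.U S.W p T ∧ ¬ EqD S.U S.W p T 0 := by
  classical
  have hr : Rk S.r := S.rk
  have hn := h.hn
  have h4 := ncl_four hr h.nt (by omega) hF hν1
  have hNs : ((W \ p.1).filter fun x => S.r (W.erase x) = S.r W) ⊆ W \ p.1 := Finset.filter_subset _ _
  have gd : ∀ {x : E}, x ∈ (W \ p.1).filter (fun x => S.r (W.erase x) = S.r W) → Gd S.r p W P x := by
    intro x hx
    have h1 := Finset.mem_filter.1 hx
    have h2 := Finset.mem_sdiff.1 h1.1
    refine ⟨Finset.mem_sdiff.2 ⟨hF.hW2 h2.1, h2.2⟩, h1.2, ?_, fun j => ?_⟩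
    · have h3 := Finset.card_erase_add_one h1.1
      rw [h1.2]
      omega
    · obtain ⟨v, hv⟩ := hF.ne j
      exact ⟨v, hv, fun h' => Finset.disjoint_left.1 (hF.dW j) hv (h' ▸ h2.1)⟩
  obtain ⟨N4, hN4, hN4c⟩ := Finset.exists_subset_card_eq h4
  obtain ⟨x1, N3, hx1, hN3, hN3c⟩ := Finset.card_eq_succ.1 hN4c
  obtain ⟨x2, x3, x4, h23, h24, h34, rfl⟩ := Finset.card_eq_three.1 hN3c
  have m1 := hN4 (hN3 ▸ Finset.mem_insert_self x1 _)
  have m2 : x2 ∈ (W \ p.1).filter fun x => S.r (W.erase x) = S.r W := hN4 (hN3 ▸ Finset.mem_insert_of_mem (by simp))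
  have m3 : x3 ∈ (W \ p.1).filter fun x => S.r (W.erase x) = S.r W := hN4 (hN3 ▸ Finset.mem_insert_of_mem (by simp))
  have m4 : x4 ∈ (W \ p.1).filter fun x => S.r (W.erase x) = S.r W := hN4 (hN3 ▸ Finset.mem_insert_of_mem (by simp))
  have h12 : x1 ≠ x2 := fun h' => hx1 (by rw [h']; simp)
  have h13 : x1 ≠ x3 := fun h' => hx1 (by rw [h']; simp)
  have h14 : x1 ≠ x4 := fun h' => hx1 (by rw [h']; simp)
  by_cases h5 : 5 ≤ (W \ p.1).card
  · -- a fifth element
    obtain ⟨x5, hx5, hx5n⟩ : ∃ x5 ∈ W \ p.1, x5 ∉ ({x1, x2, x3, x4} : Finset E) := by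
      by_contra hcon
      push Not at hcon
      have h6 := Finset.card_le_card (show W \ p.1 ⊆ {x1, x2, x3, x4} from hcon)
      have h7 : ({x1, x2, x3, x4} : Finset E).card ≤ 4 := Finset.card_le_four
      omega
    simp only [Finset.mem_insert, Finset.mem_singleton, not_or] at hx5n
    exact flt_core h hF (c1 := x5) (c2 := x4) (k1 := x1) (k2 := x2) (e := x3) hx5 (hNs m4) (hNs m3) (gd m3) (gd m1) (gd m2)
      hx5n.2.2.2 hx5n.2.2.1 h34.symm hx5n.1 hx5n.2.1 h14.symm h24.symm h12 h13 h23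
  · -- `W` is a 4-circuit; an element of a class with two elements
    have hc4 : (W \ p.1).card = 4 := by
      have := (Finset.card_le_card hN4).trans (Finset.card_le_card hNs)
      omega
    obtain ⟨j, hj⟩ : ∃ j, 2 ≤ (P j).card := by
      by_contra hcon
      push Not at hcon
      have h6 : gs p ⊆ (W \ p.1) ∪ Finset.univ.biUnion P := by
        intro v hv
        have h7 := Finset.mem_sdiff.1 hv
        by_cases h8 : v ∈ W
        · exact Finset.mem_union_left _ (Finset.mem_sdiff.2 ⟨h8, h7.2⟩)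
        · obtain ⟨k, hk⟩ := hF.cls h7.1 h8
          exact Finset.mem_union_right _ (Finset.mem_biUnion.2 ⟨k, Finset.mem_univ k, hk⟩)
      have h7 := Finset.card_le_card h6
      have h8 := Finset.card_union_le (W \ p.1) (Finset.univ.biUnion P)
      have h9 : (Finset.univ.biUnion P).card ≤ ∑ k : Fin 5, (P k).card := Finset.card_biUnion_le
      have h10 : ∑ k : Fin 5, (P k).card ≤ ∑ _k : Fin 5, 1 := Finset.sum_le_sum fun k _ => by have := hcon k; omega
      simp only [Finset.sum_const, Finset.card_univ, Fintype.card_fin, smul_eq_mul] at h10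
      omega
    obtain ⟨y, hy, y', hy', hyy⟩ := Finset.one_lt_card.1 (show 1 < (P j).card by omega)
    have hyW : y ∉ W := fun h' => Finset.disjoint_left.1 (hF.dW j) hy h'
    have eW : W.erase y = W := Finset.erase_eq_of_notMem hyW
    have eF : (W \ p.1).erase y = W \ p.1 := Finset.erase_eq_of_notMem fun h' => hyW (Finset.mem_sdiff.1 h').1
    have gy : Gd S.r p W P y := by
      refine ⟨Finset.mem_sdiff.2 ⟨hF.hP2 j hy, fun h' => hyW (hF.h1 h')⟩, by rw [eW], ?_, fun k => ?_⟩
      · rw [eF, eW, hc4]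
        have h6 := h.nt.t3 {x1, x2, x3} (by
          intro v hv
          simp only [Finset.mem_insert, Finset.mem_singleton] at hv
          rcases hv with rfl | rfl | rfl
          · exact (gd m1).mem
          · exact (gd m2).mem
          · exact (gd m3).mem) (Finset.card_eq_three.2 ⟨x1, x2, x3, h12, h13, h23, rfl⟩)
        have h7 := hr.mono (p.1 ∪ {x1, x2, x3}) W (by
          refine Finset.union_subset hF.h1 fun v hv => ?_
          simp only [Finset.mem_insert, Finset.mem_singleton] at hv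
          rcases hv with rfl | rfl | rfl
          · exact (Finset.mem_sdiff.1 (hNs m1)).1
          · exact (Finset.mem_sdiff.1 (hNs m2)).1
          · exact (Finset.mem_sdiff.1 (hNs m3)).1)
        push_cast
        omega
      · by_cases hkj : k = j
        · exact ⟨y', hkj ▸ hy', hyy.symm⟩
        · obtain ⟨v, hv⟩ := hF.ne k
          exact ⟨v, hv, fun h' => Finset.disjoint_left.1 (hF.dP k j hkj) hv (h' ▸ hy)⟩
    have hyx : ∀ {x : E}, x ∈ (W \ p.1).filter (fun x => S.r (W.erase x) = S.r W) → x ≠ y := fun hx h' =>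
      hyW (h' ▸ (Finset.mem_sdiff.1 (hNs hx)).1)
    exact flt_core h hF (c1 := x1) (c2 := x2) (k1 := x4) (k2 := y) (e := x3) (hNs m1) (hNs m2) (hNs m3) (gd m3) (gd m4) gy
      h12 h13 h23 h14 (hyx m1) h24 (hyx m2) (hyx m4) h34.symm (hyx m3).symm

end Pool.Agent.QU
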