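import Pool.Agent.QUT.Fonv
import Pool.Agent.QUT.Flt

/-!
# QUT/Lem: every circuit contains an element whose deletion is 3-connected (no triads)
-/

set_option autoImplicit false

open QUB

namespace Pool.Agent.QU

variable {E : Type} [DecidableEq E] {r : Finset E → ℤ} {q : Itv E}

/-- in a 3-connected box without triads a circuit contains an element with 3-connected deletion -/
theorem lemos (hr : Rk r) (hq : q.1 ⊆ q.2) (hc : Cn r q) (h3 : Th3 r q) (hn : 4 ≤ (gs q).card)
    (hH : ∀ v ∈ gs q, ∀ Z, TS r q v true Z → 3 ≤ Z.card) {K : Finset E} (hK : K ⊆ gs q) (hne : K.Nonempty)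
    (hcirc : ∀ e ∈ K, r (q.1 ∪ K.erase e) = r (q.1 ∪ K)) : ∃ e ∈ K, Th3 r (QUB.rm true e q) := by
  classical
  by_contra hcon
  push Not at hcon
  have hts : ∀ e ∈ K, ∃ Z, TS r q e true Z := by
    intro e he
    have h1 := hcon e he
    unfold Th3 at h1
    push Not at h1
    obtain ⟨A, hA, hA2, hB2, hl⟩ := h1
    have g1 : gs (QUB.rm true e q) = (gs q).erase e := QUB.gs_rm true e q
    rw [g1] at hA hB2
    refine ⟨A, hA, hA2, hB2, ?_⟩
    have : lam r (QUB.rm true e q) A = QUB.lam r (QUB.rm true e q) A := rfl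
    omega
  have h' : ∃ n : ℕ, ∃ w ∈ K, ∃ Z : Finset E, TS r q w true Z ∧ Z.card = n := by
    obtain ⟨e, he⟩ := hne
    obtain ⟨Z, hZ⟩ := hts e he
    exact ⟨Z.card, e, he, Z, hZ, rfl⟩
  obtain ⟨w, hw, X, hX, hXc⟩ := Nat.find_spec h'
  have hmin : ∀ v ∈ K, ∀ Z, TS r q v true Z → X.card ≤ Z.card := fun v hv Z hZ => by
    rw [hXc]
    exact Nat.find_min' h' ⟨v, hv, Z, hZ, rfl⟩
  have hwq := hK hw
  have hw' := Finset.mem_sdiff.1 hwq
  -- an element of `K` in `X`
  obtain ⟨e, heK, heX⟩ : ∃ e ∈ K, e ∈ X := by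
    by_contra hno
    push Not at hno
    have hl : r (q.1 ∪ X) + r (q.2.erase w \ X) - r (q.2.erase w) - r q.1 ≤ 1 := hX.2.2.2
    have hwX : w ∉ X := hno w hw
    have hXq : X ⊆ gs q := hX.1.trans (Finset.erase_subset _ _)
    have s1 : q.1 ∪ K.erase w ⊆ q.2.erase w \ X := by
      intro v hv
      rcases Finset.mem_union.1 hv with hv | hv
      · refine Finset.mem_sdiff.2 ⟨Finset.mem_erase.2 ⟨fun h => hw'.2 (h ▸ hv), hq hv⟩, fun h => ?_⟩
        exact (Finset.mem_sdiff.1 (hXq h)).2 hv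
      · have h1 := Finset.mem_erase.1 hv
        exact Finset.mem_sdiff.2 ⟨Finset.mem_erase.2 ⟨h1.1, (Finset.mem_sdiff.1 (hK h1.2)).1⟩, hno v h1.2⟩
    have e1 : insert w (q.1 ∪ K.erase w) = q.1 ∪ K := by
      rw [← Finset.union_insert, Finset.insert_erase hw]
    have h2 := hcirc w hw
    have m1 := marg hr s1 w
    rw [e1] at m1
    have e2 : insert w (q.2.erase w \ X) = q.2 \ X := by
      ext v
      by_cases hvw : v = w
      · rw [hvw]
        simp only [Finset.mem_insert, Finset.mem_sdiff]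
        exact ⟨fun _ => ⟨hw'.1, hwX⟩, fun _ => Or.inl trivial⟩
      · simp only [Finset.mem_insert, Finset.mem_sdiff, Finset.mem_erase]
        tauto
    rw [e2] at m1
    have m2 := hr.mono _ _ (Finset.sdiff_subset_sdiff (Finset.erase_subset w q.2) (Finset.Subset.refl X))
    have m3 := hr.mono _ _ (Finset.erase_subset w q.2)
    have h5 := h3 X hXq hX.2.1 (hX.2.2.1.trans (Finset.card_le_card (Finset.sdiff_subset_sdiff (Finset.erase_subset _ _)
      (Finset.Subset.refl _))))
    have h6 : lam r q X = r (q.1 ∪ X) + r (q.2 \ X) - r q.2 - r q.1 := rfl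
    omega
  refine hcon e heK ?_
  exact ts_th3v hr hq hc h3 hn (a := fun v t => v ∈ K ∧ t = true) (D := ∅) hwq ⟨hw, rfl⟩ hX (Finset.disjoint_empty_right _)
    (Finset.notMem_empty _) (fun v hv t ht Z hZ => by
      obtain ⟨-, rfl⟩ := ht
      exact hH v hv Z hZ)
    (fun v _ t ht Z hZ _ => by
      obtain ⟨h1, rfl⟩ := ht
      exact hmin v h1 Z hZ) heX ⟨heK, rfl⟩

/-- a dependent set contains a circuit -/
theorem circ_ex (A : Finset E) {G : Finset E} (h : r (A ∪ G) < r A + (G.card : ℤ)) (hr : Rk r) :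
    ∃ K ⊆ G, K.Nonempty ∧ r (A ∪ K) < r A + (K.card : ℤ) ∧ ∀ e ∈ K, r (A ∪ K.erase e) = r (A ∪ K) := by
  classical
  induction hn : G.card using Nat.strong_induction_on generalizing G with
  | _ n ih =>
    by_cases hall : ∀ e ∈ G, r A + ((G.erase e).card : ℤ) ≤ r (A ∪ G.erase e)
    · refine ⟨G, Finset.Subset.refl _, ?_, h, fun e he => ?_⟩
      · rw [Finset.nonempty_iff_ne_empty]
        rintro rfl
        simp at h
      · have h1 := hall e he
        have h2 := hr.mono _ _ (Finset.union_subset_union_right (s := A) (Finset.erase_subset e G))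
        have h3 := Finset.card_erase_add_one he
        omega
    · push Not at hall
      obtain ⟨e, he, h1⟩ := hall
      have h3 := Finset.card_erase_add_one he
      obtain ⟨K, hK, hK'⟩ := ih _ (by omega) h1 rfl
      exact ⟨K, hK.trans (Finset.erase_subset _ _), hK'⟩

/-- no triads in `M / a` -/
theorem con_notri (hr : Rk r) {p : Itv E} (nt : Nt r p) {a : E} (ha : a ∈ gs p) :
    ∀ v ∈ gs (QUB.rm false a p), ∀ Z, TS r (QUB.rm false a p) v true Z → 3 ≤ Z.card := by
  intro v hv Z hZ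
  by_contra hcon
  have g1 : gs (QUB.rm false a p) = (gs p).erase a := QUB.gs_rm false a p
  have hc : Z.card = 2 := by
    have := hZ.2.1
    omega
  obtain ⟨x, y, hxy, rfl⟩ := Finset.card_eq_two.1 hc
  have hx := Finset.mem_erase.1 (hZ.1 (Finset.mem_insert_self x _))
  have hy := Finset.mem_erase.1 (hZ.1 (Finset.mem_insert_of_mem (Finset.mem_singleton_self y)))
  rw [g1] at hx hy hv
  have hx' := Finset.mem_erase.1 hx.2
  have hy' := Finset.mem_erase.1 hy.2
  have hv' := Finset.mem_erase.1 hv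
  have k1 := nt.ins hr hx'.2 hy'.2 ha hxy hx'.1 hy'.1
  have k2 := nt.del hr hy'.2 hx'.2 hv'.2 hxy.symm hy.1 hx.1
  have hl : r (insert a p.1 ∪ {x, y}) + r (p.2.erase v \ {x, y}) - r (p.2.erase v) - r (insert a p.1) ≤ 1 := hZ.2.2.2
  have e1 : insert a p.1 ∪ {x, y} = insert x (insert y (insert a p.1)) := by
    ext w
    simp only [Finset.mem_union, Finset.mem_insert, Finset.mem_singleton]
    tauto
  have e2 : p.2.erase v \ {x, y} = ((p.2.erase v).erase x).erase y := by
    ext w
    simp only [Finset.mem_sdiff, Finset.mem_erase, Finset.mem_insert, Finset.mem_singleton]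
    tauto
  rw [e1, e2] at hl
  omega

end Pool.Agent.QU
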