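import Pool.Agent.QUT.Flu
import Pool.Agent.QUT.Lem
import Pool.Agent.QUT.CaseB

/-!
# QUT/Flv: a rich flat of corank two with nullity at least three
-/

set_option autoImplicit false

open QUB

namespace Pool.Agent.QU

open Pool.Agent.FRM

section

variable {E : Type} [Fintype E] [DecidableEq E] {S : TP F4 E} {p : Itv E}

/-- the hubs `b1`, `b2` (deleted), the connector `a` (contracted) and the target `e`, both signs -/
theorem flv_core (h : Cu S p) {W : Finset E} {P : Fin 5 → Finset E} (hF : Fan S.r p W P) {a b1 b2 e : E} (ha : a ∈ W \ p.1)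
    (hb1 : b1 ∈ W \ p.1) (hb2 : b2 ∈ W \ p.1) (he : e ∈ W \ p.1) (hab1 : a ≠ b1) (hab2 : a ≠ b2) (hae : a ≠ e) (hbb : b1 ≠ b2)
    (hb1e : b1 ≠ e) (hb2e : b2 ≠ e) (h1 : Th3 S.r (rm true b1 (rm false a p))) (h2 : Th3 S.r (rm true b2 (rm false a p)))
    (hsp : S.r (((W.erase b1).erase b2).erase e) = S.r W) (hco : S.r ((((p.2.erase a).erase b1).erase b2).erase e) = S.r p.2) :
    ∃ T : Fm F4 E, InV S.U S.W p T ∧ ¬ EqD S.U S.W p T 0 := by
  have hr : Rk S.r := S.rk
  have hn := h.hn
  have hW2 := hF.hW2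
  have mem : ∀ {v : E}, v ∈ W \ p.1 → v ∈ gs p := fun hv =>
    Finset.mem_sdiff.2 ⟨hW2 (Finset.mem_sdiff.1 hv).1, (Finset.mem_sdiff.1 hv).2⟩
  have ma := mem ha
  have m1 := mem hb1
  have m2 := mem hb2
  have me := mem he
  -- the general richness statement
  have rich : ∀ (m : Itv E) (W' : Finset E), ((W.erase b1).erase b2).erase e ⊆ W' → W' ⊆ W → m.1 ⊆ W' → W' ⊆ m.2 →
      ((p.2.erase b1).erase b2).erase e ⊆ m.2 → HasRich S.r m := by
    intro m W' k1 k2 k3 k4 k5
    refine fan_rich hr hF (W' := W') k2 (le_antisymm (hr.mono _ _ k2) (hsp ▸ hr.mono _ _ k1)) k3 k4 fun j => ?_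
    obtain ⟨x, hx⟩ := hF.ne j
    have hxW : x ∉ W := fun h' => Finset.disjoint_left.1 (hF.dW j) hx h'
    have hne : ∀ {v : E}, v ∈ W \ p.1 → x ≠ v := fun hv h' => hxW (h' ▸ (Finset.mem_sdiff.1 hv).1)
    exact ⟨x, hx, k5 (Finset.mem_erase.2 ⟨hne he, Finset.mem_erase.2 ⟨hne hb2, Finset.mem_erase.2 ⟨hne hb1, hF.hP2 j hx⟩⟩⟩)⟩
  have inW : ∀ {v : E}, v ∈ W \ p.1 → v ∈ W := fun hv => (Finset.mem_sdiff.1 hv).1
  have p1W : ∀ {b : E} {X : Finset E}, b ∈ W \ p.1 → p.1 ⊆ X → p.1 ⊆ X.erase b := fun hb hX v hv =>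
    Finset.mem_erase.2 ⟨fun h' => (Finset.mem_sdiff.1 hb).2 (h' ▸ hv), hX hv⟩
  have pW1 : p.1 ⊆ W.erase b1 := p1W hb1 hF.h1
  have pW2 : p.1 ⊆ W.erase b2 := p1W hb2 hF.h1
  -- richness of the boxes
  have r12 : HasRich S.r (rm true b1 (rm true b2 p)) := by
    refine rich _ ((W.erase b1).erase b2) (Finset.erase_subset _ _) ((Finset.erase_subset _ _).trans (Finset.erase_subset _ _))
      (p1W hb2 pW1) ?_ ?_
    · show (W.erase b1).erase b2 ⊆ (p.2.erase b2).erase b1
      rw [Finset.erase_right_comm]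
      exact Finset.erase_subset_erase _ (Finset.erase_subset_erase _ hW2)
    · show ((p.2.erase b1).erase b2).erase e ⊆ (p.2.erase b2).erase b1
      rw [Finset.erase_right_comm (s := p.2) (a := b2) (b := b1)]
      exact Finset.erase_subset _ _
  have rka : ∀ {b : E}, b = b1 ∨ b = b2 → HasRich S.r (rm true b (rm false a p)) := by
    rintro b (rfl | rfl)
    · refine rich _ (W.erase b) ?_ (Finset.erase_subset _ _) ?_ (Finset.erase_subset_erase _ hW2) ?_
      · exact (Finset.erase_subset _ _).trans (Finset.erase_subset _ _)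
      · show insert a p.1 ⊆ W.erase b
        exact Finset.insert_subset (Finset.mem_erase.2 ⟨hab1, inW ha⟩) pW1
      · exact (Finset.erase_subset _ _).trans (Finset.erase_subset _ _)
    · refine rich _ (W.erase b) ?_ (Finset.erase_subset _ _) ?_ (Finset.erase_subset_erase _ hW2) ?_
      · exact (Finset.erase_subset _ _).trans (Finset.erase_subset_erase _ (Finset.erase_subset _ _))
      · show insert a p.1 ⊆ W.erase b
        exact Finset.insert_subset (Finset.mem_erase.2 ⟨hab2, inW ha⟩) pW2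
      · exact (Finset.erase_subset _ _).trans (Finset.erase_subset_erase _ (Finset.erase_subset _ _))
  have r12a : HasRich S.r (rm true b1 (rm true b2 (rm false a p))) := by
    refine rich _ ((W.erase b1).erase b2) (Finset.erase_subset _ _) ((Finset.erase_subset _ _).trans (Finset.erase_subset _ _)) ?_ ?_ ?_
    · show insert a p.1 ⊆ (W.erase b1).erase b2
      exact Finset.insert_subset (Finset.mem_erase.2 ⟨hab2, Finset.mem_erase.2 ⟨hab1, inW ha⟩⟩) (p1W hb2 pW1)
    · show (W.erase b1).erase b2 ⊆ (p.2.erase b2).erase b1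
      rw [Finset.erase_right_comm]
      exact Finset.erase_subset_erase _ (Finset.erase_subset_erase _ hW2)
    · show ((p.2.erase b1).erase b2).erase e ⊆ (p.2.erase b2).erase b1
      rw [Finset.erase_right_comm (s := p.2) (a := b2) (b := b1)]
      exact Finset.erase_subset _ _
  -- the triples `a, b, e`
  have r3 : ∀ {b : E}, b = b1 ∨ b = b2 → ∀ s : Bool, HasRich S.r (rm false a (rm true b (rm s e p))) := by
    intro b hb s
    have hbW : b ∈ W \ p.1 := by
      rcases hb with rfl | rfl
      · exact hb1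
      · exact hb2
    have hab : a ≠ b := by
      rcases hb with rfl | rfl
      · exact hab1
      · exact hab2
    have hbe : b ≠ e := by
      rcases hb with rfl | rfl
      · exact hb1e
      · exact hb2e
    have sW : ((W.erase b1).erase b2).erase e ⊆ (W.erase b).erase e := by
      rcases hb with rfl | rfl
      · exact Finset.erase_subset_erase _ (Finset.erase_subset _ _)
      · exact Finset.erase_subset_erase _ (Finset.erase_subset_erase _ (Finset.erase_subset _ _))
    have sp : ((p.2.erase b1).erase b2).erase e ⊆ (p.2.erase b).erase e := by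
      rcases hb with rfl | rfl
      · exact Finset.erase_subset_erase _ (Finset.erase_subset _ _)
      · exact Finset.erase_subset_erase _ (Finset.erase_subset_erase _ (Finset.erase_subset _ _))
    cases s
    · refine rich _ (W.erase b) (sW.trans (Finset.erase_subset _ _)) (Finset.erase_subset _ _) ?_ ?_ ?_
      · show insert a (insert e p.1) ⊆ W.erase b
        exact Finset.insert_subset (Finset.mem_erase.2 ⟨hab, inW ha⟩) (Finset.insert_subset (Finset.mem_erase.2 ⟨hbe.symm, inW he⟩)
          (p1W hbW hF.h1))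
      · exact Finset.erase_subset_erase _ hW2
      · exact sp.trans (Finset.erase_subset _ _)
    · refine rich _ ((W.erase b).erase e) sW ((Finset.erase_subset _ _).trans (Finset.erase_subset _ _)) ?_ ?_ ?_
      · show insert a p.1 ⊆ (W.erase b).erase e
        exact Finset.insert_subset (Finset.mem_erase.2 ⟨hae, Finset.mem_erase.2 ⟨hab, inW ha⟩⟩) (p1W he (p1W hbW hF.h1))
      · show (W.erase b).erase e ⊆ (p.2.erase e).erase b
        rw [Finset.erase_right_comm]
        exact Finset.erase_subset_erase _ (Finset.erase_subset_erase _ hW2)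
      · show ((p.2.erase b1).erase b2).erase e ⊆ (p.2.erase e).erase b
        rw [Finset.erase_right_comm (s := p.2) (a := e) (b := b)]
        exact sp
  -- pairs from triples
  have rbe : ∀ {b : E}, b = b1 ∨ b = b2 → ∀ s : Bool, HasRich S.r (rm true b (rm s e p)) := fun hb s =>
    hasRich_mono (rm_sub false a _) (r3 hb s)
  have rae : ∀ s : Bool, HasRich S.r (rm false a (rm s e p)) := by
    intro s
    have h3 := r3 (Or.inl rfl : b1 = b1 ∨ b1 = b2) s
    rw [rm_comm] at h3
    exact hasRich_mono (rm_sub true b1 _) h3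
  -- connectivity of the triples `a, b, e`
  have wa : (rm false a p).1 ⊆ (rm false a p).2 := QUB.wf_rm h.hp ma
  have ga : gs (rm false a p) = (gs p).erase a := QUB.gs_rm false a p
  have c3 : ∀ {b : E}, b = b1 ∨ b = b2 → ∀ s : Bool, Cn S.r (rm false a (rm true b (rm s e p))) := by
    intro b hb s
    have hbm : b ∈ gs p := by
      rcases hb with rfl | rfl
      · exact m1
      · exact m2
    have hab : a ≠ b := by
      rcases hb with rfl | rfl
      · exact hab1
      · exact hab2
    have hbe : b ≠ e := by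
      rcases hb with rfl | rfl
      · exact hb1e
      · exact hb2e
    have h3 : Th3 S.r (rm true b (rm false a p)) := by
      rcases hb with rfl | rfl
      · exact h1
      · exact h2
    have hbg : b ∈ gs (rm false a p) := by
      rw [ga]
      exact Finset.mem_erase.2 ⟨hab.symm, hbm⟩
    have e1 : rm false a (rm true b (rm s e p)) = rm s e (rm true b (rm false a p)) := by
      rw [rm_comm true s b e, rm_comm false s a e, rm_comm false true a b]
    rw [e1]
    refine th3_cn hr (QUB.wf_rm wa hbg) (h.cn2 hbm ma hab.symm true false) h3 ?_ ?_ s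
    · rw [show gs (rm true b (rm false a p)) = (gs (rm false a p)).erase b from QUB.gs_rm true b _, Finset.card_erase_of_mem hbg, ga,
        Finset.card_erase_of_mem ma]
      omega
    · rw [show gs (rm true b (rm false a p)) = (gs (rm false a p)).erase b from QUB.gs_rm true b _, ga]
      exact Finset.mem_erase.2 ⟨hbe.symm, Finset.mem_erase.2 ⟨hae.symm, me⟩⟩
  have c12a : Cn S.r (rm true b1 (rm true b2 (rm false a p))) := by
    have hbg : b2 ∈ gs (rm false a p) := by
      rw [ga]
      exact Finset.mem_erase.2 ⟨hab2.symm, m2⟩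
    refine th3_cn hr (QUB.wf_rm wa hbg) (h.cn2 m2 ma hab2.symm true false) h2 ?_ ?_ true
    · rw [show gs (rm true b2 (rm false a p)) = (gs (rm false a p)).erase b2 from QUB.gs_rm true b2 _, Finset.card_erase_of_mem hbg,
        ga, Finset.card_erase_of_mem ma]
      omega
    · rw [show gs (rm true b2 (rm false a p)) = (gs (rm false a p)).erase b2 from QUB.gs_rm true b2 _, ga]
      exact Finset.mem_erase.2 ⟨hbb, Finset.mem_erase.2 ⟨hab1.symm, m1⟩⟩
  -- the form
  obtain ⟨T, i1, i2, hne⟩ := two_hub S h.nu h.hp hbb m1 m2 (h.ex1 m1 true) (h.ex1 m2 true) (h.cn2 m1 m2 hbb true true)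
    (h.ok _ m1 _ m2 hbb true true r12)
  have ia : InV S.U S.W (rm false a p) T :=
    third_hub S h.nu h.hp hbb hab1.symm hab2.symm m1 m2 ma i1 i2 (h.ex1 ma false) (h.cn2 m1 ma hab1.symm true false)
      (h.ok _ m1 _ ma hab1.symm true false (rka (Or.inl rfl))) (h.cn2 m2 ma hab2.symm true false)
      (h.ok _ m2 _ ma hab2.symm true false (rka (Or.inr rfl))) c12a (hasLn_of_rich r12a) (Or.inl r12a)
  have tgt : ∀ s : Bool, InV S.U S.W (rm s e p) T := by
    intro s
    refine con_hub S h.nu h.hp (t := true) (u := false) (s := s) hbb hb1e hb2e hab1 hab2 hae m1 m2 ma me i1 i2 ia (h.ex1 me s)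
      (h.cn2 m1 me hb1e true s) (h.ok _ m1 _ me hb1e true s (rbe (Or.inl rfl) s)) (h.cn2 m2 me hb2e true s)
      (h.ok _ m2 _ me hb2e true s (rbe (Or.inr rfl) s)) (h.cn2 ma me hae false s) (h.ok _ ma _ me hae false s (rae s))
      (c3 (Or.inl rfl) s) (r3 (Or.inl rfl) s) (c3 (Or.inr rfl) s) (r3 (Or.inr rfl) s) ?_ ?_ ?_
    · cases s
      · have k1 := h.nt.del hr me m2 m1 hb2e.symm hb1e.symm hbb.symm
        have k2 := h.nt.del hr me m1 m2 hb1e.symm hb2e.symm hbb
        show S.r (p.2.erase b1) + S.r (p.2.erase b2) = S.r p.2 + S.r ((p.2.erase b1).erase b2)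
        omega
      · have k1 := h.nt.del hr m2 m1 me hbb.symm hb2e hb1e
        have k2 := h.nt.del hr m1 m2 me hbb hb1e hb2e
        show S.r ((p.2.erase e).erase b1) + S.r ((p.2.erase e).erase b2) = S.r (p.2.erase e) + S.r (((p.2.erase e).erase b1).erase b2)
        omega
    · cases s
      · have k1 := h.nt.ins hr m1 ma me hab1.symm hb1e hae
        show S.r (insert a (insert e p.1)) = S.r (insert e p.1) + 1
        omega
      · have k1 := h.nt.ins hr m1 me ma hb1e hab1.symm hae.symm
        show S.r (insert a p.1) = S.r p.1 + 1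
        omega
    · cases s
      · have k1 := h.nt.del hr ma m1 m2 hab1 hab2 hbb
        show S.r (((p.2.erase b2).erase b1).erase a) = S.r ((p.2.erase b2).erase b1)
        omega
      · have k1 := h.nt.del hr m1 m2 me hbb hb1e hb2e
        show S.r ((((p.2.erase e).erase b2).erase b1).erase a) = S.r (((p.2.erase e).erase b2).erase b1)
        have e1 : (((p.2.erase e).erase b2).erase b1).erase a = (((p.2.erase a).erase b1).erase b2).erase e := by
          ext v
          simp only [Finset.mem_erase]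
          tauto
        rw [e1]
        omega
  refine ⟨T, inV_of_rm (tgt true) (tgt false), fun hT => ?_⟩
  obtain ⟨N, k1, k2⟩ := r12
  have k3 : Sub N (rm true b1 p) := ((rm_sub true b2 p).rm true b1).trans k1
  exact hne N k3 k2 (hT.mono ((rm_sub true b1 p).trans k3))

/-- **nullity at least three** -/
theorem flt_three (h : Cu S p) {W : Finset E} {P : Fin 5 → Finset E} (hF : Fan S.r p W P)
    (hν : S.r W + 3 ≤ S.r p.1 + ((W \ p.1).card : ℤ)) : ∃ T : Fm F4 E, InV S.U S.W p T ∧ ¬ EqD S.U S.W p T 0 := by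
  classical
  have hr : Rk S.r := S.rk
  have hn := h.hn
  have hW2 := hF.hW2
  have mem : ∀ {v : E}, v ∈ W \ p.1 → v ∈ gs p := fun hv =>
    Finset.mem_sdiff.2 ⟨hW2 (Finset.mem_sdiff.1 hv).1, (Finset.mem_sdiff.1 hv).2⟩
  have hmW := hr.mono _ _ hF.h1
  obtain ⟨a, ha⟩ : (W \ p.1).Nonempty := Finset.card_pos.1 (by omega)
  have ma := mem ha
  have ha' := Finset.mem_sdiff.1 ha
  -- the box `M / a`
  have wa : (rm false a p).1 ⊆ (rm false a p).2 := QUB.wf_rm h.hp ma
  have ga : gs (rm false a p) = (gs p).erase a := QUB.gs_rm false a p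
  have cq : 4 ≤ (gs (rm false a p)).card := by
    rw [ga, Finset.card_erase_of_mem ma]
    omega
  have q1 : S.r (insert a p.1) = S.r p.1 + 1 := by
    have h1 := h.nt.le3 hr (by omega) (Z := {a}) (Finset.singleton_subset_iff.2 ma) (by rw [Finset.card_singleton]; omega)
    rw [Finset.card_singleton] at h1
    have e : p.1 ∪ {a} = insert a p.1 := by
      ext v
      simp only [Finset.mem_union, Finset.mem_insert, Finset.mem_singleton]
      tauto
    rw [e] at h1
    push_cast at h1
    exact h1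
  -- one step: a set `G ⊆ W \ p.1 \ a` of positive nullity in `M / a`
  have step : ∀ G : Finset E, G ⊆ (W \ p.1).erase a → S.r W + 1 ≤ S.r (insert a p.1) + (G.card : ℤ) →
      ∃ K ⊆ G, K.Nonempty ∧ S.r (insert a p.1 ∪ K) < S.r (insert a p.1) + (K.card : ℤ) ∧
        ∀ e ∈ K, S.r (insert a p.1 ∪ K.erase e) = S.r (insert a p.1 ∪ K) := by
    intro G hG hc
    refine circ_ex (insert a p.1) ?_ hr
    have h1 := hr.mono (insert a p.1 ∪ G) W (by
      refine Finset.union_subset (Finset.insert_subset ha'.1 hF.h1) fun v hv => ?_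
      exact (Finset.mem_sdiff.1 (Finset.mem_erase.1 (hG hv)).2).1)
    omega
  have lem : ∀ K : Finset E, K ⊆ (W \ p.1).erase a → K.Nonempty → (∀ e ∈ K, S.r (insert a p.1 ∪ K.erase e) = S.r (insert a p.1 ∪ K)) →
      ∃ e ∈ K, Th3 S.r (rm true e (rm false a p)) := by
    intro K hK hne hcirc
    refine lemos hr wa (h.cn1 ma false) (h.th a ma false) cq (con_notri hr h.nt ma) (K := K) ?_ hne hcirc
    rw [ga]
    intro v hv
    have h1 := Finset.mem_erase.1 (hK hv)
    exact Finset.mem_erase.2 ⟨h1.1, mem h1.2⟩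
  -- spanning
  have span : ∀ (X K : Finset E) (e : E), insert a p.1 ⊆ X → K ⊆ X → e ∈ K →
      S.r (insert a p.1 ∪ K.erase e) = S.r (insert a p.1 ∪ K) → e ∉ insert a p.1 → S.r (X.erase e) = S.r X := by
    intro X K e hX hK he hc hep
    have h1 : insert a p.1 ∪ K.erase e ⊆ X.erase e := by
      refine Finset.union_subset (fun v hv => Finset.mem_erase.2 ⟨fun h' => hep (h' ▸ hv), hX hv⟩) ?_
      exact Finset.erase_subset_erase _ hK
    have h2 := marg hr h1 e
    have e1 : insert e (insert a p.1 ∪ K.erase e) = insert a p.1 ∪ K := by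
      rw [← Finset.union_insert, Finset.insert_erase he]
    rw [e1, Finset.insert_erase (hK he)] at h2
    have h3 := hr.mono _ _ (Finset.erase_subset e X)
    omega
  have nin : ∀ {v : E}, v ∈ (W \ p.1).erase a → v ∉ insert a p.1 := fun hv h' => by
    have h1 := Finset.mem_erase.1 hv
    rcases Finset.mem_insert.1 h' with h2 | h2
    · exact h1.1 h2
    · exact (Finset.mem_sdiff.1 h1.2).2 h2
  have aW : insert a p.1 ⊆ W := Finset.insert_subset ha'.1 hF.h1
  have cF := Finset.card_erase_add_one ha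
  -- the first element
  obtain ⟨K1, hK1, hn1, -, hc1⟩ := step _ (Finset.Subset.refl _) (by omega)
  obtain ⟨b1, hb1K, t1⟩ := lem K1 hK1 hn1 hc1
  have hb1 := hK1 hb1K
  have s1 : S.r (W.erase b1) = S.r W := span W K1 b1 aW (fun v hv => (Finset.mem_sdiff.1 (Finset.mem_erase.1 (hK1 hv)).2).1) hb1K
    (hc1 b1 hb1K) (nin hb1)
  have cF1 := Finset.card_erase_add_one hb1
  -- the second element
  obtain ⟨K2, hK2, hn2, -, hc2⟩ := step (((W \ p.1).erase a).erase b1) (Finset.erase_subset _ _) (by omega)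
  have hK2' : K2 ⊆ (W \ p.1).erase a := hK2.trans (Finset.erase_subset _ _)
  obtain ⟨b2, hb2K, t2⟩ := lem K2 hK2' hn2 hc2
  have hb2 := hK2 hb2K
  have hb2' := hK2' hb2K
  have aW1 : insert a p.1 ⊆ W.erase b1 := fun v hv => Finset.mem_erase.2 ⟨fun h' => nin hb1 (h' ▸ hv), aW hv⟩
  have s2 : S.r ((W.erase b1).erase b2) = S.r (W.erase b1) := span (W.erase b1) K2 b2 aW1 (fun v hv => by
    have h1 := Finset.mem_erase.1 (hK2 hv)
    exact Finset.mem_erase.2 ⟨h1.1, (Finset.mem_sdiff.1 (Finset.mem_erase.1 h1.2).2).1⟩) hb2K (hc2 b2 hb2K) (nin hb2')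
  have cF2 := Finset.card_erase_add_one hb2
  -- the circuit of the target
  obtain ⟨K3, hK3, hn3, hd3, hc3⟩ := step ((((W \ p.1).erase a).erase b1).erase b2)
    ((Finset.erase_subset _ _).trans (Finset.erase_subset _ _)) (by omega)
  have aW2 : insert a p.1 ⊆ (W.erase b1).erase b2 := fun v hv => Finset.mem_erase.2 ⟨fun h' => nin hb2' (h' ▸ hv), aW1 hv⟩
  have hK3W : K3 ⊆ (W.erase b1).erase b2 := fun v hv => by
    have h1 := Finset.mem_erase.1 (hK3 hv)
    have h2 := Finset.mem_erase.1 h1.2
    exact Finset.mem_erase.2 ⟨h1.1, Finset.mem_erase.2 ⟨h2.1, (Finset.mem_sdiff.1 (Finset.mem_erase.1 h2.2).2).1⟩⟩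
  have hK3a : K3 ⊆ (W \ p.1).erase a := hK3.trans ((Finset.erase_subset _ _).trans (Finset.erase_subset _ _))
  have s3 : ∀ e ∈ K3, S.r (((W.erase b1).erase b2).erase e) = S.r W := fun e he => by
    rw [span _ K3 e aW2 hK3W he (hc3 e he) (nin (hK3a he)), s2, s1]
  have m1 := mem (Finset.mem_erase.1 hb1).2
  have m2 := mem (Finset.mem_erase.1 hb2').2
  have hab1 : a ≠ b1 := (Finset.mem_erase.1 hb1).1.symm
  have hab2 : a ≠ b2 := (Finset.mem_erase.1 hb2').1.symm
  have hbb : b1 ≠ b2 := (Finset.mem_erase.1 hb2).1.symm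
  have hK3ne : ∀ e ∈ K3, a ≠ e ∧ b1 ≠ e ∧ b2 ≠ e ∧ e ∈ W \ p.1 := fun e he => by
    have h1 := Finset.mem_erase.1 (hK3 he)
    have h2 := Finset.mem_erase.1 h1.2
    have h3 := Finset.mem_erase.1 h2.2
    exact ⟨h3.1.symm, h2.1.symm, h1.1.symm, h3.2⟩
  -- at least three elements in the circuit
  have hK3c : 3 ≤ K3.card := by
    by_contra hcon
    have h1 : insert a K3 ⊆ gs p := Finset.insert_subset ma fun v hv => mem (hK3ne v hv).2.2.2
    have h2 : (insert a K3).card = K3.card + 1 := Finset.card_insert_of_notMem fun h' => (hK3ne a h').1 rfl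
    have h3 := h.nt.le3 hr (by omega) h1 (by omega)
    have e1 : p.1 ∪ insert a K3 = insert a p.1 ∪ K3 := by
      ext v
      simp only [Finset.mem_union, Finset.mem_insert]
      tauto
    rw [e1, h2] at h3
    push_cast at h3
    omega
  -- the target
  obtain ⟨e, he, hco⟩ : ∃ e ∈ K3, S.r ((((p.2.erase a).erase b1).erase b2).erase e) = S.r p.2 := by
    by_contra hcon
    push Not at hcon
    obtain ⟨X, hX, hXc⟩ := Finset.exists_subset_card_eq hK3c
    have hXe : ∀ v ∈ X, a ≠ v ∧ b1 ≠ v ∧ b2 ≠ v ∧ v ∈ W \ p.1 := fun v hv => hK3ne v (hX hv)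
    have k1 := h.nt.del hr m2 m1 ma hbb.symm hab2.symm hab1.symm
    have hB : S.r (((p.2.erase a).erase b1).erase b2) = S.r p.2 := k1.1
    have h1 := coloop_sum hr (W := ((p.2.erase a).erase b1).erase b2) X (by
      intro v hv
      have h2 := hXe v hv
      exact Finset.mem_erase.2 ⟨h2.2.2.1.symm, Finset.mem_erase.2 ⟨h2.2.1.symm, Finset.mem_erase.2 ⟨h2.1.symm,
        (Finset.mem_sdiff.1 (mem h2.2.2.2)).1⟩⟩⟩) (by
      intro v hv
      have h2 := hcon v (hX hv)
      have h3 := hr.mono _ _ (Finset.erase_subset v (((p.2.erase a).erase b1).erase b2))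
      omega)
    rw [hB, hXc] at h1
    -- the six elements
    set Y6 : Finset E := {a, b1, b2} ∪ X with hY6
    have hdX : Disjoint ({a, b1, b2} : Finset E) X := by
      rw [Finset.disjoint_left]
      intro v hv hv'
      have h2 := hXe v hv'
      simp only [Finset.mem_insert, Finset.mem_singleton] at hv
      rcases hv with rfl | rfl | rfl
      · exact h2.1 rfl
      · exact h2.2.1 rfl
      · exact h2.2.2.1 rfl
    have h3c : ({a, b1, b2} : Finset E).card = 3 := Finset.card_eq_three.2 ⟨a, b1, b2, hab1, hab2, hbb, rfl⟩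
    have hY6c : Y6.card = 6 := by
      rw [hY6, Finset.card_union_of_disjoint hdX, h3c, hXc]
    have hY6g : Y6 ⊆ gs p := by
      refine Finset.union_subset ?_ fun v hv => mem (hXe v hv).2.2.2
      intro v hv
      simp only [Finset.mem_insert, Finset.mem_singleton] at hv
      rcases hv with rfl | rfl | rfl
      · exact ma
      · exact m1
      · exact m2
    have hY62 : Y6 ⊆ p.2 := fun v hv => (Finset.mem_sdiff.1 (hY6g hv)).1
    have e1 : ((p.2.erase a).erase b1).erase b2 \ X = p.2 \ Y6 := by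
      ext v
      simp only [hY6, Finset.mem_sdiff, Finset.mem_erase, Finset.mem_union, Finset.mem_insert, Finset.mem_singleton]
      tauto
    rw [e1] at h1
    have gq : gs ((p.2 \ Y6, p.2) : Itv E) = Y6 := by
      show p.2 \ (p.2 \ Y6) = Y6
      rw [Finset.sdiff_sdiff_eq_self hY62]
    -- triples are independent
    have htri : ∀ Y ⊆ Y6, Y.card = 3 → S.r (p.2 \ Y6 ∪ Y) = S.r p.2 := by
      intro Y hY hYc
      have h2 := h.nt.d3 (Y6 \ Y) (Finset.sdiff_subset.trans hY6g) (by
        have := Finset.card_sdiff_add_card_eq_card hY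
        omega)
      have e2 : p.2 \ (Y6 \ Y) = p.2 \ Y6 ∪ Y := by
        ext v
        have h3 := @hY v
        have h4 := @hY62 v
        simp only [Finset.mem_sdiff, Finset.mem_union]
        tauto
      rw [e2] at h2
      exact h2
    have hrk : S.r p.2 = S.r (p.2 \ Y6) + 3 := by
      obtain ⟨Y, hY, hYc⟩ := Finset.exists_subset_card_eq (show 3 ≤ Y6.card by omega)
      have h2 := htri Y hY hYc
      have h4 := rk_union_card hr (p.2 \ Y6) Y
      have h5 : (Y \ (p.2 \ Y6)).card ≤ 3 := hYc ▸ Finset.card_le_card Finset.sdiff_subset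
      rw [h2] at h4
      push_cast at h1
      omega
    refine h.nu (p.2 \ Y6, p.2) Finset.sdiff_subset (by rw [show gs ((p.2 \ Y6, p.2) : Itv E) = Y6 from gq]; exact hY6c) hrk ?_
    intro i hi j hj k hk hij hik hjk
    rw [show gs ((p.2 \ Y6, p.2) : Itv E) = Y6 from gq] at hi hj hk
    have h2 := htri {i, j, k} (by
      intro v hv
      simp only [Finset.mem_insert, Finset.mem_singleton] at hv
      rcases hv with rfl | rfl | rfl
      · exact hi
      · exact hj
      · exact hk) (Finset.card_eq_three.2 ⟨i, j, k, hij, hik, hjk, rfl⟩)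
    show S.r (p.2 \ Y6 ∪ {i, j, k}) = S.r (p.2 \ Y6) + 3
    omega
  have hK := hK3ne e he
  exact flv_core h hF ha (Finset.mem_erase.1 hb1).2 (Finset.mem_erase.1 hb2').2 hK.2.2.2 hab1 hab2 hK.1 hbb hK.2.1 hK.2.2.1 t1 t2
    (s3 e he) hco

end

end Pool.Agent.QU
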