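import Pool.Agent.QUT.Lfc
import Pool.Agent.QUP.Ch
import Pool.Agent.QUN.Cnl
import Pool.Agent.QUT.CaseB

/-!
# QUT/Lfd: a leaf with at least four elements whose pairs are `Ok` gives a form
-/

set_option autoImplicit false

open QUB

namespace Pool.Agent.QU

open Pool.Agent.FRM

section pure

variable {E : Type} [DecidableEq E] {r : Finset E → ℤ}

/-- adding `j` back after two further removals -/
theorem up_two (hr : Rk r) {N : Itv E} (wf : N.1 ⊆ N.2) {j x z : E} {τ sx σ : Bool} (mj : j ∈ gs N) (mx : x ∈ gs N) (mz : z ∈ gs N)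
    (hjx : j ≠ x) (hjz : j ≠ z) (hxz : x ≠ z) {Y : Finset E} (hY : Y ⊆ gs N) (jY : j ∉ Y) (xY : x ∉ Y) (zY : z ∉ Y)
    (hd : QUB.lam r (rm τ j N) Y + 1 ≤ QUB.lam r N Y) (hn : 4 ≤ (gs N).card)
    (cz : Cn r (rm σ z N)) (cqz : Cn r (rm τ j (rm σ z N))) (c : Cn r (rm τ j (rm sx x (rm σ z N)))) : Cn r (rm sx x (rm σ z N)) := by
  have w1 : (rm σ z N).1 ⊆ (rm σ z N).2 := wf_rm wf mz
  have mj1 : j ∈ gs (rm σ z N) := by rw [gs_rm]; exact Finset.mem_erase.2 ⟨hjz, mj⟩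
  have mx1 : x ∈ gs (rm σ z N) := by rw [gs_rm]; exact Finset.mem_erase.2 ⟨hxz, mx⟩
  have w2 : (rm sx x (rm σ z N)).1 ⊆ (rm sx x (rm σ z N)).2 := wf_rm w1 mx1
  have mj2 : j ∈ gs (rm sx x (rm σ z N)) := by rw [gs_rm]; exact Finset.mem_erase.2 ⟨hjx, mj1⟩
  have hc1 : (gs (rm σ z N)).card = (gs N).card - 1 := by rw [gs_rm, Finset.card_erase_of_mem mz]
  have sing : ∀ {q : Itv E} {v : E}, Cn r q → v ∈ gs q → 2 ≤ (gs q).card → 1 ≤ QUB.lam r q {v} := by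
    intro q v hq hv h2
    refine hq {v} (Finset.singleton_subset_iff.2 hv) ⟨v, Finset.mem_singleton_self v⟩ ?_
    rw [← Finset.card_pos]
    have := Finset.card_sdiff_of_subset (Finset.singleton_subset_iff.2 hv)
    rw [Finset.card_singleton] at this
    omega
  have s1 : 1 ≤ QUB.lam r (rm σ z N) {j} := sing cz mj1 (by omega)
  have hYA : Y ⊆ ((gs N).erase z).erase j := by
    intro v hv
    exact Finset.mem_erase.2 ⟨fun h => jY (h ▸ hv), Finset.mem_erase.2 ⟨fun h => zY (h ▸ hv), hY hv⟩⟩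
  have d1 := lam_L4 hr wf (s := σ) (t := τ) mz mj hjz hYA s1
  have hYB : Y ⊆ ((gs (rm σ z N)).erase x).erase j := by
    intro v hv
    rw [gs_rm]
    exact Finset.mem_erase.2 ⟨fun h => jY (h ▸ hv), Finset.mem_erase.2 ⟨fun h => xY (h ▸ hv), Finset.mem_erase.2
      ⟨fun h => zY (h ▸ hv), hY hv⟩⟩⟩
  refine cn_add hr w2 mj2 c ?_
  by_cases hs : sx = τ
  · rw [hs]
    have s2 : 1 ≤ QUB.lam r (rm σ z N) {x} := sing cz mx1 (by omega)
    rw [lam_deg hr w1 mj1 mx1 hjx.symm s2 s1]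
    have mx3 : x ∈ gs (rm τ j (rm σ z N)) := by rw [gs_rm]; exact Finset.mem_erase.2 ⟨hjx.symm, mx1⟩
    refine sing cqz mx3 ?_
    rw [gs_rm, Finset.card_erase_of_mem mj1]
    omega
  · have hs' : τ = !sx := by cases τ <;> cases sx <;> simp_all
    have d2 := lam_L4' hr w1 (s := sx) mx1 mj1 hjx hYB
    rw [← hs'] at d2
    have hYC : Y ⊆ (gs (rm sx x (rm σ z N))).erase j := by
      rw [gs_rm]
      intro v hv
      have h1 := Finset.mem_erase.1 (hYB hv)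
      exact Finset.mem_erase.2 ⟨h1.1, h1.2⟩
    have d3 := lam_L3 hr (t := τ) mj2 hYC (Finset.Subset.refl _)
    have e1 : gs (rm sx x (rm σ z N)) \ (gs (rm sx x (rm σ z N))).erase j = {j} := by
      ext v
      simp only [Finset.mem_sdiff, Finset.mem_erase, Finset.mem_singleton]
      constructor
      · rintro ⟨a, b⟩
        by_contra hv
        exact b ⟨hv, a⟩
      · rintro rfl
        exact ⟨mj2, fun h => h.1 rfl⟩
    have e2 := lam_compl r w2 (A := (gs (rm sx x (rm σ z N))).erase j) (Finset.erase_subset _ _)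
    rw [e1] at e2
    have w3 : (rm τ j (rm sx x (rm σ z N))).1 ⊆ (rm τ j (rm sx x (rm σ z N))).2 := wf_rm w2 mj2
    have e3 := lam_full (p := rm τ j (rm sx x (rm σ z N))) r w3
    rw [gs_rm] at e3
    omega

end pure

section forms

variable {E : Type} [Fintype E] [DecidableEq E] {S : TP F4 E} {p : Itv E}

omit [Fintype E] in
private theorem lfd_mem {p : Itv E} {a b : E} {s : Bool} (hab : a ≠ b) (ha : a ∈ gs p) : a ∈ gs (rm s b p) := by
  rw [gs_rm]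
  exact Finset.mem_erase.2 ⟨hab, ha⟩

/-- the pairs of a leaf: base hub `u` of type `t`, the other removal `j` of type `τ` -/
structure Bs (S : TP F4 E) (p : Itv E) (u : E) (t : Bool) (j : E) (τ : Bool) (L : Finset E) : Prop where
  mu : u ∈ gs p
  mj : j ∈ gs p
  uj : u ≠ j
  lf : Lf S.r (rm t u (rm τ j p)) L
  c4 : 4 ≤ L.card
  y2 : 2 ≤ (gs (rm t u (rm τ j p)) \ L).card
  rich : ∀ x ∈ L, ∀ z ∈ L, x ≠ z → ∀ σ ρ : Bool, Cn S.r (rm σ x (rm ρ z (rm t u (rm τ j p)))) →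
    HasRich S.r (rm σ x (rm ρ z (rm t u (rm τ j p))))

theorem Bs.sub {u j : E} {t τ : Bool} {L : Finset E} (b : Bs S p u t j τ L) {x : E} (hx : x ∈ L) : x ∈ gs p ∧ u ≠ x ∧ j ≠ x := by
  have h1 := b.lf.sub hx
  rw [gs_rm, gs_rm] at h1
  have h2 := Finset.mem_erase.1 h1
  have h3 := Finset.mem_erase.1 h2.2
  exact ⟨h3.2, h2.1.symm, h3.1.symm⟩

/-- the triple with the base hub is connected and rich -/
theorem Bs.up (h : Cv S p) {u j : E} {t τ : Bool} {L : Finset E} (b : Bs S p u t j τ L) {x z : E} (hx : x ∈ L) (hz : z ∈ L)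
    (hxz : x ≠ z) {σ ρ : Bool} (c : Cn S.r (rm σ x (rm ρ z (rm t u (rm τ j p))))) :
    Cn S.r (rm t u (rm σ x (rm ρ z p))) ∧ HasRich S.r (rm t u (rm σ x (rm ρ z p))) := by
  obtain ⟨mx, hux, hjx⟩ := b.sub hx
  obtain ⟨mz, huz, hjz⟩ := b.sub hz
  have hn := h.hn
  have wf : (rm t u p).1 ⊆ (rm t u p).2 := wf_rm h.hp b.mu
  have e1 : rm t u (rm τ j p) = rm τ j (rm t u p) := rm_comm t τ u j p
  have hlf := b.lf
  have hR := b.rich x hx z hz hxz σ ρ c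
  rw [e1] at hlf c
  have hc : (gs (rm t u p)).card = (gs p).card - 1 := by rw [gs_rm, Finset.card_erase_of_mem b.mu]
  set Y := gs (rm τ j (rm t u p)) \ L with hY
  have hYs : Y ⊆ gs (rm τ j (rm t u p)) := Finset.sdiff_subset
  have hY2 : 2 ≤ Y.card := by rw [hY, ← e1]; exact b.y2
  have hYN : Y ⊆ gs (rm t u p) := hYs.trans (by rw [gs_rm τ]; exact Finset.erase_subset _ _)
  have wq : (rm τ j (rm t u p)).1 ⊆ (rm τ j (rm t u p)).2 := wf_rm wf (lfd_mem b.uj.symm b.mj)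
  have lY : QUB.lam S.r (rm τ j (rm t u p)) Y ≤ 1 := by rw [hY, lam_compl S.r wq hlf.sub]; exact hlf.l1
  have jY : j ∉ Y := fun hh => by
    have := hYs hh
    rw [gs_rm] at this
    exact (Finset.mem_erase.1 this).1 rfl
  have hLN : L ⊆ gs (rm t u p) \ Y := by
    intro v hv
    have h5 := hlf.sub hv
    rw [gs_rm] at h5
    refine Finset.mem_sdiff.2 ⟨Finset.mem_of_mem_erase h5, fun hh => ?_⟩
    exact (Finset.mem_sdiff.1 hh).2 hv
  have l2 : 2 ≤ QUB.lam S.r (rm t u p) Y := h.th u b.mu t Y hYN hY2 (by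
    have := Finset.card_le_card hLN
    have := b.c4
    omega)
  have xY : x ∉ Y := fun hh => (Finset.mem_sdiff.1 hh).2 hx
  have zY : z ∉ Y := fun hh => (Finset.mem_sdiff.1 hh).2 hz
  have cz : Cn S.r (rm ρ z (rm t u p)) := by
    rw [rm_comm]
    exact h.cn2 b.mu mz huz t ρ
  have cqz : Cn S.r (rm τ j (rm ρ z (rm t u p))) := by
    rw [rm_comm τ ρ]
    exact hlf.cn1 S.rk hz ρ
  have c' : Cn S.r (rm τ j (rm σ x (rm ρ z (rm t u p)))) := by
    rw [rm_comm τ σ, rm_comm τ ρ]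
    exact c
  have h1 := up_two S.rk wf (lfd_mem b.uj.symm b.mj) (lfd_mem hux.symm mx) (lfd_mem huz.symm mz) hjx hjz hxz hYN jY xY zY (by omega) (by omega) cz cqz c'
  have e2 : rm σ x (rm ρ z (rm t u p)) = rm t u (rm σ x (rm ρ z p)) := by
    rw [rm_comm ρ t, rm_comm σ t]
  rw [e2] at h1
  refine ⟨h1, hasRich_mono ?_ hR⟩
  rw [← e2, e1]
  exact (((rm_sub τ j (rm t u p)).rm ρ z).rm σ x)

/-- the closure for the first configuration -/
theorem lfd_al (h : Cv S p) {u j : E} {t τ : Bool} {L : Finset E} (b : Bs S p u t j τ L) {x y : E} (hx : x ∈ L) (hy : y ∈ L)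
    (hxy : x ≠ y) (oux : Ok S.r (rm t u (rm t x p))) (ouy : ∀ σ, Ok S.r (rm t u (rm σ y p))) (oxy : ∀ σ, Ok S.r (rm t x (rm σ y p)))
    (a1 : Cn S.r (rm t x (rm t y (rm t u (rm τ j p))))) (b1 : Cn S.r (rm t x (rm (!t) y (rm t u (rm τ j p))))) :
    ∃ T : Fm F4 E, InV S.U S.W p T ∧ ¬ EqD S.U S.W p T 0 := by
  obtain ⟨mx, hux, -⟩ := b.sub hx
  obtain ⟨my, huy, -⟩ := b.sub hy
  have k : ∀ s : Bool, Cn S.r (rm t x (rm s y (rm t u (rm τ j p)))) := by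
    intro s
    by_cases hs : s = t
    · rw [hs]; exact a1
    · have : s = !t := by cases s <;> cases t <;> simp_all
      rw [this]; exact b1
  exact rr_cv h t b.mu mx my hux huy hxy oux ouy oxy (fun s => (b.up h hx hy hxy (k s)).1) (fun s => (b.up h hx hy hxy (k s)).2)

/-- the closure for the second configuration -/
theorem lfd_al' (h : Cv S p) {u j : E} {t τ : Bool} {L : Finset E} (b : Bs S p u t j τ L) {x z w : E} (hx : x ∈ L) (hz : z ∈ L)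
    (hw : w ∈ L) (hxz : x ≠ z) (hzw : z ≠ w) (hxw : x ≠ w) (oux : Ok S.r (rm t u (rm t x p))) (ouz : Ok S.r (rm t u (rm t z p)))
    (ouw : ∀ σ, Ok S.r (rm t u (rm σ w p))) (oxz : Ok S.r (rm t x (rm t z p))) (ozw : Ok S.r (rm t z (rm t w p)))
    (oxw : Ok S.r (rm t x (rm (!t) w p)))
    (a1 : Cn S.r (rm t x (rm t z (rm t u (rm τ j p))))) (a2 : Cn S.r (rm t z (rm t w (rm t u (rm τ j p)))))
    (b1 : Cn S.r (rm t x (rm (!t) w (rm t u (rm τ j p))))) :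
    ∃ T : Fm F4 E, InV S.U S.W p T ∧ ¬ EqD S.U S.W p T 0 := by
  obtain ⟨mx, hux, -⟩ := b.sub hx
  obtain ⟨mz, huz, -⟩ := b.sub hz
  obtain ⟨mw, huw, -⟩ := b.sub hw
  obtain ⟨T, i1, i2, hne⟩ := h.two b.mu mx hux oux
  have u1 := b.up h hx hz hxz a1
  have u2 := b.up h hz hw hzw a2
  have u3 := b.up h hx hw hxw b1
  have iz := h.third b.mu mx mz hux huz hxz i1 i2 ouz oxz u1.1 u1.2
  have iw := h.third b.mu mz mw huz huw hzw i1 iz (ouw t) ozw u2.1 u2.2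
  have iw' := h.third b.mu mx mw hux huw hxw i1 i2 (ouw (!t)) oxw u3.1 u3.2
  have hin : InV S.U S.W p T := by
    cases t with
    | true => exact inV_of_rm iw iw'
    | false => exact inV_of_rm iw' iw
  refine ⟨T, hin, fun hT => ?_⟩
  obtain ⟨N, h1, h2⟩ := u1.2
  have h3 : Sub N (rm t u p) := (((rm_sub t z p).trans (rm_sub t x _)).rm t u).trans h1
  exact hne N h3 h2 (hT.mono ((rm_sub t u p).trans h3))

/-- the closure for the third configuration -/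
theorem lfd_be (h : Cv S p) {u j : E} {t τ : Bool} {L : Finset E} (b : Bs S p u t j τ L) {y w v z : E} (hy : y ∈ L) (hw : w ∈ L)
    (hv : v ∈ L) (hz : z ∈ L) (hyw : y ≠ w) (hyv : y ≠ v) (hyz : y ≠ z) (hwv : w ≠ v) (hwz : w ≠ z) (hvz : v ≠ z)
    (ouy : Ok S.r (rm t u (rm t y p))) (ouw : ∀ σ, Ok S.r (rm t u (rm σ w p))) (ouv : Ok S.r (rm t u (rm (!t) v p)))
    (ouz : Ok S.r (rm t u (rm (!t) z p))) (oyw : Ok S.r (rm t y (rm (!t) w p))) (oyv : Ok S.r (rm t y (rm (!t) v p)))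
    (oyz : Ok S.r (rm t y (rm (!t) z p))) (owv : Ok S.r (rm t w (rm (!t) v p))) (owz : Ok S.r (rm t w (rm (!t) z p)))
    (b1 : Cn S.r (rm t y (rm (!t) v (rm t u (rm τ j p))))) (b2 : Cn S.r (rm t y (rm (!t) z (rm t u (rm τ j p)))))
    (b3 : Cn S.r (rm t w (rm (!t) v (rm t u (rm τ j p))))) (b4 : Cn S.r (rm t w (rm (!t) z (rm t u (rm τ j p)))))
    (b5 : Cn S.r (rm t y (rm (!t) w (rm t u (rm τ j p))))) :
    ∃ T : Fm F4 E, InV S.U S.W p T ∧ ¬ EqD S.U S.W p T 0 := by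
  obtain ⟨my, huy, -⟩ := b.sub hy
  obtain ⟨mw, huw, -⟩ := b.sub hw
  obtain ⟨mv, huv, -⟩ := b.sub hv
  obtain ⟨mz, huz, -⟩ := b.sub hz
  have u1 := b.up h hy hv hyv b1
  have u2 := b.up h hy hz hyz b2
  have u3 := b.up h hw hv hwv b3
  have u4 := b.up h hw hz hwz b4
  have u5 := b.up h hy hw hyw b5
  have f : ∀ {a : E}, Ok S.r (rm t w (rm (!t) a p)) → Ok S.r (rm (!t) a (rm t w p)) := fun ho => by rw [rm_comm]; exact ho
  have g : ∀ {a : E}, Cn S.r (rm t u (rm t w (rm (!t) a p))) ∧ HasRich S.r (rm t u (rm t w (rm (!t) a p))) →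
      Cn S.r (rm t u (rm (!t) a (rm t w p))) ∧ HasRich S.r (rm t u (rm (!t) a (rm t w p))) := fun ho => by
    rw [rm_comm (!t) t]
    exact ho
  exact ch h t b.mu my mw mv mz huy huw huv huz hyw hyv hyz hwv hwz hvz ouy (ouw t) (ouw (!t)) ouv ouz oyw oyv oyz (f owv) (f owz)
    u5.1 u5.2 u1.1 u1.2 u2.1 u2.2 (g u3).1 (g u3).2 (g u4).1 (g u4).2

/-- **leaf theorem**: a leaf with at least four elements all of whose pairs are `Ok` -/
theorem leaf_done (h : Cv S p) {u j : E} {t τ : Bool} {L : Finset E} (b : Bs S p u t j τ L)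
    (ok1 : ∀ x ∈ L, ∀ σ : Bool, Ok S.r (rm t u (rm σ x p)))
    (ok2 : ∀ x ∈ L, ∀ z ∈ L, x ≠ z → ∀ σ : Bool, Cn S.r (rm t x (rm σ z (rm t u (rm τ j p)))) → Ok S.r (rm t x (rm σ z p))) :
    ∃ T : Fm F4 E, InV S.U S.W p T ∧ ¬ EqD S.U S.W p T 0 := by
  rcases lf_comb S.rk b.lf b.c4 t with ⟨x, hx, y, hy, hxy, a1, b1⟩ | ⟨x, hx, z, hz, w, hw, hxz, hzw, hxw, a1, a2, b1⟩ |
    ⟨y, hy, w, hw, v, hv, z, hz, n1, n2, n3, n4, n5, n6, b1, b2, b3, b4, b5⟩
  · refine lfd_al h b hx hy hxy (ok1 x hx t) (ok1 y hy) ?_ a1 b1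
    intro σ
    by_cases hs : σ = t
    · rw [hs]; exact ok2 x hx y hy hxy t a1
    · have : σ = !t := by cases σ <;> cases t <;> simp_all
      rw [this]; exact ok2 x hx y hy hxy (!t) b1
  · exact lfd_al' h b hx hz hw hxz hzw hxw (ok1 x hx t) (ok1 z hz t) (ok1 w hw) (ok2 x hx z hz hxz t a1) (ok2 z hz w hw hzw t a2)
      (ok2 x hx w hw hxw (!t) b1) a1 a2 b1
  · exact lfd_be h b hy hw hv hz n1 n2 n3 n4 n5 n6 (ok1 y hy t) (ok1 w hw) (ok1 v hv (!t)) (ok1 z hz (!t)) (ok2 y hy w hw n1 (!t) b5)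
      (ok2 y hy v hv n2 (!t) b1) (ok2 y hy z hz n3 (!t) b2) (ok2 w hw v hv n4 (!t) b3) (ok2 w hw z hz n5 (!t) b4) b1 b2 b3 b4 b5

end forms

end Pool.Agent.QU
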