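import Pool.Agent.QUO.FanE
import Pool.Agent.QUT.Conn
import Pool.Agent.QUT.CaseA

/-!
# QUT/Nlt: rich flats of corank two, richness and connectivity of the minors

`W` is a flat of corank two with five classes (`Fan r p W P`).  `fan_rich`: a minor which contracts a part of a spanning subset of `W` and keeps
an element of each class is rich.  `fan_cn2`: the minors `M / a / b \ e`, if the nullity of `W` without `e` is at most one.
-/

set_option autoImplicit false

open QUB

namespace Pool.Agent.QU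

open Pool.Agent.FRM

section

variable {E : Type} [DecidableEq E] {r : Finset E → ℤ} {p : Itv E} {W : Finset E} {P : Fin 5 → Finset E}

theorem fin5_ne : ∀ k : Fin 5, ∃ l : Fin 5, l ≠ k := by decide

theorem fin5_three : ∀ l : Fin 5, ∃ i j k : Fin 5, i ≠ j ∧ i ≠ k ∧ j ≠ k ∧ i ≠ l ∧ j ≠ l ∧ k ≠ l := by decide

theorem rk_union_card (hr : Rk r) (X Y : Finset E) : r (X ∪ Y) ≤ r X + ((Y \ X).card : ℤ) := by
  have key : ∀ Z : Finset E, r (X ∪ Z) ≤ r X + (Z.card : ℤ) := by
    intro Z
    induction Z using Finset.induction_on with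
    | empty => simp
    | insert a s ha ih =>
      have h1 : X ∪ insert a s = insert a (X ∪ s) := Finset.union_insert a X s
      have h2 := hr.unit (X ∪ s) a
      rw [h1, Finset.card_insert_of_notMem ha]
      push_cast
      linarith
  have h := key (Y \ X)
  rwa [Finset.union_sdiff_self_eq_union] at h

theorem fan_rich (hr : Rk r) (hF : Fan r p W P) {m : Itv E} {W' : Finset E} (h1 : W' ⊆ W) (h2 : r W' = r W) (hm1 : m.1 ⊆ W')
    (hm2 : W' ⊆ m.2) (hm3 : ∀ k, ∃ x ∈ P k, x ∈ m.2) : HasRich r m := by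
  classical
  choose n hnP hn2 using hm3
  have hnW : ∀ k, n k ∉ W' := fun k h => Finset.disjoint_left.1 (hF.dW k) (hnP k) (h1 h)
  have hinj : Function.Injective n := by
    intro i j hij
    by_contra hne
    exact Finset.disjoint_left.1 (hF.dP i j hne) (hnP i) (hij ▸ hnP j)
  have gq : gs ((W', W' ∪ Finset.univ.image n) : Itv E) = Finset.univ.image n := by
    ext x
    simp only [QUB.gs, Finset.mem_sdiff, Finset.mem_union, Finset.mem_image, Finset.mem_univ, true_and]
    constructor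
    · rintro ⟨h | h, h'⟩
      · exact absurd h h'
      · exact h
    · rintro ⟨k, rfl⟩
      exact ⟨Or.inr ⟨k, rfl⟩, hnW k⟩
  have hpair : ∀ i j : Fin 5, i ≠ j → r (W' ∪ {n i, n j}) = r W' + 2 := by
    intro i j hij
    have h3 := hF.pr hr h1 hij (hnP i) (hnP j)
    have h4 := hr.unit W' (n j)
    have h5 := hr.unit (insert (n j) W') (n i)
    have e : W' ∪ {n i, n j} = insert (n i) (insert (n j) W') := by
      ext w
      simp only [Finset.mem_union, Finset.mem_insert, Finset.mem_singleton]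
      tauto
    rw [e] at h3 ⊢
    omega
  refine ⟨(W', W' ∪ Finset.univ.image n), ⟨hm1, ?_⟩, Finset.subset_union_left, ?_, Or.inl ⟨?_, ?_⟩⟩
  · refine Finset.union_subset hm2 ?_
    intro x hx
    obtain ⟨k, -, rfl⟩ := Finset.mem_image.1 hx
    exact hn2 k
  · have h3 : (gs ((W', W' ∪ Finset.univ.image n) : Itv E)).card = 5 := by
      rw [gq, Finset.card_image_of_injective _ hinj, Finset.card_univ, Fintype.card_fin]
    exact h3
  · have h3 := hpair 0 1 (by decide)
    have h4 : W' ∪ {n 0, n 1} ⊆ W' ∪ Finset.univ.image n := by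
      refine Finset.union_subset_union_right ?_
      intro x hx
      rcases Finset.mem_insert.1 hx with rfl | hx
      · exact Finset.mem_image_of_mem _ (Finset.mem_univ _)
      · rw [Finset.mem_singleton.1 hx]
        exact Finset.mem_image_of_mem _ (Finset.mem_univ _)
    have h5 := hr.mono _ _ h4
    have h6 : W' ∪ Finset.univ.image n ⊆ p.2 := by
      refine Finset.union_subset (h1.trans hF.hW2) ?_
      intro x hx
      obtain ⟨k, -, rfl⟩ := Finset.mem_image.1 hx
      exact hF.hP2 k (hnP k)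
    have h7 := hr.mono _ _ h6
    have h8 := hF.rW
    show r (W' ∪ Finset.univ.image n) = r W' + 2
    omega
  · intro i hi j hj hij
    have hi' : i ∈ Finset.univ.image n := by rw [← gq]; exact hi
    have hj' : j ∈ Finset.univ.image n := by rw [← gq]; exact hj
    obtain ⟨a, -, rfl⟩ := Finset.mem_image.1 hi'
    obtain ⟨b, -, rfl⟩ := Finset.mem_image.1 hj'
    exact hpair a b fun h => hij (h ▸ rfl)

/-- an element outside `W` is in a class -/
theorem Fan.cls (hF : Fan r p W P) {x : E} (hx : x ∈ p.2) (hxW : x ∉ W) : ∃ k, x ∈ P k := by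
  rw [← hF.hU] at hx
  rcases Finset.mem_union.1 hx with h | h
  · exact absurd h hxW
  · obtain ⟨k, -, hk⟩ := Finset.mem_biUnion.1 h
    exact ⟨k, hk⟩

theorem Fan.out (hr : Rk r) (hF : Fan r p W P) {x : E} (hx : x ∈ p.2) (hxW : x ∉ W) {A : Finset E} (hA : A ⊆ W) :
    r (insert x A) = r A + 1 := by
  obtain ⟨k, hk⟩ := hF.cls hx hxW
  obtain ⟨l, hl⟩ : ∃ l : Fin 5, l ≠ k := fin5_ne k
  obtain ⟨s, hs⟩ := hF.ne l
  have h3 := hF.pr hr hA hl.symm hk hs
  have e : A ∪ {x, s} = insert s (insert x A) := by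
    ext w
    simp only [Finset.mem_union, Finset.mem_insert, Finset.mem_singleton]
    tauto
  rw [e] at h3
  have h4 := hr.unit (insert x A) s
  have h5 := hr.unit A x
  omega

/-- a separation with elements outside `W` on both sides -/
theorem fan_out (hr : Rk r) (hF : Fan r p W P) {m : Itv E} (hwf : m.1 ⊆ m.2) (hm : m.2 ⊆ p.2) (h1 : m.1 ⊆ W)
    (h2 : r (W ∩ m.2) = r W) {i j k : Fin 5} (hij : i ≠ j) (hik : i ≠ k) (hjk : j ≠ k) {x y z : E} (hx : x ∈ P i) (hy : y ∈ P j)
    (hz : z ∈ P k) (hxm : x ∈ m.2) (hym : y ∈ m.2) (hzm : z ∈ m.2) {A : Finset E} (hA : A ⊆ gs m) (hA1 : ∃ v ∈ A, v ∉ W)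
    (hA2 : ∃ v ∈ gs m \ A, v ∉ W) : 1 ≤ QUB.lam r m A := by
  -- a symmetric form
  have key : ∀ B B' : Finset E, B ⊆ gs m → B' = gs m \ B → (∃ v ∈ B', v ∉ W) →
      (∃ k l : Fin 5, k ≠ l ∧ ∃ s ∈ P k, ∃ s' ∈ P l, s ∈ B ∧ s' ∈ B) → 1 ≤ r (m.1 ∪ B) + r (m.1 ∪ B') - r m.2 - r m.1 := by
    rintro B B' hB rfl ⟨v, hv, hvW⟩ ⟨k, l, hkl, s, hs, s', hs', hsB, hs'B⟩
    have hBm : ∀ u ∈ B, u ∈ m.2 ∧ u ∉ m.1 := fun u hu => Finset.mem_sdiff.1 (hB hu)
    have hv' := Finset.mem_sdiff.1 hv
    have hv'' := Finset.mem_sdiff.1 hv'.1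
    -- contraction of the elements of `W`
    have a1 := hr.sub (m.1 ∪ B) (W ∩ m.2)
    have a2 := hr.sub (m.1 ∪ (gs m \ B)) (m.1 ∪ (W ∩ B))
    have b1 : r (m.1 ∪ (W ∩ B)) ≤ r ((m.1 ∪ B) ∩ (W ∩ m.2)) := by
      refine hr.mono _ _ ?_
      intro u hu
      have c1 := @h1 u
      have c2 := @hwf u
      have c3 := hBm u
      simp only [Finset.mem_union, Finset.mem_inter] at hu ⊢
      tauto
    have b2 : r m.1 ≤ r ((m.1 ∪ (gs m \ B)) ∩ (m.1 ∪ (W ∩ B))) := hr.mono _ _ (by
      intro u hu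
      simp only [Finset.mem_union, Finset.mem_inter]
      tauto)
    have b3 : r (W ∩ m.2 ∪ {s, s'}) ≤ r ((m.1 ∪ B) ∪ (W ∩ m.2)) := hr.mono _ _ (by
      intro u hu
      simp only [Finset.mem_union, Finset.mem_inter, Finset.mem_insert, Finset.mem_singleton] at hu ⊢
      rcases hu with hu | rfl | rfl
      · exact Or.inr hu
      · exact Or.inl (Or.inr hsB)
      · exact Or.inl (Or.inr hs'B))
    have b4 := hF.pr hr (A := W ∩ m.2) Finset.inter_subset_left hkl hs hs'
    have b5 : r (insert v (W ∩ m.2)) ≤ r ((m.1 ∪ (gs m \ B)) ∪ (m.1 ∪ (W ∩ B))) := hr.mono _ _ (by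
      intro u hu
      rcases Finset.mem_insert.1 hu with rfl | hu
      · exact Finset.mem_union_left _ (Finset.mem_union_right _ hv)
      · have c1 := Finset.mem_inter.1 hu
        by_cases c2 : u ∈ m.1
        · exact Finset.mem_union_left _ (Finset.mem_union_left _ c2)
        · by_cases c3 : u ∈ B
          · exact Finset.mem_union_right _ (Finset.mem_union_right _ (Finset.mem_inter.2 ⟨c1.1, c3⟩))
          · exact Finset.mem_union_left _ (Finset.mem_union_right _ (Finset.mem_sdiff.2 ⟨Finset.mem_sdiff.2 ⟨c1.2, c2⟩, c3⟩)))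
    have b6 := hF.out hr (hm hv''.1) hvW (A := W ∩ m.2) Finset.inter_subset_left
    have b7 := hr.mono _ _ hm
    have b8 := hF.rW
    omega
  have hAm : ∀ u ∈ A, u ∈ m.2 ∧ u ∉ m.1 := fun u hu => Finset.mem_sdiff.1 (hA hu)
  have e0 : m.2 \ A = m.1 ∪ (gs m \ A) := by
    ext u
    have c1 := hAm u
    have c2 := @hwf u
    simp only [QUB.gs, Finset.mem_sdiff, Finset.mem_union]
    tauto
  have eA : gs m \ (gs m \ A) = A := Finset.sdiff_sdiff_eq_self hA
  have hl : QUB.lam r m A = r (m.1 ∪ A) + r (m.2 \ A) - r m.2 - r m.1 := rfl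
  rw [hl, e0]
  have hout : ∀ {k : Fin 5} {u : E}, u ∈ P k → u ∈ m.2 → u ∈ gs m := fun hu hum =>
    Finset.mem_sdiff.2 ⟨hum, fun h => Finset.disjoint_left.1 (hF.dW _) hu (h1 h)⟩
  have gx := hout hx hxm
  have gy := hout hy hym
  have gz := hout hz hzm
  have two : (∃ k l : Fin 5, k ≠ l ∧ ∃ s ∈ P k, ∃ s' ∈ P l, s ∈ A ∧ s' ∈ A) ∨
      (∃ k l : Fin 5, k ≠ l ∧ ∃ s ∈ P k, ∃ s' ∈ P l, s ∈ gs m \ A ∧ s' ∈ gs m \ A) := by
    have cx : x ∈ A ∨ x ∈ gs m \ A := by
      by_cases h : x ∈ A
      · exact Or.inl h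
      · exact Or.inr (Finset.mem_sdiff.2 ⟨gx, h⟩)
    have cy : y ∈ A ∨ y ∈ gs m \ A := by
      by_cases h : y ∈ A
      · exact Or.inl h
      · exact Or.inr (Finset.mem_sdiff.2 ⟨gy, h⟩)
    have cz : z ∈ A ∨ z ∈ gs m \ A := by
      by_cases h : z ∈ A
      · exact Or.inl h
      · exact Or.inr (Finset.mem_sdiff.2 ⟨gz, h⟩)
    rcases cx with cx | cx <;> rcases cy with cy | cy
    · exact Or.inl ⟨i, j, hij, x, hx, y, hy, cx, cy⟩
    · rcases cz with cz | cz
      · exact Or.inl ⟨i, k, hik, x, hx, z, hz, cx, cz⟩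
      · exact Or.inr ⟨j, k, hjk, y, hy, z, hz, cy, cz⟩
    · rcases cz with cz | cz
      · exact Or.inl ⟨j, k, hjk, y, hy, z, hz, cy, cz⟩
      · exact Or.inr ⟨i, k, hik, x, hx, z, hz, cx, cz⟩
    · exact Or.inr ⟨i, j, hij, x, hx, y, hy, cx, cy⟩
  rcases two with h | h
  · exact key A _ hA rfl hA2 h
  · have h5 := key (gs m \ A) A Finset.sdiff_subset eA.symm hA1 h
    omega

/-- the minors `M / a / b \ e` -/
theorem fan_cn2 (hr : Rk r) (hp : p.1 ⊆ p.2) (nt : Nt r p) (hF : Fan r p W P) {a b e : E} (ha : a ∈ W \ p.1) (hb : b ∈ W \ p.1)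
    (he : e ∈ gs p) (hab : a ≠ b) (hae : a ≠ e) (hbe : b ≠ e) (hre : r (W.erase e) = r W)
    (hn : (((W \ p.1).erase e).card : ℤ) ≤ r (W.erase e) - r p.1 + 1) :
    Cn r (rm false a (rm false b (rm true e p))) := by
  have hW2 : W ⊆ p.2 := hF.hW2
  have ha' := Finset.mem_sdiff.1 ha
  have hb' := Finset.mem_sdiff.1 hb
  have he' := Finset.mem_sdiff.1 he
  have hag : a ∈ gs p := Finset.mem_sdiff.2 ⟨hW2 ha'.1, ha'.2⟩
  have hbg : b ∈ gs p := Finset.mem_sdiff.2 ⟨hW2 hb'.1, hb'.2⟩
  set m : Itv E := rm false a (rm false b (rm true e p)) with hm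
  have m1 : m.1 = insert a (insert b p.1) := rfl
  have m2 : m.2 = p.2.erase e := rfl
  have hwf : m.1 ⊆ m.2 := by
    rw [m1, m2]
    intro v hv
    rcases Finset.mem_insert.1 hv with rfl | hv
    · exact Finset.mem_erase.2 ⟨hae, hW2 ha'.1⟩
    rcases Finset.mem_insert.1 hv with rfl | hv
    · exact Finset.mem_erase.2 ⟨hbe, hW2 hb'.1⟩
    · exact Finset.mem_erase.2 ⟨fun h => he'.2 (h ▸ hv), hp hv⟩
  have h1 : m.1 ⊆ W := by
    rw [m1]
    intro v hv
    rcases Finset.mem_insert.1 hv with rfl | hv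
    · exact ha'.1
    rcases Finset.mem_insert.1 hv with rfl | hv
    · exact hb'.1
    · exact hF.h1 hv
  have e2 : W ∩ m.2 = W.erase e := by
    rw [m2]
    ext v
    have := @hW2 v
    simp only [Finset.mem_inter, Finset.mem_erase]
    tauto
  have h2 : r (W ∩ m.2) = r W := by rw [e2, hre]
  -- three classes without `e`
  obtain ⟨i, j, k, hij, hik, hjk, hi, hj, hk⟩ : ∃ i j k : Fin 5, i ≠ j ∧ i ≠ k ∧ j ≠ k ∧ (∃ x ∈ P i, x ≠ e) ∧ (∃ x ∈ P j, x ≠ e) ∧
      ∃ x ∈ P k, x ≠ e := by
    have hone : ∃ l : Fin 5, ∀ k, k ≠ l → ∃ x ∈ P k, x ≠ e := by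
      by_cases h : ∃ l, e ∈ P l
      · obtain ⟨l, hl⟩ := h
        refine ⟨l, fun k hkl => ?_⟩
        obtain ⟨x, hx⟩ := hF.ne k
        exact ⟨x, hx, fun h' => Finset.disjoint_left.1 (hF.dP k l hkl) hx (h' ▸ hl)⟩
      · refine ⟨0, fun k _ => ?_⟩
        obtain ⟨x, hx⟩ := hF.ne k
        exact ⟨x, hx, fun h' => h ⟨k, h' ▸ hx⟩⟩
    obtain ⟨l, hl⟩ := hone
    obtain ⟨i, j, k, hij, hik, hjk, hi, hj, hk⟩ : ∃ i j k : Fin 5, i ≠ j ∧ i ≠ k ∧ j ≠ k ∧ i ≠ l ∧ j ≠ l ∧ k ≠ l := by
      exact fin5_three l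
    exact ⟨i, j, k, hij, hik, hjk, hl i hi, hl j hj, hl k hk⟩
  obtain ⟨x, hx, hxe⟩ := hi
  obtain ⟨y, hy, hye⟩ := hj
  obtain ⟨z, hz, hze⟩ := hk
  -- sides inside `W`
  have side : ∀ A ⊆ gs m, A.Nonempty → A ⊆ W → 1 ≤ QUB.lam r m A := by
    intro A hA hne hAW
    have hA' : ∀ v ∈ A, v ∈ gs p ∧ v ≠ a ∧ v ≠ b ∧ v ≠ e := by
      intro v hv
      have h3 := Finset.mem_sdiff.1 (hA hv)
      rw [m1, m2] at h3
      have h4 := Finset.mem_erase.1 h3.1
      have h5 : v ≠ a ∧ v ≠ b ∧ v ∉ p.1 := by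
        refine ⟨fun h => h3.2 ?_, fun h => h3.2 ?_, fun h => h3.2 ?_⟩
        · rw [h]
          exact Finset.mem_insert_self _ _
        · rw [h]
          exact Finset.mem_insert_of_mem (Finset.mem_insert_self _ _)
        · exact Finset.mem_insert_of_mem (Finset.mem_insert_of_mem h)
      exact ⟨Finset.mem_sdiff.2 ⟨h4.2, h5.2.2⟩, h5.1, h5.2.1, h4.1⟩
    have hl : QUB.lam r m A = r (insert a (insert b p.1) ∪ A) + r (p.2.erase e \ A) - r (p.2.erase e) - r (insert a (insert b p.1)) := rfl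
    have g2 : r (insert a (insert b p.1)) = r p.1 + 2 := by
      have := nt.ins hr he hag hbg hae.symm hbe.symm hab
      omega
    have g3 : r (p.2.erase e) = r p.2 := by
      have := nt.del hr hag hbg he hab hae hbe
      omega
    -- the nullity
    have g4 : r p.1 + 2 + A.card - 1 ≤ r (insert a (insert b p.1) ∪ A) := by
      have hsub : insert a (insert b p.1) ∪ A ⊆ W.erase e := by
        intro v hv
        rcases Finset.mem_union.1 hv with hv | hv
        · rw [← e2]
          exact Finset.mem_inter.2 ⟨h1 hv, hwf hv⟩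
        · exact Finset.mem_erase.2 ⟨(hA' v hv).2.2.2, hAW hv⟩
      have h3 := rk_union_card hr (insert a (insert b p.1) ∪ A) (W.erase e)
      have h4 : (insert a (insert b p.1) ∪ A) ∪ W.erase e = W.erase e := Finset.union_eq_right.2 hsub
      have h5 : (W.erase e \ (insert a (insert b p.1) ∪ A)).card + 2 + A.card ≤ ((W \ p.1).erase e).card := by
        have h6 : (W.erase e \ (insert a (insert b p.1) ∪ A)) ∪ ({a, b} ∪ A) ⊆ (W \ p.1).erase e := by
          intro v hv
          rcases Finset.mem_union.1 hv with hv | hv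
          · have h7 := Finset.mem_sdiff.1 hv
            have h8 := Finset.mem_erase.1 h7.1
            refine Finset.mem_erase.2 ⟨h8.1, Finset.mem_sdiff.2 ⟨h8.2, fun h => h7.2 ?_⟩⟩
            exact Finset.mem_union_left _ (Finset.mem_insert_of_mem (Finset.mem_insert_of_mem h))
          · rcases Finset.mem_union.1 hv with hv | hv
            · rcases Finset.mem_insert.1 hv with rfl | hv
              · exact Finset.mem_erase.2 ⟨hae, ha⟩
              · rw [Finset.mem_singleton.1 hv]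
                exact Finset.mem_erase.2 ⟨hbe, hb⟩
            · have h7 := hA' v hv
              exact Finset.mem_erase.2 ⟨h7.2.2.2, Finset.mem_sdiff.2 ⟨hAW hv, (Finset.mem_sdiff.1 h7.1).2⟩⟩
        have h7 := Finset.card_le_card h6
        have d1 : Disjoint (W.erase e \ (insert a (insert b p.1) ∪ A)) ({a, b} ∪ A) := by
          rw [Finset.disjoint_left]
          intro v hv hv'
          refine (Finset.mem_sdiff.1 hv).2 ?_
          rcases Finset.mem_union.1 hv' with hv' | hv'
          · rcases Finset.mem_insert.1 hv' with rfl | hv'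
            · exact Finset.mem_union_left _ (Finset.mem_insert_self _ _)
            · rw [Finset.mem_singleton.1 hv']
              exact Finset.mem_union_left _ (Finset.mem_insert_of_mem (Finset.mem_insert_self _ _))
          · exact Finset.mem_union_right _ hv'
        have d2 : Disjoint ({a, b} : Finset E) A := by
          rw [Finset.disjoint_left]
          intro v hv hv'
          have h8 := hA' v hv'
          rcases Finset.mem_insert.1 hv with rfl | hv
          · exact h8.2.1 rfl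
          · exact h8.2.2.1 (Finset.mem_singleton.1 hv)
        rw [Finset.card_union_of_disjoint d1, Finset.card_union_of_disjoint d2, Finset.card_pair hab] at h7
        omega
      rw [h4] at h3
      have h6 : (W.erase e \ (insert a (insert b p.1) ∪ A)).card = (W.erase e \ (insert a (insert b p.1) ∪ A)).card := rfl
      omega
    by_cases hc : A.card = 1
    · obtain ⟨v, rfl⟩ := Finset.card_eq_one.1 hc
      have h3 := hA' v (Finset.mem_singleton_self v)
      have k1 := nt.ins hr h3.1 hag hbg h3.2.1 h3.2.2.1 hab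
      have k2 := nt.del hr h3.1 hag he h3.2.1 h3.2.2.2 hae
      have k3 := nt.del hr hag h3.1 he h3.2.1.symm hae h3.2.2.2
      have e3 : insert a (insert b p.1) ∪ {v} = insert v (insert a (insert b p.1)) := by
        ext w
        simp only [Finset.mem_union, Finset.mem_insert, Finset.mem_singleton]
        tauto
      have e4 : p.2.erase e \ {v} = (p.2.erase e).erase v := by
        ext w
        simp only [Finset.mem_sdiff, Finset.mem_erase, Finset.mem_singleton]
        tauto
      rw [hl, e3, e4]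
      omega
    · have hc2 : 2 ≤ A.card := by
        have := Finset.card_pos.2 hne
        omega
      -- `r (p.2 \ (A + e)) + |A| + 1 ≥ r p.2 + 3`
      have g5 : r p.2 + 2 ≤ r (p.2.erase e \ A) + A.card := by
        obtain ⟨A0, hA0, hA0c⟩ := Finset.exists_subset_card_eq hc2
        have k1 : insert e A0 ⊆ gs p := by
          intro v hv
          rcases Finset.mem_insert.1 hv with rfl | hv
          · exact he
          · exact (hA' v (hA0 hv)).1
        have k2 : (insert e A0).card = 3 := by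
          rw [Finset.card_insert_of_notMem (fun h => (hA' e (hA0 h)).2.2.2 rfl), hA0c]
        have k3 := nt.d3 _ k1 k2
        have k4 := rk_union_card hr (p.2.erase e \ A) (p.2 \ insert e A0)
        have e5 : p.2.erase e \ A ∪ (p.2 \ insert e A0) = p.2 \ insert e A0 := by
          refine Finset.union_eq_right.2 ?_
          intro v hv
          have h3 := Finset.mem_sdiff.1 hv
          have h4 := Finset.mem_erase.1 h3.1
          refine Finset.mem_sdiff.2 ⟨h4.2, fun h => ?_⟩
          rcases Finset.mem_insert.1 h with h | h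
          · exact h4.1 h
          · exact h3.2 (hA0 h)
        have k5 : ((p.2 \ insert e A0) \ (p.2.erase e \ A)).card ≤ A.card - 2 := by
          have h6 : (p.2 \ insert e A0) \ (p.2.erase e \ A) ⊆ A \ A0 := by
            intro v hv
            have h3 := Finset.mem_sdiff.1 hv
            have h4 := Finset.mem_sdiff.1 h3.1
            have h5 : v ∉ A0 ∧ v ≠ e := ⟨fun h => h4.2 (Finset.mem_insert_of_mem h), fun h => h4.2 (h ▸ Finset.mem_insert_self _ _)⟩
            refine Finset.mem_sdiff.2 ⟨?_, h5.1⟩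
            by_contra h
            exact h3.2 (Finset.mem_sdiff.2 ⟨Finset.mem_erase.2 ⟨h5.2, h4.1⟩, h⟩)
          have h7 := Finset.card_le_card h6
          rw [Finset.card_sdiff_of_subset hA0, hA0c] at h7
          exact h7
        rw [e5, k3] at k4
        omega
      rw [hl]
      omega
  intro A hA hne hne'
  by_cases hAW : A ⊆ W
  · exact side A hA hne hAW
  by_cases hAW' : gs m \ A ⊆ W
  · have h3 := side (gs m \ A) Finset.sdiff_subset hne' hAW'
    rw [lam_compl r hwf hA] at h3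
    exact h3
  · obtain ⟨v, hv, hvW⟩ := Finset.not_subset.1 hAW
    obtain ⟨v', hv', hvW'⟩ := Finset.not_subset.1 hAW'
    exact fan_out hr hF hwf (by rw [m2]; exact Finset.erase_subset _ _) h1 h2 hij hik hjk hx hy hz
      (by rw [m2]; exact Finset.mem_erase.2 ⟨hxe, hF.hP2 i hx⟩) (by rw [m2]; exact Finset.mem_erase.2 ⟨hye, hF.hP2 j hy⟩)
      (by rw [m2]; exact Finset.mem_erase.2 ⟨hze, hF.hP2 k hz⟩) hA ⟨v, hv, hvW⟩ ⟨v', hv', hvW'⟩

end

end Pool.Agent.QU
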