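import Pool.Agent.QUR.RgTwo
import Pool.Agent.QUL.LOne

set_option autoImplicit false

/-!
# QUT/Sq: the square lemma

`sq_del`: let `f` be deleted, `x, y, z, z'` four further elements.  If the forms of `M_f` extend to `M \ x`, `M / x`, `M \ y`, `M / z`,
`M / z'` and if `f` is rigid in the minors `M \ x / z`, `M \ x / z'`, `M \ y / z`, `M \ y / z'`, `M \ y / x`, then the forms of `M_f` extend
to `M`.  `sq_con` is the dual statement.
-/

namespace Pool.Agent.QU

variable {K E : Type} [Field K] [Fintype E] [DecidableEq E]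

private theorem sq_ef {U W : Submodule K (E → K)} (t : Bool) (f : E) (q : Itv E) (k : K) :
    EqOn U W (rm t f q) (dg (Pi.single f k)) 0 := by
  have h : EqOn U W (rm t f q) (dg (Pi.single f k)) (dg (0 : E → K)) := by
    refine dg_congr fun x hx => ?_
    rw [gs_rm] at hx
    rw [Pi.single_eq_of_ne (Finset.mem_erase.1 hx).1, Pi.zero_apply]
  rw [dg_zero] at h
  exact h

/-- gluing of two extensions over the box of `e` -/
theorem sq_glue (S : TP K E) {p : Itv E} {f e : E} {t : Bool} {T T1 T2 : Fm K E} {k : K}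
    (hT1 : InV S.U S.W (rm true e p) T1) (e1 : EqOn S.U S.W (rm t f (rm true e p)) T1 T)
    (hT2 : InV S.U S.W (rm false e p) T2) (e2 : EqOn S.U S.W (rm t f (rm false e p)) T2 T)
    (hk : EqOn S.U S.W (rm true e (rm false e p)) (T1 - T2) (dg (Pi.single f k))) :
    ∃ T' : Fm K E, InV S.U S.W p T' ∧ EqOn S.U S.W (rm t f p) T' T := by
  have hT1' : InV S.U S.W (rm true e p) (T1 - dg (Pi.single f k)) := hT1.sub (dg_inV _ _)
  have hcomm : EqOn S.U S.W (rm true e (rm false e p)) (T1 - dg (Pi.single f k)) T2 := by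
    intro c hc d hd
    have h3 := hk c hc d hd
    rw [LinearMap.sub_apply, LinearMap.sub_apply] at h3 ⊢
    rw [← h3]
    ring
  have e1' : EqOn S.U S.W (rm t f (rm true e p)) (T1 - dg (Pi.single f k)) T := by
    intro c hc d hd
    rw [LinearMap.sub_apply, LinearMap.sub_apply, e1 c hc d hd, sq_ef t f _ k c hc d hd,
      LinearMap.zero_apply, LinearMap.zero_apply, sub_zero]
  obtain ⟨T0, f1, f2⟩ := glue_rm true false e e p (T1 - dg (Pi.single f k)) T2 hcomm
  have hT0 : InV S.U S.W p T0 := inV_of_rm (hT1'.congr f1) (hT2.congr f2)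
  obtain ⟨k', hk'⟩ := eqOn_of_rm (U := S.U) (W := S.W) (x := e) (p := rm t f p) (T := T0) (T' := T)
    (by
      rw [rm_comm]
      exact (f1.mono (rm_sub t f _)).trans e1')
    (by
      rw [rm_comm]
      exact (f2.mono (rm_sub t f _)).trans e2)
  refine ⟨T0 - dg (Pi.single e k'), hT0.sub (dg_inV _ _), ?_⟩
  intro c hc d hd
  have h4 := hk' c hc d hd
  rw [LinearMap.add_apply, LinearMap.add_apply] at h4
  rw [LinearMap.sub_apply, LinearMap.sub_apply, h4, add_sub_cancel_right]

private theorem sq_van_sup (S : TP K E) {C : Finset E} {z z' : E}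
    (h : S.r (insert z C) + S.r (insert z' C) = S.r C + S.r (insert z (insert z' C))) :
    van S.U (insert z C) ⊔ van S.U (insert z' C) = van S.U C := by
  refine Submodule.eq_of_le_of_finrank_le (sup_le (van_anti (Finset.subset_insert _ _)) (van_anti (Finset.subset_insert _ _))) ?_
  have h5 := Submodule.finrank_sup_add_finrank_inf_eq (van S.U (insert z C)) (van S.U (insert z' C))
  rw [← van_union] at h5
  have e : insert z C ∪ insert z' C = insert z (insert z' C) := by
    ext y
    simp only [Finset.mem_union, Finset.mem_insert]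
    tauto
  rw [e] at h5
  have a1 := S.hU (insert z C)
  have a2 := S.hU (insert z' C)
  have a3 := S.hU (insert z (insert z' C))
  have a4 := S.hU C
  have c5 : (Module.finrank K ↥(van S.U (insert z C) ⊔ van S.U (insert z' C)) : ℤ) + Module.finrank K (van S.U (insert z (insert z' C))) =
      Module.finrank K (van S.U (insert z C)) + Module.finrank K (van S.U (insert z' C)) := by exact_mod_cast h5
  have c6 : (Module.finrank K (van S.U C) : ℤ) ≤ Module.finrank K ↥(van S.U (insert z C) ⊔ van S.U (insert z' C)) := by linarith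
  exact_mod_cast c6

/-- **the square lemma**, deletion of `f` -/
theorem sq_del (S : TP K E) {p : Itv E} {f x y z z' : E}
    (ex : Ex S true f (rm true x p)) (ex' : Ex S true f (rm false x p)) (ey : Ex S true f (rm true y p))
    (ez : Ex S true f (rm false z p)) (ez' : Ex S true f (rm false z' p))
    (gxz : Rg S true f (rm true x (rm false z p))) (gxz' : Rg S true f (rm true x (rm false z' p)))
    (gyz : Rg S true f (rm true y (rm false z p))) (gyz' : Rg S true f (rm true y (rm false z' p)))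
    (gyx : Rg S true f (rm true y (rm false x p)))
    (hzz : S.r (insert z p.1) + S.r (insert z' p.1) = S.r p.1 + S.r (insert z (insert z' p.1)))
    (hf : S.r (insert f (insert z (insert z' p.1))) = S.r (insert z (insert z' p.1)) + 1)
    (hfm : f ∈ (p.2.erase x).erase y) (hfc : S.r (((p.2.erase x).erase y).erase f) = S.r ((p.2.erase x).erase y)) :
    Ex S true f p := by
  intro T hT
  obtain ⟨X1, hX1, f1⟩ := ex T (hT.mono ((rm_sub true x p).rm true f))
  obtain ⟨X2, hX2, f2⟩ := ex' T (hT.mono ((rm_sub false x p).rm true f))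
  obtain ⟨Y1, hY1, f3⟩ := ey T (hT.mono ((rm_sub true y p).rm true f))
  obtain ⟨Z1, hZ1, f4⟩ := ez T (hT.mono ((rm_sub false z p).rm true f))
  obtain ⟨Z2, hZ2, f5⟩ := ez' T (hT.mono ((rm_sub false z' p).rm true f))
  -- the rigid squares
  have key : ∀ (a b : E) (A B : Fm K E), InV S.U S.W (rm true a p) A → EqOn S.U S.W (rm true f (rm true a p)) A T →
      InV S.U S.W (rm false b p) B → EqOn S.U S.W (rm true f (rm false b p)) B T → Rg S true f (rm true a (rm false b p)) →
      ∃ k : K, ∀ c ∈ van S.U (insert b p.1), ∀ d ∈ spt S.W (p.2.erase a), A c d - B c d = k * (c f * d f) := by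
    intro a b A B hA eA hB eB hg
    have s1 : Sub (rm true a (rm false b p)) (rm true a p) := (rm_sub false b p).rm true a
    have s2 : Sub (rm true a (rm false b p)) (rm false b p) := rm_sub true a _
    obtain ⟨k, hk⟩ := hg (A - B) ((hA.mono s1).sub (hB.mono s2)) (by
      intro c hc d hd
      have a1 := eA.mono (s1.rm true f) c hc d hd
      have a2 := eB.mono (s2.rm true f) c hc d hd
      rw [LinearMap.sub_apply, LinearMap.sub_apply, a1, a2, sub_self, LinearMap.zero_apply, LinearMap.zero_apply])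
    refine ⟨k, fun c hc d hd => ?_⟩
    have h1 := hk c hc d hd
    rw [LinearMap.sub_apply, LinearMap.sub_apply, dg_single] at h1
    exact h1
  obtain ⟨k1, h1⟩ := key x z X1 Z1 hX1 f1 hZ1 f4 gxz
  obtain ⟨k2, h2⟩ := key x z' X1 Z2 hX1 f1 hZ2 f5 gxz'
  obtain ⟨k3, h3⟩ := key y z Y1 Z1 hY1 f3 hZ1 f4 gyz
  obtain ⟨k4, h4⟩ := key y z' Y1 Z2 hY1 f3 hZ2 f5 gyz'
  obtain ⟨k5, h5⟩ := key y x Y1 X2 hY1 f3 hX2 f2 gyx
  obtain ⟨c0, hc0, hc0f⟩ := S.van_one hf
  obtain ⟨v, hv, hvf⟩ := S.spt_one hfm hfc
  have vx : v ∈ spt S.W (p.2.erase x) := spt_mono (Finset.erase_subset _ _) hv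
  have vy : v ∈ spt S.W (p.2.erase y) := spt_mono (Finset.erase_subset_erase _ (Finset.erase_subset _ _)) hv
  have c0z : c0 ∈ van S.U (insert z p.1) := van_anti (Finset.insert_subset_insert _ (Finset.subset_insert _ _)) hc0
  have c0z' : c0 ∈ van S.U (insert z' p.1) := van_anti (Finset.subset_insert _ _) hc0
  -- the scalars agree
  have hk : k1 - k3 = k2 - k4 := by
    have a1 := h1 c0 c0z v vx
    have a2 := h2 c0 c0z' v vx
    have a3 := h3 c0 c0z v vy
    have a4 := h4 c0 c0z' v vy
    rw [hc0f, hvf] at a1 a2 a3 a4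
    linear_combination a3 - a1 + a2 - a4
  -- `X1 - Y1` on `M \ x \ y`
  have hsup := sq_van_sup S hzz
  have hXY : ∀ c ∈ van S.U p.1, X1 c v - Y1 c v = (k1 - k3) * c f := by
    intro c hc
    rw [← hsup] at hc
    obtain ⟨c1, hc1, c2, hc2, rfl⟩ := Submodule.mem_sup.1 hc
    have a1 := h1 c1 hc1 v vx
    have a2 := h2 c2 hc2 v vx
    have a3 := h3 c1 hc1 v vy
    have a4 := h4 c2 hc2 v vy
    rw [hvf, mul_one] at a1 a2 a3 a4
    rw [map_add, map_add, LinearMap.add_apply, LinearMap.add_apply, Pi.add_apply]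
    linear_combination a1 - a3 + a2 - a4 - c2 f * hk
  -- `X1 - X2` on the box of `x`
  refine sq_glue S (k := k1 - k3 + k5) hX1 f1 hX2 f2 ?_
  intro c hc d hd
  have hc' : c ∈ van S.U (insert x p.1) := hc
  have hd' : d ∈ spt S.W (p.2.erase x) := hd
  have e1 : d = (d - d f • v) + d f • v := by
    rw [sub_add_cancel]
  have h6 : d - d f • v ∈ spt S.W ((p.2.erase x).erase f) := by
    refine ⟨S.W.sub_mem hd'.1 (S.W.smul_mem _ hv.1), fun w hw => ?_⟩
    by_cases hwf : w = f
    · rw [hwf, Pi.sub_apply, Pi.smul_apply, smul_eq_mul, hvf, mul_one, sub_self]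
    · have hw2 : w ∉ p.2.erase x := fun h => hw (Finset.mem_erase.2 ⟨hwf, h⟩)
      rw [Pi.sub_apply, Pi.smul_apply, hd'.2 w hw2, vx.2 w hw2, smul_zero, sub_zero]
  have h7 : X1 c (d - d f • v) = T c (d - d f • v) := by
    exact f1 c (van_anti (Finset.subset_insert _ _) hc') _ h6
  have h8 : X2 c (d - d f • v) = T c (d - d f • v) := by
    refine f2 c hc' _ ⟨h6.1, fun w hw => h6.2 w fun h => hw ?_⟩
    exact Finset.mem_erase.2 ⟨(Finset.mem_erase.1 h).1, (Finset.mem_erase.1 (Finset.mem_erase.1 h).2).2⟩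
  have h9 := hXY c (van_anti (Finset.subset_insert _ _) hc')
  have h10 := h5 c hc' v vy
  rw [hvf, mul_one] at h10
  rw [LinearMap.sub_apply, LinearMap.sub_apply, dg_single]
  conv_lhs => rw [e1]
  rw [map_add, map_add, map_smul, map_smul, smul_eq_mul, smul_eq_mul, h7, h8]
  linear_combination d f * h9 + d f * h10

theorem ex_dual (S : TP K E) {t : Bool} {f : E} {q : Itv E} (h : Ex S.dual (!t) f (QUB.dp q)) : Ex S t f q := by
  intro T hT
  have h2 : rm (!t) f (QUB.dp q) = QUB.dp (rm t f q) := by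
    have h1 : QUB.rm (!t) f (QUB.dp q) = QUB.dp (QUB.rm t f q) := by rw [QUB.rm_dp, Bool.not_not]
    exact h1
  obtain ⟨T', h3, h4⟩ := h (LinearMap.flip T) (by rw [h2]; exact inV_dual.2 hT)
  rw [h2] at h4
  exact ⟨LinearMap.flip T', inV_dual.1 h3, eqOn_dual.1 h4⟩

theorem ex_dual' (S : TP K E) {t : Bool} {f : E} {q : Itv E} (h : Ex S t f q) : Ex S.dual (!t) f (QUB.dp q) := by
  intro T hT
  have h2 : rm (!t) f (QUB.dp q) = QUB.dp (rm t f q) := by
    have h1 : QUB.rm (!t) f (QUB.dp q) = QUB.dp (QUB.rm t f q) := by rw [QUB.rm_dp, Bool.not_not]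
    exact h1
  rw [h2] at hT
  obtain ⟨T', h3, h4⟩ := h (LinearMap.flip T) (inV_dual.1 hT)
  refine ⟨LinearMap.flip T', inV_dual.2 h3, ?_⟩
  rw [h2]
  exact eqOn_dual.2 h4

/-- **the square lemma**, contraction of `f` -/
theorem sq_con (S : TP K E) {p : Itv E} {f x y z z' : E} (hf : f ∈ gs p) (hx : x ∈ gs p) (hy : y ∈ gs p)
    (hz : z ∈ gs p) (hz' : z' ∈ gs p) (hzz' : z ≠ z') (hfz : f ≠ z) (hfz' : f ≠ z') (hfx : f ≠ x) (hfy : f ≠ y)
    (ex : Ex S false f (rm false x p)) (ex' : Ex S false f (rm true x p)) (ey : Ex S false f (rm false y p))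
    (ez : Ex S false f (rm true z p)) (ez' : Ex S false f (rm true z' p))
    (gxz : Rg S false f (rm false x (rm true z p))) (gxz' : Rg S false f (rm false x (rm true z' p)))
    (gyz : Rg S false f (rm false y (rm true z p))) (gyz' : Rg S false f (rm false y (rm true z' p)))
    (gyx : Rg S false f (rm false y (rm true x p)))
    (hzz : S.r (p.2.erase z) + S.r (p.2.erase z') = S.r p.2 + S.r ((p.2.erase z).erase z'))
    (hf' : S.r (((p.2.erase z).erase z').erase f) = S.r ((p.2.erase z).erase z'))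
    (hfc : S.r (insert f (insert x (insert y p.1))) = S.r (insert x (insert y p.1)) + 1) :
    Ex S false f p := by
  have e : ∀ (s s' : Bool) (a b : E), QUB.dp (rm s a (rm s' b p)) = rm (!s) a (rm (!s') b (QUB.dp p)) := by
    intro s s' a b
    have h1 : QUB.rm (!s) a (QUB.rm (!s') b (QUB.dp p)) = QUB.dp (QUB.rm s a (QUB.rm s' b p)) := by
      rw [QUB.rm_dp, Bool.not_not, QUB.rm_dp, Bool.not_not]
    exact h1.symm
  have e' : ∀ (s : Bool) (a : E), QUB.dp (rm s a p) = rm (!s) a (QUB.dp p) := by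
    intro s a
    have h1 : QUB.rm (!s) a (QUB.dp p) = QUB.dp (QUB.rm s a p) := by
      rw [QUB.rm_dp, Bool.not_not]
    exact h1.symm
  have gz := Finset.mem_sdiff.1 hz
  have gz' := Finset.mem_sdiff.1 hz'
  have gx := Finset.mem_sdiff.1 hx
  have gy := Finset.mem_sdiff.1 hy
  have gf := Finset.mem_sdiff.1 hf
  have hr : ∀ Z, S.dual.r Z = (Z.card : ℤ) + S.r Zᶜ - S.r Finset.univ := fun Z => rfl
  have c0 : ∀ (A : Finset E), (A.card : ℤ) + Aᶜ.card = (Finset.univ : Finset E).card := fun A => by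
    exact_mod_cast Finset.card_add_card_compl A
  refine ex_dual S (sq_del S.dual (p := QUB.dp p) (x := x) (y := y) (z := z) (z' := z') ?_ ?_ ?_ ?_ ?_ ?_ ?_ ?_ ?_ ?_ ?_ ?_ ?_ ?_)
  · have h := ex_dual' S ex
    rw [e'] at h
    exact h
  · have h := ex_dual' S ex'
    rw [e'] at h
    exact h
  · have h := ex_dual' S ey
    rw [e'] at h
    exact h
  · have h := ex_dual' S ez
    rw [e'] at h
    exact h
  · have h := ex_dual' S ez'
    rw [e'] at h
    exact h
  · have h := rg_dual' S gxz
    rw [e] at h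
    exact h
  · have h := rg_dual' S gxz'
    rw [e] at h
    exact h
  · have h := rg_dual' S gyz
    rw [e] at h
    exact h
  · have h := rg_dual' S gyz'
    rw [e] at h
    exact h
  · have h := rg_dual' S gyx
    rw [e] at h
    exact h
  · have i1 : (insert z p.2ᶜ)ᶜ = p.2.erase z := by
      ext w
      simp only [Finset.mem_compl, Finset.mem_insert, Finset.mem_erase]
      tauto
    have i2 : (insert z' p.2ᶜ)ᶜ = p.2.erase z' := by
      ext w
      simp only [Finset.mem_compl, Finset.mem_insert, Finset.mem_erase]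
      tauto
    have i3 : (insert z (insert z' p.2ᶜ))ᶜ = (p.2.erase z).erase z' := by
      ext w
      simp only [Finset.mem_compl, Finset.mem_insert, Finset.mem_erase]
      tauto
    have k1 : (insert z p.2ᶜ).card = p.2ᶜ.card + 1 := Finset.card_insert_of_notMem (by simp [gz.1])
    have k2 : (insert z' p.2ᶜ).card = p.2ᶜ.card + 1 := Finset.card_insert_of_notMem (by simp [gz'.1])
    have k3 : (insert z (insert z' p.2ᶜ)).card = (insert z' p.2ᶜ).card + 1 :=
      Finset.card_insert_of_notMem (by simp [gz.1, hzz'])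
    show S.dual.r (insert z p.2ᶜ) + S.dual.r (insert z' p.2ᶜ) = S.dual.r p.2ᶜ + S.dual.r (insert z (insert z' p.2ᶜ))
    rw [hr, hr, hr, hr, i1, i2, i3, compl_compl, k1, k3, k2]
    push_cast
    linarith
  · have i3 : (insert z (insert z' p.2ᶜ))ᶜ = (p.2.erase z).erase z' := by
      ext w
      simp only [Finset.mem_compl, Finset.mem_insert, Finset.mem_erase]
      tauto
    have i4 : (insert f (insert z (insert z' p.2ᶜ)))ᶜ = ((p.2.erase z).erase z').erase f := by
      ext w
      simp only [Finset.mem_compl, Finset.mem_insert, Finset.mem_erase]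
      tauto
    have k3 : (insert f (insert z (insert z' p.2ᶜ))).card = (insert z (insert z' p.2ᶜ)).card + 1 :=
      Finset.card_insert_of_notMem (by simp [gf.1, hfz, hfz'])
    show S.dual.r (insert f (insert z (insert z' p.2ᶜ))) = S.dual.r (insert z (insert z' p.2ᶜ)) + 1
    rw [hr, hr, i3, i4, k3, hf']
    push_cast
    ring
  · show f ∈ (p.1ᶜ.erase x).erase y
    simp only [Finset.mem_erase, Finset.mem_compl]
    exact ⟨hfy, hfx, gf.2⟩
  · have i1 : ((p.1ᶜ.erase x).erase y)ᶜ = insert x (insert y p.1) := by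
      ext w
      simp only [Finset.mem_compl, Finset.mem_insert, Finset.mem_erase]
      tauto
    have i2 : (((p.1ᶜ.erase x).erase y).erase f)ᶜ = insert f (insert x (insert y p.1)) := by
      ext w
      simp only [Finset.mem_compl, Finset.mem_insert, Finset.mem_erase]
      tauto
    have k1 := Finset.card_erase_add_one (s := (p.1ᶜ.erase x).erase y) (a := f) (by
      simp only [Finset.mem_erase, Finset.mem_compl]
      exact ⟨hfy, hfx, gf.2⟩)
    show S.dual.r (((p.1ᶜ.erase x).erase y).erase f) = S.dual.r ((p.1ᶜ.erase x).erase y)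
    rw [hr, hr, i1, i2, hfc, ← k1]
    push_cast
    ring

end Pool.Agent.QU
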