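import Pool.Agent.QUT.Fone
import Pool.Agent.QUR.RgTwo
import Pool.Agent.QUR.Nd

/-!
# QUT/Tor: the torso box of a side of order at most one

`q` a connected box, `B` a side of order at most one.  `Tor r q B C a`: `C` is a subset of the other side, skew to `B`, and `a` a further
element of the other side such that `C + a` spans the other side.  Then `tb q B C a = (q.1 ∪ C, q.1 ∪ C ∪ B + a)` is a minor of `q` on
`B + a` with `lam tb S = lam q S` for all `S ⊆ B`.
-/

set_option autoImplicit false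

open QUB

namespace Pool.Agent.QU

section

variable {E : Type} [DecidableEq E] {r : Finset E → ℤ} {q : Itv E} {B C : Finset E} {a : E}

/-- data of a torso box -/
structure Tor (r : Finset E → ℤ) (q : Itv E) (B C : Finset E) (a : E) : Prop where
  hq : q.1 ⊆ q.2
  hB : B ⊆ gs q
  hC : C ⊆ gs q \ B
  ha : a ∈ gs q \ B
  haC : a ∉ C
  h1 : r (q.1 ∪ C ∪ B) = r q.2
  h2 : r (insert a (q.1 ∪ C)) = r (q.1 ∪ C) + 1
  h3 : r (insert a (q.1 ∪ C)) = r (q.1 ∪ (gs q \ B))
  h4 : r q.2 + r q.1 = r (q.1 ∪ B) + r (q.1 ∪ C)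

/-- the torso box -/
def tb (q : Itv E) (B C : Finset E) (a : E) : Itv E := (q.1 ∪ C, insert a (q.1 ∪ C ∪ B))

/-- existence of torso boxes -/
theorem tor_ex (hr : Rk r) (hq : q.1 ⊆ q.2) (hB : B ⊆ gs q) (hl0 : 1 ≤ QUB.lam r q B) (hl : QUB.lam r q B ≤ 1) :
    ∃ C a, Tor r q B C a := by
  set A := gs q \ B with hA
  have hAg : A ⊆ gs q := Finset.sdiff_subset
  have hgq : q.1 ∪ A ∪ B = q.2 := by
    ext x
    have := @hq x
    have := @hB x
    simp only [hA, QUB.gs, Finset.mem_union, Finset.mem_sdiff] at *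
    tauto
  have hsB : q.2 \ B = q.1 ∪ A := by
    ext x
    have := @hq x
    have := @hB x
    simp only [hA, QUB.gs, Finset.mem_union, Finset.mem_sdiff] at *
    tauto
  have hl1 : QUB.lam r q B = 1 := le_antisymm hl hl0
  have hl' : r (q.1 ∪ B) + r (q.1 ∪ A) - r q.2 - r q.1 = 1 := by
    have : QUB.lam r q B = r (q.1 ∪ B) + r (q.2 \ B) - r q.2 - r q.1 := rfl
    rw [hsB] at this
    rw [← this]
    exact hl1
  -- the skew subsets
  let P : Finset E → Prop := fun C => r (q.1 ∪ C ∪ B) + r q.1 = r (q.1 ∪ B) + r (q.1 ∪ C)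
  classical
  have h0 : (A.powerset.filter P).Nonempty := by
    refine ⟨∅, Finset.mem_filter.2 ⟨Finset.empty_mem_powerset _, ?_⟩⟩
    show r (q.1 ∪ ∅ ∪ B) + r q.1 = r (q.1 ∪ B) + r (q.1 ∪ ∅)
    rw [Finset.union_empty]
  obtain ⟨C, hC, hmax⟩ := Finset.exists_max_image _ Finset.card h0
  obtain ⟨hCA, hCP⟩ := Finset.mem_filter.1 hC
  have hCA' : C ⊆ A := Finset.mem_powerset.1 hCA
  have hCP' : r (q.1 ∪ C ∪ B) + r q.1 = r (q.1 ∪ B) + r (q.1 ∪ C) := hCP
  -- the steps
  have step : ∀ x ∈ A, x ∉ C → r (insert x (q.1 ∪ C)) = r (q.1 ∪ C) + 1 ∧ r (insert x (q.1 ∪ C ∪ B)) = r (q.1 ∪ C ∪ B) := by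
    intro x hx hxC
    have n1 : ¬ P (insert x C) := by
      intro h
      have := hmax (insert x C) (Finset.mem_filter.2 ⟨Finset.mem_powerset.2 (Finset.insert_subset hx hCA'), h⟩)
      rw [Finset.card_insert_of_notMem hxC] at this
      omega
    have e1 : q.1 ∪ insert x C = insert x (q.1 ∪ C) := by rw [Finset.union_insert]
    have e2 : q.1 ∪ insert x C ∪ B = insert x (q.1 ∪ C ∪ B) := by rw [e1, Finset.insert_union]
    have n2 : ¬ (r (insert x (q.1 ∪ C ∪ B)) + r q.1 = r (q.1 ∪ B) + r (insert x (q.1 ∪ C))) := by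
      intro h
      apply n1
      show r (q.1 ∪ insert x C ∪ B) + r q.1 = r (q.1 ∪ B) + r (q.1 ∪ insert x C)
      rw [e1, e2] at *
      exact h
    have m1 := hr.unit (q.1 ∪ C) x
    have m2 := hr.mono _ _ (Finset.subset_insert x (q.1 ∪ C))
    have m3 := hr.mono _ _ (Finset.subset_insert x (q.1 ∪ C ∪ B))
    have m4 := QUB.marg hr (Finset.subset_union_left (s₁ := q.1 ∪ C) (s₂ := B)) x
    constructor <;> omega
  -- A is not skew
  obtain ⟨a, ha, haC⟩ : ∃ a ∈ A, a ∉ C := by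
    by_contra hcon
    push Not at hcon
    have : C = A := Finset.Subset.antisymm hCA' hcon
    rw [this, hgq] at hCP'
    omega
  -- C ∪ B spans
  have span : ∀ Z ⊆ A, r (q.1 ∪ C ∪ B ∪ Z) = r (q.1 ∪ C ∪ B) := by
    intro Z
    induction Z using Finset.induction_on with
    | empty =>
      intro _
      rw [Finset.union_empty]
    | @insert x Z hx ih =>
      intro hZ
      have hxA := hZ (Finset.mem_insert_self x Z)
      have ih' := ih fun y hy => hZ (Finset.mem_insert_of_mem hy)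
      rw [Finset.union_insert]
      by_cases hxC : x ∈ C
      · rw [Finset.insert_eq_of_mem (Finset.mem_union_left _ (Finset.mem_union_left _ (Finset.mem_union_right _ hxC)))]
        exact ih'
      · have m1 := (step x hxA hxC).2
        have m2 := QUB.marg hr (Finset.subset_union_left (s₁ := q.1 ∪ C ∪ B) (s₂ := Z)) x
        have m3 := hr.mono _ _ (Finset.subset_insert x (q.1 ∪ C ∪ B ∪ Z))
        omega
  have hspan : r (q.1 ∪ C ∪ B) = r q.2 := by
    have h := span A (Finset.Subset.refl _)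
    have e : q.1 ∪ C ∪ B ∪ A = q.2 := by
      rw [← hgq]
      ext x
      have := @hCA' x
      simp only [Finset.mem_union]
      tauto
    rw [e] at h
    exact h.symm
  refine ⟨C, a, ⟨hq, hB, hCA', ha, haC, hspan, (step a ha haC).1, ?_, ?_⟩⟩
  · rw [(step a ha haC).1]
    show r (q.1 ∪ C) + 1 = r (q.1 ∪ A)
    omega
  · omega

namespace Tor

variable (h : Tor r q B C a)
include h

theorem aq : a ∈ q.2 ∧ a ∉ q.1 ∧ a ∉ B := by
  have h1 := Finset.mem_sdiff.1 h.ha
  have h2 := Finset.mem_sdiff.1 h1.1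
  exact ⟨h2.1, h2.2, h1.2⟩

theorem aB : a ∉ B := h.aq.2.2

theorem CB : ∀ x ∈ C, x ∈ q.2 ∧ x ∉ q.1 ∧ x ∉ B := by
  intro x hx
  have h1 := Finset.mem_sdiff.1 (h.hC hx)
  have h2 := Finset.mem_sdiff.1 h1.1
  exact ⟨h2.1, h2.2, h1.2⟩

theorem Bq : ∀ x ∈ B, x ∈ q.2 ∧ x ∉ q.1 := fun _ hx => Finset.mem_sdiff.1 (h.hB hx)

theorem wf : (tb q B C a).1 ⊆ (tb q B C a).2 :=
  fun _ hx => Finset.mem_insert_of_mem (Finset.mem_union_left _ hx)

theorem sub : Sub (tb q B C a) q := by
  refine ⟨Finset.subset_union_left, ?_⟩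
  refine Finset.insert_subset h.aq.1 (Finset.union_subset (Finset.union_subset h.hq fun x hx => (h.CB x hx).1) fun x hx => (h.Bq x hx).1)

theorem gs_eq : gs (tb q B C a) = insert a B := by
  have h1 := h.aq
  have h2 := h.haC
  ext x
  have h3 := h.CB x
  have h4 := h.Bq x
  by_cases hxa : x = a
  · rw [hxa]
    simp only [tb, QUB.gs, Finset.mem_sdiff, Finset.mem_insert, Finset.mem_union]
    tauto
  · simp only [tb, QUB.gs, Finset.mem_sdiff, Finset.mem_insert, Finset.mem_union]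
    tauto

theorem r2 (hr : Rk r) : r (tb q B C a).2 = r q.2 := by
  have h1 := hr.mono _ _ (Finset.subset_insert a (q.1 ∪ C ∪ B))
  have h2 := hr.mono _ _ h.sub.2
  have h3 := h.h1
  have h4 : (tb q B C a).2 = insert a (q.1 ∪ C ∪ B) := rfl
  rw [h4] at h2 ⊢
  omega

/-- `C` is skew to the subsets of `B` -/
theorem skew (hr : Rk r) {Z : Finset E} (hZ : Z ⊆ B) : r (q.1 ∪ C ∪ Z) + r q.1 = r (q.1 ∪ Z) + r (q.1 ∪ C) := by
  have h1 := hr.sub (q.1 ∪ Z) (q.1 ∪ C)
  have h2 := hr.sub (q.1 ∪ C ∪ Z) (q.1 ∪ B)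
  have e1 : (q.1 ∪ Z) ∪ (q.1 ∪ C) = q.1 ∪ C ∪ Z := by
    ext x
    simp only [Finset.mem_union]
    tauto
  have e2 : (q.1 ∪ Z) ∩ (q.1 ∪ C) = q.1 := by
    ext x
    have h3 := h.CB x
    have h4 := @hZ x
    simp only [Finset.mem_union, Finset.mem_inter]
    tauto
  have e3 : (q.1 ∪ C ∪ Z) ∪ (q.1 ∪ B) = q.1 ∪ C ∪ B := by
    ext x
    have h4 := @hZ x
    simp only [Finset.mem_union]
    tauto
  have e4 : (q.1 ∪ C ∪ Z) ∩ (q.1 ∪ B) = q.1 ∪ Z := by
    ext x
    have h3 := h.CB x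
    have h4 := @hZ x
    simp only [Finset.mem_union, Finset.mem_inter]
    tauto
  rw [e1, e2] at h1
  rw [e3, e4, h.h1] at h2
  have h5 := h.h4
  omega

/-- `C + a` spans the other side -/
theorem spn (hr : Rk r) {Z : Finset E} (hZ : Z ⊆ B) : r (insert a (q.1 ∪ C ∪ Z)) = r (q.1 ∪ (gs q \ B) ∪ Z) := by
  have m1 : insert a (q.1 ∪ C) ⊆ q.1 ∪ (gs q \ B) := by
    refine Finset.insert_subset (Finset.mem_union_right _ h.ha) (Finset.union_subset Finset.subset_union_left ?_)
    exact h.hC.trans Finset.subset_union_right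
  have h1 := hr.sub (insert a (q.1 ∪ C ∪ Z)) (q.1 ∪ (gs q \ B))
  have e1 : insert a (q.1 ∪ C ∪ Z) ∪ (q.1 ∪ (gs q \ B)) = q.1 ∪ (gs q \ B) ∪ Z := by
    ext x
    have h3 := @m1 x
    simp only [Finset.mem_union, Finset.mem_insert] at *
    tauto
  have m2 : insert a (q.1 ∪ C) ⊆ insert a (q.1 ∪ C ∪ Z) ∩ (q.1 ∪ (gs q \ B)) := by
    intro x hx
    refine Finset.mem_inter.2 ⟨?_, m1 hx⟩
    rcases Finset.mem_insert.1 hx with h3 | h3
    · exact Finset.mem_insert.2 (Or.inl h3)
    · exact Finset.mem_insert_of_mem (Finset.mem_union_left _ h3)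
  have h2 := hr.mono _ _ m2
  have m3 : insert a (q.1 ∪ C ∪ Z) ⊆ q.1 ∪ (gs q \ B) ∪ Z := by
    intro x hx
    rcases Finset.mem_insert.1 hx with h3 | h3
    · exact Finset.mem_union_left _ (m1 (Finset.mem_insert.2 (Or.inl h3)))
    · rcases Finset.mem_union.1 h3 with h4 | h4
      · exact Finset.mem_union_left _ (m1 (Finset.mem_insert_of_mem h4))
      · exact Finset.mem_union_right _ h4
  have h3 := hr.mono _ _ m3
  rw [e1] at h1
  have h5 := h.h3
  omega

theorem lam_eq (hr : Rk r) {Z : Finset E} (hZ : Z ⊆ B) : QUB.lam r (tb q B C a) Z = QUB.lam r q Z := by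
  have h1 := h.skew hr hZ
  have h2 := h.spn hr (Finset.sdiff_subset : B \ Z ⊆ B)
  have e1 : (tb q B C a).2 \ Z = insert a (q.1 ∪ C ∪ (B \ Z)) := by
    have h5 := h.aq
    ext x
    have h3 := h.CB x
    have h4 := @hZ x
    have h6 := h.Bq x
    by_cases hxa : x = a
    · rw [hxa] at *
      simp only [tb, Finset.mem_sdiff, Finset.mem_insert, Finset.mem_union]
      tauto
    · simp only [tb, Finset.mem_sdiff, Finset.mem_insert, Finset.mem_union]
      tauto
  have e2 : q.2 \ Z = q.1 ∪ (gs q \ B) ∪ (B \ Z) := by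
    ext x
    have h3 := @h.hq x
    have h4 := @hZ x
    have h6 := h.Bq x
    simp only [QUB.gs, Finset.mem_sdiff, Finset.mem_union]
    tauto
  have e3 := h.r2 hr
  unfold QUB.lam
  rw [e1, e2, e3, h2]
  show r (q.1 ∪ C ∪ Z) + _ - r q.2 - r (q.1 ∪ C) = _
  omega

/-- the complement of the torso element -/
theorem compl_B {Z : Finset E} (hZ : Z ⊆ B) : gs (tb q B C a) \ Z = insert a (B \ Z) := by
  rw [h.gs_eq]
  ext x
  have h3 := h.aB
  have h4 := @hZ x
  by_cases hxa : x = a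
  · rw [hxa] at *
    simp only [Finset.mem_sdiff, Finset.mem_insert]
    tauto
  · simp only [Finset.mem_sdiff, Finset.mem_insert]
    tauto

theorem cn' (hr : Rk r) (hc : ∀ Z ⊆ B, Z.Nonempty → 1 ≤ QUB.lam r q Z) : Cn r (tb q B C a) := by
  have key : ∀ Z ⊆ B, Z.Nonempty → 1 ≤ QUB.lam r (tb q B C a) Z := by
    intro Z hZ hne
    rw [h.lam_eq hr hZ]
    exact hc Z hZ hne
  intro A' hA' hne hne'
  by_cases haA : a ∈ A'
  · have h1 : gs (tb q B C a) \ A' ⊆ B := by
      intro x hx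
      have h2 := Finset.mem_sdiff.1 hx
      rw [h.gs_eq] at h2
      rcases Finset.mem_insert.1 h2.1 with h3 | h3
      · exact absurd (h3 ▸ haA) h2.2
      · exact h3
    have h2 := key _ h1 hne'
    rwa [lam_compl r h.wf hA'] at h2
  · refine key A' ?_ hne
    intro x hx
    have h1 := hA' hx
    rw [h.gs_eq] at h1
    rcases Finset.mem_insert.1 h1 with h3 | h3
    · exact absurd (h3 ▸ hx) haA
    · exact h3

theorem cn (hr : Rk r) (hc : Cn r q) : Cn r (tb q B C a) :=
  h.cn' hr fun Z hZ hne =>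
    hc Z (hZ.trans h.hB) hne ⟨a, Finset.mem_sdiff.2 ⟨(Finset.mem_sdiff.1 h.ha).1, fun h' => h.aB (hZ h')⟩⟩

/-- rank of a subset of `B` in the torso box -/
theorem rk_B (hr : Rk r) {Z : Finset E} (hZ : Z ⊆ B) : r ((tb q B C a).1 ∪ Z) - r (tb q B C a).1 = r (q.1 ∪ Z) - r q.1 := by
  have h1 := h.skew hr hZ
  show r (q.1 ∪ C ∪ Z) - r (q.1 ∪ C) = _
  omega

/-- rank of a set with `a` in the torso box -/
theorem rk_a (hr : Rk r) {Z : Finset E} (hZ : Z ⊆ B) :
    r (insert a ((tb q B C a).1 ∪ Z)) - r (tb q B C a).1 = r (q.1 ∪ (gs q \ B) ∪ Z) - r (q.1 ∪ (gs q \ B)) + 1 := by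
  have h1 := h.spn hr hZ
  have h2 := h.h2
  have h3 := h.h3
  show r (insert a (q.1 ∪ C ∪ Z)) - r (q.1 ∪ C) = _
  omega

theorem th3 (hr : Rk r) (hmin : ∀ Z ⊆ B, Z ≠ B → 2 ≤ Z.card → 2 ≤ QUB.lam r q Z) : Th3 r (tb q B C a) := by
  have key : ∀ Z ⊆ B, 2 ≤ Z.card → 2 ≤ (gs (tb q B C a) \ Z).card → 2 ≤ QUB.lam r (tb q B C a) Z := by
    intro Z hZ h2 h2'
    rw [h.lam_eq hr hZ]
    refine hmin Z hZ ?_ h2
    rintro rfl
    rw [h.compl_B (Finset.Subset.refl _), Finset.sdiff_self, Finset.card_insert_of_notMem (Finset.notMem_empty a), Finset.card_empty] at h2'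
    omega
  intro A' hA' h2 h2'
  have hA'' : A' ⊆ gs (tb q B C a) := hA'
  by_cases haA : a ∈ A'
  · have h1 : gs (tb q B C a) \ A' ⊆ B := by
      intro x hx
      have h2 := Finset.mem_sdiff.1 hx
      rw [h.gs_eq] at h2
      rcases Finset.mem_insert.1 h2.1 with h3 | h3
      · exact absurd (h3 ▸ haA) h2.2
      · exact h3
    have h3 := key _ h1 h2' (by
      rw [Finset.sdiff_sdiff_eq_self hA'']
      exact h2)
    rw [lam_compl r h.wf hA''] at h3
    exact h3
  · refine key A' ?_ h2 h2'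
    intro x hx
    have h1 := hA'' hx
    rw [h.gs_eq] at h1
    rcases Finset.mem_insert.1 h1 with h3 | h3
    · exact absurd (h3 ▸ hx) haA
    · exact h3

/-- no element of `B` is a coloop of `B`, and none is in the closure of the other side -/
theorem steps (hr : Rk r) (h3 : Th3 r (tb q B C a)) (hB3 : 3 ≤ B.card) {f : E} (hf : f ∈ B) :
    r ((q.1 ∪ B).erase f) = r (q.1 ∪ B) ∧ r (insert f (q.1 ∪ (gs q \ B))) = r (q.1 ∪ (gs q \ B)) + 1 := by
  have haf : a ≠ f := fun h' => h.aB (h' ▸ hf)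
  have e0 : ({a, f} : Finset E) ⊆ gs (tb q B C a) := by
    rw [h.gs_eq]
    intro x hx
    rw [Finset.mem_insert, Finset.mem_singleton] at hx
    rcases hx with rfl | rfl
    · exact Finset.mem_insert_self _ _
    · exact Finset.mem_insert_of_mem hf
  have e1 : gs (tb q B C a) \ {a, f} = B.erase f := by
    rw [h.gs_eq]
    ext x
    have h4 := h.aB
    by_cases hxa : x = a
    · rw [hxa]
      simp only [Finset.mem_sdiff, Finset.mem_insert, Finset.mem_singleton, Finset.mem_erase]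
      tauto
    · simp only [Finset.mem_sdiff, Finset.mem_insert, Finset.mem_singleton, Finset.mem_erase]
      tauto
  have h5 := h3 {a, f} e0 (by rw [Finset.card_pair haf]) (by
    rw [e1, Finset.card_erase_of_mem hf]
    omega)
  have h6 : r ((q.1 ∪ C) ∪ {a, f}) + r ((tb q B C a).2 \ {a, f}) - r (tb q B C a).2 - r (q.1 ∪ C) ≥ 2 := h5
  have e2 : (q.1 ∪ C) ∪ {a, f} = insert f (insert a (q.1 ∪ C)) := by
    ext x
    simp only [Finset.mem_union, Finset.mem_insert, Finset.mem_singleton]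
    tauto
  have e3 : (tb q B C a).2 \ {a, f} = q.1 ∪ C ∪ (B.erase f) := by
    have h7 := h.aq
    have h8 := h.haC
    have h9 := h.Bq f hf
    have h10 : f ∉ C := fun h' => (h.CB f h').2.2 hf
    ext x
    have h4 := h.CB x
    have h11 := h.Bq x
    by_cases hxa : x = a
    · rw [hxa] at *
      simp only [tb, Finset.mem_sdiff, Finset.mem_insert, Finset.mem_singleton, Finset.mem_union, Finset.mem_erase]
      tauto
    · by_cases hxf : x = f
      · rw [hxf] at *
        simp only [tb, Finset.mem_sdiff, Finset.mem_insert, Finset.mem_singleton, Finset.mem_union, Finset.mem_erase]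
        tauto
      · simp only [tb, Finset.mem_sdiff, Finset.mem_insert, Finset.mem_singleton, Finset.mem_union, Finset.mem_erase]
        tauto
  rw [e2, e3, h.r2 hr] at h6
  have m1 := hr.unit (insert a (q.1 ∪ C)) f
  have m2 := hr.unit (q.1 ∪ C) a
  have m3 : r (q.1 ∪ C ∪ (B.erase f)) ≤ r q.2 := by
    have h7 := hr.mono _ _ (Finset.union_subset_union_right (s := q.1 ∪ C) (Finset.erase_subset f B))
    rw [h.h1] at h7
    exact h7
  have m4 := h.skew hr (Finset.erase_subset f B)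
  have m5 := h.h4
  constructor
  · have e4 : (q.1 ∪ B).erase f = q.1 ∪ B.erase f := by
      ext x
      have h9 := h.Bq f hf
      by_cases hxf : x = f
      · rw [hxf] at *
        simp only [Finset.mem_union, Finset.mem_erase]
        tauto
      · simp only [Finset.mem_union, Finset.mem_erase]
        tauto
    rw [e4]
    have m6 := hr.mono _ _ (Finset.union_subset_union_right (s := q.1) (Finset.erase_subset f B))
    omega
  · have m6 := h.h3
    have m7 : insert f (insert a (q.1 ∪ C)) ⊆ insert f (q.1 ∪ (gs q \ B)) := by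
      refine Finset.insert_subset_insert _ (Finset.insert_subset (Finset.mem_union_right _ h.ha) ?_)
      exact Finset.union_subset Finset.subset_union_left (h.hC.trans Finset.subset_union_right)
    have m8 := hr.mono _ _ m7
    have m9 := hr.unit (q.1 ∪ (gs q \ B)) f
    omega

end Tor

end

section

variable {K E : Type} [Field K] [Fintype E] [DecidableEq E]

/-- rigid in the torso box: rigid in `q` -/
theorem tor_rg (S : TP K E) {q : Itv E} {B C : Finset E} {a : E} (h : Tor S.r q B C a) (hc : Cn S.r q) (h3 : Th3 S.r (tb q B C a))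
    (hB3 : 3 ≤ B.card) {f : E} (hf : f ∈ B) {t : Bool} (hg : Rg S t f (tb q B C a)) : Rg S t f q := by
  have hr : Rk S.r := S.rk
  have hX : gs q \ B ⊆ gs q := Finset.sdiff_subset
  have hfX : f ∉ gs q \ B := fun h' => (Finset.mem_sdiff.1 h').2 hf
  have e1 : q.2 \ (gs q \ B) = q.1 ∪ B := by
    ext x
    have h1 := @h.hq x
    have h2 := h.Bq x
    simp only [QUB.gs, Finset.mem_sdiff, Finset.mem_union]
    tauto
  have hst := h.steps hr h3 hB3 hf
  have hft : f ∈ gs (tb q B C a) := by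
    rw [h.gs_eq]
    exact Finset.mem_insert_of_mem hf
  have hcn := cn_step hr (h.cn hr hc) hft (by
    rw [h.gs_eq]
    exact ⟨a, Finset.mem_erase.2 ⟨fun h' => h.aB (h' ▸ hf), Finset.mem_insert_self _ _⟩⟩)
  have hft' := Finset.mem_sdiff.1 hft
  cases t
  · refine rg_two_con0 S h.hq hX (h.hB hf) hfX hst.2 h.sub hft'.2 ?_ ?_ hcn.2 hg
    · rw [e1]
      intro x hx
      rcases Finset.mem_union.1 hx with h1 | h1
      · exact Finset.mem_insert_of_mem (Finset.mem_union_left _ (Finset.mem_union_left _ h1))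
      · exact Finset.mem_insert_of_mem (Finset.mem_union_right _ h1)
    · have h5 := h.r2 hr
      have h6 : insert a (q.1 ∪ C) ⊆ (tb q B C a).2 ∩ (q.1 ∪ (gs q \ B)) := by
        intro x hx
        rcases Finset.mem_insert.1 hx with h1 | h1
        · rw [h1]
          exact Finset.mem_inter.2 ⟨Finset.mem_insert_self _ _, Finset.mem_union_right _ h.ha⟩
        · refine Finset.mem_inter.2 ⟨Finset.mem_insert_of_mem (Finset.mem_union_left _ h1), ?_⟩
          rcases Finset.mem_union.1 h1 with h2 | h2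
          · exact Finset.mem_union_left _ h2
          · exact Finset.mem_union_right _ (h.hC h2)
      have h7 := hr.mono _ _ h6
      have h8 := h.h3
      omega
  · refine rg_two_del0 S h.hq hX (h.hB hf) hfX (by rw [e1]; exact hst.1) h.sub hft'.1 ?_ hcn.1 hg
    rw [e1]
    show S.r (q.1 ∪ C) + S.r (q.1 ∪ B) ≤ S.r ((q.1 ∪ C) ∪ (q.1 ∪ B)) + S.r q.1
    have e2 : (q.1 ∪ C) ∪ (q.1 ∪ B) = q.1 ∪ C ∪ B := by
      ext x
      simp only [Finset.mem_union]
      tauto
    have h5 := h.h1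
    have h6 := h.h4
    rw [e2]
    omega

end

end Pool.Agent.QU
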